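import Mathlib

/-! Abbreviations shared by the modules on connected branches of periodic orbits. -/

namespace Pool.Agent.Helper24.CB

/-- real Euclidean space -/
abbrev En (n : ℕ) : Type := EuclideanSpace ℝ (Fin n)

/-- complex Euclidean space -/
abbrev Cm (m : ℕ) : Type := EuclideanSpace ℂ (Fin m)

end Pool.Agent.Helper24.CB
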