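import Mathlib
import Pool.Agent.Helper24.CB.Base

set_option autoImplicit false

/-!
Equivariant smooth approximation (module CB-A of the connected branches plan for MP_07f5e0_an).
-/

open Set Metric Topology
open scoped Manifold ContDiff InnerProductSpace

namespace Pool.Agent.Helper24.CB

/-- Uniform smooth approximation of a continuous function. -/
theorem h88_smooth_approx {E V : Type} [NormedAddCommGroup E] [NormedSpace ℝ E]
    [FiniteDimensional ℝ E] [NormedAddCommGroup V] [NormedSpace ℝ V]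
    (f : C(E, V)) (δ : ℝ) (hδ : 0 < δ) :
    ∃ g : E → V, ContDiff ℝ ∞ g ∧ ∀ x, ‖g x - f x‖ ≤ δ := by
  have h := exists_contMDiffMap_forall_mem_convex_of_local_const (n := (⊤ : ℕ∞)) 𝓘(ℝ, E)
    (M := E) (F := V) (t := fun x => closedBall (f x) δ) (fun x => convex_closedBall _ _)
    (fun x => ⟨f x, by
      have h1 : ∀ᶠ y in 𝓝 x, dist (f y) (f x) < δ :=
        (f.continuous.tendsto x).eventually (ball_mem_nhds _ hδ)
      filter_upwards [h1] with y hy
      rw [mem_closedBall, dist_comm]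
      exact hy.le⟩)
  obtain ⟨g, hg⟩ := h
  refine ⟨g, contMDiff_iff_contDiff.mp g.contMDiff, fun x => ?_⟩
  have := hg x
  rwa [mem_closedBall, dist_eq_norm] at this

/-- The invariants of the circle action: `z z*`. -/
noncomputable def h88_inv {m : ℕ} {P : Type} (x : P × Cm m) : P × (Fin m → Fin m → ℂ) :=
  (x.1, fun i j => x.2 i * star (x.2 j))

theorem h88_inv_contDiff {m : ℕ} {P : Type} [NormedAddCommGroup P] [NormedSpace ℝ P] :
    ContDiff ℝ ∞ (h88_inv : P × Cm m → P × (Fin m → Fin m → ℂ)) := by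
  unfold h88_inv
  apply ContDiff.prodMk contDiff_fst
  rw [contDiff_pi]
  intro i
  rw [contDiff_pi]
  intro j
  have h1 : ∀ k : Fin m, ContDiff ℝ ∞ (fun x : P × Cm m => x.2 k) := by
    intro k
    have h2 : ContDiff ℝ ∞ (fun z : Cm m => z k) :=
      ((EuclideanSpace.proj k : Cm m →L[ℂ] ℂ).restrictScalars ℝ).contDiff
    exact h2.comp contDiff_snd
  apply (h1 i).mul
  exact (Complex.conjCLE : ℂ →L[ℝ] ℂ).contDiff.comp (h1 j)

theorem h88_inv_smul {m : ℕ} {P : Type} (p : P) (z : Cm m) (c : ℂ) (hc : ‖c‖ = 1) :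
    h88_inv (p, c • z) = h88_inv (p, z) := by
  unfold h88_inv
  congr 1
  funext i j
  have h1 : c * star c = 1 := by
    have := Complex.mul_conj c
    rw [Complex.normSq_eq_norm_sq, hc] at this
    simpa using this
  simp only [PiLp.smul_apply, smul_eq_mul, star_mul']
  calc c * z i * (star c * star (z j)) = (c * star c) * (z i * star (z j)) := by ring
    _ = _ := by rw [h1, one_mul]

/-- On the sphere the invariants separate the orbits. -/
theorem h88_inv_sep {m : ℕ} (z w : Cm m) (hz : ‖z‖ = 1)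
    (h : ∀ i j, z i * star (z j) = w i * star (w j)) : ∃ c : ℂ, ‖c‖ = 1 ∧ w = c • z := by
  have hz0 : z ≠ 0 := by
    intro h0
    rw [h0, norm_zero] at hz
    exact zero_ne_one hz
  obtain ⟨j, hj⟩ : ∃ j, z j ≠ 0 := by
    by_contra hcon
    push Not at hcon
    exact hz0 (by ext j; simpa using hcon j)
  have hsq : ∀ i, ‖z i‖ = ‖w i‖ := by
    intro i
    have h1 := congrArg norm (h i i)
    rw [norm_mul, norm_mul, norm_star, norm_star] at h1
    exact (mul_self_inj (norm_nonneg _) (norm_nonneg _)).mp h1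
  have hwj : w j ≠ 0 := by
    rw [← norm_ne_zero_iff, ← hsq j, norm_ne_zero_iff]
    exact hj
  have hswj : star (w j) ≠ 0 := star_ne_zero.mpr hwj
  refine ⟨star (z j) / star (w j), ?_, ?_⟩
  · rw [norm_div, norm_star, norm_star, hsq j, div_self]
    exact norm_ne_zero_iff.mpr hwj
  · ext i
    simp only [PiLp.smul_apply, smul_eq_mul]
    have h1 := h i j
    field_simp
    linear_combination -h1

/-- Smooth invariant approximation of an invariant function. -/
theorem h88_inv_approx {m : ℕ} {P V : Type} [NormedAddCommGroup P] [NormedSpace ℝ P]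
    [FiniteDimensional ℝ P] [NormedAddCommGroup V] [NormedSpace ℝ V] [FiniteDimensional ℝ V]
    (K : Set P) (hK : IsCompact K) (F0 : P × Cm m → V)
    (h0 : ContinuousOn F0 (K ×ˢ sphere 0 1))
    (e0 : ∀ p ∈ K, ∀ z ∈ sphere (0 : Cm m) 1, ∀ c : ℂ, ‖c‖ = 1 → F0 (p, c • z) = F0 (p, z))
    (δ : ℝ) (hδ : 0 < δ) :
    ∃ (G0 : P × Cm m → V), ContDiff ℝ ∞ G0 ∧
      (∀ p z (c : ℂ), ‖c‖ = 1 → G0 (p, c • z) = G0 (p, z)) ∧
      (∀ p ∈ K, ∀ z ∈ sphere (0 : Cm m) 1, ‖G0 (p, z) - F0 (p, z)‖ ≤ δ) := by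
  set S : Set (P × Cm m) := K ×ˢ sphere 0 1 with hS
  have hSc : IsCompact S := hK.prod (isCompact_sphere _ _)
  have hinvc : Continuous (h88_inv : P × Cm m → P × (Fin m → Fin m → ℂ)) :=
    h88_inv_contDiff.continuous
  set Y : Set (P × (Fin m → Fin m → ℂ)) := h88_inv '' S with hY
  have hYc : IsCompact Y := hSc.image hinvc
  have : CompactSpace S := isCompact_iff_compactSpace.mp hSc
  let φ : C(S, Y) := ⟨fun x => ⟨h88_inv x.1, mem_image_of_mem _ x.2⟩, by
    exact (hinvc.comp continuous_subtype_val).subtype_mk _⟩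
  have hφ : IsQuotientMap φ := by
    apply IsClosedMap.isQuotientMap φ.continuous.isClosedMap φ.continuous
    rintro ⟨y, x, hx, rfl⟩
    exact ⟨⟨x, hx⟩, rfl⟩
  let f : C(S, V) := ⟨fun x => F0 x.1, continuousOn_iff_continuous_domRestrict.mp h0⟩
  have hfac : Function.FactorsThrough f φ := by
    rintro ⟨⟨p, z⟩, hx⟩ ⟨⟨q, w⟩, hy⟩ hxy
    have h1 : h88_inv (p, z) = h88_inv (q, w) := congrArg Subtype.val hxy
    have h2 : p = q := congrArg Prod.fst h1
    subst h2
    have h3 : ∀ i j, z i * star (z j) = w i * star (w j) := by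
      intro i j
      exact congrFun (congrFun (congrArg Prod.snd h1) i) j
    rw [hS, mem_prod] at hx
    obtain ⟨c, hc, hw⟩ := h88_inv_sep z w (by simpa using hx.2) h3
    change F0 (p, z) = F0 (p, w)
    rw [hw, e0 p hx.1 z hx.2 c hc]
  let fb : C(Y, V) := hφ.lift f hfac
  have : TietzeExtension V := TietzeExtension.of_tvs ℝ
  obtain ⟨g, hg⟩ := fb.exists_restrict_eq hYc.isClosed
  obtain ⟨g', hg', hgd⟩ := h88_smooth_approx g δ hδ
  refine ⟨fun x => g' (h88_inv x), hg'.comp h88_inv_contDiff, ?_, ?_⟩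
  · intro p z c hc
    simp only
    rw [h88_inv_smul p z c hc]
  · intro p hp z hz
    have hx : (p, z) ∈ S := ⟨hp, hz⟩
    have h1 : g (h88_inv (p, z)) = F0 (p, z) := by
      have h2 : g (h88_inv (p, z)) = fb (φ ⟨(p, z), hx⟩) := by
        rw [← hg]
        rfl
      rw [h2]
      have h3 := hφ.lift_comp f hfac
      exact congrArg (fun k : C(S, V) => k ⟨(p, z), hx⟩) h3
    rw [← h1]
    exact hgd _

/-- Task A -/
theorem equivariant_approx {m : ℕ} {P V : Type} [NormedAddCommGroup P] [NormedSpace ℝ P]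
    [FiniteDimensional ℝ P] [NormedAddCommGroup V] [NormedSpace ℝ V] [FiniteDimensional ℝ V]
    (K : Set P) (hK : IsCompact K) (F0 : P × Cm m → V) (F1 : P × Cm m → Cm m)
    (h0 : ContinuousOn F0 (K ×ˢ sphere 0 1)) (h1 : ContinuousOn F1 (K ×ˢ sphere 0 1))
    (e0 : ∀ p ∈ K, ∀ z ∈ sphere (0 : Cm m) 1, ∀ c : ℂ, ‖c‖ = 1 → F0 (p, c • z) = F0 (p, z))
    (e1 : ∀ p ∈ K, ∀ z ∈ sphere (0 : Cm m) 1, ∀ c : ℂ, ‖c‖ = 1 → F1 (p, c • z) = c • F1 (p, z))
    (δ : ℝ) (hδ : 0 < δ) :
    ∃ (G0 : P × Cm m → V) (G1 : P × Cm m → Cm m), ContDiff ℝ ∞ G0 ∧ ContDiff ℝ ∞ G1 ∧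
      (∀ p z (c : ℂ), ‖c‖ = 1 → G0 (p, c • z) = G0 (p, z)) ∧
      (∀ p z (c : ℂ), ‖c‖ = 1 → G1 (p, c • z) = c • G1 (p, z)) ∧
      (∀ p ∈ K, ∀ z ∈ sphere (0 : Cm m) 1, ‖G0 (p, z) - F0 (p, z)‖ ≤ δ) ∧
      (∀ p ∈ K, ∀ z ∈ sphere (0 : Cm m) 1, ‖G1 (p, z) - F1 (p, z)‖ ≤ δ) := by
  obtain ⟨G0, hG0, hG0i, hG0a⟩ := h88_inv_approx K hK F0 h0 e0 δ hδ
  have hδ' : 0 < δ / (m + 1) := by positivity
  have hproj : ∀ k : Fin m, ContDiff ℝ ∞ (fun x : P × Cm m => x.2 k) := by
    intro k
    have h2 : ContDiff ℝ ∞ (fun z : Cm m => z k) :=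
      ((EuclideanSpace.proj k : Cm m →L[ℂ] ℂ).restrictScalars ℝ).contDiff
    exact h2.comp contDiff_snd
  have hex : ∀ i : Fin m, ∃ (G : P × Cm m → Cm m), ContDiff ℝ ∞ G ∧
      (∀ p z (c : ℂ), ‖c‖ = 1 → G (p, c • z) = G (p, z)) ∧
      (∀ p ∈ K, ∀ z ∈ sphere (0 : Cm m) 1,
        ‖G (p, z) - star (z i) • F1 (p, z)‖ ≤ δ / (m + 1)) := by
    intro i
    apply h88_inv_approx K hK (fun x => star (x.2 i) • F1 x) _ _ _ hδ'
    · have h9 : ContinuousOn (fun x : P × Cm m => star (x.2 i)) (K ×ˢ sphere 0 1) :=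
        (continuous_star.comp (hproj i).continuous).continuousOn
      exact h9.smul h1
    · intro p hp z hz c hc
      simp only
      rw [e1 p hp z hz c hc, smul_smul]
      congr 1
      have h3 : c * star c = 1 := by
        have := Complex.mul_conj c
        rw [Complex.normSq_eq_norm_sq, hc] at this
        simpa using this
      simp only [PiLp.smul_apply, smul_eq_mul, star_mul']
      calc star c * star (z i) * c = (c * star c) * star (z i) := by ring
        _ = _ := by rw [h3, one_mul]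
  choose G hG hGi hGa using hex
  refine ⟨G0, fun x => ∑ i, x.2 i • G i x, hG0, ?_, hG0i, ?_, hG0a, ?_⟩
  · apply ContDiff.sum
    intro i _
    exact (isBoundedBilinearMap_smul (𝕜 := ℝ) (A := ℂ) (E := Cm m)).contDiff.comp
      ((hproj i).prodMk (hG i))
  · intro p z c hc
    simp only
    rw [Finset.smul_sum]
    apply Finset.sum_congr rfl
    intro i _
    rw [hGi i p z c hc, smul_smul]
    simp only [PiLp.smul_apply, smul_eq_mul]
  · intro p hp z hz
    simp only
    have hz1 : ‖z‖ = 1 := by simpa using hz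
    have h3 : ∑ i, z i • (star (z i) • F1 (p, z)) = F1 (p, z) := by
      simp_rw [smul_smul]
      rw [← Finset.sum_smul]
      have h4 : ∑ i, z i * star (z i) = 1 := by
        have h5 : ∀ i, z i * star (z i) = ((‖z i‖ ^ 2 : ℝ) : ℂ) := by
          intro i
          have := Complex.mul_conj (z i)
          rw [Complex.normSq_eq_norm_sq] at this
          exact this
        simp_rw [h5]
        rw [← Complex.ofReal_sum, ← EuclideanSpace.norm_sq_eq, hz1]
        simp
      rw [h4, one_smul]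
    have h6 : ∑ i, z i • G i (p, z) - F1 (p, z) =
        ∑ i, z i • (G i (p, z) - star (z i) • F1 (p, z)) := by
      simp_rw [smul_sub]
      rw [Finset.sum_sub_distrib, h3]
    rw [h6]
    refine (norm_sum_le _ _).trans ?_
    have h7 : ∀ i : Fin m, ‖z i • (G i (p, z) - star (z i) • F1 (p, z))‖ ≤ δ / (m + 1) := by
      intro i
      rw [norm_smul]
      have h8 : ‖z i‖ ≤ 1 := by
        rw [← hz1]
        exact PiLp.norm_apply_le z i
      calc ‖z i‖ * ‖G i (p, z) - star (z i) • F1 (p, z)‖ ≤ 1 * (δ / (m + 1)) :=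
            mul_le_mul h8 (hGa i p hp z hz) (norm_nonneg _) zero_le_one
        _ = _ := one_mul _
    refine (Finset.sum_le_card_nsmul _ _ _ (fun i _ => h7 i)).trans ?_
    rw [Finset.card_univ, Fintype.card_fin, nsmul_eq_mul, mul_div_assoc', div_le_iff₀ (by positivity)]
    nlinarith

end Pool.Agent.Helper24.CB
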