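import Mathlib

/-!
# Separation or boundary bumping in compact Hausdorff spaces
-/

open Set Topology

namespace Pool.Agent.Helper24.CB

/-- In a compact Hausdorff space a closed set that misses the component of `b` is separated from
`b` by a clopen set. -/
theorem exists_isClopen_of_disjoint_component {X : Type*} [TopologicalSpace X] [CompactSpace X]
    [T2Space X] (b : X) (B : Set X) (hB : IsClosed B) (hd : Disjoint (connectedComponent b) B) :
    ∃ A : Set X, IsClopen A ∧ b ∈ A ∧ Disjoint A B := by
  let N := { s : Set X // IsClopen s ∧ b ∈ s }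
  have hne : Nonempty N := ⟨⟨univ, isClopen_univ, mem_univ b⟩⟩
  have hNcl : ∀ s : N, IsClosed s.val := fun s => s.property.1.1
  have hdir : Directed GE.ge fun s : N => s.val := by
    rintro ⟨s, hs, hxs⟩ ⟨t, ht, hxt⟩
    exact ⟨⟨s ∩ t, hs.inter ht, ⟨hxs, hxt⟩⟩, inter_subset_left, inter_subset_right⟩
  have h_nhds : ∀ y ∈ ⋂ s : N, s.val, Bᶜ ∈ 𝓝 y := fun y y_in => by
    have h1 : y ∈ connectedComponent b := by
      rw [connectedComponent_eq_iInter_isClopen]; exact y_in
    exact hB.isOpen_compl.mem_nhds (fun h => (Set.disjoint_left.1 hd) h1 h)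
  obtain ⟨s, hs⟩ := exists_subset_nhds_of_compactSpace hdir hNcl h_nhds
  exact ⟨s.1, s.2.1, s.2.2, Set.disjoint_left.2 fun x hx hxB => hs hx hxB⟩

/-- Task E: separation / boundary bumping -/
theorem exists_connected_or_separation {X : Type*} [TopologicalSpace X] [CompactSpace X]
    [T2Space X] (S0 B : Set X) (hS0 : IsClosed S0) (hS0c : IsConnected S0) (hB : IsClosed B)
    (hdisj : Disjoint S0 B) :
    (∃ A : Set X, IsClopen A ∧ S0 ⊆ A ∧ Disjoint A B) ∨
    (∃ D : Set X, IsConnected D ∧ Disjoint D S0 ∧ (closure D ∩ S0).Nonempty) := by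
  classical
  obtain ⟨s, hs⟩ := hS0c.nonempty
  set C : Set X := connectedComponent s with hC
  have hS0C : S0 ⊆ C := hS0c.isPreconnected.subset_connectedComponent hs
  have hCclosed : IsClosed C := isClosed_connectedComponent
  by_cases hCB : Disjoint C B
  · left
    obtain ⟨A, hA, hsA, hAB⟩ := exists_isClopen_of_disjoint_component s B hB hCB
    refine ⟨A, hA, ?_, hAB⟩
    exact hS0C.trans (hA.connectedComponent_subset hsA)
  · right
    obtain ⟨b, hbC, hbB⟩ := Set.not_disjoint_iff.1 hCB
    have hbS0 : b ∉ S0 := fun h => (Set.disjoint_left.1 hdisj) h hbB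
    set D : Set X := connectedComponentIn (C \ S0) b with hD
    have hbCS : b ∈ C \ S0 := ⟨hbC, hbS0⟩
    have hDconn : IsConnected D := isConnected_connectedComponentIn_iff.2 hbCS
    have hDsub : D ⊆ C \ S0 := connectedComponentIn_subset _ _
    have hbD : b ∈ D := mem_connectedComponentIn hbCS
    refine ⟨D, hDconn, Set.disjoint_left.2 fun x hx hxS => (hDsub hx).2 hxS, ?_⟩
    by_contra hcon
    rw [Set.not_nonempty_iff_eq_empty] at hcon
    -- `D` is closed
    have hclD : closure D ⊆ C \ S0 := by
      intro x hx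
      refine ⟨closure_minimal (fun y hy => (hDsub hy).1) hCclosed hx, fun hxS => ?_⟩
      have : x ∈ closure D ∩ S0 := ⟨hx, hxS⟩
      rw [hcon] at this; exact this
    have hDcl : IsClosed D := by
      have : closure D ⊆ D := hDconn.isPreconnected.closure.subset_connectedComponentIn
        (subset_closure hbD) hclD
      exact closure_eq_iff_isClosed.1 (this.antisymm subset_closure)
    -- an open neighbourhood of `S0` whose closure misses `D`
    have hDS0 : Disjoint S0 D := Set.disjoint_left.2 fun x hx hxD => (hDsub hxD).2 hx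
    obtain ⟨W, hWo, hSW, hWcl⟩ := normal_exists_closure_subset hS0 hDcl.isOpen_compl
      (fun x hx hxD => (Set.disjoint_left.1 hDS0) hx hxD)
    -- the compact space `Y = C \ W`
    set Y : Set X := C \ W with hY
    have hYcl : IsClosed Y := hCclosed.inter hWo.isClosed_compl
    have : CompactSpace Y := isCompact_iff_compactSpace.1 hYcl.isCompact
    have hbW : b ∉ W := fun h => hWcl (subset_closure h) hbD
    have hbY : b ∈ Y := ⟨hbC, hbW⟩
    have hYsub : Y ⊆ C \ S0 := fun x hx => ⟨hx.1, fun h => hx.2 (hSW h)⟩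
    obtain ⟨A, hA, hbA, hAW⟩ := exists_isClopen_of_disjoint_component (⟨b, hbY⟩ : Y)
      (Subtype.val ⁻¹' closure W) (isClosed_closure.preimage continuous_subtype_val) (by
        refine Set.disjoint_left.2 fun y hy hyW => ?_
        have h1 : Subtype.val '' (connectedComponent (⟨b, hbY⟩ : Y)) ⊆ D := by
          refine IsPreconnected.subset_connectedComponentIn
            (isPreconnected_connectedComponent.image _ continuous_subtype_val.continuousOn)
            ⟨⟨b, hbY⟩, mem_connectedComponent, rfl⟩ ?_
          rintro _ ⟨z, -, rfl⟩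
          exact hYsub z.2
        exact hWcl hyW (h1 ⟨y, hy, rfl⟩))
    obtain ⟨O, hO, hOA⟩ := isOpen_induced_iff.1 hA.isOpen
    have hZcl : IsClosed (Subtype.val '' A : Set X) :=
      (hA.isClosed.isCompact.image continuous_subtype_val).isClosed
    have hpre : IsPreconnected C := isPreconnected_connectedComponent
    have hcon2 := hpre (O \ closure W) (Subtype.val '' A : Set X)ᶜ
      (hO.sdiff isClosed_closure) hZcl.isOpen_compl (by
        intro x hx
        by_cases hxA : x ∈ (Subtype.val '' A : Set X)
        · left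
          obtain ⟨y, hyA, rfl⟩ := hxA
          refine ⟨?_, fun h => (Set.disjoint_left.1 hAW) hyA h⟩
          rw [← hOA] at hyA; exact hyA
        · exact Or.inr hxA)
      ⟨b, hbC, by
        refine ⟨?_, fun h => (Set.disjoint_left.1 hAW) hbA h⟩
        rw [← hOA] at hbA; exact hbA⟩
      ⟨s, mem_connectedComponent, by
        rintro ⟨y, hyA, hys⟩
        exact y.2.2 (by rw [hys]; exact hSW hs)⟩
    obtain ⟨x, hxC, ⟨hxO, hxW⟩, hxA⟩ := hcon2
    apply hxA
    have hxY : x ∈ Y := ⟨hxC, fun h => hxW (subset_closure h)⟩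
    refine ⟨⟨x, hxY⟩, ?_, rfl⟩
    rw [← hOA]; exact hxO

end Pool.Agent.Helper24.CB
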