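import Mathlib
import Pool.Agent.Helper24.CB.Base

/-! Function spaces for the modules on periodic solutions. -/

open MeasureTheory Set Metric
open scoped Real InnerProductSpace

namespace Pool.Agent.Helper24.CB

noncomputable section

instance factTwoPi : Fact (0 < 2 * π) := ⟨Real.two_pi_pos⟩

variable (E : Type) [NormedAddCommGroup E] [InnerProductSpace ℝ E]

/-- continuous `2π`-periodic functions with values in `E` -/
abbrev PX : Type := C(AddCircle (2 * π), E)

variable {E}

/-- time shift -/
def shiftX (θ : ℝ) (f : PX E) : PX E := ⟨fun s => f (s + (θ : AddCircle (2 * π))), by fun_prop⟩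

@[simp] theorem shiftX_apply (θ : ℝ) (f : PX E) (s : AddCircle (2 * π)) :
    shiftX θ f s = f (s + (θ : AddCircle (2 * π))) := rfl

/-- mean value -/
def meanX (f : PX E) : E := (2 * π)⁻¹ • ∫ t in (0 : ℝ)..(2 * π), f (t : AddCircle (2 * π))

/-- first Fourier mode with coefficients `z` along the vectors `e j` -/
def jj {m : ℕ} (e : Fin m → E) (z : Cm m) (t : ℝ) : E :=
  ∑ j, (z j * Complex.exp (Complex.I * t)).re • e j

/-- the same as a continuous function on the circle -/
def jjX {m : ℕ} (e : Fin m → E) (z : Cm m) : PX E :=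
  ⟨fun s => ∑ j, (z j * (AddCircle.toCircle s : ℂ)).re • e j, by
    have : Continuous fun s : AddCircle (2 * π) => (AddCircle.toCircle s : ℂ) :=
      continuous_subtype_val.comp AddCircle.continuous_toCircle
    fun_prop⟩

theorem jjX_coe {m : ℕ} (e : Fin m → E) (z : Cm m) (t : ℝ) :
    jjX e z (t : AddCircle (2 * π)) = jj e z t := by
  simp only [jjX, jj, ContinuousMap.coe_mk, AddCircle.toCircle_apply_mk, Circle.coe_exp]
  refine Finset.sum_congr rfl fun j _ => ?_
  have h : (2 * π / (2 * π) * t : ℝ) = t := by
    have := Real.pi_pos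
    field_simp
  rw [h, mul_comm Complex.I]

/-- first Fourier coefficient along the vectors `e j` -/
def pp {m : ℕ} (e : Fin m → E) (f : PX E) : Cm m :=
  WithLp.toLp 2 fun j => (π : ℂ)⁻¹ *
    ∫ t in (0 : ℝ)..(2 * π), ((⟪e j, f (t : AddCircle (2 * π))⟫_ℝ : ℝ) : ℂ) * Complex.exp (-(Complex.I * t))

variable (E) in
/-- The space `H¹_{2π}` of `2π`-periodic functions which are absolutely continuous on a period
with square integrable derivative. -/
structure H1per where
  /-- the function -/
  toFun : ℝ → E
  periodic : Function.Periodic toFun (2 * π)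
  ac : AbsolutelyContinuousOnInterval toFun 0 (2 * π)
  sq : MemLp (deriv toFun) 2 (volume.restrict (Ioc 0 (2 * π)))

theorem H1per.memLp (u : H1per E) : MemLp u.toFun 2 (volume.restrict (Ioc 0 (2 * π))) := by
  have h : ContinuousOn u.toFun (Icc 0 (2 * π)) := by
    have := u.ac.continuousOn
    rwa [uIcc_of_le Real.two_pi_pos.le] at this
  obtain ⟨C, hC⟩ := isCompact_Icc.exists_bound_of_continuousOn h
  refine MemLp.of_bound ((h.mono Ioc_subset_Icc_self).aestronglyMeasurable measurableSet_Ioc) C ?_
  filter_upwards [ae_restrict_mem measurableSet_Ioc] with t ht using hC t (Ioc_subset_Icc_self ht)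

/-- The topology of the norm `(∫₀^{2π} ‖u'‖² + ‖u‖²)^{1/2}`: the embedding
`u ↦ (u, u')` of `H¹_{2π}` into `L² × L²` is a homeomorphism onto its image. -/
instance : TopologicalSpace (H1per E) :=
  TopologicalSpace.induced (fun u => (u.memLp.toLp u.toFun, u.sq.toLp (deriv u.toFun))) inferInstance

end

end Pool.Agent.Helper24.CB
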