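import Mathlib
import Pool.Agent.Helper24.CB.Space

open MeasureTheory Set Metric Topology
open scoped Real InnerProductSpace ContDiff

namespace Pool.Agent.Helper24.CB

noncomputable section

/-- a family of contractions of the unit ball has a continuous family of fixed points -/
theorem fixed_family {P X : Type*} [TopologicalSpace P] [NormedAddCommGroup X] [CompleteSpace X]
    (K : Set P) (T : P → X → X) (hball : ∀ p ∈ K, ∀ x, ‖x‖ ≤ 1 → ‖T p x‖ ≤ 1)
    (hlip : ∀ p ∈ K, ∀ x y, ‖x‖ ≤ 1 → ‖y‖ ≤ 1 → ‖T p x - T p y‖ ≤ (1 / 2) * ‖x - y‖)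
    (hcont : ∀ x, ‖x‖ ≤ 1 → ContinuousOn (fun p => T p x) K) :
    ∃ w : P → X, ContinuousOn w K ∧ ∀ p ∈ K, ‖w p‖ ≤ 1 ∧ T p (w p) = w p ∧
      ∀ x, ‖x‖ ≤ 1 → T p x = x → x = w p := by
  classical
  have hex : ∀ p ∈ K, ∃ x, ‖x‖ ≤ 1 ∧ T p x = x := by
    intro p hp
    have hsc : IsComplete (closedBall (0 : X) 1) := isClosed_closedBall.isComplete
    have hmaps : MapsTo (T p) (closedBall (0 : X) 1) (closedBall (0 : X) 1) := by
      intro x hx
      rw [mem_closedBall_zero_iff] at hx ⊢
      exact hball p hp x hx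
    have hc : ContractingWith (1 / 2 : NNReal) (hmaps.restrict (T p) _ _) := by
      refine ⟨by norm_num, LipschitzWith.of_dist_le_mul ?_⟩
      rintro ⟨x, hx⟩ ⟨y, hy⟩
      rw [mem_closedBall_zero_iff] at hx hy
      have := hlip p hp x y hx hy
      simpa [Subtype.dist_eq, dist_eq_norm] using this
    obtain ⟨x, hx, hfx, -⟩ := hc.exists_fixedPoint' hsc hmaps (x := (0 : X))
      (by simp) (edist_ne_top _ _)
    exact ⟨x, by simpa using hx, hfx⟩
  have hun : ∀ p ∈ K, ∀ x y, ‖x‖ ≤ 1 → ‖y‖ ≤ 1 → T p x = x → T p y = y → x = y := by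
    intro p hp x y hx hy h1 h2
    have := hlip p hp x y hx hy
    rw [h1, h2] at this
    have h3 : ‖x - y‖ = 0 := le_antisymm (by linarith) (norm_nonneg _)
    exact sub_eq_zero.1 (norm_eq_zero.1 h3)
  refine ⟨fun p => if h : p ∈ K then (hex p h).choose else 0, ?_, ?_⟩
  swap
  · intro p hp
    simp only [dif_pos hp]
    exact ⟨(hex p hp).choose_spec.1, (hex p hp).choose_spec.2, fun x hx h =>
      hun p hp _ _ hx (hex p hp).choose_spec.1 h (hex p hp).choose_spec.2⟩
  · intro p hp
    set w : P → X := fun p => if h : p ∈ K then (hex p h).choose else 0 with hw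
    have hwp : ∀ q ∈ K, ‖w q‖ ≤ 1 ∧ T q (w q) = w q := by
      intro q hq
      simp only [hw, dif_pos hq]
      exact (hex q hq).choose_spec
    have hbd : ∀ q ∈ K, ‖w q - w p‖ ≤ 2 * ‖T q (w p) - T p (w p)‖ := by
      intro q hq
      have h1 := hlip q hq (w q) (w p) (hwp q hq).1 (hwp p hp).1
      have h2 : w q - w p = (T q (w q) - T q (w p)) + (T q (w p) - T p (w p)) := by
        rw [(hwp q hq).2, (hwp p hp).2]; abel
      have h3 : ‖w q - w p‖ ≤ ‖T q (w q) - T q (w p)‖ + ‖T q (w p) - T p (w p)‖ := by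
        conv_lhs => rw [h2]
        exact norm_add_le _ _
      linarith
    have h4 : Filter.Tendsto (fun q => 2 * ‖T q (w p) - T p (w p)‖) (𝓝[K] p) (𝓝 0) := by
      have := ((hcont (w p) (hwp p hp).1 p hp).sub
        (continuousWithinAt_const (b := T p (w p)))).norm.const_mul 2
      simpa [ContinuousWithinAt] using this
    rw [ContinuousWithinAt, tendsto_iff_norm_sub_tendsto_zero]
    refine squeeze_zero' (Filter.Eventually.of_forall fun _ => norm_nonneg _) ?_ h4
    filter_upwards [self_mem_nhdsWithin] with q hq using hbd q hq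

section superposition

variable {E : Type} [NormedAddCommGroup E] [InnerProductSpace ℝ E] [FiniteDimensional ℝ E]

/-- difference quotient operator -/
def dq (G : E → E) (u₀ : E) (x : E × ℝ × E) : E :=
  ∫ s in (0 : ℝ)..1, fderiv ℝ G (u₀ + x.1 + (s * x.2.1) • x.2.2) x.2.2

theorem dq_continuous (G : E → E) (hG : ContDiff ℝ 1 G) (u₀ : E) : Continuous (dq G u₀) := by
  have h : Continuous (fderiv ℝ G) := hG.continuous_fderiv (by simp)
  unfold dq
  refine intervalIntegral.continuous_parametric_intervalIntegral_of_continuous' ?_ _ _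
  exact (h.comp (by fun_prop)).clm_apply (by fun_prop)

theorem dq_smul (G : E → E) (hG : ContDiff ℝ 1 G) (u₀ : E) (v : E) (r : ℝ) (y : E) :
    r • dq G u₀ (v, r, y) = G (u₀ + v + r • y) - G (u₀ + v) := by
  have h : Continuous (fderiv ℝ G) := hG.continuous_fderiv (by simp)
  have hd : ∀ s ∈ uIcc (0 : ℝ) 1, HasDerivAt (fun s : ℝ => G (u₀ + v + (s * r) • y))
      (fderiv ℝ G (u₀ + v + (s * r) • y) (r • y)) s := by
    intro s _
    have h1 : HasDerivAt (fun s : ℝ => u₀ + v + (s * r) • y) (r • y) s := by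
      have := (((hasDerivAt_id s).mul_const r).smul_const y).const_add (u₀ + v)
      simpa using this
    exact ((hG.differentiable (by simp)) _).hasFDerivAt.comp_hasDerivAt s h1
  have := intervalIntegral.integral_eq_sub_of_hasDerivAt hd ?_
  · unfold dq
    simp only [one_mul, zero_mul, zero_smul, add_zero] at this
    rw [← this, ← intervalIntegral.integral_smul]
    simp
  · refine Continuous.intervalIntegrable ?_ _ _
    exact (h.comp (by fun_prop)).clm_apply (by fun_prop)

theorem dq_zero (G : E → E) (u₀ : E) (v : E) (y : E) :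
    dq G u₀ (v, 0, y) = fderiv ℝ G (u₀ + v) y := by
  simp [dq]

theorem dq_lip (G : E → E) (hG : ContDiff ℝ 1 G) (u₀ : E) (H : E →L[ℝ] E) (η δ : ℝ)
    (hη : ∀ x ∈ ball u₀ δ, ‖fderiv ℝ G x - H‖ ≤ η) (v : E) (r : ℝ) (y y' : E)
    (hv : ‖v‖ < δ) (hy : ‖v + r • y‖ < δ) (hy' : ‖v + r • y'‖ < δ) :
    ‖dq G u₀ (v, r, y) - dq G u₀ (v, r, y') - H (y - y')‖ ≤ η * ‖y - y'‖ := by
  rcases eq_or_ne r 0 with rfl | hr
  · rw [dq_zero, dq_zero]
    have : fderiv ℝ G (u₀ + v) y - fderiv ℝ G (u₀ + v) y' - H (y - y')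
        = (fderiv ℝ G (u₀ + v) - H) (y - y') := by simp
    rw [this]
    exact ContinuousLinearMap.le_of_opNorm_le _ (hη _ (by simpa [dist_eq_norm] using hv)) _
  · have h1 : ‖G (u₀ + v + r • y) - G (u₀ + v + r • y') - H (u₀ + v + r • y - (u₀ + v + r • y'))‖
        ≤ η * ‖u₀ + v + r • y - (u₀ + v + r • y')‖ := by
      refine (convex_ball u₀ δ).norm_image_sub_le_of_norm_hasFDerivWithin_le'
        (fun x hx => ((hG.differentiable (by simp)) x).hasFDerivAt.hasFDerivWithinAt) hη ?_ ?_
      · have h5 : u₀ + v + r • y' - u₀ = v + r • y' := by abel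
        rw [mem_ball, dist_eq_norm, h5]; exact hy'
      · have h5 : u₀ + v + r • y - u₀ = v + r • y := by abel
        rw [mem_ball, dist_eq_norm, h5]; exact hy
    have h2 : u₀ + v + r • y - (u₀ + v + r • y') = r • (y - y') := by rw [smul_sub]; abel
    rw [h2, norm_smul, map_smul] at h1
    have h3 : r • (dq G u₀ (v, r, y) - dq G u₀ (v, r, y') - H (y - y'))
        = G (u₀ + v + r • y) - G (u₀ + v + r • y') - r • H (y - y') := by
      rw [smul_sub, smul_sub, dq_smul G hG, dq_smul G hG]; abel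
    rw [← h3, norm_smul] at h1
    have h4 : 0 < ‖r‖ := norm_pos_iff.2 hr
    nlinarith

/-- superposition operator -/
def AX (G : E → E) (hG : ContDiff ℝ 1 G) (u₀ : E) (x : E × ℝ × PX E) : PX E :=
  ⟨fun s => dq G u₀ (x.1, x.2.1, x.2.2 s), (dq_continuous G hG u₀).comp (by fun_prop)⟩

theorem AX_continuous (G : E → E) (hG : ContDiff ℝ 1 G) (u₀ : E) : Continuous (AX G hG u₀) := by
  refine ContinuousMap.continuous_of_continuous_uncurry _ ?_
  unfold AX
  refine (dq_continuous G hG u₀).comp ?_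
  refine Continuous.prodMk (by fun_prop) (Continuous.prodMk (by fun_prop) ?_)
  exact ContinuousEval.continuous_eval.comp (by fun_prop : Continuous fun p : (E × ℝ × PX E) × AddCircle (2 * π) => (p.1.2.2, p.2))

end superposition

end

end Pool.Agent.Helper24.CB
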