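import Mathlib
import Pool.Agent.Helper24.CB.Base

open MeasureTheory Set Metric

namespace Pool.Agent.Helper24.CB

theorem integral_fderiv_zero {n : ℕ} (k : En n → ℝ) (hk : ContDiff ℝ 1 k)
    (hc : HasCompactSupport k) (v : En n) : ∫ x, fderiv ℝ k x v = 0 := by
  have h1 : Continuous (fun x => fderiv ℝ k x v) :=
    (hk.continuous_fderiv (by norm_num)).clm_apply continuous_const
  have h2 : HasCompactSupport (fun x => fderiv ℝ k x v) := by
    have := hc.fderiv (𝕜 := ℝ)
    exact this.comp_left (g := fun L : En n →L[ℝ] ℝ => L v) rfl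
  have h := integral_mul_fderiv_eq_neg_fderiv_mul_of_integrable (μ := (volume : Measure (En n)))
    (f := fun _ : En n => (1 : ℝ)) (g := k) (v := v) (by simp)
    (by simpa using h1.integrable_of_hasCompactSupport h2)
    (by simpa using hk.continuous.integrable_of_hasCompactSupport hc)
    (by intro x _; simp) (by intro x _; exact (hk.differentiable (by norm_num)) x)
  simpa using h

/-- the standard bump on the line -/
noncomputable def bmp (δ : ℝ) (hδ : 0 < δ) : ContDiffBump (0 : ℝ) := ⟨δ / 2, δ, by linarith, by linarith⟩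

noncomputable def bInt (δ : ℝ) (hδ : 0 < δ) (t : ℝ) : ℝ := ∫ s in (0 : ℝ)..t, bmp δ hδ s

theorem bInt_hasDerivAt (δ : ℝ) (hδ : 0 < δ) (t : ℝ) :
    HasDerivAt (bInt δ hδ) (bmp δ hδ t) t :=
  intervalIntegral.integral_hasDerivAt_right
    ((bmp δ hδ).continuous.intervalIntegrable _ _)
    ((bmp δ hδ).continuous.stronglyMeasurableAtFilter _ _) (bmp δ hδ).continuous.continuousAt

theorem bInt_contDiff (δ : ℝ) (hδ : 0 < δ) : ContDiff ℝ 1 (bInt δ hδ) := by
  rw [contDiff_one_iff_deriv]
  refine ⟨fun t => (bInt_hasDerivAt δ hδ t).differentiableAt, ?_⟩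
  have : deriv (bInt δ hδ) = fun t => bmp δ hδ t := funext fun t => (bInt_hasDerivAt δ hδ t).deriv
  rw [this]; exact (bmp δ hδ).continuous

noncomputable def coefA (n : ℕ) (δ : ℝ) (hδ : 0 < δ) (y : En (n + 1)) : ℝ :=
  bInt δ hδ (y 0) * ∏ i : Fin n, bmp δ hδ (y i.succ)

noncomputable def omg (n : ℕ) (δ : ℝ) (hδ : 0 < δ) (y : En (n + 1)) : ℝ :=
  ∏ i : Fin (n + 1), bmp δ hδ (y i)

theorem contDiff_coord {n : ℕ} {N : WithTop ℕ∞} (i : Fin n) : ContDiff ℝ N (fun y : En n => y i) :=
  (EuclideanSpace.proj (𝕜 := ℝ) i : En n →L[ℝ] ℝ).contDiff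

theorem coefA_contDiff (n : ℕ) (δ : ℝ) (hδ : 0 < δ) : ContDiff ℝ 1 (coefA n δ hδ) := by
  unfold coefA
  refine ContDiff.mul ((bInt_contDiff δ hδ).comp (contDiff_coord 0)) ?_
  refine contDiff_prod fun i _ => ?_
  exact (bmp δ hδ).contDiff.comp (contDiff_coord _)

theorem coefA_fderiv0 (n : ℕ) (δ : ℝ) (hδ : 0 < δ) (y : En (n + 1)) :
    fderiv ℝ (coefA n δ hδ) y (EuclideanSpace.basisFun (Fin (n + 1)) ℝ 0) = omg n δ hδ y := by
  have hd : DifferentiableAt ℝ (coefA n δ hδ) y :=
    ((coefA_contDiff n δ hδ).differentiable (by norm_num)) y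
  have h1 := hd.hasFDerivAt.comp_hasDerivAt_of_eq (x := (0 : ℝ))
    (f := fun t : ℝ => y + t • (EuclideanSpace.basisFun (Fin (n + 1)) ℝ 0 : En (n + 1)))
    (f' := (EuclideanSpace.basisFun (Fin (n + 1)) ℝ 0 : En (n + 1)))
    (by simpa using ((hasDerivAt_id (0 : ℝ)).smul_const
      (EuclideanSpace.basisFun (Fin (n + 1)) ℝ 0 : En (n + 1))).const_add y) (by simp)
  have h2 : HasDerivAt (fun t : ℝ => bInt δ hδ (y 0 + t) * ∏ i : Fin n, bmp δ hδ (y i.succ))
      (bmp δ hδ (y 0) * ∏ i : Fin n, bmp δ hδ (y i.succ)) 0 := by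
    have h3 : HasDerivAt (fun t : ℝ => bInt δ hδ (y 0 + t)) (bmp δ hδ (y 0)) 0 := by
      have := (bInt_hasDerivAt δ hδ (y 0 + 0)).comp_const_add (y 0) 0
      simpa using this
    exact h3.mul_const _
  have h4 : ((coefA n δ hδ) ∘ fun t : ℝ => y + t • (EuclideanSpace.basisFun (Fin (n + 1)) ℝ 0 : En (n + 1)))
      = (fun t : ℝ => bInt δ hδ (y 0 + t) * ∏ i : Fin n, bmp δ hδ (y i.succ)) := by
    funext t
    simp [coefA, Fin.succ_ne_zero]
  rw [h4] at h1
  rw [h1.unique h2, omg, Fin.prod_univ_succ]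

/-- volume form -/
noncomputable def vol (n : ℕ) : En n [⋀^Fin n]→L[ℝ] ℝ :=
  { (EuclideanSpace.basisFun (Fin n) ℝ).toBasis.det with
    cont := by
      change Continuous fun v : Fin n → En n => (EuclideanSpace.basisFun (Fin n) ℝ).toBasis.det v
      simp only [Module.Basis.det_apply]
      refine Continuous.matrix_det ?_
      refine continuous_matrix fun i j => ?_
      simp only [Module.Basis.toMatrix_apply, OrthonormalBasis.coe_toBasis_repr_apply,
        EuclideanSpace.basisFun_repr]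
      fun_prop }

theorem vol_apply (n : ℕ) (v : Fin n → En n) :
    vol n v = (EuclideanSpace.basisFun (Fin n) ℝ).toBasis.det v := rfl

/-- the (n)-form whose differential is the bump volume form -/
noncomputable def sig (n : ℕ) (δ : ℝ) (hδ : 0 < δ) (y : En (n + 1)) : En (n + 1) [⋀^Fin n]→L[ℝ] ℝ :=
  coefA n δ hδ y • (vol (n + 1)).curryLeft (EuclideanSpace.basisFun (Fin (n + 1)) ℝ 0)

theorem sig_contDiff (n : ℕ) (δ : ℝ) (hδ : 0 < δ) : ContDiff ℝ 1 (sig n δ hδ) :=
  (coefA_contDiff n δ hδ).smul contDiff_const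

theorem extDeriv_sig (n : ℕ) (δ : ℝ) (hδ : 0 < δ) (y : En (n + 1)) (v : Fin (n + 1) → En (n + 1)) :
    extDeriv (sig n δ hδ) y v
      = omg n δ hδ y * (EuclideanSpace.basisFun (Fin (n + 1)) ℝ).toBasis.det v := by
  have key : extDeriv (sig n δ hδ) y (EuclideanSpace.basisFun (Fin (n + 1)) ℝ).toBasis
      = omg n δ hδ y := by
    rw [extDeriv_apply (((sig_contDiff n δ hδ).differentiable (by norm_num)) y), Fin.sum_univ_succ]
    have h0 : ∀ i : Fin (n + 1), fderiv ℝ (fun x => sig n δ hδ x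
        (i.removeNth (EuclideanSpace.basisFun (Fin (n + 1)) ℝ).toBasis)) y
        ((EuclideanSpace.basisFun (Fin (n + 1)) ℝ).toBasis i)
        = fderiv ℝ (coefA n δ hδ) y ((EuclideanSpace.basisFun (Fin (n + 1)) ℝ).toBasis i) *
          (vol (n + 1)) (Matrix.vecCons (EuclideanSpace.basisFun (Fin (n + 1)) ℝ 0)
            (i.removeNth (EuclideanSpace.basisFun (Fin (n + 1)) ℝ).toBasis)) := by
      intro i
      have : (fun x => sig n δ hδ x (i.removeNth (EuclideanSpace.basisFun (Fin (n + 1)) ℝ).toBasis))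
        = fun x => coefA n δ hδ x * ((vol (n + 1)) (Matrix.vecCons
          (EuclideanSpace.basisFun (Fin (n + 1)) ℝ 0)
            (i.removeNth (EuclideanSpace.basisFun (Fin (n + 1)) ℝ).toBasis))) := by
        funext x
        simp [sig]
      rw [this, fderiv_mul_const (((coefA_contDiff n δ hδ).differentiable (by norm_num)) y)]
      simp [mul_comm]
    rw [h0 0]
    have h1 : Matrix.vecCons (EuclideanSpace.basisFun (Fin (n + 1)) ℝ 0)
            ((0 : Fin (n + 1)).removeNth (EuclideanSpace.basisFun (Fin (n + 1)) ℝ).toBasis)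
            = (EuclideanSpace.basisFun (Fin (n + 1)) ℝ).toBasis := by
      funext j
      refine Fin.cases ?_ (fun j => ?_) j
      · simp
      · simp [Fin.tail]
    rw [h1, vol_apply, Module.Basis.det_self]
    have h2 : ∀ i : Fin n, (vol (n + 1)) (Matrix.vecCons (EuclideanSpace.basisFun (Fin (n + 1)) ℝ 0)
            (i.succ.removeNth (EuclideanSpace.basisFun (Fin (n + 1)) ℝ).toBasis)) = 0 := by
      intro i
      obtain ⟨k, rfl⟩ : ∃ k, n = k + 1 := ⟨n - 1, by have := i.2; omega⟩
      refine (vol (k + 1 + 1)).toAlternatingMap.map_eq_zero_of_eq _ (i := 0) (j := 1) ?_ (by simp)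
      simp [Fin.removeNth, Fin.succAbove]
    simp only [h0, h2, mul_zero, smul_zero, Finset.sum_const_zero, add_zero]
    simp only [Fin.val_zero, pow_zero, one_smul, mul_one]
    exact coefA_fderiv0 n δ hδ y
  have h3 := AlternatingMap.eq_smul_basis_det ((EuclideanSpace.basisFun (Fin (n + 1)) ℝ).toBasis)
    (extDeriv (sig n δ hδ) y).toAlternatingMap
  have h4 := congrArg (fun g => g v) h3
  simp only [AlternatingMap.smul_apply, smul_eq_mul] at h4
  change extDeriv (sig n δ hδ) y v = _ at h4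
  rw [h4]
  congr 1

theorem ML (n : ℕ) (δ : ℝ) (hδ : 0 < δ) (f g : En (n + 1) → En (n + 1)) (hf : ContDiff ℝ 2 f)
    (hg : ContDiff ℝ 2 g) (K : Set (En (n + 1))) (hK : IsCompact K)
    (hfg : ∀ x, x ∉ K → f x = g x) :
    ∫ x, (omg n δ hδ (f x) * (fderiv ℝ f x).det - omg n δ hδ (g x) * (fderiv ℝ g x).det) = 0 := by
  set b := (EuclideanSpace.basisFun (Fin (n + 1)) ℝ).toBasis with hb
  set η : (En (n + 1) → En (n + 1)) → En (n + 1) → En (n + 1) [⋀^Fin n]→L[ℝ] ℝ :=
    fun f x => (sig n δ hδ (f x)).compContinuousLinearMap (fderiv ℝ f x) with hη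
  have hpull : ∀ f : En (n + 1) → En (n + 1), ContDiff ℝ 2 f → ∀ x,
      extDeriv (η f) x b = omg n δ hδ (f x) * (fderiv ℝ f x).det := by
    intro f hf x
    have h1 := extDeriv_pullback (𝕜 := ℝ) (ω := sig n δ hδ) (f := f) (x := x) (r := 2)
      (((sig_contDiff n δ hδ).differentiable (by norm_num)) (f x)) hf.contDiffAt
      (by simp [minSmoothness])
    have h2 := congrArg (fun L => L b) h1
    simp only [ContinuousAlternatingMap.compContinuousLinearMap_apply] at h2
    change extDeriv (η f) x b = _ at h2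
    rw [h2, extDeriv_sig]
    congr 1
    have h3 := Module.Basis.det_comp b (fderiv ℝ f x : En (n + 1) →ₗ[ℝ] En (n + 1)) b
    rw [Module.Basis.det_self, mul_one] at h3
    exact h3
  have hdiff : ∀ f : En (n + 1) → En (n + 1), ContDiff ℝ 2 f → Differentiable ℝ (η f) := by
    intro f hf x
    exact DifferentiableAt.continuousAlternatingMapCompContinuousLinearMap
      (((sig_contDiff n δ hδ).differentiable (by norm_num) (f x)).comp x
        (hf.differentiable (by norm_num) x))
      ((hf.fderiv_right (m := 1) (by norm_num)).differentiable (by norm_num) x)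
  have hsm : ∀ f : En (n + 1) → En (n + 1), ContDiff ℝ 2 f → ∀ w : Fin n → En (n + 1),
      ContDiff ℝ 1 (fun x => η f x w) := by
    intro f hf w
    have h1 : ContDiff ℝ 1 (fun x => coefA n δ hδ (f x)) :=
      (coefA_contDiff n δ hδ).comp (hf.of_le (by norm_num))
    have h2 : ContDiff ℝ 1 (fun x => fderiv ℝ f x) := hf.fderiv_right (by norm_num)
    have h3 : (fun x => η f x w) = fun x => coefA n δ hδ (f x) *
        (vol (n + 1)).toContinuousMultilinearMap
          (Matrix.vecCons (EuclideanSpace.basisFun (Fin (n + 1)) ℝ 0)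
            (fun j => fderiv ℝ f x (w j))) := by
      funext x
      simp only [hη, sig, ContinuousAlternatingMap.compContinuousLinearMap_apply,
        ContinuousAlternatingMap.smul_apply, ContinuousAlternatingMap.curryLeft_apply_apply,
        smul_eq_mul]
      rfl
    rw [h3]
    refine h1.mul ((ContinuousMultilinearMap.contDiff _).comp ?_)
    rw [contDiff_pi]
    intro j
    refine Fin.cases ?_ (fun j => ?_) j
    · simpa using contDiff_const
    · simpa using h2.clm_apply contDiff_const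
  set κ : En (n + 1) → En (n + 1) [⋀^Fin n]→L[ℝ] ℝ := fun x => η f x - η g x with hκ
  have hκd : Differentiable ℝ κ := (hdiff f hf).sub (hdiff g hg)
  have hκs : ∀ w, ContDiff ℝ 1 (fun x => κ x w) := fun w => by
    have := (hsm f hf w).sub (hsm g hg w)
    simpa [hκ] using this
  have hsupp : ∀ x, x ∉ K → κ x = 0 := by
    intro x hx
    have : f =ᶠ[nhds x] g := by
      filter_upwards [hK.isClosed.isOpen_compl.mem_nhds hx] with y hy using hfg y hy
    simp [hκ, hη, hfg x hx, this.fderiv_eq]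
  have hcs : ∀ w, HasCompactSupport (fun x => κ x w) := fun w =>
    HasCompactSupport.intro hK fun x hx => by simp [hsupp x hx]
  have hint : ∀ x, omg n δ hδ (f x) * (fderiv ℝ f x).det - omg n δ hδ (g x) * (fderiv ℝ g x).det
      = ∑ i : Fin (n + 1), (-1 : ℝ) ^ (i : ℕ) * fderiv ℝ (fun y => κ y (i.removeNth b)) x (b i) := by
    intro x
    have h0 := extDeriv_apply (hκd x) b
    have h0' : extDeriv κ x b
      = ∑ i : Fin (n + 1), (-1 : ℝ) ^ (i : ℕ) * fderiv ℝ (fun y => κ y (i.removeNth b)) x (b i) := by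
      rw [h0]
      refine Finset.sum_congr rfl fun i _ => ?_
      simp
    rw [← hpull f hf x, ← hpull g hg x, ← h0']
    have h1 : extDeriv κ x = extDeriv (η f) x - extDeriv (η g) x := by
      have h2 : η f = κ + η g := by
        funext y; simp [hκ]
      have h3 := extDeriv_add (hκd x) (hdiff g hg x)
      rw [← h2] at h3
      rw [h3]; simp
    rw [h1]; rfl
  have hii : ∀ i : Fin (n + 1), Integrable
      (fun x => (-1 : ℝ) ^ (i : ℕ) * fderiv ℝ (fun y => κ y (i.removeNth b)) x (b i)) := by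
    intro i
    refine Integrable.const_mul ?_ _
    refine Continuous.integrable_of_hasCompactSupport
      (((hκs _).continuous_fderiv (by norm_num)).clm_apply continuous_const) ?_
    have := (hcs (i.removeNth b)).fderiv (𝕜 := ℝ)
    exact this.comp_left (g := fun L : En (n + 1) →L[ℝ] ℝ => L (b i)) rfl
  simp_rw [hint]
  rw [integral_finsetSum _ fun i _ => hii i]
  refine Finset.sum_eq_zero fun i _ => ?_
  rw [integral_const_mul, integral_fderiv_zero _ (hκs _) (hcs _), mul_zero]

theorem omg_nonneg (n : ℕ) (δ : ℝ) (hδ : 0 < δ) (y : En (n + 1)) : 0 ≤ omg n δ hδ y :=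
  Finset.prod_nonneg fun _ _ => (bmp δ hδ).nonneg

theorem omg_zero (n : ℕ) (δ : ℝ) (hδ : 0 < δ) : 0 < omg n δ hδ 0 :=
  Finset.prod_pos fun _ _ => (bmp δ hδ).pos_of_mem_ball (by simp [bmp, hδ])

theorem omg_continuous (n : ℕ) (δ : ℝ) (hδ : 0 < δ) : Continuous (omg n δ hδ) :=
  continuous_finsetProd _ fun _ _ => (bmp δ hδ).continuous.comp (by fun_prop)

theorem omg_supp (n : ℕ) (δ : ℝ) (hδ : 0 < δ) (y : En (n + 1)) (hy : (n + 1) * δ ≤ ‖y‖) :
    omg n δ hδ y = 0 := by
  by_contra hne
  have h1 : ∀ i, ‖y i‖ < δ := by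
    intro i
    by_contra h
    push Not at h
    apply hne
    unfold omg
    refine Finset.prod_eq_zero (Finset.mem_univ i) ?_
    refine (bmp δ hδ).zero_of_le_dist ?_
    simpa [bmp, dist_eq_norm] using h
  have h2 : ‖y‖ ≤ ∑ i, ‖y i‖ := by
    have h3 : y = ∑ i, (y i) • (EuclideanSpace.basisFun (Fin (n + 1)) ℝ i : En (n + 1)) := by
      have := (EuclideanSpace.basisFun (Fin (n + 1)) ℝ).sum_repr y
      simpa using this.symm
    conv_lhs => rw [h3]
    refine (norm_sum_le _ _).trans (Finset.sum_le_sum fun i _ => ?_)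
    rw [norm_smul]
    simp
  have h3 : ∑ i, ‖y i‖ < ∑ i : Fin (n + 1), δ :=
    Finset.sum_lt_sum_of_nonempty ⟨0, Finset.mem_univ _⟩ fun i _ => h1 i
  simp at h3
  have : ((n : ℝ) + 1) * δ ≤ ∑ i, |y i| := hy.trans (by simpa using h2)
  linarith

end Pool.Agent.Helper24.CB
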