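import Mathlib
import Pool.Agent.Helper24.CB.Integral

open MeasureTheory Set Metric

namespace Pool.Agent.Helper24.CB

noncomputable section

/-- cyclic shift -/
def shf (m : ℕ) : Cm (m + 1) ≃ₗᵢ[ℂ] Cm (m + 1) :=
  LinearIsometryEquiv.piLpCongrLeft 2 ℂ ℂ (finRotate (m + 1)).symm

theorem shf_apply (m : ℕ) (z : Cm (m + 1)) (i : Fin (m + 1)) : shf m z i = z (i + 1) := by
  simp [shf]

/-- kill coordinate `0` -/
def kill (m : ℕ) : Cm (m + 1) →L[ℂ] Cm (m + 1) :=
  ContinuousLinearMap.id ℂ _ -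
    (EuclideanSpace.proj (𝕜 := ℂ) (0 : Fin (m + 1))).smulRight (EuclideanSpace.single 0 (1 : ℂ) : Cm (m + 1))

theorem kill_apply (m : ℕ) (z : Cm (m + 1)) (i : Fin (m + 1)) :
    kill m z i = if i = 0 then 0 else z i := by
  by_cases h : i = 0
  · subst h; simp [kill]
  · simp [kill, h]

/-- replace coordinate `0` by `1` -/
def zz (m : ℕ) (y : Cm (m + 1)) : Cm (m + 1) := kill m y + EuclideanSpace.single 0 (1 : ℂ)

theorem zz_apply (m : ℕ) (z : Cm (m + 1)) (i : Fin (m + 1)) :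
    zz m z i = if i = 0 then 1 else z i := by
  by_cases h : i = 0
  · subst h; simp [zz, kill_apply]
  · simp [zz, kill_apply, h]

/-- the model map -/
def qq (m : ℕ) (ε : ℝ) (y : Cm (m + 1)) : Cm (m + 1) :=
  y 0 • zz m y - (ε : ℂ) • shf m (zz m y)

def qq' (m : ℕ) (ε : ℝ) (y : Cm (m + 1)) : Cm (m + 1) →L[ℂ] Cm (m + 1) :=
  (EuclideanSpace.proj (𝕜 := ℂ) (0 : Fin (m + 1))).smulRight (zz m y) + y 0 • kill m
    - (ε : ℂ) • ((shf m : Cm (m + 1) →L[ℂ] Cm (m + 1)).comp (kill m))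

theorem zz_hasFDerivAt (m : ℕ) (y : Cm (m + 1)) : HasFDerivAt (𝕜 := ℂ) (zz m) (kill m) y :=
  (kill m).hasFDerivAt.add_const _

theorem qq_hasFDerivAt (m : ℕ) (ε : ℝ) (y : Cm (m + 1)) :
    HasFDerivAt (𝕜 := ℂ) (qq m ε) (qq' m ε y) y := by
  have h1 : HasFDerivAt (𝕜 := ℂ) (fun y : Cm (m + 1) => y 0)
    (EuclideanSpace.proj (𝕜 := ℂ) (0 : Fin (m + 1))) y :=
    (EuclideanSpace.proj (𝕜 := ℂ) (0 : Fin (m + 1)) : Cm (m + 1) →L[ℂ] ℂ).hasFDerivAt
  have h2 := h1.smul (zz_hasFDerivAt m y)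
  have h3 := ((shf m : Cm (m + 1) →L[ℂ] Cm (m + 1)).hasFDerivAt.comp y (zz_hasFDerivAt m y)).const_smul
    (ε : ℂ)
  have h4 := h2.sub h3
  refine h4.congr_fderiv ?_
  unfold qq'
  rw [add_comm (y.ofLp 0 • kill m)]

def gm (m : ℕ) (V : Type) [NormedAddCommGroup V] [NormedSpace ℝ V] (ε : ℝ)
    (x : V × Cm (m + 1)) : V × Cm (m + 1) := (x.1, qq m ε x.2)

variable {V : Type} [NormedAddCommGroup V] [NormedSpace ℝ V] [FiniteDimensional ℝ V]

theorem gm_hasFDerivAt (m : ℕ) (ε : ℝ) (x : V × Cm (m + 1)) :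
    HasFDerivAt (gm m V ε)
      ((ContinuousLinearMap.id ℝ V).prodMap ((qq' m ε x.2).restrictScalars ℝ)) x := by
  have h1 := ((qq_hasFDerivAt m ε x.2).restrictScalars ℝ)
  exact (HasFDerivAt.prodMap (p := x) (hasFDerivAt_id x.1) h1)

theorem qq_contDiff (m : ℕ) (ε : ℝ) : ContDiff ℝ 2 (qq m ε) := by
  have h1 : ContDiff ℝ 2 (fun y : Cm (m + 1) => y 0) :=
    ((EuclideanSpace.proj (𝕜 := ℂ) (0 : Fin (m + 1)) : Cm (m + 1) →L[ℂ] ℂ).restrictScalars ℝ).contDiff
  have h2 : ContDiff ℝ 2 (zz m) := ((kill m).restrictScalars ℝ).contDiff.add contDiff_const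
  have h3 : ContDiff ℝ 2 (fun y => shf m (zz m y)) :=
    ((shf m : Cm (m + 1) →L[ℂ] Cm (m + 1)).restrictScalars ℝ).contDiff.comp h2
  have h4 : ContDiff ℝ 2 (fun y => (ε : ℂ) • shf m (zz m y)) := by
    have := h3.const_smul ε
    convert this using 1
    funext y
    exact (RCLike.real_smul_eq_coe_smul (K := ℂ) ε _).symm
  unfold qq
  exact (h1.smul h2).sub h4

theorem gm_contDiff (m : ℕ) (ε : ℝ) : ContDiff ℝ 2 (gm m V ε) :=
  contDiff_fst.prodMk ((qq_contDiff m ε).comp contDiff_snd)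

theorem gm_det (m : ℕ) (ε : ℝ) (x : V × Cm (m + 1)) :
    (fderiv ℝ (gm m V ε) x).det = Complex.normSq (LinearMap.det (qq' m ε x.2 : Cm (m + 1) →ₗ[ℂ] Cm (m + 1))) := by
  rw [(gm_hasFDerivAt m ε x).fderiv]
  have h1 : ((ContinuousLinearMap.id ℝ V).prodMap ((qq' m ε x.2).restrictScalars ℝ)).det
      = LinearMap.det (LinearMap.prodMap (LinearMap.id : V →ₗ[ℝ] V)
        ((qq' m ε x.2 : Cm (m + 1) →ₗ[ℂ] Cm (m + 1)).restrictScalars ℝ)) := rfl
  rw [h1, LinearMap.det_prodMap, LinearMap.det_restrictScalars, LinearMap.det_id, one_mul,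
    Algebra.norm_complex_eq]
  rfl

/-- the point where the model vanishes nondegenerately -/
def y0 (m : ℕ) (ε : ℝ) : Cm (m + 1) := WithLp.toLp 2 fun i => if i = 0 then (ε : ℂ) else 1

theorem zz_y0 (m : ℕ) (ε : ℝ) (i : Fin (m + 1)) : zz m (y0 m ε) i = 1 := by
  rw [zz_apply]
  by_cases h : i = 0
  · simp [h]
  · simp [h, y0]

theorem qq_y0 (m : ℕ) (ε : ℝ) : qq m ε (y0 m ε) = 0 := by
  ext i
  have h0 : (y0 m ε) 0 = (ε : ℂ) := by simp [y0]
  simp [qq, shf_apply, zz_y0, h0]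

theorem qq'_y0_inj (m : ℕ) (ε : ℝ) (hε : 0 < ε) : Function.Injective (qq' m ε (y0 m ε)) := by
  rw [injective_iff_map_eq_zero]
  intro h hh
  have h1 : ∀ i, h 0 + ε * kill m h i - ε * kill m h (i + 1) = 0 := by
    intro i
    have := congrArg (fun v : Cm (m + 1) => v i) hh
    simp [qq', zz_y0, shf_apply] at this
    simpa [y0] using this
  have h2 : h 0 = 0 := by
    have h3 : ∑ i : Fin (m + 1), (h 0 + ε * kill m h i - ε * kill m h (i + 1)) = 0 :=
      Finset.sum_eq_zero fun i _ => h1 i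
    rw [Finset.sum_sub_distrib, Finset.sum_add_distrib, ← Finset.mul_sum, ← Finset.mul_sum] at h3
    have h4 : ∑ i : Fin (m + 1), kill m h (i + 1) = ∑ i : Fin (m + 1), kill m h i :=
      Equiv.sum_comp (Equiv.addRight (1 : Fin (m + 1))) (fun i => kill m h i)
    rw [h4, add_sub_cancel_right] at h3
    simp at h3
    rcases h3 with h3 | h3
    · exfalso
      have : ((m : ℂ) + 1) ≠ 0 := by exact_mod_cast Nat.succ_ne_zero m
      exact this h3
    · exact h3
  have h5 : ∀ i, kill m h i = kill m h (i + 1) := by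
    intro i
    have := h1 i
    rw [h2] at this
    have h6 : (ε : ℂ) * (kill m h i - kill m h (i + 1)) = 0 := by linear_combination this
    rcases mul_eq_zero.1 h6 with h7 | h7
    · exfalso; exact hε.ne' (by exact_mod_cast h7)
    · linear_combination h7
  have h9 : ∀ i, kill m h i = 0 := by
    intro i
    induction i using Fin.induction with
    | zero => simp [kill_apply]
    | succ i ih =>
      have := h5 i.castSucc
      rw [ih, Fin.coeSucc_eq_succ] at this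
      exact this.symm
  ext i
  by_cases hi : i = 0
  · subst hi; simpa using h2
  · have := h9 i
    rw [kill_apply, if_neg hi] at this
    simpa using this

theorem gm_det_pos (m : ℕ) (ε : ℝ) (hε : 0 < ε) (v : V) :
    (fderiv ℝ (gm m V ε) (v, y0 m ε)).det ≠ 0 := by
  rw [gm_det]
  refine Complex.normSq_eq_zero.not.2 ?_
  have hinj := qq'_y0_inj m ε hε
  have h1 : LinearMap.ker (qq' m ε (y0 m ε) : Cm (m + 1) →ₗ[ℂ] Cm (m + 1)) = ⊥ :=
    LinearMap.ker_eq_bot.2 hinj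
  intro h
  have := LinearMap.bot_lt_ker_of_det_eq_zero h
  rw [h1] at this
  exact lt_irrefl _ this

theorem deg_contra (m : ℕ) (ε : ℝ) (hε : 0 < ε) (f : V × Cm (m + 1) → V × Cm (m + 1))
    (hf : ContDiff ℝ 2 f) (K : Set (V × Cm (m + 1))) (hK : IsCompact K)
    (hfg : ∀ x, x ∉ K → f x = gm m V ε x) (hne : ∀ x ∈ K, f x ≠ 0)
    (hx0 : ((0 : V), y0 m ε) ∈ K) : False := by
  classical
  obtain ⟨n, hn⟩ : ∃ n, Module.finrank ℝ (V × Cm (m + 1)) = n + 1 := by
    have : 0 < Module.finrank ℝ (V × Cm (m + 1)) := by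
      have : Nontrivial (V × Cm (m + 1)) := by
        refine ⟨(0, 0), (0, EuclideanSpace.single 0 1), ?_⟩
        intro h
        have := congrArg (fun x : V × Cm (m + 1) => x.2 0) h
        simp at this
      exact Module.finrank_pos
    exact ⟨_, (Nat.succ_pred_eq_of_pos this).symm⟩
  obtain ⟨Φ⟩ : Nonempty (En (n + 1) ≃L[ℝ] (V × Cm (m + 1))) :=
    ⟨ContinuousLinearEquiv.ofFinrankEq (by rw [hn]; simp)⟩
  -- lower bound for `f` on `K`
  set fh : En (n + 1) → En (n + 1) := fun y => Φ.symm (f (Φ y)) with hfh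
  set gh : En (n + 1) → En (n + 1) := fun y => Φ.symm (gm m V ε (Φ y)) with hgh
  have hfc : ContDiff ℝ 2 fh := Φ.symm.contDiff.comp (hf.comp Φ.contDiff)
  have hgc : ContDiff ℝ 2 gh := Φ.symm.contDiff.comp ((gm_contDiff m ε).comp Φ.contDiff)
  set K' : Set (En (n + 1)) := Φ ⁻¹' K with hK'
  have hK'c : IsCompact K' := by
    have : K' = Φ.symm '' K := by
      rw [hK']; exact (Φ.symm.image_eq_preimage_symm K).symm
    rw [this]; exact hK.image Φ.symm.continuous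
  have hfgh : ∀ y, y ∉ K' → fh y = gh y := fun y hy => by
    simp only [hfh, hgh]; rw [hfg _ hy]
  have hneh : ∀ y ∈ K', fh y ≠ 0 := fun y hy h => by
    have := hne _ hy
    apply this
    have h2 := (Φ.symm.map_eq_zero_iff).1 h
    exact h2
  set p0 : En (n + 1) := Φ.symm ((0 : V), y0 m ε) with hp0
  have hp0K : p0 ∈ K' := by simp [hK', hp0, hx0]
  obtain ⟨c, hc, hcb⟩ : ∃ c > 0, ∀ y ∈ K', c ≤ ‖fh y‖ := by
    obtain ⟨y1, hy1, hmin⟩ := hK'c.exists_isMinOn ⟨p0, hp0K⟩ (hfc.continuous.norm.continuousOn)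
    exact ⟨‖fh y1‖, norm_pos_iff.2 (hneh y1 hy1), fun y hy => hmin hy⟩
  set δ : ℝ := c / (n + 1) with hδ
  have hδ0 : 0 < δ := by positivity
  have hω : ∀ y ∈ K', omg n δ hδ0 (fh y) = 0 := fun y hy => by
    refine omg_supp n δ hδ0 _ ?_
    have : ((n : ℝ) + 1) * δ = c := by rw [hδ]; field_simp
    rw [this]; exact hcb y hy
  have hdet : ∀ y, (fderiv ℝ gh y).det = (fderiv ℝ (gm m V ε) (Φ y)).det := by
    intro y
    have h1 : HasFDerivAt gh ((Φ.symm : (V × Cm (m + 1)) →L[ℝ] En (n + 1)).comp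
      ((fderiv ℝ (gm m V ε) (Φ y)).comp (Φ : En (n + 1) →L[ℝ] (V × Cm (m + 1))))) y := by
      have hd : HasFDerivAt (gm m V ε) (fderiv ℝ (gm m V ε) (Φ y)) (Φ y) :=
        (gm_hasFDerivAt m ε (Φ y)).differentiableAt.hasFDerivAt
      exact Φ.symm.hasFDerivAt.comp y (hd.comp y Φ.hasFDerivAt)
    rw [h1.fderiv]
    have h2 := LinearMap.det_conj (fderiv ℝ (gm m V ε) (Φ y) : (V × Cm (m + 1)) →ₗ[ℝ] (V × Cm (m + 1)))
      Φ.symm.toLinearEquiv
    rw [ContinuousLinearMap.det, ContinuousLinearMap.det, ← h2]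
    congr 1
  have hdet0 : ∀ y, 0 ≤ (fderiv ℝ gh y).det := fun y => by
    rw [hdet, gm_det]; exact Complex.normSq_nonneg _
  set h : En (n + 1) → ℝ := fun y => omg n δ hδ0 (gh y) * (fderiv ℝ gh y).det
    - omg n δ hδ0 (fh y) * (fderiv ℝ fh y).det with hh
  have hdc : ∀ f : En (n + 1) → En (n + 1), ContDiff ℝ 2 f → Continuous fun y => (fderiv ℝ f y).det := by
    intro f hf
    exact ContinuousLinearMap.continuous_det.comp (hf.continuous_fderiv (by norm_num))
  have hcont : Continuous h :=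
    (((omg_continuous n δ hδ0).comp hgc.continuous).mul (hdc gh hgc)).sub
      (((omg_continuous n δ hδ0).comp hfc.continuous).mul (hdc fh hfc))
  have hout : ∀ y, y ∉ K' → h y = 0 := by
    intro y hy
    have : fh =ᶠ[nhds y] gh := by
      filter_upwards [hK'c.isClosed.isOpen_compl.mem_nhds hy] with z hz using hfgh z hz
    simp [hh, hfgh y hy, this.fderiv_eq]
  have hin : ∀ y ∈ K', h y = omg n δ hδ0 (gh y) * (fderiv ℝ gh y).det := by
    intro y hy
    simp [hh, hω y hy]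
  have hnn : 0 ≤ h := by
    intro y
    by_cases hy : y ∈ K'
    · rw [hin y hy]; exact mul_nonneg (omg_nonneg _ _ _ _) (hdet0 y)
    · rw [hout y hy]; exact le_rfl
  have hp : h p0 ≠ 0 := by
    rw [hin p0 hp0K]
    have h1 : gh p0 = 0 := by
      simp [hgh, hp0, gm, qq_y0]
    rw [h1, hdet]
    refine mul_ne_zero (omg_zero n δ hδ0).ne' ?_
    have : Φ p0 = ((0 : V), y0 m ε) := by simp [hp0]
    rw [this]
    exact gm_det_pos m ε hε 0
  have hpos := hcont.integral_pos_of_hasCompactSupport_nonneg_nonzero (μ := volume)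
    (HasCompactSupport.intro hK'c hout) hnn hp
  have hML := ML n δ hδ0 gh fh hgc hfc K' hK'c (fun y hy => (hfgh y hy).symm)
  exact absurd hML hpos.ne'

end

end Pool.Agent.Helper24.CB
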