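import Mathlib
import Pool.Agent.Helper24.CB.Space

open MeasureTheory Set Metric Topology
open scoped Real InnerProductSpace ContDiff

namespace Pool.Agent.Helper24.CB

noncomputable section

variable {E : Type} [NormedAddCommGroup E] [InnerProductSpace ℝ E] [FiniteDimensional ℝ E]

variable (E) in
/-- Riesz representation as a real linear map -/
def dualSym : (E →L[ℝ] ℝ) →L[ℝ] E :=
  LinearMap.toContinuousLinearMap
    { toFun := fun L => (InnerProductSpace.toDual ℝ E).symm L
      map_add' := fun a b => by simp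
      map_smul' := fun a b => by simp }

theorem dualSym_apply (L : E →L[ℝ] ℝ) : dualSym E L = (InnerProductSpace.toDual ℝ E).symm L := rfl

theorem gradient_eq (W : E → ℝ) : gradient W = dualSym E ∘ fderiv ℝ W := rfl

theorem gradient_contDiffAt (W : E → ℝ) (x : E) (hW : ContDiffAt ℝ 2 W x) :
    ContDiffAt ℝ 1 (gradient W) x := by
  have h1 : ContDiffAt ℝ 1 (fderiv ℝ W) x := hW.fderiv_right (by norm_num)
  rw [gradient_eq]
  exact (ContinuousLinearMap.contDiff _).contDiffAt.comp x h1

theorem gradient_contDiff (W : E → ℝ) (hW : ContDiff ℝ 2 W) : ContDiff ℝ 1 (gradient W) :=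
  contDiff_iff_contDiffAt.2 fun x => gradient_contDiffAt W x hW.contDiffAt

theorem inner_gradient (W : E → ℝ) (x y : E) : ⟪gradient W x, y⟫_ℝ = fderiv ℝ W x y := by
  unfold gradient
  rw [InnerProductSpace.toDual_symm_apply]

theorem hess_apply (W : E → ℝ) (x : E) (hW : ContDiffAt ℝ 2 W x) (a b : E) :
    ⟪fderiv ℝ (gradient W) x a, b⟫_ℝ = fderiv ℝ (fderiv ℝ W) x a b := by
  have h1 : DifferentiableAt ℝ (fderiv ℝ W) x :=
    (hW.fderiv_right (m := 1) (by norm_num)).differentiableAt (by simp)
  have h3 := ((dualSym E).hasFDerivAt (x := fderiv ℝ W x)).comp x h1.hasFDerivAt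
  rw [gradient_eq, HasFDerivAt.fderiv h3]
  simp only [ContinuousLinearMap.comp_apply]
  exact InnerProductSpace.toDual_symm_apply

theorem hess_symm (W : E → ℝ) (x : E) (hW : ContDiffAt ℝ 2 W x) (a b : E) :
    ⟪fderiv ℝ (gradient W) x a, b⟫_ℝ = ⟪a, fderiv ℝ (gradient W) x b⟫_ℝ := by
  rw [hess_apply W x hW, real_inner_comm, hess_apply W x hW]
  exact (hW.isSymmSndFDerivAt (by simp)).eq a b

end

end Pool.Agent.Helper24.CB
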