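import Mathlib

/-!
# The infinitesimal action of a Lie group of symmetries (module G)

`𝔤` is the range of the derivative at `1` of `g ↦ ρ g`.
-/

open MeasureTheory Set Metric Topology
open scoped Real InnerProductSpace Manifold ContDiff

namespace Pool.Agent.Helper24.CB

noncomputable section

section aux

variable {B HM Γ E : Type*} [NormedAddCommGroup B] [NormedSpace ℝ B]
    [TopologicalSpace HM] {I : ModelWithCorners ℝ B HM}
    [TopologicalSpace Γ] [ChartedSpace HM Γ] [Group Γ]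
    [NormedAddCommGroup E] [InnerProductSpace ℝ E]

/-- a differentiable function that is constant along the group has derivative zero along `𝔤` -/
theorem deriv_zero_of_const {V : Type*} [NormedAddCommGroup V] [NormedSpace ℝ V]
    {R : Γ → V} (hR : MDifferentiableAt I 𝓘(ℝ, V) R 1)
    {F : V → ℝ} {F' : V →L[ℝ] ℝ} (hF : HasFDerivAt F F' (R 1)) (c : ℝ)
    (hc : ∀ g, F (R g) = c) (ξ : TangentSpace I (1 : Γ)) :
    F' (mfderiv I 𝓘(ℝ, V) R 1 ξ : V) = 0 := by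
  have h1 : HasMFDerivAt I 𝓘(ℝ, ℝ) (F ∘ R) 1 (F'.comp (mfderiv I 𝓘(ℝ, V) R 1)) :=
    HasMFDerivAt.comp (1 : Γ) hF.hasMFDerivAt hR.hasMFDerivAt
  have h2 : (F ∘ R) = fun _ : Γ => c := by
    funext g
    exact hc g
  rw [h2] at h1
  have h3 := hasMFDerivAt_const (I := I) (I' := 𝓘(ℝ, ℝ)) c (1 : Γ)
  have h4 := hasMFDerivAt_unique h1 h3
  have h5 := congrArg (fun L : TangentSpace I (1 : Γ) →L[ℝ] ℝ => L ξ) h4
  exact h5

end aux

/-- Module G: the infinitesimal action. -/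
theorem orbit_algebra {B HM Γ E : Type*} [NormedAddCommGroup B] [NormedSpace ℝ B]
    [FiniteDimensional ℝ B] [TopologicalSpace HM] (I : ModelWithCorners ℝ B HM) [I.Boundaryless]
    [TopologicalSpace Γ] [ChartedSpace HM Γ] [Group Γ] [LieGroup I ∞ Γ]
    [NormedAddCommGroup E] [InnerProductSpace ℝ E] [FiniteDimensional ℝ E]
    (ρ : Γ →* (E ≃ₗᵢ[ℝ] E))
    (hρ : ContMDiff I 𝓘(ℝ, E →L[ℝ] E) ∞
      (fun γ => ((ρ γ).toContinuousLinearEquiv : E →L[ℝ] E)))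
    (Ω : Set E) (hΩ : IsOpen Ω) (U : E → ℝ) (hU : ContDiffOn ℝ 2 U Ω)
    (hinv : ∀ γ, ∀ x ∈ Ω, ρ γ x ∈ Ω ∧ U (ρ γ x) = U x) (u₀ : E) :
    ∃ 𝔤 : Submodule ℝ (E →L[ℝ] E), (∀ η ∈ 𝔤, ∀ x y, ⟪η x, y⟫_ℝ = -⟪x, η y⟫_ℝ) ∧
      (∀ η ∈ 𝔤, ∀ x ∈ Ω, ⟪gradient U x, η x⟫_ℝ = 0) ∧
      (∀ τ : E, (∃ η ∈ 𝔤, η u₀ = τ) ↔
        ∃ ξ : TangentSpace I (1 : Γ), (mfderiv I 𝓘(ℝ, E) (fun g : Γ => ρ g u₀) 1 ξ : E) = τ) ∧
      ∃ δ > 0, ∀ τ : E, (∃ η ∈ 𝔤, η u₀ = τ) → ∀ x : E, ‖x - u₀‖ < δ →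
        (∀ η ∈ 𝔤, ⟪τ, η x⟫_ℝ = 0) → τ = 0 := by
  set R : Γ → (E →L[ℝ] E) := fun γ => ((ρ γ).toContinuousLinearEquiv : E →L[ℝ] E) with hRdef
  have hRapp : ∀ g x, R g x = ρ g x := fun g x => rfl
  have hR1 : R 1 = ContinuousLinearMap.id ℝ E := by
    ext x
    rw [hRapp, map_one]
    rfl
  have hRd : MDifferentiableAt I 𝓘(ℝ, E →L[ℝ] E) R 1 :=
    (hρ 1).mdifferentiableAt (by simp)
  set D : TangentSpace I (1 : Γ) →ₗ[ℝ] (E →L[ℝ] E) :=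
    (mfderiv I 𝓘(ℝ, E →L[ℝ] E) R 1 : TangentSpace I (1 : Γ) →L[ℝ] (E →L[ℝ] E)).toLinearMap with hD
  refine ⟨LinearMap.range D, ?_, ?_, ?_, ?_⟩
  · rintro η ⟨ξ, rfl⟩ x y
    have hF : HasFDerivAt (fun A : E →L[ℝ] E => ⟪A x, A y⟫_ℝ)
        ((fderivInnerCLM ℝ ((R 1) x, (R 1) y)).comp
          (((ContinuousLinearMap.apply ℝ E x)).prod (ContinuousLinearMap.apply ℝ E y))) (R 1) := by
      exact (ContinuousLinearMap.apply ℝ E x).hasFDerivAt.inner ℝ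
        (ContinuousLinearMap.apply ℝ E y).hasFDerivAt
    have h := deriv_zero_of_const hRd hF ⟪x, y⟫_ℝ (fun g => (ρ g).inner_map_map x y) ξ
    have h' : ⟪(R 1) x, (D ξ) y⟫_ℝ + ⟪(D ξ) x, (R 1) y⟫_ℝ = 0 := h
    rw [hR1] at h'
    simp only [ContinuousLinearMap.id_apply] at h'
    linarith
  · rintro η ⟨ξ, rfl⟩ x hx
    have hUd : DifferentiableAt ℝ U x :=
      (hU.contDiffAt (hΩ.mem_nhds hx)).differentiableAt (by norm_num)
    have hF : HasFDerivAt (fun A : E →L[ℝ] E => U (A x))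
        ((fderiv ℝ U x).comp (ContinuousLinearMap.apply ℝ E x)) (R 1) := by
      have hUd' : HasFDerivAt U (fderiv ℝ U x) ((ContinuousLinearMap.apply ℝ E x) (R 1)) := by
        have : (ContinuousLinearMap.apply ℝ E x) (R 1) = x := by
          rw [hR1]; rfl
        rw [this]
        exact hUd.hasFDerivAt
      exact hUd'.comp (R 1) (ContinuousLinearMap.apply ℝ E x).hasFDerivAt
    have h := deriv_zero_of_const hRd hF (U x) (fun g => (hinv g x hx).2) ξ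
    have h' : fderiv ℝ U x ((D ξ) x) = 0 := h
    have h2 : ⟪gradient U x, (D ξ) x⟫_ℝ = fderiv ℝ U x ((D ξ) x) := by
      unfold gradient
      exact InnerProductSpace.toDual_symm_apply
    rw [h2, h']
  · intro τ
    have hcomp : HasMFDerivAt I 𝓘(ℝ, E) (fun g : Γ => ρ g u₀) 1
        ((ContinuousLinearMap.apply ℝ E u₀).comp (mfderiv I 𝓘(ℝ, E →L[ℝ] E) R 1)) :=
      HasMFDerivAt.comp (1 : Γ) (ContinuousLinearMap.apply ℝ E u₀).hasFDerivAt.hasMFDerivAt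
        hRd.hasMFDerivAt
    have hm := hcomp.mfderiv
    constructor
    · rintro ⟨η, ⟨ξ, rfl⟩, h⟩
      refine ⟨ξ, ?_⟩
      rw [hm]
      exact h
    · rintro ⟨ξ, h⟩
      refine ⟨D ξ, ⟨ξ, rfl⟩, ?_⟩
      rw [hm] at h
      exact h
  · set 𝔤 := LinearMap.range D with h𝔤
    -- the orbit map on `𝔤`
    set ev : 𝔤 →ₗ[ℝ] E :=
      (ContinuousLinearMap.apply ℝ E u₀ : (E →L[ℝ] E) →L[ℝ] E).toLinearMap ∘ₗ 𝔤.subtype with hev
    obtain ⟨s, hs⟩ := LinearMap.exists_rightInverse_of_surjective ev.rangeRestrict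
      (LinearMap.range_eq_top.2 ev.surjective_rangeRestrict)
    set sc : LinearMap.range ev →L[ℝ] (E →L[ℝ] E) :=
      LinearMap.toContinuousLinearMap (𝔤.subtype ∘ₗ s) with hsc
    refine ⟨(‖sc‖ + 1)⁻¹, by positivity, ?_⟩
    rintro τ ⟨η, hη, hητ⟩ x hx horth
    have hτr : τ ∈ LinearMap.range ev := ⟨⟨η, hη⟩, hητ⟩
    have hsmem : sc ⟨τ, hτr⟩ ∈ 𝔤 := (s ⟨τ, hτr⟩).2
    have hsval : sc ⟨τ, hτr⟩ u₀ = τ := by
      have h1 := congrArg (fun L : LinearMap.range ev →ₗ[ℝ] LinearMap.range ev =>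
        ((L ⟨τ, hτr⟩ : LinearMap.range ev) : E)) hs
      exact h1
    have h0 := horth _ hsmem
    have h1 : sc ⟨τ, hτr⟩ x = τ + sc ⟨τ, hτr⟩ (x - u₀) := by
      rw [map_sub, hsval]; abel
    rw [h1, inner_add_right, real_inner_self_eq_norm_sq] at h0
    have h2 : |⟪τ, sc ⟨τ, hτr⟩ (x - u₀)⟫_ℝ| ≤ ‖τ‖ * (‖sc‖ * ‖τ‖ * ‖x - u₀‖) := by
      refine (abs_real_inner_le_norm _ _).trans ?_
      gcongr
      refine (ContinuousLinearMap.le_opNorm _ _).trans ?_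
      gcongr
      exact sc.le_opNorm ⟨τ, hτr⟩
    by_contra hne
    have hpos : 0 < ‖τ‖ := norm_pos_iff.2 hne
    have h3 : ‖sc‖ * ‖x - u₀‖ < 1 := by
      have hn := norm_nonneg sc
      calc ‖sc‖ * ‖x - u₀‖ ≤ ‖sc‖ * (‖sc‖ + 1)⁻¹ := by gcongr
        _ < (‖sc‖ + 1) * (‖sc‖ + 1)⁻¹ := by
            apply mul_lt_mul_of_pos_right (by linarith) (by positivity)
        _ = 1 := mul_inv_cancel₀ (by positivity)
    have h4 := abs_le.1 h2
    nlinarith [mul_pos hpos hpos]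

end

end Pool.Agent.Helper24.CB
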