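import Mathlib

/-!
# Explicit Green kernels
-/

open MeasureTheory Set Metric Topology
open scoped Real InnerProductSpace

namespace Pool.Agent.Helper24.CB

noncomputable section

/-- The mean of the kernel vanishes as soon as `κ ≠ 0`. -/
lemma kernel_mean {κ : ℝ} (hκ : κ ≠ 0) {g g' : ℝ → ℝ} (hg : ∀ τ, HasDerivAt g (g' τ) τ)
    (hg' : ∀ τ, HasDerivAt g' (-κ * g τ - (2 * π)⁻¹ -
      (if κ = 1 then π⁻¹ * Real.cos τ else 0)) τ)
    (h1 : g' 0 - g' (2 * π) = 1) : (∫ τ in (0 : ℝ)..(2 * π), g τ) = 0 := by
  have hgc : Continuous g := continuous_iff_continuousAt.2 fun τ => (hg τ).continuousAt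
  have hint : IntervalIntegrable (fun τ => -κ * g τ - (2 * π)⁻¹ -
      (if κ = 1 then π⁻¹ * Real.cos τ else 0)) volume 0 (2 * π) := by
    apply Continuous.intervalIntegrable
    split_ifs <;> fun_prop
  have h := intervalIntegral.integral_eq_sub_of_hasDerivAt (a := 0) (b := 2 * π)
    (fun τ _ => hg' τ) hint
  have hcos : (∫ τ in (0 : ℝ)..(2 * π), (if κ = 1 then π⁻¹ * Real.cos τ else 0)) = 0 := by
    split_ifs
    · rw [intervalIntegral.integral_const_mul, integral_cos]
      simp
    · simp
  have hi1 : IntervalIntegrable (fun τ => -κ * g τ) volume 0 (2 * π) :=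
    (continuous_const.mul hgc).intervalIntegrable _ _
  have hi2 : IntervalIntegrable (fun _ : ℝ => (2 * π)⁻¹) volume 0 (2 * π) :=
    intervalIntegrable_const
  have hi3 : IntervalIntegrable (fun τ => (if κ = 1 then π⁻¹ * Real.cos τ else 0)) volume 0
      (2 * π) := by
    apply Continuous.intervalIntegrable
    split_ifs <;> fun_prop
  rw [intervalIntegral.integral_sub (hi1.sub hi2) hi3, intervalIntegral.integral_sub hi1 hi2,
    hcos, intervalIntegral.integral_const_mul, intervalIntegral.integral_const] at h
  have hpi : (2 * π) ≠ 0 := by positivity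
  simp only [sub_zero, smul_eq_mul] at h
  rw [mul_inv_cancel₀ hpi] at h
  have h2 : κ * ∫ τ in (0 : ℝ)..(2 * π), g τ = 0 := by linarith
  exact (mul_eq_zero.1 h2).resolve_left hκ

theorem exists_kernel (κ : ℝ) (hκ : ∀ k : ℕ, 2 ≤ k → κ ≠ (k : ℝ) ^ 2) :
    ∃ g g' : ℝ → ℝ, (∀ τ, HasDerivAt g (g' τ) τ) ∧
      (∀ τ, HasDerivAt g' (-κ * g τ - (2 * π)⁻¹ - (if κ = 1 then π⁻¹ * Real.cos τ else 0)) τ) ∧
      g (2 * π) = g 0 ∧ g' 0 - g' (2 * π) = 1 ∧ (∫ τ in (0 : ℝ)..(2 * π), g τ) = 0 ∧
      (κ = 1 → (∫ τ in (0 : ℝ)..(2 * π), g τ * Real.cos τ) = 0 ∧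
        (∫ τ in (0 : ℝ)..(2 * π), g τ * Real.sin τ) = 0) := by
  have hpi : π ≠ 0 := Real.pi_ne_zero
  rcases lt_trichotomy κ 0 with hneg | h0 | hpos
  · -- negative case
    set s := Real.sqrt (-κ) with hs
    have hs0 : 0 < s := Real.sqrt_pos.2 (by linarith)
    have hs2 : s ^ 2 = -κ := Real.sq_sqrt (by linarith)
    have hsh : 0 < Real.sinh (π * s) := Real.sinh_pos_iff.2 (by positivity)
    have hlin : ∀ τ : ℝ, HasDerivAt (fun τ : ℝ => s * (π - τ)) (-s) τ := by
      intro τ
      have := ((hasDerivAt_id' τ).const_sub π).const_mul s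
      simpa using this
    have hg : ∀ τ : ℝ, HasDerivAt (fun τ : ℝ => -Real.cosh (s * (π - τ)) /
        (2 * s * Real.sinh (π * s)) - 1 / (2 * π * κ))
        (Real.sinh (s * (π - τ)) / (2 * Real.sinh (π * s))) τ := by
      intro τ
      have := (((hlin τ).cosh.neg).div_const (2 * s * Real.sinh (π * s))).sub_const
        (1 / (2 * π * κ))
      refine this.congr_deriv ?_
      field_simp
    have hg' : ∀ τ : ℝ, HasDerivAt (fun τ : ℝ => Real.sinh (s * (π - τ)) /
        (2 * Real.sinh (π * s)))
        (-κ * (-Real.cosh (s * (π - τ)) / (2 * s * Real.sinh (π * s)) - 1 / (2 * π * κ)) -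
          (2 * π)⁻¹ - (if κ = 1 then π⁻¹ * Real.cos τ else 0)) τ := by
      intro τ
      have := (hlin τ).sinh.div_const (2 * Real.sinh (π * s))
      refine this.congr_deriv ?_
      rw [if_neg (by linarith : κ ≠ 1)]
      have hκ0 : κ ≠ 0 := hneg.ne
      have e : κ = -s ^ 2 := by linarith
      rw [e]
      field_simp
      ring
    have hd : Real.sinh (s * (π - 0)) / (2 * Real.sinh (π * s)) -
        Real.sinh (s * (π - 2 * π)) / (2 * Real.sinh (π * s)) = 1 := by
      have e1 : s * (π - 0) = π * s := by ring
      have e2 : s * (π - 2 * π) = -(π * s) := by ring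
      rw [e1, e2, Real.sinh_neg]
      field_simp
      ring
    refine ⟨_, _, hg, hg', ?_, hd, kernel_mean hneg.ne hg hg' hd, fun h => ?_⟩
    · have e1 : s * (π - 0) = π * s := by ring
      have e2 : s * (π - 2 * π) = -(π * s) := by ring
      rw [e1, e2, Real.cosh_neg]
    · linarith
  · -- κ = 0
    subst h0
    have hg : ∀ τ : ℝ, HasDerivAt (fun τ : ℝ => -(π / 6) + τ / 2 - τ ^ 2 / (4 * π))
        (1 / 2 - τ / (2 * π)) τ := by
      intro τ
      have := (((hasDerivAt_id' τ).div_const 2).const_add (-(π / 6))).sub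
        (((hasDerivAt_id' τ).fun_pow 2).div_const (4 * π))
      refine this.congr_deriv ?_
      push_cast
      field_simp
      ring
    have hg' : ∀ τ : ℝ, HasDerivAt (fun τ : ℝ => 1 / 2 - τ / (2 * π))
        (-0 * (-(π / 6) + τ / 2 - τ ^ 2 / (4 * π)) - (2 * π)⁻¹ -
          (if (0 : ℝ) = 1 then π⁻¹ * Real.cos τ else 0)) τ := by
      intro τ
      have := ((hasDerivAt_id' τ).div_const (2 * π)).const_sub (1 / 2)
      refine this.congr_deriv ?_
      rw [if_neg (by norm_num)]
      simp
    refine ⟨_, _, hg, hg', ?_, ?_, ?_, fun h => ?_⟩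
    · field_simp
      ring
    · field_simp
      ring
    · have hp : ∀ τ ∈ uIcc (0 : ℝ) (2 * π), HasDerivAt
          (fun τ : ℝ => -(π / 6) * τ + τ ^ 2 / 4 - τ ^ 3 / (12 * π))
          (-(π / 6) + τ / 2 - τ ^ 2 / (4 * π)) τ := by
        intro τ _
        have := (((hasDerivAt_id' τ).const_mul (-(π / 6))).add
          (((hasDerivAt_id' τ).fun_pow 2).div_const 4)).sub
          (((hasDerivAt_id' τ).fun_pow 3).div_const (12 * π))
        refine this.congr_deriv ?_
        push_cast
        field_simp
        ring
      rw [intervalIntegral.integral_eq_sub_of_hasDerivAt hp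
        (Continuous.intervalIntegrable (by fun_prop) _ _)]
      field_simp
      ring
    · norm_num at h
  · by_cases h1 : κ = 1
    · -- κ = 1
      subst h1
      have hg : ∀ τ : ℝ, HasDerivAt (fun τ : ℝ => -(1 / (2 * π)) - τ * Real.sin τ / (2 * π) -
          Real.cos τ / (4 * π) + Real.sin τ / 2)
          (-(τ * Real.cos τ) / (2 * π) - Real.sin τ / (4 * π) + Real.cos τ / 2) τ := by
        intro τ
        have := (((((hasDerivAt_id' τ).mul (Real.hasDerivAt_sin τ)).div_const
          (2 * π)).const_sub (-(1 / (2 * π)))).sub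
          ((Real.hasDerivAt_cos τ).div_const (4 * π))).add
          ((Real.hasDerivAt_sin τ).div_const 2)
        refine this.congr_deriv ?_
        field_simp
        ring
      have hg' : ∀ τ : ℝ, HasDerivAt (fun τ : ℝ => -(τ * Real.cos τ) / (2 * π) -
          Real.sin τ / (4 * π) + Real.cos τ / 2)
          (-1 * (-(1 / (2 * π)) - τ * Real.sin τ / (2 * π) -
          Real.cos τ / (4 * π) + Real.sin τ / 2) - (2 * π)⁻¹ -
          (if (1 : ℝ) = 1 then π⁻¹ * Real.cos τ else 0)) τ := by
        intro τ
        have := ((((hasDerivAt_id' τ).mul (Real.hasDerivAt_cos τ)).neg.div_const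
          (2 * π)).sub
          ((Real.hasDerivAt_sin τ).div_const (4 * π))).add
          ((Real.hasDerivAt_cos τ).div_const 2)
        refine this.congr_deriv ?_
        rw [if_pos rfl]
        field_simp
        ring
      have hd : (fun τ : ℝ => -(τ * Real.cos τ) / (2 * π) -
          Real.sin τ / (4 * π) + Real.cos τ / 2) 0 - (fun τ : ℝ => -(τ * Real.cos τ) / (2 * π) -
          Real.sin τ / (4 * π) + Real.cos τ / 2) (2 * π) = 1 := by
        simp only [Real.cos_zero, Real.sin_zero, Real.cos_two_pi, Real.sin_two_pi]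
        field_simp
        ring
      refine ⟨_, _, hg, hg', ?_, hd, kernel_mean one_ne_zero hg hg' hd, fun _ => ⟨?_, ?_⟩⟩
      · simp only [Real.cos_zero, Real.sin_zero, Real.cos_two_pi, Real.sin_two_pi]
        ring
      · have hp : ∀ τ ∈ uIcc (0 : ℝ) (2 * π), HasDerivAt
            (fun τ : ℝ => -(Real.sin τ / (2 * π)) - (1 / (2 * π)) *
              (-(τ * (1 - 2 * Real.sin τ ^ 2)) / 4 + Real.sin τ * Real.cos τ / 4) -
              (1 / (4 * π)) * (τ / 2 + Real.sin τ * Real.cos τ / 2) + Real.sin τ ^ 2 / 4)
            ((-(1 / (2 * π)) - τ * Real.sin τ / (2 * π) -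
              Real.cos τ / (4 * π) + Real.sin τ / 2) * Real.cos τ) τ := by
          intro τ _
          have hs := Real.hasDerivAt_sin τ
          have hc := Real.hasDerivAt_cos τ
          have hi := hasDerivAt_id' τ
          have := (((hs.div_const (2 * π)).neg.sub
            ((((hi.mul (((hs.fun_pow 2).const_mul 2).const_sub 1)).neg.div_const 4).add
              ((hs.mul hc).div_const 4)).const_mul (1 / (2 * π)))).sub
            (((hi.div_const 2).add ((hs.mul hc).div_const 2)).const_mul (1 / (4 * π)))).add
            ((hs.fun_pow 2).div_const 4)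
          refine this.congr_deriv ?_
          have hsc := Real.sin_sq_add_cos_sq τ
          have e : Real.cos τ ^ 2 = 1 - Real.sin τ ^ 2 := by linarith
          try simp only [Pi.mul_apply]
          push_cast
          field_simp
          ring_nf
          try rw [e]
          try ring
        rw [intervalIntegral.integral_eq_sub_of_hasDerivAt hp
          (Continuous.intervalIntegrable (by fun_prop) _ _)]
        simp only [Real.cos_zero, Real.sin_zero, Real.cos_two_pi, Real.sin_two_pi]
        field_simp
        ring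
      · have hp : ∀ τ ∈ uIcc (0 : ℝ) (2 * π), HasDerivAt
            (fun τ : ℝ => Real.cos τ / (2 * π) - (1 / (2 * π)) *
              (τ ^ 2 / 4 - τ * (Real.sin τ * Real.cos τ) / 2 + Real.sin τ ^ 2 / 4) -
              Real.sin τ ^ 2 / (8 * π) + (1 / 2) * (τ / 2 - Real.sin τ * Real.cos τ / 2))
            ((-(1 / (2 * π)) - τ * Real.sin τ / (2 * π) -
              Real.cos τ / (4 * π) + Real.sin τ / 2) * Real.sin τ) τ := by
          intro τ _
          have hs := Real.hasDerivAt_sin τ
          have hc := Real.hasDerivAt_cos τ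
          have hi := hasDerivAt_id' τ
          have := (((hc.div_const (2 * π)).sub
            (((((hi.fun_pow 2).div_const 4).sub ((hi.mul (hs.mul hc)).div_const 2)).add
              ((hs.fun_pow 2).div_const 4)).const_mul (1 / (2 * π)))).sub
            ((hs.fun_pow 2).div_const (8 * π))).add
            (((hi.div_const 2).sub ((hs.mul hc).div_const 2)).const_mul (1 / 2))
          refine this.congr_deriv ?_
          have hsc := Real.sin_sq_add_cos_sq τ
          have e : Real.cos τ ^ 2 = 1 - Real.sin τ ^ 2 := by linarith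
          try simp only [Pi.mul_apply]
          push_cast
          field_simp
          ring_nf
          try rw [e]
          try ring
        rw [intervalIntegral.integral_eq_sub_of_hasDerivAt hp
          (Continuous.intervalIntegrable (by fun_prop) _ _)]
        simp only [Real.cos_zero, Real.sin_zero, Real.cos_two_pi, Real.sin_two_pi]
        field_simp
        ring
    · -- positive, not a square
      set s := Real.sqrt κ with hs
      have hs0 : 0 < s := Real.sqrt_pos.2 hpos
      have hs2 : s ^ 2 = κ := Real.sq_sqrt hpos.le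
      have hsn : Real.sin (π * s) ≠ 0 := by
        intro h
        rw [Real.sin_eq_zero_iff] at h
        obtain ⟨n, hn⟩ := h
        have hns : (n : ℝ) = s := by
          have : (n : ℝ) * π = s * π := by rw [hn]; ring
          exact mul_right_cancel₀ hpi this
        have hn0 : 0 < n := by
          have : (0 : ℝ) < n := by rw [hns]; exact hs0
          exact_mod_cast this
        obtain ⟨k, rfl⟩ := Int.eq_ofNat_of_zero_le hn0.le
        have hk : κ = (k : ℝ) ^ 2 := by
          rw [← hs2, ← hns]; push_cast; ring
        have hk1 : k ≠ 1 := by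
          rintro rfl
          apply h1; rw [hk]; norm_num
        have hk0 : k ≠ 0 := by
          rintro rfl
          simp at hn0
        exact hκ k (by omega) hk
      have hlin : ∀ τ : ℝ, HasDerivAt (fun τ : ℝ => s * (π - τ)) (-s) τ := by
        intro τ
        have := ((hasDerivAt_id' τ).const_sub π).const_mul s
        simpa using this
      have hg : ∀ τ : ℝ, HasDerivAt (fun τ : ℝ => Real.cos (s * (π - τ)) /
          (2 * s * Real.sin (π * s)) - 1 / (2 * π * κ))
          (Real.sin (s * (π - τ)) / (2 * Real.sin (π * s))) τ := by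
        intro τ
        have := ((hlin τ).cos.div_const (2 * s * Real.sin (π * s))).sub_const
          (1 / (2 * π * κ))
        refine this.congr_deriv ?_
        field_simp
      have hg' : ∀ τ : ℝ, HasDerivAt (fun τ : ℝ => Real.sin (s * (π - τ)) /
          (2 * Real.sin (π * s)))
          (-κ * (Real.cos (s * (π - τ)) / (2 * s * Real.sin (π * s)) - 1 / (2 * π * κ)) -
            (2 * π)⁻¹ - (if κ = 1 then π⁻¹ * Real.cos τ else 0)) τ := by
        intro τ
        have := (hlin τ).sin.div_const (2 * Real.sin (π * s))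
        refine this.congr_deriv ?_
        rw [if_neg h1]
        have hκ0 : κ ≠ 0 := hpos.ne'
        have e : κ = s ^ 2 := by linarith
        rw [e]
        field_simp
        ring
      have hd : Real.sin (s * (π - 0)) / (2 * Real.sin (π * s)) -
          Real.sin (s * (π - 2 * π)) / (2 * Real.sin (π * s)) = 1 := by
        have e1 : s * (π - 0) = π * s := by ring
        have e2 : s * (π - 2 * π) = -(π * s) := by ring
        rw [e1, e2, Real.sin_neg]
        field_simp
        ring
      refine ⟨_, _, hg, hg', ?_, hd, kernel_mean hpos.ne' hg hg' hd, fun h => absurd h h1⟩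
      have e1 : s * (π - 0) = π * s := by ring
      have e2 : s * (π - 2 * π) = -(π * s) := by ring
      rw [e1, e2, Real.cos_neg]

end

end Pool.Agent.Helper24.CB
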