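import Mathlib
import Pool.Agent.Helper24.CB.Space

/-! Module O: elementary identities for `meanX`, `pp`, `jjX`, `shiftX` (for MP_07f5e0_an). -/

open MeasureTheory Set Metric Topology
open scoped Real InnerProductSpace

namespace Pool.Agent.Helper24.CB

noncomputable section

/-! ### Scalar integrals -/

private lemma ops_exp_two_pi (n : ℤ) : Complex.exp (Complex.I * n * (2 * π : ℝ)) = 1 := by
  rw [Complex.exp_eq_one_iff]
  refine ⟨n, ?_⟩
  push_cast
  ring

private lemma ops_integral_exp (n : ℤ) (hn : n ≠ 0) :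
    ∫ t in (0 : ℝ)..(2 * π), Complex.exp (Complex.I * n * t) = 0 := by
  have hc : Complex.I * n ≠ 0 := mul_ne_zero Complex.I_ne_zero (by exact_mod_cast hn)
  rw [integral_exp_mul_complex hc, ops_exp_two_pi]
  simp

private lemma ops_integral_exp_neg :
    ∫ t in (0 : ℝ)..(2 * π), Complex.exp (-(Complex.I * t)) = 0 := by
  have h := ops_integral_exp (-1) (by norm_num)
  rw [← h]
  congr 1
  funext t
  congr 1
  push_cast
  ring

private lemma ops_re (c : ℂ) (t : ℝ) :
    (((c * Complex.exp (Complex.I * t)).re : ℝ) : ℂ) =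
      (c * Complex.exp (Complex.I * t) + (starRingEnd ℂ) c * Complex.exp (-(Complex.I * t))) / 2 := by
  rw [Complex.re_eq_add_conj, map_mul, ← Complex.exp_conj, map_mul, Complex.conj_I,
    Complex.conj_ofReal, neg_mul]

private lemma ops_A (c : ℂ) :
    ∫ t in (0 : ℝ)..(2 * π), (((c * Complex.exp (Complex.I * t)).re : ℝ) : ℂ) *
      Complex.exp (-(Complex.I * t)) = π * c := by
  have h1 : ∀ t : ℝ, (((c * Complex.exp (Complex.I * t)).re : ℝ) : ℂ) *
      Complex.exp (-(Complex.I * t)) =
      c / 2 + (starRingEnd ℂ) c / 2 * Complex.exp (Complex.I * (-2 : ℤ) * t) := by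
    intro t
    rw [ops_re]
    have h2 : Complex.exp (Complex.I * t) * Complex.exp (-(Complex.I * t)) = 1 := by
      rw [← Complex.exp_add, add_neg_cancel, Complex.exp_zero]
    have h3 : Complex.exp (-(Complex.I * t)) * Complex.exp (-(Complex.I * t)) =
        Complex.exp (Complex.I * (-2 : ℤ) * t) := by
      rw [← Complex.exp_add]
      congr 1
      push_cast
      ring
    rw [← h3]
    linear_combination (c / 2) * h2
  rw [intervalIntegral.integral_congr (fun t _ => h1 t), intervalIntegral.integral_add,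
    intervalIntegral.integral_const_mul, ops_integral_exp (-2) (by norm_num),
    intervalIntegral.integral_const]
  · rw [sub_zero, mul_zero, add_zero, Complex.real_smul]
    push_cast
    ring
  · exact (continuous_const).intervalIntegrable _ _
  · exact (by fun_prop : Continuous fun t : ℝ => (starRingEnd ℂ) c / 2 *
      Complex.exp (Complex.I * (-2 : ℤ) * t)).intervalIntegrable _ _

private lemma ops_B (c : ℂ) :
    ∫ t in (0 : ℝ)..(2 * π), (c * Complex.exp (Complex.I * t)).re = 0 := by
  have h1 : ∫ t in (0 : ℝ)..(2 * π), c * Complex.exp (Complex.I * t) = 0 := by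
    rw [intervalIntegral.integral_const_mul]
    have := ops_integral_exp 1 (by norm_num)
    simp only [Int.cast_one, mul_one] at this
    rw [this, mul_zero]
  have h2 := Complex.reCLM.intervalIntegral_comp_comm (μ := volume) (a := 0) (b := 2 * π)
    (f := fun t : ℝ => c * Complex.exp (Complex.I * t))
    ((by fun_prop : Continuous fun t : ℝ => c * Complex.exp (Complex.I * t)).intervalIntegrable _ _)
  simp only [Complex.reCLM_apply] at h2
  rw [h2, h1, Complex.zero_re]

section

variable {E : Type} [NormedAddCommGroup E] [InnerProductSpace ℝ E]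

omit [InnerProductSpace ℝ E] in
lemma ops_cont (f : PX E) : Continuous fun t : ℝ => f (t : AddCircle (2 * π)) :=
  f.continuous.comp (AddCircle.continuous_mk' _)

omit [InnerProductSpace ℝ E] in
lemma ops_per (f : PX E) : Function.Periodic (fun t : ℝ => f (t : AddCircle (2 * π))) (2 * π) := by
  intro t
  simp only
  rw [AddCircle.coe_add, AddCircle.coe_period, add_zero]

lemma ops_cont_pp (e : E) (f : PX E) : Continuous fun t : ℝ =>
    ((⟪e, f (t : AddCircle (2 * π))⟫_ℝ : ℝ) : ℂ) * Complex.exp (-(Complex.I * t)) := by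
  have := ops_cont f
  fun_prop

/-- one coordinate of `pp` as a continuous linear map -/
private def ops_ppc (e : E) : PX E →L[ℝ] ℂ :=
  LinearMap.mkContinuous
    { toFun := fun f => (π : ℂ)⁻¹ * ∫ t in (0 : ℝ)..(2 * π),
        ((⟪e, f (t : AddCircle (2 * π))⟫_ℝ : ℝ) : ℂ) * Complex.exp (-(Complex.I * t))
      map_add' := by
        intro f g
        rw [← mul_add, ← intervalIntegral.integral_add ((ops_cont_pp e f).intervalIntegrable _ _)
          ((ops_cont_pp e g).intervalIntegrable _ _)]
        congr 1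
        apply intervalIntegral.integral_congr
        intro t _
        simp only [ContinuousMap.add_apply, inner_add_right, Complex.ofReal_add]
        ring
      map_smul' := by
        intro c f
        rw [RingHom.id_apply, Complex.real_smul, mul_left_comm]
        congr 1
        rw [← intervalIntegral.integral_const_mul]
        apply intervalIntegral.integral_congr
        intro t _
        simp only [ContinuousMap.smul_apply, inner_smul_right, Complex.ofReal_mul]
        ring } (2 * ‖e‖) (by
    intro f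
    have hpi : (0 : ℝ) < 2 * π := Real.two_pi_pos
    have h1 : ‖∫ t in (0 : ℝ)..(2 * π), ((⟪e, f (t : AddCircle (2 * π))⟫_ℝ : ℝ) : ℂ) *
        Complex.exp (-(Complex.I * t))‖ ≤ ‖e‖ * ‖f‖ * |2 * π - 0| := by
      apply intervalIntegral.norm_integral_le_of_norm_le_const
      intro t _
      have h2 : ‖Complex.exp (-(Complex.I * t))‖ = 1 := by
        rw [Complex.norm_exp]
        simp
      rw [norm_mul, h2, mul_one, Complex.norm_real, Real.norm_eq_abs]
      exact (abs_real_inner_le_norm _ _).trans
        (mul_le_mul_of_nonneg_left (f.norm_coe_le_norm _) (norm_nonneg _))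
    rw [sub_zero, abs_of_pos hpi] at h1
    change ‖(π : ℂ)⁻¹ * _‖ ≤ _
    rw [norm_mul, norm_inv, Complex.norm_real, Real.norm_of_nonneg Real.pi_pos.le]
    calc π⁻¹ * _ ≤ π⁻¹ * (‖e‖ * ‖f‖ * (2 * π)) :=
          mul_le_mul_of_nonneg_left h1 (inv_nonneg.mpr Real.pi_pos.le)
      _ = 2 * ‖e‖ * ‖f‖ := by field_simp)

/-- the mean value as a continuous linear map -/
private def ops_mean (E : Type) [NormedAddCommGroup E] [InnerProductSpace ℝ E] : PX E →L[ℝ] E :=
  LinearMap.mkContinuous
    { toFun := fun f => meanX f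
      map_add' := by
        intro f g
        unfold meanX
        rw [← smul_add, ← intervalIntegral.integral_add ((ops_cont f).intervalIntegrable _ _)
          ((ops_cont g).intervalIntegrable _ _)]
        rfl
      map_smul' := by
        intro c f
        unfold meanX
        rw [RingHom.id_apply, smul_comm]
        congr 1
        rw [← intervalIntegral.integral_smul]
        rfl } 1 (by
    intro f
    have hpi : (0 : ℝ) < 2 * π := Real.two_pi_pos
    have h1 : ‖∫ t in (0 : ℝ)..(2 * π), f (t : AddCircle (2 * π))‖ ≤ ‖f‖ * |2 * π - 0| := by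
      apply intervalIntegral.norm_integral_le_of_norm_le_const
      intro t _
      exact f.norm_coe_le_norm _
    rw [sub_zero, abs_of_pos hpi] at h1
    change ‖(2 * π)⁻¹ • ∫ t in (0 : ℝ)..(2 * π), f (t : AddCircle (2 * π))‖ ≤ _
    rw [norm_smul, norm_inv, Real.norm_of_nonneg hpi.le]
    calc (2 * π)⁻¹ * _ ≤ (2 * π)⁻¹ * (‖f‖ * (2 * π)) :=
          mul_le_mul_of_nonneg_left h1 (inv_nonneg.mpr hpi.le)
      _ = 1 * ‖f‖ := by field_simp)

end

/-- Module O1 (file CB/Ops.lean): elementary identities for `meanX`, `pp`, `jjX`, `shiftX`. -/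
theorem ops_identities {E : Type} [NormedAddCommGroup E] [InnerProductSpace ℝ E]
    [FiniteDimensional ℝ E] {m : ℕ} (e : Fin m → E) (he : Orthonormal ℝ e) :
    (∃ M : PX E →L[ℝ] E, ∀ f, M f = meanX f) ∧
    (∃ P : PX E →L[ℝ] Cm m, ∀ f, P f = pp e f) ∧
    (∃ J : Cm m →L[ℝ] PX E, ∀ z, J z = jjX e z) ∧
    (∀ z, pp e (jjX e z) = z) ∧ (∀ z, meanX (jjX e z) = 0) ∧
    (∀ c : E, pp e (ContinuousMap.const _ c) = 0) ∧
    (∀ c : E, meanX (ContinuousMap.const (AddCircle (2 * π)) c) = c) ∧
    (∀ (f : PX E) (θ : ℝ), ‖shiftX θ f‖ = ‖f‖) ∧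
    (∀ (f : PX E) (θ : ℝ), meanX (shiftX θ f) = meanX f) ∧
    (∀ (f : PX E) (θ : ℝ), pp e (shiftX θ f) = Complex.exp (Complex.I * θ) • pp e f) ∧
    (∀ (z : Cm m) (θ : ℝ), jjX e (Complex.exp (Complex.I * θ) • z) = shiftX θ (jjX e z)) ∧
    (∀ z (f : PX E), ∫ t in (0 : ℝ)..(2 * π), ⟪jj e z t, f (t : AddCircle (2 * π))⟫_ℝ
      = π * (inner ℂ z (pp e f)).re) ∧
    (∀ z t, HasDerivAt (jj e z) (jj e (Complex.I • z) t) t) ∧
    (∀ z t, HasDerivAt (jj e (Complex.I • z)) (- jj e z t) t) := by
  have hpi : (0 : ℝ) < 2 * π := Real.two_pi_pos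
  have hpic : (π : ℂ) ≠ 0 := by exact_mod_cast Real.pi_ne_zero
  have hder : ∀ z t, HasDerivAt (jj e z) (jj e (Complex.I • z) t) t := by
    intro z t
    unfold jj
    apply HasDerivAt.fun_sum
    intro j _
    apply HasDerivAt.smul_const
    have h1 : HasDerivAt (fun t : ℝ => Complex.exp (Complex.I * t))
        (Complex.exp (Complex.I * t) * (Complex.I * 1)) t :=
      ((Complex.ofRealCLM.hasDerivAt (x := t)).const_mul Complex.I).cexp
    have h2 := (h1.const_mul (z j))
    have h3 := Complex.reCLM.hasFDerivAt.comp_hasDerivAt t h2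
    have h4 : ((Complex.I • z) j * Complex.exp (Complex.I * t)).re =
        Complex.reCLM (z j * (Complex.exp (Complex.I * t) * (Complex.I * 1))) := by
      rw [Complex.reCLM_apply, PiLp.smul_apply, smul_eq_mul]
      congr 1
      ring
    rw [h4]
    exact h3
  refine ⟨⟨ops_mean E, fun f => rfl⟩, ?_, ?_, ?_, ?_, ?_, ?_, ?_, ?_, ?_, ?_, ?_, hder, ?_⟩
  · refine ⟨((PiLp.continuousLinearEquiv 2 ℝ (fun _ : Fin m => ℂ)).symm :
      (Fin m → ℂ) →L[ℝ] Cm m).comp (ContinuousLinearMap.pi fun j => ops_ppc (e j)), fun f => rfl⟩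
  · let J : Cm m →ₗ[ℝ] PX E :=
      { toFun := jjX e
        map_add' := by
          intro z w
          ext s
          simp only [jjX, ContinuousMap.coe_mk, ContinuousMap.add_apply, PiLp.add_apply, add_mul,
            Complex.add_re, add_smul, Finset.sum_add_distrib]
        map_smul' := by
          intro c z
          ext s
          simp only [jjX, ContinuousMap.coe_mk, ContinuousMap.smul_apply, PiLp.smul_apply,
            Finset.smul_sum, smul_smul, RingHom.id_apply, Complex.real_smul, mul_assoc,
            Complex.re_ofReal_mul] }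
    exact ⟨LinearMap.toContinuousLinearMap J, fun z => rfl⟩
  · intro z
    ext j
    change (π : ℂ)⁻¹ * _ = _
    have h1 : ∀ t : ℝ, ((⟪e j, jjX e z (t : AddCircle (2 * π))⟫_ℝ : ℝ) : ℂ) *
        Complex.exp (-(Complex.I * t)) =
        (((z j * Complex.exp (Complex.I * t)).re : ℝ) : ℂ) * Complex.exp (-(Complex.I * t)) := by
      intro t
      congr 2
      rw [jjX_coe]
      unfold jj
      rw [he.inner_right_fintype]
    rw [intervalIntegral.integral_congr (fun t _ => h1 t), ops_A, ← mul_assoc,
      inv_mul_cancel₀ hpic, one_mul]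
  · intro z
    unfold meanX
    have h1 : ∀ t : ℝ, jjX e z (t : AddCircle (2 * π)) =
        ∑ j, (z j * Complex.exp (Complex.I * t)).re • e j := fun t => jjX_coe e z t
    rw [intervalIntegral.integral_congr (fun t _ => h1 t), intervalIntegral.integral_finsetSum]
    · rw [Finset.sum_eq_zero, smul_zero]
      intro j _
      rw [intervalIntegral.integral_smul_const, ops_B, zero_smul]
    · intro j _
      apply Continuous.intervalIntegrable
      fun_prop
  · intro c
    ext j
    change (π : ℂ)⁻¹ * ∫ t in (0 : ℝ)..(2 * π), ((⟪e j, c⟫_ℝ : ℝ) : ℂ) *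
      Complex.exp (-(Complex.I * t)) = 0
    rw [intervalIntegral.integral_const_mul, ops_integral_exp_neg, mul_zero, mul_zero]
  · intro c
    unfold meanX
    change (2 * π)⁻¹ • (∫ t in (0 : ℝ)..(2 * π), c) = c
    rw [intervalIntegral.integral_const, sub_zero, smul_smul, inv_mul_cancel₀ hpi.ne', one_smul]
  · intro f θ
    apply le_antisymm
    · rw [ContinuousMap.norm_le _ (norm_nonneg _)]
      intro s
      exact f.norm_coe_le_norm _
    · rw [ContinuousMap.norm_le _ (norm_nonneg _)]
      intro s
      have h := (shiftX θ f).norm_coe_le_norm (s - (θ : AddCircle (2 * π)))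
      rwa [shiftX_apply, sub_add_cancel] at h
  · intro f θ
    unfold meanX
    congr 1
    have h1 : ∀ t : ℝ, shiftX θ f (t : AddCircle (2 * π)) =
        (fun t : ℝ => f (t : AddCircle (2 * π))) (t + θ) := by
      intro t
      rw [shiftX_apply, ← AddCircle.coe_add]
    rw [intervalIntegral.integral_congr (fun t _ => h1 t),
      intervalIntegral.integral_comp_add_right (fun t : ℝ => f (t : AddCircle (2 * π))), zero_add,
      add_comm (2 * π) θ]
    have := (ops_per f).intervalIntegral_add_eq θ 0
    rwa [zero_add] at this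
  · intro f θ
    ext j
    change (π : ℂ)⁻¹ * _ = Complex.exp (Complex.I * θ) * ((π : ℂ)⁻¹ * _)
    rw [mul_left_comm]
    congr 1
    let F : ℝ → ℂ := fun t => ((⟪e j, f (t : AddCircle (2 * π))⟫_ℝ : ℝ) : ℂ) *
      Complex.exp (-(Complex.I * t))
    have hF : Function.Periodic F (2 * π) := by
      intro t
      have h2 := ops_per f t
      simp only at h2
      change ((⟪e j, f ((t + 2 * π : ℝ) : AddCircle (2 * π))⟫_ℝ : ℝ) : ℂ) * _ = _
      rw [h2]
      congr 1
      have h3 : -(Complex.I * ((t + 2 * π : ℝ) : ℂ)) =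
          -(Complex.I * t) + Complex.I * (-1 : ℤ) * (2 * π : ℝ) := by
        push_cast
        ring
      rw [h3, Complex.exp_add, ops_exp_two_pi, mul_one]
    have h1 : ∀ t : ℝ, ((⟪e j, shiftX θ f (t : AddCircle (2 * π))⟫_ℝ : ℝ) : ℂ) *
        Complex.exp (-(Complex.I * t)) = Complex.exp (Complex.I * θ) * F (t + θ) := by
      intro t
      change _ = Complex.exp (Complex.I * θ) * (((⟪e j, f ((t + θ : ℝ) :
        AddCircle (2 * π))⟫_ℝ : ℝ) : ℂ) * Complex.exp (-(Complex.I * ((t + θ : ℝ) : ℂ))))
      rw [shiftX_apply, ← AddCircle.coe_add, mul_left_comm, ← Complex.exp_add]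
      congr 2
      push_cast
      ring
    rw [intervalIntegral.integral_congr (fun t _ => h1 t), intervalIntegral.integral_const_mul,
      intervalIntegral.integral_comp_add_right F, zero_add, add_comm (2 * π) θ]
    have := hF.intervalIntegral_add_eq θ 0
    rw [zero_add] at this
    rw [this]
  · intro z θ
    ext s
    induction s using QuotientAddGroup.induction_on with
    | H t =>
      rw [shiftX_apply]
      change jjX e _ (t : AddCircle (2 * π)) = jjX e z ((t : AddCircle (2 * π)) + _)
      rw [← AddCircle.coe_add, jjX_coe, jjX_coe]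
      unfold jj
      apply Finset.sum_congr rfl
      intro j _
      congr 2
      rw [PiLp.smul_apply, smul_eq_mul, mul_comm (Complex.exp _) (z j), mul_assoc,
        ← Complex.exp_add]
      congr 2
      push_cast
      ring
  · intro z f
    have h1 : ∀ t : ℝ, ⟪jj e z t, f (t : AddCircle (2 * π))⟫_ℝ =
        ∑ j, (z j * Complex.exp (Complex.I * t)).re * ⟪e j, f (t : AddCircle (2 * π))⟫_ℝ := by
      intro t
      unfold jj
      rw [sum_inner]
      apply Finset.sum_congr rfl
      intro j _
      rw [real_inner_smul_left]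
    have hc := ops_cont f
    rw [intervalIntegral.integral_congr (fun t _ => h1 t), intervalIntegral.integral_finsetSum]
    · rw [PiLp.inner_apply, Complex.re_sum, Finset.mul_sum]
      apply Finset.sum_congr rfl
      intro j _
      change _ = π * (inner ℂ (z j) ((π : ℂ)⁻¹ * ∫ t in (0 : ℝ)..(2 * π),
        ((⟪e j, f (t : AddCircle (2 * π))⟫_ℝ : ℝ) : ℂ) * Complex.exp (-(Complex.I * t)))).re
      have h2 : inner ℂ (z j) ((π : ℂ)⁻¹ * ∫ t in (0 : ℝ)..(2 * π),
          ((⟪e j, f (t : AddCircle (2 * π))⟫_ℝ : ℝ) : ℂ) * Complex.exp (-(Complex.I * t))) =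
          ((π⁻¹ : ℝ) : ℂ) * ∫ t in (0 : ℝ)..(2 * π), (starRingEnd ℂ) (z j) *
          (((⟪e j, f (t : AddCircle (2 * π))⟫_ℝ : ℝ) : ℂ) * Complex.exp (-(Complex.I * t))) := by
        rw [intervalIntegral.integral_const_mul, RCLike.inner_apply]
        push_cast
        ring
      rw [h2, Complex.re_ofReal_mul, ← mul_assoc, mul_inv_cancel₀ Real.pi_ne_zero, one_mul]
      have h3 := Complex.reCLM.intervalIntegral_comp_comm (μ := volume) (a := 0) (b := 2 * π)
        (f := fun t : ℝ => (starRingEnd ℂ) (z j) *
          (((⟪e j, f (t : AddCircle (2 * π))⟫_ℝ : ℝ) : ℂ) * Complex.exp (-(Complex.I * t))))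
        (by
          apply Continuous.intervalIntegrable
          fun_prop)
      simp only [Complex.reCLM_apply] at h3
      rw [← h3]
      apply intervalIntegral.integral_congr
      intro t _
      simp only
      rw [mul_left_comm, Complex.re_ofReal_mul, mul_comm]
      congr 1
      have h4 : (starRingEnd ℂ) (z j) * Complex.exp (-(Complex.I * t)) =
          (starRingEnd ℂ) (z j * Complex.exp (Complex.I * t)) := by
        rw [map_mul, ← Complex.exp_conj, map_mul, Complex.conj_I, Complex.conj_ofReal, neg_mul]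
      rw [h4, Complex.conj_re]
    · intro j _
      apply Continuous.intervalIntegrable
      fun_prop
  · intro z t
    have h := hder (Complex.I • z) t
    have h1 : jj e (Complex.I • Complex.I • z) t = - jj e z t := by
      unfold jj
      rw [← Finset.sum_neg_distrib]
      apply Finset.sum_congr rfl
      intro j _
      rw [smul_smul, Complex.I_mul_I, PiLp.smul_apply, smul_eq_mul, neg_one_mul, neg_mul,
        Complex.neg_re, neg_smul]
    rw [h1] at h
    exact h

theorem ops_linear {E : Type} [NormedAddCommGroup E] [InnerProductSpace ℝ E]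
    [FiniteDimensional ℝ E] {m : ℕ} (e : Fin m → E) (H : E →L[ℝ] E)
    (hsym : ∀ x y, ⟪H x, y⟫_ℝ = ⟪x, H y⟫_ℝ) (b : ℝ) (hH : ∀ j, H (e j) = b • e j) :
    (∀ f : PX E, meanX ((H : C(E, E)).comp f) = H (meanX f)) ∧
    (∀ f : PX E, pp e ((H : C(E, E)).comp f) = (b : ℂ) • pp e f) ∧
    (∀ z : Cm m, (H : C(E, E)).comp (jjX e z) = b • jjX e z) := by
  refine ⟨fun f => ?_, fun f => ?_, fun z => ?_⟩
  · unfold meanX
    rw [map_smul]
    congr 1
    exact H.intervalIntegral_comp_comm (μ := volume) ((ops_cont f).intervalIntegrable _ _)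
  · ext j
    change (π : ℂ)⁻¹ * _ = (b : ℂ) * ((π : ℂ)⁻¹ * _)
    rw [mul_left_comm]
    congr 1
    rw [← intervalIntegral.integral_const_mul]
    apply intervalIntegral.integral_congr
    intro t _
    change ((⟪e j, H (f (t : AddCircle (2 * π)))⟫_ℝ : ℝ) : ℂ) * _ = _
    simp only
    rw [← hsym, hH, real_inner_smul_left, Complex.ofReal_mul, mul_assoc]
  · ext s
    change H (∑ j, (z j * (AddCircle.toCircle s : ℂ)).re • e j) =
      b • ∑ j, (z j * (AddCircle.toCircle s : ℂ)).re • e j
    rw [map_sum, Finset.smul_sum]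
    apply Finset.sum_congr rfl
    intro j _
    rw [map_smul, hH, smul_comm]

end

end Pool.Agent.Helper24.CB
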