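import Pool.Agent.Helper24.CB.Space
import Pool.Agent.Helper24.CB.Kernel

/-!
# The solution operator
-/

open MeasureTheory Set Metric Topology
open scoped Real InnerProductSpace

namespace Pool.Agent.Helper24.CB

noncomputable section

namespace SO

/-! ### The key lemma -/

lemma key {g g' : ℝ → ℝ} (hg : ∀ τ, HasDerivAt g (g' τ) τ) (hg'c : Continuous g') {F : ℝ → ℝ}
    (hF : Continuous F) {M : ℝ} (hM : ∀ s, |F s| ≤ M) (hper : ∀ s, F (s + 2 * π) = F s) (t : ℝ) :
    HasDerivAt (fun t => ∫ τ in (0 : ℝ)..(2 * π), g τ * F (t + τ))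
      ((g (2 * π) - g 0) * F t - ∫ τ in (0 : ℝ)..(2 * π), g' τ * F (t + τ)) t := by
  have hgc : Continuous g := continuous_iff_continuousAt.2 fun τ => (hg τ).continuousAt
  set P : ℝ → ℝ := fun t => ∫ s in (0 : ℝ)..t, F s with hP
  have hPd : ∀ t, HasDerivAt P (F t) t := fun t =>
    intervalIntegral.integral_hasDerivAt_right (hF.intervalIntegrable _ _)
      (hF.stronglyMeasurableAtFilter _ _) hF.continuousAt
  have hPc : Continuous P := continuous_iff_continuousAt.2 fun t => (hPd t).continuousAt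
  have hparts : ∀ t : ℝ, ∫ τ in (0 : ℝ)..(2 * π), g τ * F (t + τ) =
      g (2 * π) * P (t + 2 * π) - g 0 * P (t + 0) - ∫ τ in (0 : ℝ)..(2 * π), g' τ * P (t + τ) := by
    intro t
    have h1 : ∀ τ ∈ uIcc (0 : ℝ) (2 * π), HasDerivAt (fun τ => P (t + τ)) (F (t + τ)) τ :=
      fun τ _ => by
        have := (hPd (t + τ)).comp_const_add t τ
        exact this
    exact intervalIntegral.integral_mul_deriv_eq_deriv_mul (fun τ _ => hg τ) h1
      (hg'c.intervalIntegrable _ _) ((hF.comp (continuous_const.add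
        continuous_id)).intervalIntegrable _ _)
  have hint : HasDerivAt (fun t => ∫ τ in (0 : ℝ)..(2 * π), g' τ * P (t + τ))
      (∫ τ in (0 : ℝ)..(2 * π), g' τ * F (t + τ)) t := by
    refine (intervalIntegral.hasDerivAt_integral_of_dominated_loc_of_deriv_le
      (μ := volume) (a := 0) (b := 2 * π)
      (F := fun t τ => g' τ * P (t + τ)) (F' := fun t τ => g' τ * F (t + τ))
      (x₀ := t) (s := Metric.ball t 1) (bound := fun τ => |g' τ| * M)
      (Metric.ball_mem_nhds t one_pos)
      (Filter.Eventually.of_forall fun y => Continuous.aestronglyMeasurable (by fun_prop))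
      (Continuous.intervalIntegrable (by fun_prop) _ _)
      (Continuous.aestronglyMeasurable (by fun_prop))
      (Filter.Eventually.of_forall fun τ _ y _ => ?_)
      (Continuous.intervalIntegrable (by fun_prop) _ _)
      (Filter.Eventually.of_forall fun τ _ y _ => ?_)).2
    · rw [Real.norm_eq_abs, abs_mul]
      exact mul_le_mul_of_nonneg_left (hM _) (abs_nonneg _)
    · exact ((hPd (y + τ)).comp_add_const y τ).const_mul _
  have h1 : HasDerivAt (fun t => g (2 * π) * P (t + 2 * π) - g 0 * P (t + 0) -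
      ∫ τ in (0 : ℝ)..(2 * π), g' τ * P (t + τ))
      (g (2 * π) * F (t + 2 * π) - g 0 * F (t + 0) -
        ∫ τ in (0 : ℝ)..(2 * π), g' τ * F (t + τ)) t :=
    ((((hPd (t + 2 * π)).comp_add_const t (2 * π)).const_mul _).sub
      (((hPd (t + 0)).comp_add_const t 0).const_mul _)).sub hint
  have h2 : (fun t => ∫ τ in (0 : ℝ)..(2 * π), g τ * F (t + τ)) =
      fun t => g (2 * π) * P (t + 2 * π) - g 0 * P (t + 0) -
      ∫ τ in (0 : ℝ)..(2 * π), g' τ * P (t + τ) := funext hparts
  rw [h2]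
  refine h1.congr_deriv ?_
  rw [hper, add_zero]
  ring

lemma int_shift {V : Type*} [NormedAddCommGroup V] [NormedSpace ℝ V] {F : ℝ → V}
    (hper : Function.Periodic F (2 * π)) (t : ℝ) :
    ∫ τ in (0 : ℝ)..(2 * π), F (t + τ) = ∫ τ in (0 : ℝ)..(2 * π), F τ := by
  rw [intervalIntegral.integral_comp_add_left (fun x => F x) t, add_zero]
  have := hper.intervalIntegral_add_eq t 0
  rw [zero_add] at this
  exact this

set_option linter.unusedSectionVars false

variable {E : Type} [NormedAddCommGroup E] [InnerProductSpace ℝ E]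

lemma per_X (f : PX E) : Function.Periodic (fun t : ℝ => f (t : AddCircle (2 * π))) (2 * π) := by
  intro t
  simp only
  rw [AddCircle.coe_add, AddCircle.coe_period, add_zero]

lemma cont_X (f : PX E) : Continuous (fun t : ℝ => f (t : AddCircle (2 * π))) := by
  fun_prop

/-- the shift as a continuous linear map -/
def shiftL (θ : ℝ) : PX E →L[ℝ] PX E :=
  LinearMap.mkContinuous
    { toFun := shiftX θ
      map_add' := fun f g => rfl
      map_smul' := fun c f => rfl } 1 fun f => by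
    rw [one_mul]
    exact (ContinuousMap.norm_le _ (norm_nonneg f)).2 fun s => f.norm_coe_le_norm _

@[simp] lemma shiftL_apply (θ : ℝ) (f : PX E) : shiftL θ f = shiftX θ f := rfl

lemma cont_shift (f : PX E) : Continuous fun τ : ℝ => shiftX τ f := by
  set F : C(ℝ × AddCircle (2 * π), E) :=
    ⟨fun p => f (p.2 + (p.1 : AddCircle (2 * π))), by fun_prop⟩ with hF
  have : (fun τ : ℝ => shiftX τ f) = fun τ => F.curry τ := by
    funext τ
    ext s
    rfl
  rw [this]
  exact F.curry.continuous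

lemma shift_shift (θ τ : ℝ) (f : PX E) : shiftX τ (shiftX θ f) = shiftX θ (shiftX τ f) := by
  ext s
  simp only [shiftX_apply]
  congr 1
  abel

/-- the mean value as a continuous linear map -/
def meanL : PX E →L[ℝ] E :=
  LinearMap.mkContinuous
    { toFun := meanX
      map_add' := fun f g => by
        unfold meanX
        rw [← smul_add, ← intervalIntegral.integral_add ((cont_X f).intervalIntegrable _ _)
          ((cont_X g).intervalIntegrable _ _)]
        rfl
      map_smul' := fun c f => by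
        unfold meanX
        rw [RingHom.id_apply, smul_comm c]
        congr 1
        exact intervalIntegral.integral_smul c _ } 1 fun f => by
    rw [one_mul]
    change ‖meanX f‖ ≤ ‖f‖
    unfold meanX
    rw [norm_smul, norm_inv]
    have h1 : ‖∫ t in (0 : ℝ)..(2 * π), f (t : AddCircle (2 * π))‖ ≤ ‖f‖ * |2 * π - 0| :=
      intervalIntegral.norm_integral_le_of_norm_le_const fun t _ => f.norm_coe_le_norm _
    have hp : 0 < 2 * π := by positivity
    rw [sub_zero, abs_of_pos hp] at h1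
    rw [Real.norm_eq_abs, abs_of_pos hp]
    calc (2 * π)⁻¹ * ‖∫ t in (0 : ℝ)..(2 * π), f (t : AddCircle (2 * π))‖ ≤
        (2 * π)⁻¹ * (‖f‖ * (2 * π)) := by gcongr
      _ = ‖f‖ := by field_simp

@[simp] lemma meanL_apply (f : PX E) : meanL f = meanX f := rfl

/-- Fourier coefficient of `⟪v, f⟫`. -/
def fc (v : E) (f : PX E) : ℂ := (π : ℂ)⁻¹ * ∫ t in (0 : ℝ)..(2 * π),
  ((⟪v, f (t : AddCircle (2 * π))⟫_ℝ : ℝ) : ℂ) * Complex.exp (-(Complex.I * t))

lemma fc_int (v : E) (f : PX E) : IntervalIntegrable (fun t : ℝ =>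
    ((⟪v, f (t : AddCircle (2 * π))⟫_ℝ : ℝ) : ℂ) * Complex.exp (-(Complex.I * t)))
    volume 0 (2 * π) := by
  apply Continuous.intervalIntegrable
  have h1 : Continuous fun t : ℝ => ⟪v, f (t : AddCircle (2 * π))⟫_ℝ :=
    continuous_const.inner (cont_X f)
  exact (Complex.continuous_ofReal.comp h1).mul (by fun_prop)

lemma norm_exp_neg_I (t : ℝ) : ‖Complex.exp (-(Complex.I * t))‖ = 1 := by
  have : -(Complex.I * t) = ((-t : ℝ) : ℂ) * Complex.I := by push_cast; ring
  rw [this, Complex.norm_exp_ofReal_mul_I]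

/-- The same as a continuous linear map. -/
def fcL (v : E) : PX E →L[ℝ] ℂ :=
  LinearMap.mkContinuous
    { toFun := fc v
      map_add' := fun f g => by
        unfold fc
        rw [← mul_add, ← intervalIntegral.integral_add (fc_int v f) (fc_int v g)]
        congr 1
        refine intervalIntegral.integral_congr fun t _ => ?_
        simp only [ContinuousMap.add_apply, inner_add_right]
        push_cast
        ring
      map_smul' := fun c f => by
        unfold fc
        rw [RingHom.id_apply, Complex.real_smul, mul_left_comm (c : ℂ),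
          ← intervalIntegral.integral_const_mul (c : ℂ)]
        refine congrArg (fun z : ℂ => (π : ℂ)⁻¹ * z) ?_
        refine intervalIntegral.integral_congr fun t _ => ?_
        simp only [ContinuousMap.smul_apply, inner_smul_right]
        push_cast
        ring } (2 * ‖v‖) fun f => by
    change ‖fc v f‖ ≤ 2 * ‖v‖ * ‖f‖
    unfold fc
    have h1 : ‖∫ t in (0 : ℝ)..(2 * π), ((⟪v, f (t : AddCircle (2 * π))⟫_ℝ : ℝ) : ℂ) *
        Complex.exp (-(Complex.I * t))‖ ≤ (‖v‖ * ‖f‖) * |2 * π - 0| := by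
      refine intervalIntegral.norm_integral_le_of_norm_le_const fun t _ => ?_
      rw [norm_mul, norm_exp_neg_I, mul_one, Complex.norm_real]
      exact (norm_inner_le_norm (𝕜 := ℝ) _ _).trans
        (mul_le_mul_of_nonneg_left (f.norm_coe_le_norm _) (norm_nonneg _))
    have hp : 0 < 2 * π := by positivity
    rw [sub_zero, abs_of_pos hp] at h1
    rw [norm_mul, norm_inv, Complex.norm_real, Real.norm_eq_abs, abs_of_pos Real.pi_pos]
    calc π⁻¹ * ‖∫ t in (0 : ℝ)..(2 * π), ((⟪v, f (t : AddCircle (2 * π))⟫_ℝ : ℝ) : ℂ) *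
        Complex.exp (-(Complex.I * t))‖ ≤ π⁻¹ * ((‖v‖ * ‖f‖) * (2 * π)) := by gcongr
      _ = 2 * ‖v‖ * ‖f‖ := by
        have := Real.pi_ne_zero
        field_simp

@[simp] lemma fcL_apply (v : E) (f : PX E) : fcL v f = fc v f := rfl

/-- the rank one projection on the function space -/
def PL (b : E) : PX E →L[ℝ] PX E :=
  LinearMap.mkContinuous
    { toFun := fun f => ⟨fun s => ⟪b, f s⟫_ℝ • b, by fun_prop⟩
      map_add' := fun f g => by
        ext s
        simp only [ContinuousMap.coe_mk, ContinuousMap.add_apply, inner_add_right, add_smul]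
      map_smul' := fun c f => by
        ext s
        simp only [ContinuousMap.coe_mk, ContinuousMap.smul_apply, inner_smul_right,
          RingHom.id_apply, mul_smul] } (‖b‖ ^ 2) fun f => by
    refine (ContinuousMap.norm_le _ (by positivity)).2 fun s => ?_
    simp only [LinearMap.coe_mk, AddHom.coe_mk, ContinuousMap.coe_mk]
    rw [norm_smul]
    calc ‖⟪b, f s⟫_ℝ‖ * ‖b‖ ≤ (‖b‖ * ‖f s‖) * ‖b‖ := by
          gcongr; exact norm_inner_le_norm _ _
      _ ≤ (‖b‖ * ‖f‖) * ‖b‖ := by
          gcongr; exact f.norm_coe_le_norm _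
      _ = ‖b‖ ^ 2 * ‖f‖ := by ring

lemma PL_apply (b : E) (f : PX E) (s : AddCircle (2 * π)) : PL b f s = ⟪b, f s⟫_ℝ • b := rfl

lemma PL_shift (b : E) (θ : ℝ) (f : PX E) : PL b (shiftX θ f) = shiftX θ (PL b f) := rfl

lemma conv_int {g : ℝ → ℝ} (hg : Continuous g) (b : E) (f : PX E) :
    IntervalIntegrable (fun τ : ℝ => g τ • PL b (shiftX τ f)) volume 0 (2 * π) :=
  (hg.smul ((PL b).continuous.comp (cont_shift f))).intervalIntegrable _ _

lemma norm_shift (τ : ℝ) (f : PX E) : ‖shiftX τ f‖ ≤ ‖f‖ :=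
  (ContinuousMap.norm_le _ (norm_nonneg f)).2 fun _ => f.norm_coe_le_norm _

lemma norm_PL (b : E) (f : PX E) : ‖PL b f‖ ≤ ‖b‖ ^ 2 * ‖f‖ := by
  refine (ContinuousMap.norm_le _ (by positivity)).2 fun s => ?_
  rw [PL_apply, norm_smul]
  calc ‖⟪b, f s⟫_ℝ‖ * ‖b‖ ≤ (‖b‖ * ‖f s‖) * ‖b‖ := by
        gcongr; exact norm_inner_le_norm _ _
    _ ≤ (‖b‖ * ‖f‖) * ‖b‖ := by
        gcongr; exact f.norm_coe_le_norm _
    _ = ‖b‖ ^ 2 * ‖f‖ := by ring

/-- convolution with the kernel along the direction `b` -/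
def conv (g : ℝ → ℝ) (b : E) (f : PX E) : PX E :=
  ∫ τ in (0 : ℝ)..(2 * π), g τ • PL b (shiftX τ f)

lemma exists_convL {g : ℝ → ℝ} (hg : Continuous g) (b : E) :
    ∃ C : PX E →L[ℝ] PX E, ∀ f, C f = conv g b f := by
  obtain ⟨M, hM⟩ := (isCompact_Icc (a := (0 : ℝ)) (b := 2 * π)).exists_bound_of_continuousOn
    hg.continuousOn
  have hp : 0 < 2 * π := by positivity
  have hM0 : 0 ≤ M := (norm_nonneg _).trans (hM 0 ⟨le_rfl, hp.le⟩)
  refine ⟨LinearMap.mkContinuous
    { toFun := conv g b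
      map_add' := fun f h => by
        unfold conv
        rw [← intervalIntegral.integral_add (conv_int hg b f) (conv_int hg b h)]
        refine intervalIntegral.integral_congr fun τ _ => ?_
        change g τ • PL b (shiftL τ (f + h)) = g τ • PL b (shiftL τ f) + g τ • PL b (shiftL τ h)
        rw [map_add, map_add, smul_add]
      map_smul' := fun c f => by
        unfold conv
        rw [RingHom.id_apply, ← intervalIntegral.integral_smul]
        refine intervalIntegral.integral_congr fun τ _ => ?_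
        change g τ • PL b (shiftL τ (c • f)) = c • g τ • PL b (shiftL τ f)
        rw [map_smul, map_smul, smul_comm] } (M * ‖b‖ ^ 2 * (2 * π)) fun f => ?_, fun f => rfl⟩
  change ‖conv g b f‖ ≤ _
  unfold conv
  have h1 : ‖∫ τ in (0 : ℝ)..(2 * π), g τ • PL b (shiftX τ f)‖ ≤
      (M * (‖b‖ ^ 2 * ‖f‖)) * |2 * π - 0| := by
    refine intervalIntegral.norm_integral_le_of_norm_le_const fun τ hτ => ?_
    rw [uIoc_of_le hp.le] at hτ
    rw [norm_smul]
    refine mul_le_mul (hM τ ⟨hτ.1.le, hτ.2⟩) ?_ (norm_nonneg _) hM0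
    refine (norm_PL b _).trans ?_
    gcongr
    exact norm_shift τ f
  rw [sub_zero, abs_of_pos hp] at h1
  calc _ ≤ _ := h1
    _ = _ := by ring

lemma conv_apply [CompleteSpace E] {g : ℝ → ℝ} (hg : Continuous g) (b : E) (f : PX E) (t : ℝ) :
    conv g b f (t : AddCircle (2 * π)) =
      (∫ τ in (0 : ℝ)..(2 * π), g τ * ⟪b, f ((t + τ : ℝ) : AddCircle (2 * π))⟫_ℝ) • b := by
  have h1 := ContinuousLinearMap.intervalIntegral_comp_comm
    (ContinuousMap.evalCLM ℝ (t : AddCircle (2 * π)) : PX E →L[ℝ] E) (conv_int hg b f)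
  have h2 : conv g b f (t : AddCircle (2 * π)) = ContinuousMap.evalCLM ℝ (t : AddCircle (2 * π))
      (∫ τ in (0 : ℝ)..(2 * π), g τ • PL b (shiftX τ f)) := rfl
  rw [h2, ← h1, ← intervalIntegral.integral_smul_const]
  refine intervalIntegral.integral_congr fun τ _ => ?_
  change g τ • (⟪b, f ((t : AddCircle (2 * π)) + (τ : AddCircle (2 * π)))⟫_ℝ • b) = _
  rw [smul_smul, AddCircle.coe_add]

lemma conv_shift [CompleteSpace E] {g : ℝ → ℝ} (hg : Continuous g) (b : E) (θ : ℝ) (f : PX E) :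
    conv g b (shiftX θ f) = shiftX θ (conv g b f) := by
  have h1 := ContinuousLinearMap.intervalIntegral_comp_comm (shiftL θ : PX E →L[ℝ] PX E)
    (conv_int hg b f)
  have h2 : shiftX θ (conv g b f) = shiftL θ
      (∫ τ in (0 : ℝ)..(2 * π), g τ • PL b (shiftX τ f)) := rfl
  rw [h2, ← h1]
  unfold conv
  refine intervalIntegral.integral_congr fun τ _ => ?_
  rw [map_smul, shiftL_apply, shift_shift, PL_shift]

lemma mean_shift (θ : ℝ) (f : PX E) : meanX (shiftX θ f) = meanX f := by
  unfold meanX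
  congr 1
  rw [← int_shift (per_X f) θ]
  refine intervalIntegral.integral_congr fun τ _ => ?_
  simp only [shiftX_apply]
  rw [AddCircle.coe_add, add_comm]

lemma mean_conv [CompleteSpace E] {g : ℝ → ℝ} (hg : Continuous g)
    (h0 : (∫ τ in (0 : ℝ)..(2 * π), g τ) = 0) (b : E) (f : PX E) :
    meanX (conv g b f) = 0 := by
  have h1 := ContinuousLinearMap.intervalIntegral_comp_comm (meanL : PX E →L[ℝ] E)
    (conv_int hg b f)
  have h2 : meanX (conv g b f) = meanL
      (∫ τ in (0 : ℝ)..(2 * π), g τ • PL b (shiftX τ f)) := rfl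
  rw [h2, ← h1]
  have h3 : ∀ τ : ℝ, meanL (g τ • PL b (shiftX τ f)) = g τ • meanX (PL b f) := by
    intro τ
    rw [map_smul, meanL_apply, PL_shift, mean_shift]
  simp only [h3]
  rw [intervalIntegral.integral_smul_const, h0, zero_smul]

lemma fc_shift (v : E) (θ : ℝ) (f : PX E) :
    fc v (shiftX θ f) = Complex.exp (Complex.I * θ) * fc v f := by
  unfold fc
  rw [mul_left_comm]
  congr 1
  rw [← intervalIntegral.integral_const_mul]
  set G : ℝ → ℂ := fun t => ((⟪v, f (t : AddCircle (2 * π))⟫_ℝ : ℝ) : ℂ) *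
    Complex.exp (-(Complex.I * t)) with hG
  have hper : Function.Periodic G (2 * π) := by
    intro t
    have h1 := per_X f t
    simp only at h1
    simp only [hG]
    rw [h1]
    congr 1
    have : -(Complex.I * ((t + 2 * π : ℝ) : ℂ)) = -(Complex.I * t) - 2 * π * Complex.I := by
      push_cast; ring
    rw [this, Complex.exp_sub, Complex.exp_two_pi_mul_I, div_one]
  have h2 := int_shift (V := ℂ) (F := fun t => Complex.exp (Complex.I * θ) * G t)
    (fun t => by simp only [hper t]) θ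
  rw [← h2]
  refine intervalIntegral.integral_congr fun τ _ => ?_
  simp only [shiftX_apply, hG]
  rw [AddCircle.coe_add, add_comm (θ : AddCircle (2 * π))]
  have h3 : Complex.exp (Complex.I * θ) * Complex.exp (-(Complex.I * ((θ + τ : ℝ) : ℂ))) =
      Complex.exp (-(Complex.I * τ)) := by
    rw [← Complex.exp_add]
    congr 1
    push_cast
    ring
  rw [← h3]
  ring

lemma fc_conv [CompleteSpace E] {g : ℝ → ℝ} (hg : Continuous g) (v b : E) (f : PX E) :
    fc v (conv g b f) = (∫ τ in (0 : ℝ)..(2 * π), (g τ : ℂ) * Complex.exp (Complex.I * τ)) *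
      fc v (PL b f) := by
  have h1 := ContinuousLinearMap.intervalIntegral_comp_comm (fcL v : PX E →L[ℝ] ℂ)
    (conv_int hg b f)
  have h2 : fc v (conv g b f) = fcL v
      (∫ τ in (0 : ℝ)..(2 * π), g τ • PL b (shiftX τ f)) := rfl
  rw [h2, ← h1, ← intervalIntegral.integral_mul_const]
  refine intervalIntegral.integral_congr fun τ _ => ?_
  rw [map_smul, fcL_apply, PL_shift, fc_shift, Complex.real_smul]
  ring

lemma int_exp {g : ℝ → ℝ} (hg : Continuous g)
    (hc : (∫ τ in (0 : ℝ)..(2 * π), g τ * Real.cos τ) = 0)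
    (hs : (∫ τ in (0 : ℝ)..(2 * π), g τ * Real.sin τ) = 0) :
    (∫ τ in (0 : ℝ)..(2 * π), (g τ : ℂ) * Complex.exp (Complex.I * τ)) = 0 := by
  have h1 : ∀ τ : ℝ, (g τ : ℂ) * Complex.exp (Complex.I * τ) =
      ((g τ * Real.cos τ : ℝ) : ℂ) + ((g τ * Real.sin τ : ℝ) : ℂ) * Complex.I := by
    intro τ
    rw [mul_comm Complex.I, Complex.exp_mul_I]
    push_cast
    ring
  simp only [h1]
  rw [intervalIntegral.integral_add, intervalIntegral.integral_mul_const,
    intervalIntegral.integral_ofReal, intervalIntegral.integral_ofReal, hc, hs]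
  · simp
  · exact Continuous.intervalIntegrable (by fun_prop) _ _
  · exact Continuous.intervalIntegrable (by fun_prop) _ _

lemma fc_PL_zero {v b : E} (h : ⟪v, b⟫_ℝ = 0) (f : PX E) : fc v (PL b f) = 0 := by
  unfold fc
  have : ∀ t : ℝ, ((⟪v, PL b f (t : AddCircle (2 * π))⟫_ℝ : ℝ) : ℂ) *
      Complex.exp (-(Complex.I * t)) = 0 := by
    intro t
    rw [PL_apply, inner_smul_right, h]
    simp
  simp only [this]
  simp

/-! ### Derivatives of the coefficient function -/

lemma deriv1 {g g' : ℝ → ℝ} (hg : ∀ τ, HasDerivAt g (g' τ) τ) (hg'c : Continuous g')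
    (hper : g (2 * π) = g 0) (b : E) (f : PX E) (t : ℝ) :
    HasDerivAt (fun t : ℝ => ∫ τ in (0 : ℝ)..(2 * π),
        g τ * ⟪b, f ((t + τ : ℝ) : AddCircle (2 * π))⟫_ℝ)
      (- ∫ τ in (0 : ℝ)..(2 * π), g' τ * ⟪b, f ((t + τ : ℝ) : AddCircle (2 * π))⟫_ℝ) t := by
  have h := key hg hg'c (F := fun s : ℝ => ⟪b, f (s : AddCircle (2 * π))⟫_ℝ)
    (continuous_const.inner (cont_X f)) (M := ‖b‖ * ‖f‖)
    (fun s => by
      refine (abs_real_inner_le_norm _ _).trans ?_
      gcongr
      exact f.norm_coe_le_norm _)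
    (fun s => by
      have := per_X f s
      simp only at this
      rw [this]) t
  refine h.congr_deriv ?_
  rw [hper, sub_self, zero_mul, zero_sub]

lemma deriv2 {g' g'' : ℝ → ℝ} (hg' : ∀ τ, HasDerivAt g' (g'' τ) τ) (hg''c : Continuous g'')
    (hjump : g' 0 - g' (2 * π) = 1) (b : E) (f : PX E) (t : ℝ) :
    HasDerivAt (fun t : ℝ => - ∫ τ in (0 : ℝ)..(2 * π),
        g' τ * ⟪b, f ((t + τ : ℝ) : AddCircle (2 * π))⟫_ℝ)
      (⟪b, f (t : AddCircle (2 * π))⟫_ℝ +
        ∫ τ in (0 : ℝ)..(2 * π), g'' τ * ⟪b, f ((t + τ : ℝ) : AddCircle (2 * π))⟫_ℝ) t := by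
  have h := key hg' hg''c (F := fun s : ℝ => ⟪b, f (s : AddCircle (2 * π))⟫_ℝ)
    (continuous_const.inner (cont_X f)) (M := ‖b‖ * ‖f‖)
    (fun s => by
      refine (abs_real_inner_le_norm _ _).trans ?_
      gcongr
      exact f.norm_coe_le_norm _)
    (fun s => by
      have := per_X f s
      simp only at this
      rw [this]) t
  refine h.neg.congr_deriv ?_
  have : g' (2 * π) - g' 0 = -1 := by linarith
  rw [this]
  ring

/-- the vector whose projection is the first mode -/
def wv (f : PX E) (t : ℝ) : E :=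
  ∫ τ in (0 : ℝ)..(2 * π), (π⁻¹ * Real.cos τ) • f ((t + τ : ℝ) : AddCircle (2 * π))

lemma cont_t (f : PX E) (t : ℝ) :
    Continuous fun τ : ℝ => f ((t + τ : ℝ) : AddCircle (2 * π)) := by fun_prop

lemma wv_inner [CompleteSpace E] (v : E) (f : PX E) (t : ℝ) :
    ⟪v, wv f t⟫_ℝ = ∫ τ in (0 : ℝ)..(2 * π), (π⁻¹ * Real.cos τ) *
      ⟪v, f ((t + τ : ℝ) : AddCircle (2 * π))⟫_ℝ := by
  unfold wv
  have h := ContinuousLinearMap.intervalIntegral_comp_comm (innerSL ℝ v)
    (a := 0) (b := 2 * π) (μ := volume)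
    (f := fun τ : ℝ => (π⁻¹ * Real.cos τ) • f ((t + τ : ℝ) : AddCircle (2 * π)))
    (Continuous.intervalIntegrable ((by fun_prop : Continuous fun τ : ℝ => π⁻¹ * Real.cos τ).smul
      (cont_t f t)) _ _)
  simp only [innerSL_apply_apply, inner_smul_right] at h
  exact h.symm

lemma mean_inner [CompleteSpace E] (v : E) (f : PX E) (t : ℝ) :
    ⟪v, meanX f⟫_ℝ = ∫ τ in (0 : ℝ)..(2 * π), (2 * π)⁻¹ *
      ⟪v, f ((t + τ : ℝ) : AddCircle (2 * π))⟫_ℝ := by
  have h := ContinuousLinearMap.intervalIntegral_comp_comm (innerSL ℝ v)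
    (a := 0) (b := 2 * π) (μ := volume)
    (f := fun τ : ℝ => f ((t + τ : ℝ) : AddCircle (2 * π)))
    (Continuous.intervalIntegrable (cont_t f t) _ _)
  simp only [innerSL_apply_apply] at h
  rw [intervalIntegral.integral_const_mul, h]
  unfold meanX
  rw [inner_smul_right]
  congr 2
  exact (int_shift (per_X f) t).symm

lemma mode_wv [CompleteSpace E] (v : E) (f : PX E) (t : ℝ) :
    (fc v f * Complex.exp (Complex.I * t)).re = ⟪v, wv f t⟫_ℝ := by
  rw [wv_inner]
  have h1 : fc v f * Complex.exp (Complex.I * t) = fc v (shiftX t f) := by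
    rw [fc_shift, mul_comm]
  rw [h1]
  unfold fc
  have h2 : ∀ s : ℝ, ((⟪v, shiftX t f (s : AddCircle (2 * π))⟫_ℝ : ℝ) : ℂ) *
      Complex.exp (-(Complex.I * s)) =
      ((Real.cos s * ⟪v, f ((t + s : ℝ) : AddCircle (2 * π))⟫_ℝ : ℝ) : ℂ) -
      ((Real.sin s * ⟪v, f ((t + s : ℝ) : AddCircle (2 * π))⟫_ℝ : ℝ) : ℂ) * Complex.I := by
    intro s
    have h3 : -(Complex.I * s) = ((-s : ℝ) : ℂ) * Complex.I := by push_cast; ring
    rw [h3, Complex.exp_mul_I, shiftX_apply, AddCircle.coe_add, add_comm (s : AddCircle (2 * π)),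
      ← Complex.ofReal_cos, ← Complex.ofReal_sin, Real.cos_neg, Real.sin_neg]
    push_cast
    ring
  simp only [h2]
  have hc : Continuous fun s : ℝ => ⟪v, f ((t + s : ℝ) : AddCircle (2 * π))⟫_ℝ :=
    continuous_const.inner (cont_t f t)
  rw [intervalIntegral.integral_sub, intervalIntegral.integral_mul_const,
    intervalIntegral.integral_ofReal, intervalIntegral.integral_ofReal]
  · have h4 : ∀ A B : ℝ, ((π : ℂ)⁻¹ * ((A : ℂ) - (B : ℂ) * Complex.I)).re = π⁻¹ * A := by
      intro A B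
      rw [← Complex.ofReal_inv, Complex.re_ofReal_mul]
      simp
    rw [h4, ← intervalIntegral.integral_const_mul]
    refine intervalIntegral.integral_congr fun s _ => ?_
    ring
  · exact Continuous.intervalIntegrable (Complex.continuous_ofReal.comp
      (Real.continuous_cos.mul hc)) _ _
  · exact Continuous.intervalIntegrable ((Complex.continuous_ofReal.comp
      (Real.continuous_sin.mul hc)).mul continuous_const) _ _

/-! ### Linear algebra -/

lemma sum_span {m : ℕ} {e : Fin m → E} (he : Orthonormal ℝ e) {x : E}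
    (hx : x ∈ Submodule.span ℝ (range e)) : ∑ j, ⟪e j, x⟫_ℝ • e j = x := by
  let P : E →ₗ[ℝ] E := ∑ j, (innerₛₗ ℝ (e j)).smulRight (e j)
  have hP : ∀ y, P y = ∑ j, ⟪e j, y⟫_ℝ • e j := by
    intro y
    simp only [P, LinearMap.sum_apply, LinearMap.smulRight_apply, innerₛₗ_apply_apply]
  rw [← hP]
  have h : EqOn P (LinearMap.id : E →ₗ[ℝ] E) (Submodule.span ℝ (range e)) := by
    apply LinearMap.eqOn_span
    rintro _ ⟨k, rfl⟩
    rw [hP, LinearMap.id_apply]
    rw [Finset.sum_eq_single k]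
    · rw [real_inner_self_eq_norm_sq, he.1 k]
      simp
    · intro j _ hj
      rw [he.2 hj, zero_smul]
    · intro h
      exact absurd (Finset.mem_univ k) h
  exact h hx

lemma sum_jj {m : ℕ} (e : Fin m → E) (b : E) (z : Cm m) (s : ℝ) :
    ⟪b, jjX e z (s : AddCircle (2 * π))⟫_ℝ =
      ∑ j, (z j * Complex.exp (Complex.I * s)).re * ⟪b, e j⟫_ℝ := by
  rw [jjX_coe]
  unfold jj
  rw [inner_sum]
  simp only [inner_smul_right]

lemma conv_jj {g : ℝ → ℝ} (hg : Continuous g)
    (hc : (∫ τ in (0 : ℝ)..(2 * π), g τ * Real.cos τ) = 0)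
    (hs : (∫ τ in (0 : ℝ)..(2 * π), g τ * Real.sin τ) = 0) {m : ℕ} (e : Fin m → E) (b : E)
    (z : Cm m) (t : ℝ) :
    (∫ τ in (0 : ℝ)..(2 * π), g τ * ⟪b, jjX e z ((t + τ : ℝ) : AddCircle (2 * π))⟫_ℝ) = 0 := by
  have h1 : ∀ τ : ℝ, g τ * ⟪b, jjX e z ((t + τ : ℝ) : AddCircle (2 * π))⟫_ℝ =
      (∑ j, (z j * Complex.exp (Complex.I * t)).re * ⟪b, e j⟫_ℝ) * (g τ * Real.cos τ) -
      (∑ j, (z j * Complex.exp (Complex.I * t)).im * ⟪b, e j⟫_ℝ) * (g τ * Real.sin τ) := by
    intro τ
    rw [sum_jj, Finset.mul_sum, Finset.sum_mul, Finset.sum_mul, ← Finset.sum_sub_distrib]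
    refine Finset.sum_congr rfl fun j _ => ?_
    have h2 : z j * Complex.exp (Complex.I * ((t + τ : ℝ) : ℂ)) =
        (z j * Complex.exp (Complex.I * t)) * (((Real.cos τ : ℝ) : ℂ) +
          ((Real.sin τ : ℝ) : ℂ) * Complex.I) := by
      rw [Complex.ofReal_cos, Complex.ofReal_sin, ← Complex.exp_mul_I, mul_assoc,
        ← Complex.exp_add]
      congr 2
      push_cast
      ring
    rw [h2]
    generalize z j * Complex.exp (Complex.I * t) = w
    have h3 : (w * (((Real.cos τ : ℝ) : ℂ) + ((Real.sin τ : ℝ) : ℂ) * Complex.I)).re =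
        w.re * Real.cos τ - w.im * Real.sin τ := by
      simp only [Complex.mul_re, Complex.add_re, Complex.add_im, Complex.ofReal_re,
        Complex.ofReal_im, Complex.mul_im, Complex.I_re, Complex.I_im]
      ring
    rw [h3]
    ring
  simp only [h1]
  rw [intervalIntegral.integral_sub, intervalIntegral.integral_const_mul,
    intervalIntegral.integral_const_mul, hc, hs]
  · simp
  · exact Continuous.intervalIntegrable (by fun_prop) _ _
  · exact Continuous.intervalIntegrable (by fun_prop) _ _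

end SO

open SO in
theorem solution_operator {E : Type} [NormedAddCommGroup E] [InnerProductSpace ℝ E]
    [FiniteDimensional ℝ E] (H : E →L[ℝ] E) (hsym : ∀ x y, ⟪H x, y⟫_ℝ = ⟪x, H y⟫_ℝ)
    (β : ℝ) (hβ : 0 < β) {m : ℕ} (e : Fin m → E) (he : Orthonormal ℝ e)
    (hspan : ∀ x, H x = (β ^ 2) • x ↔ x ∈ Submodule.span ℝ (range e))
    (hadm : ∀ k : ℕ, 2 ≤ k → ∀ x, H x = ((k : ℝ) * β) ^ 2 • x → x = 0) :
    ∃ Sop : PX E →L[ℝ] PX E, ∀ f : PX E,
      (∃ d : ℝ → E, (∀ t : ℝ, HasDerivAt (fun t : ℝ => Sop f (t : AddCircle (2 * π))) (d t) t) ∧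
        (∀ t : ℝ, HasDerivAt d (f (t : AddCircle (2 * π)) - meanX f - jj e (pp e f) t
          - (β ^ 2)⁻¹ • H (Sop f (t : AddCircle (2 * π)))) t)) ∧
      meanX (Sop f) = 0 ∧ pp e (Sop f) = 0 ∧
      (∀ θ : ℝ, Sop (shiftX θ f) = shiftX θ (Sop f)) ∧ (∀ z : Cm m, Sop (jjX e z) = 0) := by
  have : CompleteSpace E := FiniteDimensional.complete ℝ E
  have hβ2 : β ^ 2 ≠ 0 := by positivity
  have hH : (H : E →ₗ[ℝ] E).IsSymmetric := fun x y => hsym x y
  set n := Module.finrank ℝ E with hn
  set b := hH.eigenvectorBasis hn.symm with hb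
  set μ := hH.eigenvalues hn.symm with hμ
  have hHb : ∀ i, H (b i) = μ i • b i := fun i => hH.apply_eigenvectorBasis hn.symm i
  set κ : Fin n → ℝ := fun i => μ i / β ^ 2 with hκdef
  have hκ : ∀ i, ∀ k : ℕ, 2 ≤ k → κ i ≠ (k : ℝ) ^ 2 := by
    intro i k hk h
    have h1 : μ i = ((k : ℝ) * β) ^ 2 := by
      have : μ i / β ^ 2 = (k : ℝ) ^ 2 := h
      rw [div_eq_iff hβ2] at this
      rw [this]; ring
    have h2 : b i = 0 := hadm k hk (b i) (by rw [hHb i, h1])
    have h3 := b.norm_eq_one i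
    rw [h2, norm_zero] at h3
    exact zero_ne_one h3
  choose g g' hg hg' hper hjump hmean hmode using fun i => exists_kernel (κ i) (hκ i)
  have hgc : ∀ i, Continuous (g i) := fun i =>
    continuous_iff_continuousAt.2 fun τ => (hg i τ).continuousAt
  have hg'c : ∀ i, Continuous (g' i) := fun i =>
    continuous_iff_continuousAt.2 fun τ => (hg' i τ).continuousAt
  have hg''c : ∀ i, Continuous fun τ => -κ i * g i τ - (2 * π)⁻¹ -
      (if κ i = 1 then π⁻¹ * Real.cos τ else 0) := by
    intro i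
    have := hgc i
    split_ifs <;> fun_prop
  choose C hC using fun i => exists_convL (hgc i) (b i)
  -- eigenvectors
  have hone : ∀ i, κ i = 1 → b i ∈ Submodule.span ℝ (range e) := by
    intro i hi
    rw [← hspan, hHb i]
    have : μ i / β ^ 2 = 1 := hi
    rw [div_eq_iff hβ2, one_mul] at this
    rw [this]
  have hnot : ∀ i, κ i ≠ 1 → ∀ j, ⟪b i, e j⟫_ℝ = 0 := by
    intro i hi j
    have h1 : H (e j) = β ^ 2 • e j := (hspan _).2 (Submodule.subset_span ⟨j, rfl⟩)
    have h2 := hsym (b i) (e j)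
    rw [hHb i, h1, real_inner_smul_left, real_inner_smul_right] at h2
    have h3 : (μ i - β ^ 2) * ⟪b i, e j⟫_ℝ = 0 := by linear_combination h2
    refine (mul_eq_zero.1 h3).resolve_left fun h => hi ?_
    have : μ i = β ^ 2 := by linarith
    change μ i / β ^ 2 = 1
    rw [this, div_self hβ2]
  have happly : ∀ f : PX E, ∀ t : ℝ, (∑ i, C i) f (t : AddCircle (2 * π)) =
      ∑ i, (∫ τ in (0 : ℝ)..(2 * π), g i τ * ⟪b i, f ((t + τ : ℝ) : AddCircle (2 * π))⟫_ℝ) •
        b i := by
    intro f t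
    rw [_root_.sum_apply, ContinuousMap.sum_apply]
    refine Finset.sum_congr rfl fun i _ => ?_
    rw [hC, conv_apply (hgc i)]
  refine ⟨∑ i, C i, fun f => ⟨?_, ?_, ?_, ?_, ?_⟩⟩
  · refine ⟨fun t => ∑ i, (- ∫ τ in (0 : ℝ)..(2 * π),
      g' i τ * ⟪b i, f ((t + τ : ℝ) : AddCircle (2 * π))⟫_ℝ) • b i, fun t => ?_, fun t => ?_⟩
    · simp only [happly f]
      exact HasDerivAt.fun_sum fun i _ =>
        (deriv1 (hg i) (hg'c i) (hper i) (b i) f t).smul_const (b i)
    · have h1 : HasDerivAt (fun t => ∑ i, (- ∫ τ in (0 : ℝ)..(2 * π),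
          g' i τ * ⟪b i, f ((t + τ : ℝ) : AddCircle (2 * π))⟫_ℝ) • b i)
          (∑ i, (⟪b i, f (t : AddCircle (2 * π))⟫_ℝ + ∫ τ in (0 : ℝ)..(2 * π),
            (-κ i * g i τ - (2 * π)⁻¹ - (if κ i = 1 then π⁻¹ * Real.cos τ else 0)) *
              ⟪b i, f ((t + τ : ℝ) : AddCircle (2 * π))⟫_ℝ) • b i) t :=
        HasDerivAt.fun_sum fun i _ =>
          (deriv2 (hg' i) (hg''c i) (hjump i) (b i) f t).smul_const (b i)
      refine h1.congr_deriv ?_
      -- split the integral
      have h2 : ∀ i, ∫ τ in (0 : ℝ)..(2 * π),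
            (-κ i * g i τ - (2 * π)⁻¹ - (if κ i = 1 then π⁻¹ * Real.cos τ else 0)) *
              ⟪b i, f ((t + τ : ℝ) : AddCircle (2 * π))⟫_ℝ =
          -κ i * (∫ τ in (0 : ℝ)..(2 * π),
            g i τ * ⟪b i, f ((t + τ : ℝ) : AddCircle (2 * π))⟫_ℝ) - ⟪b i, meanX f⟫_ℝ -
            (if κ i = 1 then ⟪b i, wv f t⟫_ℝ else 0) := by
        intro i
        have hc : Continuous fun s : ℝ => ⟪b i, f ((t + s : ℝ) : AddCircle (2 * π))⟫_ℝ :=
          continuous_const.inner (cont_t f t)
        have e1 : IntervalIntegrable (fun τ : ℝ => -κ i * (g i τ *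
            ⟪b i, f ((t + τ : ℝ) : AddCircle (2 * π))⟫_ℝ)) volume 0 (2 * π) :=
          (continuous_const.mul ((hgc i).mul hc)).intervalIntegrable _ _
        have e2 : IntervalIntegrable (fun τ : ℝ => (2 * π)⁻¹ *
            ⟪b i, f ((t + τ : ℝ) : AddCircle (2 * π))⟫_ℝ) volume 0 (2 * π) :=
          (continuous_const.mul hc).intervalIntegrable _ _
        have e3 : IntervalIntegrable (fun τ : ℝ => (π⁻¹ * Real.cos τ) *
            ⟪b i, f ((t + τ : ℝ) : AddCircle (2 * π))⟫_ℝ) volume 0 (2 * π) :=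
          ((continuous_const.mul Real.continuous_cos).mul hc).intervalIntegrable _ _
        split_ifs with hi
        · rw [mean_inner (b i) f t, wv_inner (b i) f t,
            ← intervalIntegral.integral_const_mul, ← intervalIntegral.integral_sub e1 e2,
            ← intervalIntegral.integral_sub (e1.sub e2) e3]
          refine intervalIntegral.integral_congr fun τ _ => ?_
          ring
        · rw [mean_inner (b i) f t,
            ← intervalIntegral.integral_const_mul, ← intervalIntegral.integral_sub e1 e2, sub_zero]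
          refine intervalIntegral.integral_congr fun τ _ => ?_
          ring
      simp only [h2]
      have h3 : H ((∑ i, C i) f (t : AddCircle (2 * π))) = ∑ i, (μ i *
          (∫ τ in (0 : ℝ)..(2 * π), g i τ * ⟪b i, f ((t + τ : ℝ) : AddCircle (2 * π))⟫_ℝ)) •
            b i := by
        rw [happly, map_sum]
        refine Finset.sum_congr rfl fun i _ => ?_
        rw [map_smul, hHb, smul_smul, mul_comm]
      have h4 : jj e (pp e f) t = ∑ i, (if κ i = 1 then ⟪b i, wv f t⟫_ℝ else 0) • b i := by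
        have h5 : jj e (pp e f) t = ∑ j, ⟪e j, wv f t⟫_ℝ • e j := by
          unfold jj
          refine Finset.sum_congr rfl fun j _ => ?_
          congr 1
          exact mode_wv (e j) f t
        rw [h5]
        have h6 : ∀ j, ⟪e j, wv f t⟫_ℝ = ∑ i, ⟪b i, wv f t⟫_ℝ * ⟪e j, b i⟫_ℝ := by
          intro j
          conv_lhs => rw [← b.sum_repr' (wv f t)]
          rw [inner_sum]
          simp only [inner_smul_right]
        simp only [h6, Finset.sum_smul]
        rw [Finset.sum_comm]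
        refine Finset.sum_congr rfl fun i _ => ?_
        split_ifs with hi
        · have h8 := congrArg (fun v => ⟪b i, wv f t⟫_ℝ • v) (sum_span he (hone i hi))
          rw [← h8, Finset.smul_sum]
          simp only [smul_smul]
        · rw [zero_smul]
          refine Finset.sum_eq_zero fun j _ => ?_
          rw [real_inner_comm (b i) (e j), hnot i hi j, mul_zero, zero_smul]
      rw [h3, h4]
      conv_rhs => rw [← b.sum_repr' (f (t : AddCircle (2 * π))), ← b.sum_repr' (meanX f)]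
      rw [Finset.smul_sum, ← Finset.sum_sub_distrib, ← Finset.sum_sub_distrib,
        ← Finset.sum_sub_distrib]
      refine Finset.sum_congr rfl fun i _ => ?_
      rw [smul_smul, ← sub_smul, ← sub_smul, ← sub_smul]
      congr 1
      have h7 : (β ^ 2)⁻¹ * (μ i * (∫ τ in (0 : ℝ)..(2 * π),
          g i τ * ⟪b i, f ((t + τ : ℝ) : AddCircle (2 * π))⟫_ℝ)) = κ i *
          (∫ τ in (0 : ℝ)..(2 * π), g i τ * ⟪b i, f ((t + τ : ℝ) : AddCircle (2 * π))⟫_ℝ) := by
        rw [← mul_assoc, inv_mul_eq_div]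
      rw [h7]
      ring
  · rw [← meanL_apply, _root_.sum_apply, map_sum]
    refine Finset.sum_eq_zero fun i _ => ?_
    rw [hC, meanL_apply, mean_conv (hgc i) (hmean i)]
  · ext j
    change fc (e j) ((∑ i, C i) f) = 0
    rw [← fcL_apply, _root_.sum_apply, map_sum]
    refine Finset.sum_eq_zero fun i _ => ?_
    rw [hC, fcL_apply, fc_conv (hgc i)]
    by_cases hi : κ i = 1
    · rw [int_exp (hgc i) (hmode i hi).1 (hmode i hi).2, zero_mul]
    · rw [fc_PL_zero (by rw [real_inner_comm]; exact hnot i hi j), mul_zero]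
  · intro θ
    rw [_root_.sum_apply, _root_.sum_apply, ← shiftL_apply θ
      (∑ i, C i f), map_sum]
    refine Finset.sum_congr rfl fun i _ => ?_
    rw [hC, hC, conv_shift (hgc i), shiftL_apply]
  · intro z
    ext s
    induction s using QuotientAddGroup.induction_on with
    | H t =>
      change (∑ i, C i) (jjX e z) (t : AddCircle (2 * π)) = 0
      rw [happly]
      refine Finset.sum_eq_zero fun i _ => ?_
      by_cases hi : κ i = 1
      · rw [conv_jj (hgc i) (hmode i hi).1 (hmode i hi).2, zero_smul]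
      · have : ∀ τ : ℝ, g i τ * ⟪b i, jjX e z ((t + τ : ℝ) : AddCircle (2 * π))⟫_ℝ = 0 := by
          intro τ
          rw [sum_jj, Finset.sum_eq_zero, mul_zero]
          intro j _
          rw [hnot i hi j, mul_zero]
        simp only [this]
        simp

end

end Pool.Agent.Helper24.CB
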