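import Mathlib
import Pool.Agent.Helper24.CB.Grad
import Pool.Agent.Helper24.CB.Contr
import Pool.Agent.Helper24.CB.SolOp
import Pool.Agent.Helper24.CB.Ops

open MeasureTheory Set Metric Topology
open scoped Real InnerProductSpace ContDiff

namespace Pool.Agent.Helper24.CB

noncomputable section

/-- the constants -/
theorem ls_consts (β S hn J δ : ℝ) (hβ : 0 < β) (hS : 0 ≤ S) (hhn : 0 ≤ hn) (hJ : 0 ≤ J)
    (hδ : 0 < δ) : ∃ η > 0, ∀ δ₁ > 0, ∃ ρ r₀ ε : ℝ, 0 < ρ ∧ 0 < r₀ ∧ 0 < ε ∧ ε < β⁻¹ ∧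
      (∀ l ∈ Icc (β⁻¹ - ε) (β⁻¹ + ε), S * (|(β ^ 2)⁻¹ - l ^ 2| * hn + l ^ 2 * η) ≤ 1 / 2 ∧
        S * (l ^ 2 * η * J) ≤ 1 / 2) ∧ ρ + r₀ * (J + 1) < δ ∧ ρ + r₀ * (J + 1) < δ₁ := by
  refine ⟨(16 * (S + 1) * (β ^ 2)⁻¹ * (J + 1))⁻¹, by positivity, fun δ₁ hδ₁ => ?_⟩
  set η : ℝ := (16 * (S + 1) * (β ^ 2)⁻¹ * (J + 1))⁻¹ with hη
  have hηp : 0 < η := by positivity
  have hηe : 16 * (S + 1) * (β ^ 2)⁻¹ * (J + 1) * η = 1 := by
    rw [hη]; exact mul_inv_cancel₀ (by positivity)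
  set c : ℝ := min δ δ₁ with hc
  have hcp : 0 < c := lt_min hδ hδ₁
  set ε : ℝ := min (β⁻¹ / 2) ((16 * (S + 1) * β⁻¹ * (hn + 1))⁻¹) with hε
  have hεp : 0 < ε := lt_min (by positivity) (by positivity)
  have hε1 : ε ≤ β⁻¹ / 2 := min_le_left _ _
  have hε2 : ε ≤ (16 * (S + 1) * β⁻¹ * (hn + 1))⁻¹ := min_le_right _ _
  have hbi : 0 < β⁻¹ := by positivity
  have hr : c / 4 / (J + 1) * (J + 1) = c / 4 := div_mul_cancel₀ _ (by positivity)
  refine ⟨c / 4, c / 4 / (J + 1), ε, by positivity, by positivity, hεp, by linarith, ?_, ?_, ?_⟩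
  · intro l hl
    have hl0 : 0 ≤ l := by linarith [hl.1]
    have hl2 : l ≤ 2 * β⁻¹ := by linarith [hl.2]
    have hlsq : l ^ 2 ≤ 4 * (β ^ 2)⁻¹ := by
      have : (β ^ 2)⁻¹ = β⁻¹ ^ 2 := by rw [inv_pow]
      rw [this]; nlinarith
    have hdiff : |(β ^ 2)⁻¹ - l ^ 2| ≤ 3 * β⁻¹ * ε := by
      have h1 : (β ^ 2)⁻¹ - l ^ 2 = (β⁻¹ - l) * (β⁻¹ + l) := by rw [← inv_pow]; ring
      rw [h1, abs_mul]
      have h2 : |β⁻¹ - l| ≤ ε := by rw [abs_le]; constructor <;> linarith [hl.1, hl.2]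
      have h3 : |β⁻¹ + l| ≤ 3 * β⁻¹ := by rw [abs_le]; constructor <;> linarith
      calc |β⁻¹ - l| * |β⁻¹ + l| ≤ ε * (3 * β⁻¹) :=
            mul_le_mul h2 h3 (abs_nonneg _) hεp.le
        _ = _ := by ring
    have h4 : S * (|(β ^ 2)⁻¹ - l ^ 2| * hn) ≤ 1 / 4 := by
      have h5 : 16 * (S + 1) * β⁻¹ * (hn + 1) * ε ≤ 1 := by
        calc 16 * (S + 1) * β⁻¹ * (hn + 1) * ε
            ≤ 16 * (S + 1) * β⁻¹ * (hn + 1) * (16 * (S + 1) * β⁻¹ * (hn + 1))⁻¹ := by gcongr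
          _ = 1 := mul_inv_cancel₀ (by positivity)
      calc S * (|(β ^ 2)⁻¹ - l ^ 2| * hn) ≤ (S + 1) * ((3 * β⁻¹ * ε) * (hn + 1)) := by
            gcongr <;> linarith
        _ = (3 / 16) * (16 * (S + 1) * β⁻¹ * (hn + 1) * ε) := by ring
        _ ≤ (3 / 16) * 1 := by gcongr
        _ ≤ 1 / 4 := by norm_num
    have h6 : S * (l ^ 2 * η * (J + 1)) ≤ 1 / 4 := by
      calc S * (l ^ 2 * η * (J + 1)) ≤ (S + 1) * ((4 * (β ^ 2)⁻¹) * η * (J + 1)) := by
            gcongr; linarith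
        _ = (1 / 4) * (16 * (S + 1) * (β ^ 2)⁻¹ * (J + 1) * η) := by ring
        _ = 1 / 4 := by rw [hηe]; norm_num
    have h7 : S * (l ^ 2 * η) ≤ S * (l ^ 2 * η * (J + 1)) := by
      have : 0 ≤ S * (l ^ 2 * η) := by positivity
      nlinarith
    have h8 : S * (l ^ 2 * η * J) ≤ S * (l ^ 2 * η * (J + 1)) := by
      gcongr; linarith
    constructor
    · rw [mul_add]; linarith
    · linarith
  · rw [hr]; linarith [min_le_left δ δ₁]
  · rw [hr]; linarith [min_le_right δ δ₁]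

/-- the parameter set -/
def KK (E : Type) [NormedAddCommGroup E] (m : ℕ) (β ρ r₀ ε : ℝ) : Set (E × ℝ × ℝ × Cm (m + 1)) :=
  {x | ‖x.1‖ ≤ ρ ∧ x.2.1 ∈ Icc 0 r₀ ∧ x.2.2.1 ∈ Icc (β⁻¹ - ε) (β⁻¹ + ε) ∧ ‖x.2.2.2‖ = 1}

theorem ls_family {E : Type} [NormedAddCommGroup E] [InnerProductSpace ℝ E]
    [FiniteDimensional ℝ E] (G : E → E) (hG : ContDiff ℝ 1 G) (u₀ : E)
    (hsym : ∀ x y, ⟪fderiv ℝ G u₀ x, y⟫_ℝ = ⟪x, fderiv ℝ G u₀ y⟫_ℝ)
    (β : ℝ) (hβ : 0 < β) {m : ℕ} (e : Fin (m + 1) → E) (he : Orthonormal ℝ e)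
    (hspan : ∀ x, fderiv ℝ G u₀ x = (β ^ 2) • x ↔ x ∈ Submodule.span ℝ (range e))
    (hadm : ∀ k : ℕ, 2 ≤ k → ∀ x, fderiv ℝ G u₀ x = ((k : ℝ) * β) ^ 2 • x → x = 0)
    (δ : ℝ) (hδ : 0 < δ) :
    ∃ ρ r₀ ε : ℝ, 0 < ρ ∧ 0 < r₀ ∧ 0 < ε ∧ ε < β⁻¹ ∧
      ∃ y : E × ℝ × ℝ × Cm (m + 1) → PX E, ContinuousOn y (KK E m β ρ r₀ ε) ∧
      (∀ v r l z, (v, r, l, z) ∈ KK E m β ρ r₀ ε →
        meanX (y (v, r, l, z)) = 0 ∧ pp e (y (v, r, l, z)) = z ∧
        (∀ θ : ℝ, y (v, r, l, Complex.exp (Complex.I * θ) • z) = shiftX θ (y (v, r, l, z))) ∧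
        (∀ s, ‖v + r • y (v, r, l, z) s‖ < δ) ∧
        ∃ d : ℝ → E, (∀ t : ℝ, HasDerivAt
            (fun t : ℝ => y (v, r, l, z) (t : AddCircle (2 * π))) (d t) t) ∧
          ∀ t : ℝ, HasDerivAt d (- jj e (z - ((l ^ 2 : ℝ) : ℂ) • pp e (AX G hG u₀ (v, r, y (v, r, l, z)))) t
            - l ^ 2 • (AX G hG u₀ (v, r, y (v, r, l, z)) (t : AddCircle (2 * π))
              - meanX (AX G hG u₀ (v, r, y (v, r, l, z))))) t) ∧
      (∀ l z, (0, 0, l, z) ∈ KK E m β ρ r₀ ε → y (0, 0, l, z) = jjX e z) := by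
  set H := fderiv ℝ G u₀ with hH
  obtain ⟨Sop, hSop⟩ := solution_operator H hsym β hβ e he hspan hadm
  obtain ⟨⟨M, hM⟩, ⟨P, hP⟩, ⟨J, hJ⟩, o1, o2, o3, o4, o5, o6, o7, o8, o9, o10, o11⟩ :=
    ops_identities e he
  have hHe : ∀ j, H (e j) = (β ^ 2) • e j := fun j =>
    (hspan (e j)).2 (Submodule.subset_span (mem_range_self j))
  obtain ⟨q1, q2, q3⟩ := ops_linear e H hsym (β ^ 2) hHe
  have hβ2 : (β ^ 2) ≠ 0 := by positivity
  -- constants
  obtain ⟨η, hη, hcon⟩ := ls_consts β ‖Sop‖ ‖H‖ ‖J‖ δ hβ (ContinuousLinearMap.opNorm_nonneg Sop) (norm_nonneg _)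
    (ContinuousLinearMap.opNorm_nonneg J) hδ
  have hcH : ContinuousAt (fderiv ℝ G) u₀ := (hG.continuous_fderiv (by simp)).continuousAt
  obtain ⟨δ₁, hδ₁, hball⟩ := Metric.continuousAt_iff.1 hcH η hη
  obtain ⟨ρ, r₀, ε, hρ, hr₀, hε, hεβ, hest, hr1, hr2⟩ := hcon δ₁ hδ₁
  have hηb : ∀ x ∈ ball u₀ δ₁, ‖fderiv ℝ G x - H‖ ≤ η := by
    intro x hx
    have := hball (x := x) (by simpa using hx)
    rw [dist_eq_norm] at this
    exact this.le
  have hHc : ∀ f : PX E, ‖(H : C(E, E)).comp f‖ ≤ ‖H‖ * ‖f‖ := by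
    intro f
    rw [ContinuousMap.norm_le _ (by positivity)]
    intro s
    simp only [ContinuousMap.comp_apply]
    exact (H.le_opNorm _).trans (by gcongr; exact f.norm_coe_le_norm s)
  have hHadd : ∀ f g : PX E, (H : C(E, E)).comp (f + g) = (H : C(E, E)).comp f + (H : C(E, E)).comp g := by
    intro f g; ext s; simp
  have hHsub : ∀ f g : PX E, (H : C(E, E)).comp (f - g) = (H : C(E, E)).comp f - (H : C(E, E)).comp g := by
    intro f g; ext s; simp
  have hHcont : Continuous fun f : PX E => (H : C(E, E)).comp f :=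
    ContinuousMap.continuous_postcomp _
  -- the operator
  set F : E × ℝ × ℝ × Cm (m + 1) → PX E → PX E := fun p w =>
    (β ^ 2)⁻¹ • (H : C(E, E)).comp (J p.2.2.2 + w) - p.2.2.1 ^ 2 • AX G hG u₀ (p.1, p.2.1, J p.2.2.2 + w)
    with hF
  set T : E × ℝ × ℝ × Cm (m + 1) → PX E → PX E := fun p w => Sop (F p w) with hT
  have hFcont : Continuous fun x : (E × ℝ × ℝ × Cm (m + 1)) × PX E => F x.1 x.2 := by
    have c1 : Continuous fun x : (E × ℝ × ℝ × Cm (m + 1)) × PX E => J x.1.2.2.2 + x.2 :=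
      (J.continuous.comp (by fun_prop)).add continuous_snd
    have c2 : Continuous fun x : (E × ℝ × ℝ × Cm (m + 1)) × PX E =>
        (x.1.1, x.1.2.1, J x.1.2.2.2 + x.2) :=
      Continuous.prodMk (by fun_prop) (Continuous.prodMk (by fun_prop) c1)
    have c3 : Continuous fun x : (E × ℝ × ℝ × Cm (m + 1)) × PX E => x.1.2.2.1 ^ 2 := by fun_prop
    exact ((hHcont.comp c1).const_smul (β ^ 2)⁻¹).sub (c3.smul ((AX_continuous G hG u₀).comp c2))
  have hTcont : Continuous fun x : (E × ℝ × ℝ × Cm (m + 1)) × PX E => T x.1 x.2 :=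
    Sop.continuous.comp hFcont
  -- bounds in the ball
  have hyb : ∀ v r l z, (v, r, l, z) ∈ KK E m β ρ r₀ ε → ∀ w : PX E, ‖w‖ ≤ 1 → ∀ s,
      ‖v + r • (J z + w) s‖ ≤ ρ + r₀ * (‖J‖ + 1) := by
    rintro v r l z ⟨hv, hr, hl, hz⟩ w hw s
    simp only at hv hr hl hz
    have h1 : ‖(J z + w) s‖ ≤ ‖J‖ + 1 := by
      have h2 : ‖(J z + w) s‖ ≤ ‖J z + w‖ := (J z + w).norm_coe_le_norm s
      have h3 : ‖J z‖ ≤ ‖J‖ := by
        have := J.le_opNorm z
        rwa [hz, mul_one] at this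
      linarith [norm_add_le (J z) w]
    calc ‖v + r • (J z + w) s‖ ≤ ‖v‖ + ‖r • (J z + w) s‖ := norm_add_le _ _
      _ = ‖v‖ + r * ‖(J z + w) s‖ := by rw [norm_smul, Real.norm_eq_abs, abs_of_nonneg hr.1]
      _ ≤ ρ + r₀ * (‖J‖ + 1) := by
        have := hr.1; have := hr.2
        gcongr
  have hAXlip : ∀ v r l z, (v, r, l, z) ∈ KK E m β ρ r₀ ε → ∀ w w' : PX E, ‖w‖ ≤ 1 → ‖w'‖ ≤ 1 →
      ‖AX G hG u₀ (v, r, J z + w) - AX G hG u₀ (v, r, J z + w') - (H : C(E, E)).comp (w - w')‖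
        ≤ η * ‖w - w'‖ := by
    intro v r l z hp w w' hw hw'
    rw [ContinuousMap.norm_le _ (by positivity)]
    intro s
    have h1 := dq_lip G hG u₀ H η δ₁ hηb v r ((J z + w) s) ((J z + w') s) ?_ ?_ ?_
    · have h2 : (J z + w) s - (J z + w') s = (w - w') s := by simp
      rw [h2] at h1
      refine h1.trans ?_
      gcongr
      exact (w - w').norm_coe_le_norm s
    · have : 0 ≤ r₀ * (‖J‖ + 1) := by positivity
      linarith [hp.1]
    · exact (hyb v r l z hp w hw s).trans_lt hr2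
    · exact (hyb v r l z hp w' hw' s).trans_lt hr2
  have hlip : ∀ p ∈ KK E m β ρ r₀ ε, ∀ w w' : PX E, ‖w‖ ≤ 1 → ‖w'‖ ≤ 1 →
      ‖T p w - T p w'‖ ≤ (1 / 2) * ‖w - w'‖ := by
    rintro ⟨v, r, l, z⟩ hp w w' hw hw'
    have h1 := hAXlip v r l z hp w w' hw hw'
    have h2 : F (v, r, l, z) w - F (v, r, l, z) w' = ((β ^ 2)⁻¹ - l ^ 2) • (H : C(E, E)).comp (w - w')
        - l ^ 2 • (AX G hG u₀ (v, r, J z + w) - AX G hG u₀ (v, r, J z + w')
          - (H : C(E, E)).comp (w - w')) := by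
      simp only [hF, hHadd, hHsub]
      module
    have h3 : ‖F (v, r, l, z) w - F (v, r, l, z) w'‖
        ≤ (|(β ^ 2)⁻¹ - l ^ 2| * ‖H‖ + l ^ 2 * η) * ‖w - w'‖ := by
      rw [h2]
      refine (norm_sub_le _ _).trans ?_
      rw [norm_smul, norm_smul, Real.norm_eq_abs, Real.norm_eq_abs, abs_of_nonneg (sq_nonneg l), add_mul]
      refine add_le_add ?_ ?_
      · rw [mul_assoc]; gcongr; exact hHc _
      · rw [mul_assoc]; gcongr
    calc ‖T (v, r, l, z) w - T (v, r, l, z) w'‖ = ‖Sop (F (v, r, l, z) w - F (v, r, l, z) w')‖ := by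
          rw [map_sub]
      _ ≤ ‖Sop‖ * ‖F (v, r, l, z) w - F (v, r, l, z) w'‖ := Sop.le_opNorm _
      _ ≤ ‖Sop‖ * ((|(β ^ 2)⁻¹ - l ^ 2| * ‖H‖ + l ^ 2 * η) * ‖w - w'‖) := by gcongr
      _ = (‖Sop‖ * (|(β ^ 2)⁻¹ - l ^ 2| * ‖H‖ + l ^ 2 * η)) * ‖w - w'‖ := by ring
      _ ≤ (1 / 2) * ‖w - w'‖ := by
        gcongr
        exact (hest l hp.2.2.1).1
  have hT0 : ∀ p ∈ KK E m β ρ r₀ ε, ‖T p 0‖ ≤ 1 / 2 := by
    rintro ⟨v, r, l, z⟩ hp
    have h1 : ‖AX G hG u₀ (v, r, J z) - (H : C(E, E)).comp (J z)‖ ≤ η * ‖J z‖ := by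
      rw [ContinuousMap.norm_le _ (by positivity)]
      intro s
      have hρ1 : ρ < δ₁ := by
        have : 0 ≤ r₀ * (‖J‖ + 1) := by positivity
        linarith
      have h2 := dq_lip G hG u₀ H η δ₁ hηb v r (J z s) 0 (hp.1.trans_lt hρ1) (by
        have := hyb v r l z hp 0 (by simp) s
        rw [add_zero] at this
        exact this.trans_lt hr2) (by
        rw [smul_zero, add_zero]; exact hp.1.trans_lt hρ1)
      have h3 : dq G u₀ (v, r, 0) = 0 := by simp [dq]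
      rw [h3, sub_zero, sub_zero] at h2
      refine h2.trans ?_
      gcongr
      exact (J z).norm_coe_le_norm s
    have hJz : ‖J z‖ ≤ ‖J‖ := by
      have := J.le_opNorm z
      rwa [show ‖z‖ = 1 from hp.2.2.2, mul_one] at this
    have h4 : F (v, r, l, z) 0 = ((β ^ 2)⁻¹ - l ^ 2) • (H : C(E, E)).comp (J z)
        - l ^ 2 • (AX G hG u₀ (v, r, J z) - (H : C(E, E)).comp (J z)) := by
      simp only [hF, add_zero]
      module
    have h5 : T (v, r, l, z) 0 = - (l ^ 2 • Sop (AX G hG u₀ (v, r, J z) - (H : C(E, E)).comp (J z))) := by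
      simp only [hT]
      rw [h4, map_sub, map_smul, map_smul, hJ, q3, map_smul, (hSop 0).2.2.2.2, smul_zero, smul_zero,
        zero_sub]
    rw [h5, norm_neg, norm_smul, Real.norm_eq_abs, abs_of_nonneg (sq_nonneg l)]
    calc l ^ 2 * ‖Sop (AX G hG u₀ (v, r, J z) - (H : C(E, E)).comp (J z))‖
        ≤ l ^ 2 * (‖Sop‖ * (η * ‖J‖)) := by
          gcongr
          refine (Sop.le_opNorm _).trans ?_
          gcongr
          exact h1.trans (by gcongr)
      _ = ‖Sop‖ * (l ^ 2 * η * ‖J‖) := by ring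
      _ ≤ 1 / 2 := (hest l hp.2.2.1).2
  have hTb : ∀ p ∈ KK E m β ρ r₀ ε, ∀ w, ‖w‖ ≤ 1 → ‖T p w‖ ≤ 1 := by
    intro p hp w hw
    have h1 := hlip p hp w 0 hw (by simp)
    have h2 := hT0 p hp
    rw [sub_zero] at h1
    have h3 : ‖T p w‖ ≤ ‖T p w - T p 0‖ + ‖T p 0‖ := by
      have := norm_add_le (T p w - T p 0) (T p 0)
      simpa using this
    linarith
  obtain ⟨w, hwc, hw⟩ := fixed_family (KK E m β ρ r₀ ε) T hTb hlip fun x _ =>
    (hTcont.comp (by fun_prop : Continuous fun p : E × ℝ × ℝ × Cm (m + 1) => (p, x))).continuousOn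
  refine ⟨ρ, r₀, ε, hρ, hr₀, hε, hεβ, fun p => J p.2.2.2 + w p, ?_, ?_, ?_⟩
  · exact ((J.continuous.comp (by fun_prop)).continuousOn).add hwc
  · intro v r l z hp
    obtain ⟨hw1, hw2, hw3⟩ := hw _ hp
    set W := w (v, r, l, z) with hW
    set y : PX E := J z + W with hy
    set A : PX E := AX G hG u₀ (v, r, y) with hA
    have hTW : Sop ((β ^ 2)⁻¹ • (H : C(E, E)).comp y - l ^ 2 • A) = W := hw2
    set f : PX E := (β ^ 2)⁻¹ • (H : C(E, E)).comp y - l ^ 2 • A with hf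
    obtain ⟨⟨d, hd1, hd2⟩, s1, s2, s3, s4⟩ := hSop f
    rw [hTW] at hd1 hd2 s1 s2 s3
    have hmy : meanX y = 0 := by
      rw [← hM, hy, map_add, hM, hM, s1, hJ, o2, add_zero]
    have hpy : pp e y = z := by
      rw [← hP, hy, map_add, hP, hP, s2, hJ, o1, add_zero]
    have hmf : meanX f = - (l ^ 2 • meanX A) := by
      rw [← hM, hf, map_sub, map_smul, map_smul, hM, hM, q1, hmy, map_zero, smul_zero, zero_sub]
    have hpf : pp e f = z - ((l ^ 2 : ℝ) : ℂ) • pp e A := by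
      have h1 : ∀ (c : ℝ) (x : Cm (m + 1)), c • x = (c : ℂ) • x := fun c x => by
        ext j; simp
      rw [← hP, hf, map_sub, map_smul, map_smul, hP, hP, q2, hpy, h1, h1, smul_smul]
      congr 1
      rw [← Complex.ofReal_mul, inv_mul_cancel₀ hβ2, Complex.ofReal_one, one_smul]
    refine ⟨hmy, hpy, ?_, ?_, ?_⟩
    · intro θ
      have hcz : (v, r, l, Complex.exp (Complex.I * θ) • z) ∈ KK E m β ρ r₀ ε := by
        refine ⟨hp.1, hp.2.1, hp.2.2.1, ?_⟩
        simp only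
        rw [norm_smul, mul_comm, show ‖z‖ = 1 from hp.2.2.2, one_mul, Complex.norm_exp]
        simp
      have h1 : J (Complex.exp (Complex.I * θ) • z) = shiftX θ (J z) := by
        rw [hJ, hJ, o8]
      have hsadd : ∀ f g : PX E, shiftX θ (f + g) = shiftX θ f + shiftX θ g := fun f g => rfl
      have h2 : shiftX θ W = w (v, r, l, Complex.exp (Complex.I * θ) • z) := by
        refine (hw _ hcz).2.2 _ (by rw [o5]; exact hw1) ?_
        simp only [hT, hF]
        rw [h1, ← hsadd]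
        have h3 : (β ^ 2)⁻¹ • (H : C(E, E)).comp (shiftX θ (J z + W))
            - l ^ 2 • AX G hG u₀ (v, r, shiftX θ (J z + W)) = shiftX θ f := rfl
        rw [h3, s3]
      change J (Complex.exp (Complex.I * θ) • z) + w (v, r, l, Complex.exp (Complex.I * θ) • z)
        = shiftX θ (J z + W)
      rw [← h2, h1, ← hsadd]
    · intro s
      exact (hyb v r l z hp W hw1 s).trans_lt hr1
    · refine ⟨fun t => jj e (Complex.I • z) t + d t, fun t => ?_, fun t => ?_⟩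
      · have h1 : HasDerivAt (fun t : ℝ => jj e z t + W (t : AddCircle (2 * π)))
            (jj e (Complex.I • z) t + d t) t := (o10 z t).add (hd1 t)
        have h2 : (fun t : ℝ => (J z + W) (t : AddCircle (2 * π)))
            = fun t : ℝ => jj e z t + W (t : AddCircle (2 * π)) := by
          funext t
          rw [hJ, ContinuousMap.add_apply, jjX_coe]
        change HasDerivAt (fun t : ℝ => (J z + W) (t : AddCircle (2 * π))) _ t
        rw [h2]
        exact h1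
      · have h1 : HasDerivAt (fun t : ℝ => jj e (Complex.I • z) t + d t)
            (- jj e z t + (f (t : AddCircle (2 * π)) - meanX f - jj e (pp e f) t
              - (β ^ 2)⁻¹ • H (W (t : AddCircle (2 * π))))) t := (o11 z t).add (hd2 t)
        refine h1.congr_deriv ?_
        change _ = - jj e (z - ((l ^ 2 : ℝ) : ℂ) • pp e A) t
            - l ^ 2 • (A (t : AddCircle (2 * π)) - meanX A)
        rw [hmf, hpf, hf]
        simp only [ContinuousMap.sub_apply, ContinuousMap.smul_apply, ContinuousMap.comp_apply,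
          ContinuousMap.coe_coe, hy, ContinuousMap.add_apply, map_add, hJ, jjX_coe]
        have h2 : H (jj e z t) = (β ^ 2) • jj e z t := by
          have := congrArg (fun f : PX E => f (t : AddCircle (2 * π))) (q3 z)
          simpa [jjX_coe] using this
        rw [h2, smul_add, smul_smul, inv_mul_cancel₀ hβ2, one_smul]
        rw [smul_sub]
        abel
  · intro l z hp
    have h1 : (0 : PX E) = w (0, 0, l, z) := by
      refine (hw _ hp).2.2 0 (by simp) ?_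
      have h2 : AX G hG u₀ (0, 0, J z) = (H : C(E, E)).comp (J z) := by
        ext s
        simp [AX, dq_zero, hH]
      simp only [hT, hF, add_zero]
      rw [h2, ← sub_smul, hJ, q3, map_smul, map_smul, (hSop 0).2.2.2.2, smul_zero, smul_zero]
    simp only
    rw [← h1, add_zero, hJ]

theorem lyapunov_schmidt {E : Type} [NormedAddCommGroup E] [InnerProductSpace ℝ E]
    [FiniteDimensional ℝ E] (W : E → ℝ) (hW : ContDiff ℝ 2 W) (u₀ : E)
    (β : ℝ) (hβ : 0 < β) {m : ℕ} (e : Fin (m + 1) → E)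
    (he : Orthonormal ℝ e)
    (hspan : ∀ x, fderiv ℝ (gradient W) u₀ x = (β ^ 2) • x ↔ x ∈ Submodule.span ℝ (range e))
    (hadm : ∀ k : ℕ, 2 ≤ k → ∀ x, fderiv ℝ (gradient W) u₀ x = ((k : ℝ) * β) ^ 2 • x → x = 0)
    (δ : ℝ) (hδ : 0 < δ) :
    ∃ ρ r₀ ε : ℝ, 0 < ρ ∧ 0 < r₀ ∧ 0 < ε ∧ ε < β⁻¹ ∧
      ∃ (y : E × ℝ × ℝ × Cm (m + 1) → PX E) (h1 : E × ℝ × ℝ × Cm (m + 1) → Cm (m + 1)),
      ContinuousOn y (KK E m β ρ r₀ ε) ∧ ContinuousOn h1 (KK E m β ρ r₀ ε) ∧
      (∀ v r l z, (v, r, l, z) ∈ KK E m β ρ r₀ ε →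
        meanX (y (v, r, l, z)) = 0 ∧ pp e (y (v, r, l, z)) = z ∧
        (∀ θ : ℝ, y (v, r, l, Complex.exp (Complex.I * θ) • z) = shiftX θ (y (v, r, l, z))) ∧
        (∀ θ : ℝ, h1 (v, r, l, Complex.exp (Complex.I * θ) • z)
          = Complex.exp (Complex.I * θ) • h1 (v, r, l, z)) ∧
        (inner ℂ (h1 (v, r, l, z)) z).im = 0 ∧
        (∀ s, ‖v + r • y (v, r, l, z) s‖ < δ) ∧
        ∃ d : ℝ → E, (∀ t : ℝ, HasDerivAt
            (fun t : ℝ => u₀ + v + r • y (v, r, l, z) (t : AddCircle (2 * π))) (d t) t) ∧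
          ∀ t : ℝ, HasDerivAt d (- r • jj e (h1 (v, r, l, z)) t
            - l ^ 2 • (gradient W (u₀ + v + r • y (v, r, l, z) (t : AddCircle (2 * π)))
              - (2 * π)⁻¹ • ∫ s in (0 : ℝ)..(2 * π),
                gradient W (u₀ + v + r • y (v, r, l, z) (s : AddCircle (2 * π))))) t) ∧
      (∀ l z, (0, 0, l, z) ∈ KK E m β ρ r₀ ε → h1 (0, 0, l, z) = ((1 - l ^ 2 * β ^ 2 : ℝ) : ℂ) • z) := by
  have hG : ContDiff ℝ 1 (gradient W) := gradient_contDiff W hW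
  set G := gradient W with hGdef
  obtain ⟨⟨M, hM⟩, ⟨P, hP⟩, ⟨J, hJ⟩, o1, o2, o3, o4, o5, o6, o7, o8, o9, o10, o11⟩ :=
    ops_identities e he
  have hsym : ∀ x y, ⟪fderiv ℝ G u₀ x, y⟫_ℝ = ⟪x, fderiv ℝ G u₀ y⟫_ℝ :=
    hess_symm W u₀ hW.contDiffAt
  have hHe : ∀ j, fderiv ℝ G u₀ (e j) = (β ^ 2) • e j := fun j =>
    (hspan (e j)).2 (Submodule.subset_span (mem_range_self j))
  obtain ⟨q1, q2, q3⟩ := ops_linear e (fderiv ℝ G u₀) hsym (β ^ 2) hHe
  obtain ⟨ρ, r₀, ε, hρ, hr₀, hε, hεβ, y, hyc, hy, hy0⟩ :=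
    ls_family G hG u₀ hsym β hβ e he hspan hadm δ hδ
  set A : E × ℝ × ℝ × Cm (m + 1) → PX E := fun p => AX G hG u₀ (p.1, p.2.1, y p) with hA
  set h1 : E × ℝ × ℝ × Cm (m + 1) → Cm (m + 1) := fun p =>
    p.2.2.2 - ((p.2.2.1 ^ 2 : ℝ) : ℂ) • P (A p) with hh1
  have hAc : ContinuousOn A (KK E m β ρ r₀ ε) := by
    refine (AX_continuous G hG u₀).comp_continuousOn ?_
    exact ContinuousOn.prodMk (by fun_prop) (ContinuousOn.prodMk (by fun_prop) hyc)
  have hh1c : ContinuousOn h1 (KK E m β ρ r₀ ε) := by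
    have c1 : ContinuousOn (fun p : E × ℝ × ℝ × Cm (m + 1) => ((p.2.2.1 ^ 2 : ℝ) : ℂ))
        (KK E m β ρ r₀ ε) := (Complex.continuous_ofReal.comp (by fun_prop)).continuousOn
    have c2 : ContinuousOn (fun p : E × ℝ × ℝ × Cm (m + 1) => p.2.2.2)
        (KK E m β ρ r₀ ε) := by fun_prop
    exact c2.sub (c1.smul (P.continuous.comp_continuousOn hAc))
  -- derivatives of the solution candidates
  have hder : ∀ v r l z, (v, r, l, z) ∈ KK E m β ρ r₀ ε →
      ∃ d : ℝ → E, (∀ t : ℝ, HasDerivAt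
            (fun t : ℝ => u₀ + v + r • y (v, r, l, z) (t : AddCircle (2 * π))) (d t) t) ∧
          ∀ t : ℝ, HasDerivAt d (- r • jj e (h1 (v, r, l, z)) t
            - l ^ 2 • (G (u₀ + v + r • y (v, r, l, z) (t : AddCircle (2 * π)))
              - (2 * π)⁻¹ • ∫ s in (0 : ℝ)..(2 * π),
                G (u₀ + v + r • y (v, r, l, z) (s : AddCircle (2 * π))))) t := by
    intro v r l z hp
    obtain ⟨-, -, -, -, d, hd1, hd2⟩ := hy v r l z hp
    refine ⟨fun t => r • d t, fun t => ((hd1 t).const_smul r).const_add (u₀ + v), fun t => ?_⟩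
    refine ((hd2 t).const_smul r).congr_deriv ?_
    have hrA : ∀ t : ℝ, r • AX G hG u₀ (v, r, y (v, r, l, z)) (t : AddCircle (2 * π))
        = G (u₀ + v + r • y (v, r, l, z) (t : AddCircle (2 * π))) - G (u₀ + v) := fun t =>
      dq_smul G hG u₀ v r _
    have hrm : r • meanX (AX G hG u₀ (v, r, y (v, r, l, z)))
        = (2 * π)⁻¹ • (∫ s in (0 : ℝ)..(2 * π),
                G (u₀ + v + r • y (v, r, l, z) (s : AddCircle (2 * π)))) - G (u₀ + v) := by
      unfold meanX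
      rw [smul_comm, ← intervalIntegral.integral_smul]
      simp only [hrA]
      have hGc : Continuous G := hG.continuous
      rw [intervalIntegral.integral_sub]
      · rw [intervalIntegral.integral_const, smul_sub, smul_smul, sub_zero,
          inv_mul_cancel₀ (by positivity), one_smul]
      · refine Continuous.intervalIntegrable ?_ _ _
        have : Continuous fun s : ℝ => (s : AddCircle (2 * π)) := AddCircle.continuous_mk' _
        fun_prop
      · exact continuous_const.intervalIntegrable _ _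
    have hh : h1 (v, r, l, z) = z - ((l ^ 2 : ℝ) : ℂ) • pp e (AX G hG u₀ (v, r, y (v, r, l, z))) := by
      simp only [hh1, hA, hP]
    rw [hh, smul_sub, smul_neg, smul_comm r (l ^ 2), smul_sub, hrA t, hrm]
    rw [neg_smul]
    congr 2
    abel
  -- orthogonality
  have horth : ∀ v r l z, (v, r, l, z) ∈ KK E m β ρ r₀ ε → 0 < r →
      (inner ℂ (h1 (v, r, l, z)) z).im = 0 := by
    intro v r l z hp hr
    obtain ⟨d, hd1, hd2⟩ := hder v r l z hp
    set Y := y (v, r, l, z) with hY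
    set h := h1 (v, r, l, z) with hh
    set mG : E := (2 * π)⁻¹ • ∫ s in (0 : ℝ)..(2 * π), G (u₀ + v + r • Y (s : AddCircle (2 * π)))
      with hmG
    set uX : PX E := ContinuousMap.const _ (u₀ + v) + r • Y with huX
    have hu : ∀ t : ℝ, uX (t : AddCircle (2 * π)) = u₀ + v + r • Y (t : AddCircle (2 * π)) := fun t => rfl
    have hd1' : ∀ t : ℝ, HasDerivAt (fun t : ℝ => uX (t : AddCircle (2 * π))) (d t) t := hd1
    have hper : ∀ t : ℝ, uX ((t + 2 * π : ℝ) : AddCircle (2 * π)) = uX (t : AddCircle (2 * π)) := by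
      intro t
      rw [AddCircle.coe_add_period]
    have hdper : d (2 * π) = d 0 := by
      have h2 : HasDerivAt (fun t : ℝ => uX (t : AddCircle (2 * π))) (d (2 * π)) 0 := by
        have h3 := (hd1' (2 * π))
        have h4 : HasDerivAt (fun t : ℝ => uX ((t + 2 * π : ℝ) : AddCircle (2 * π))) (d (2 * π)) 0 := by
          refine HasDerivAt.comp_add_const (f := fun t : ℝ => uX (t : AddCircle (2 * π))) 0 (2 * π) ?_
          simpa using h3
        refine h4.congr_of_eventuallyEq (Filter.Eventually.of_forall fun t => ?_)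
        exact (hper t).symm
      exact h2.unique (hd1' 0)
    set Φ : ℝ → ℝ := fun t => (1 / 2) * ⟪d t, d t⟫_ℝ + l ^ 2 * W (uX (t : AddCircle (2 * π)))
      + r * ⟪jj e h t, uX (t : AddCircle (2 * π))⟫_ℝ - l ^ 2 * ⟪mG, uX (t : AddCircle (2 * π))⟫_ℝ with hΦ
    have hWd : Differentiable ℝ W := hW.differentiable (by simp)
    have hΦd : ∀ t : ℝ, HasDerivAt Φ (r * ⟪jj e (Complex.I • h) t, uX (t : AddCircle (2 * π))⟫_ℝ) t := by
      intro t
      have a1 := ((hd2 t).inner ℝ (hd2 t)).const_mul (1 / 2)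
      have a2 := ((hWd (uX (t : AddCircle (2 * π)))).hasFDerivAt.comp_hasDerivAt t (hd1' t)).const_mul (l ^ 2)
      have a3 := ((o10 h t).inner ℝ (hd1' t)).const_mul r
      have a4 := ((hasDerivAt_const t mG).inner ℝ (hd1' t)).const_mul (l ^ 2)
      have a5 := ((a1.add a2).add a3).sub a4
      have a6 : HasDerivAt Φ _ t := a5
      refine a6.congr_deriv ?_
      rw [← inner_gradient W, ← hGdef]
      change _ = _
      have h5 : G (u₀ + v + r • Y (t : AddCircle (2 * π))) = G (uX (t : AddCircle (2 * π))) := rfl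
      rw [h5]
      simp only [inner_sub_left, inner_sub_right, inner_smul_left, inner_smul_right,
        inner_zero_left, RCLike.conj_to_real]
      rw [real_inner_comm (d t) (G _), real_inner_comm (d t) mG, real_inner_comm (d t) (jj e h t)]
      ring
    have hint := intervalIntegral.integral_eq_sub_of_hasDerivAt (a := 0) (b := 2 * π)
      (fun t _ => hΦd t) (by
        refine Continuous.intervalIntegrable ?_ _ _
        have c1 : Continuous fun s : ℝ => (s : AddCircle (2 * π)) := AddCircle.continuous_mk' _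
        have c2 : Continuous (jj e (Complex.I • h)) := by unfold jj; fun_prop
        exact continuous_const.mul (c2.inner (uX.continuous.comp c1)))
    have hΦp : Φ (2 * π) - Φ 0 = 0 := by
      have e1 : uX ((2 * π : ℝ) : AddCircle (2 * π)) = uX ((0 : ℝ) : AddCircle (2 * π)) := by
        have := hper 0
        rwa [zero_add] at this
      have e2 : jj e h (2 * π) = jj e h 0 := by
        rw [← jjX_coe, ← jjX_coe, AddCircle.coe_period, AddCircle.coe_zero]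
      simp only [hΦ, e1, e2, hdper, sub_self]
    rw [hΦp, intervalIntegral.integral_const_mul, o9] at hint
    have hpp : pp e uX = (r : ℂ) • z := by
      have h2 := (hy v r l z hp).2.1
      rw [← hP, huX, map_add, map_smul, hP, hP, o3, h2, zero_add]
      ext j; simp
    rw [hpp, inner_smul_left, inner_smul_right] at hint
    have h6 : (starRingEnd ℂ Complex.I * ((r : ℂ) * inner ℂ h z)).re = r * (inner ℂ h z).im := by
      simp [Complex.mul_re]
    rw [h6] at hint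
    have h7 : r * (π * (r * (inner ℂ h z).im)) = (r * π * r) * (inner ℂ h z).im := by ring
    rw [h7] at hint
    have h8 : r * π * r ≠ 0 := by positivity
    exact (mul_eq_zero.1 hint).resolve_left h8
  have horth0 : ∀ v r l z, (v, r, l, z) ∈ KK E m β ρ r₀ ε →
      (inner ℂ (h1 (v, r, l, z)) z).im = 0 := by
    intro v r l z hp
    rcases (hp.2.1.1 : 0 ≤ r).eq_or_lt with h | h
    swap
    · exact horth v r l z hp h
    subst h
    have hK : ∀ s ∈ Icc (0 : ℝ) r₀, (v, s, l, z) ∈ KK E m β ρ r₀ ε := fun s hs =>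
      ⟨hp.1, hs, hp.2.2.1, hp.2.2.2⟩
    have hc : ContinuousOn (fun s : ℝ => (inner ℂ (h1 (v, s, l, z)) z).im) (Icc 0 r₀) := by
      have c1 : ContinuousOn (fun s : ℝ => h1 (v, s, l, z)) (Icc 0 r₀) :=
        hh1c.comp (by fun_prop) hK
      have c2 : ContinuousOn (fun s : ℝ => (inner ℂ (h1 (v, s, l, z)) z : ℂ)) (Icc 0 r₀) :=
        c1.inner continuousOn_const
      exact Complex.continuous_im.comp_continuousOn c2
    have h2 : (0 : ℝ) ∈ closure (Ioc (0 : ℝ) r₀) := by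
      rw [closure_Ioc hr₀.ne]; exact left_mem_Icc.2 hr₀.le
    have h3 := (hc 0 (left_mem_Icc.2 hr₀.le)).mono Ioc_subset_Icc_self
    have h4 := h3.mem_closure_image h2
    have h5 : (fun s : ℝ => (inner ℂ (h1 (v, s, l, z)) z).im) '' Ioc 0 r₀ ⊆ {0} := by
      rintro _ ⟨s, hs, rfl⟩
      exact horth v s l z (hK s ⟨hs.1.le, hs.2⟩) hs.1
    have h6 := closure_mono h5 h4
    simpa using h6
  refine ⟨ρ, r₀, ε, hρ, hr₀, hε, hεβ, y, h1, hyc, hh1c, ?_, ?_⟩
  · intro v r l z hp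
    obtain ⟨y1, y2, y3, y4, -⟩ := hy v r l z hp
    refine ⟨y1, y2, y3, ?_, horth0 v r l z hp, y4, hder v r l z hp⟩
    intro θ
    have h2 : AX G hG u₀ (v, r, shiftX θ (y (v, r, l, z)))
        = shiftX θ (AX G hG u₀ (v, r, y (v, r, l, z))) := rfl
    simp only [hh1, hA, hP, y3, h2, o7, smul_sub]
    rw [smul_comm]
  · intro l z hp
    have h2 : AX G hG u₀ (0, 0, jjX e z) = (fderiv ℝ G u₀ : C(E, E)).comp (jjX e z) := by
      ext s
      simp [AX, dq_zero]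
    simp only [hh1, hA, hP, hy0 l z hp, h2, q2, o1]
    rw [smul_smul, ← Complex.ofReal_mul]
    push_cast
    rw [sub_smul, one_smul]

end

end Pool.Agent.Helper24.CB
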