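import Mathlib

/-! Module R: the residual along the infinitesimal action vanishes (for MP_07f5e0_an). -/

open MeasureTheory Set Metric Topology
open scoped Real InnerProductSpace

namespace Pool.Agent.Helper24.CB

/-- Module R (file CB/Residual.lean). -/
theorem residual_zero {E : Type} [NormedAddCommGroup E] [InnerProductSpace ℝ E]
    [FiniteDimensional ℝ E] (𝔤 : Submodule ℝ (E →L[ℝ] E))
    (hskew : ∀ η ∈ 𝔤, ∀ x y, ⟪η x, y⟫_ℝ = -⟪x, η y⟫_ℝ) (Ω : Set E) (G : E → E)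
    (hG : ContinuousOn G Ω) (hgrad : ∀ η ∈ 𝔤, ∀ x ∈ Ω, ⟪G x, η x⟫_ℝ = 0) (u₀ : E) (δ : ℝ)
    (hδ : ∀ τ : E, (∃ η ∈ 𝔤, η u₀ = τ) → ∀ x : E, ‖x - u₀‖ < δ →
        (∀ η ∈ 𝔤, ⟪τ, η x⟫_ℝ = 0) → τ = 0)
    (u d : ℝ → E) (l : ℝ) (τ : E) (hτ : ∃ η ∈ 𝔤, η u₀ = τ)
    (hper : Function.Periodic u (2 * π)) (hu : ∀ t, u t ∈ Ω) (hun : ∀ t, ‖u t - u₀‖ < δ)
    (hd : ∀ t, HasDerivAt u (d t) t)
    (hd2 : ∀ t, HasDerivAt d (-(l ^ 2) • G (u t) + τ) t) : τ = 0 := by
  have _ := hG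
  have hpi : (0 : ℝ) < 2 * π := Real.two_pi_pos
  have hcu : Continuous u := continuous_iff_continuousAt.mpr fun t => (hd t).continuousAt
  -- the derivative is periodic
  have hdper : d (2 * π) = d 0 := by
    have h1 : HasDerivAt (fun t => u (t + 2 * π)) (d (0 + 2 * π)) 0 := by
      exact HasDerivAt.comp_add_const 0 (2 * π) (hd (0 + 2 * π))
    have h2 : (fun t => u (t + 2 * π)) = u := funext hper
    rw [h2] at h1
    have := h1.unique (hd 0)
    rwa [zero_add] at this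
  -- the mean value
  set ub : E := (2 * π)⁻¹ • ∫ t in (0 : ℝ)..(2 * π), u t with hub
  have hmean : ‖ub - u₀‖ < δ := by
    obtain ⟨t₀, -, ht₀⟩ := isCompact_Icc.exists_isMaxOn (nonempty_Icc.mpr hpi.le)
      ((hcu.sub continuous_const).norm.continuousOn (s := Icc 0 (2 * π)) :
        ContinuousOn (fun t => ‖u t - u₀‖) _)
    have h1 : ‖∫ t in (0 : ℝ)..(2 * π), (u t - u₀)‖ ≤ ‖u t₀ - u₀‖ * |2 * π - 0| := by
      apply intervalIntegral.norm_integral_le_of_norm_le_const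
      intro t ht
      rw [uIoc_of_le hpi.le] at ht
      exact ht₀ (Ioc_subset_Icc_self ht)
    rw [sub_zero, abs_of_pos hpi] at h1
    have h2 : ub - u₀ = (2 * π)⁻¹ • ∫ t in (0 : ℝ)..(2 * π), (u t - u₀) := by
      rw [intervalIntegral.integral_sub (hcu.intervalIntegrable _ _) (by simp), smul_sub, hub,
        intervalIntegral.integral_const, sub_zero, smul_smul, inv_mul_cancel₀ hpi.ne', one_smul]
    rw [h2, norm_smul, norm_inv, Real.norm_of_nonneg hpi.le]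
    calc (2 * π)⁻¹ * ‖∫ t in (0 : ℝ)..(2 * π), (u t - u₀)‖
        ≤ (2 * π)⁻¹ * (‖u t₀ - u₀‖ * (2 * π)) :=
          mul_le_mul_of_nonneg_left h1 (inv_nonneg.mpr hpi.le)
      _ = ‖u t₀ - u₀‖ := by field_simp
      _ < δ := hun t₀
  apply hδ τ hτ ub hmean
  intro η hη
  have hself : ∀ x, ⟪x, η x⟫_ℝ = 0 := by
    intro x
    have h1 := hskew η hη x x
    rw [real_inner_comm] at h1
    linarith
  -- integrate the derivative of `⟪d, η u⟫`
  have hder : ∀ t, HasDerivAt (fun t => ⟪d t, η (u t)⟫_ℝ) ⟪τ, η (u t)⟫_ℝ t := by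
    intro t
    have h1 : HasDerivAt (fun t => η (u t)) (η (d t)) t :=
      (η.hasFDerivAt.comp_hasDerivAt t (hd t))
    have h2 := (hd2 t).inner ℝ h1
    have h3 : ⟪d t, η (d t)⟫_ℝ + ⟪-l ^ 2 • G (u t) + τ, η (u t)⟫_ℝ = ⟪τ, η (u t)⟫_ℝ := by
      rw [hself, inner_add_left, inner_smul_left, hgrad η hη _ (hu t)]
      simp
    rw [h3] at h2
    exact h2
  have hint : ∫ t in (0 : ℝ)..(2 * π), ⟪τ, η (u t)⟫_ℝ = 0 := by
    rw [intervalIntegral.integral_eq_sub_of_hasDerivAt (fun t _ => hder t)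
      ((continuous_const.inner (η.continuous.comp hcu)).intervalIntegrable _ _)]
    have h3 : u (2 * π) = u 0 := by
      have := hper 0
      rwa [zero_add] at this
    rw [hdper, h3, sub_self]
  have h4 : ⟪τ, η (∫ t in (0 : ℝ)..(2 * π), u t)⟫_ℝ = 0 := by
    have h5 := ((innerSL ℝ τ).comp η).intervalIntegral_comp_comm
      (μ := volume) (hcu.intervalIntegrable 0 (2 * π))
    refine Eq.trans ?_ hint
    simpa using h5.symm
  rw [hub, map_smul, inner_smul_right, h4, mul_zero]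

end Pool.Agent.Helper24.CB
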