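import Mathlib

open Set Metric Topology Filter
open scoped Manifold ContDiff InnerProductSpace

namespace Pool.Agent.Helper24.CB

/-- A consequence of the constant rank theorem: if `L ∘ ψ` is a submersion at `x₀` and the rank of
`ψ` near `x₀` is at most the dimension of the target of `L`, then `ψ` is locally constant on the
fibre of `L ∘ ψ` through `x₀`. -/
theorem local_rank {B E T : Type*} [NormedAddCommGroup B] [NormedSpace ℝ B] [FiniteDimensional ℝ B]
    [NormedAddCommGroup E] [NormedSpace ℝ E]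
    [NormedAddCommGroup T] [NormedSpace ℝ T] [FiniteDimensional ℝ T]
    (ψ : B → E) (x₀ : B) (hψ : ContDiffAt ℝ ∞ ψ x₀) (L : E →L[ℝ] T)
    (hsurj : Function.Surjective (L.comp (fderiv ℝ ψ x₀)))
    (hrank : ∀ᶠ x in 𝓝 x₀,
      Module.finrank ℝ (LinearMap.range (fderiv ℝ ψ x).toLinearMap) ≤ Module.finrank ℝ T) :
    ∀ᶠ x in 𝓝 x₀, L (ψ x) = L (ψ x₀) → ψ x = ψ x₀ := by
  set A : B →L[ℝ] T := L.comp (fderiv ℝ ψ x₀) with hA
  set N : Submodule ℝ B := LinearMap.ker A.toLinearMap with hN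
  obtain ⟨π, hπ⟩ : ∃ π : B →L[ℝ] N, ∀ k : N, π k = k :=
    Submodule.ClosedComplemented.of_finiteDimensional N
  have hψd : HasFDerivAt ψ (fderiv ℝ ψ x₀) x₀ :=
    (hψ.differentiableAt (by simp)).hasFDerivAt
  let Θ : B → T × N := fun x => (L (ψ x), π (x - x₀))
  have hΘ : ContDiffAt ℝ ∞ Θ x₀ := by
    refine ContDiffAt.prodMk (L.contDiff.contDiffAt.comp _ hψ) ?_
    exact π.contDiff.contDiffAt.comp _ (contDiffAt_id.sub contDiffAt_const)
  have hinj : Function.Injective (A.prod π) := by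
    rw [injective_iff_map_eq_zero]
    intro x hx
    have h1 : A x = 0 := congrArg Prod.fst hx
    have h2 : π x = 0 := congrArg Prod.snd hx
    have h3 : x ∈ N := by simpa [hN] using h1
    have h4 := hπ ⟨x, h3⟩
    rw [h2] at h4
    exact (congrArg Subtype.val h4).symm
  have hdim : Module.finrank ℝ B = Module.finrank ℝ (T × N) := by
    have h1 := LinearMap.finrank_range_add_finrank_ker A.toLinearMap
    have h2 : LinearMap.range A.toLinearMap = ⊤ := LinearMap.range_eq_top.2 hsurj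
    rw [h2, finrank_top] at h1
    rw [Module.finrank_prod, hN, h1]
  let e₀ : B ≃ₗ[ℝ] T × N :=
    LinearEquiv.ofInjectiveOfFinrankEq (A.prod π).toLinearMap hinj hdim
  let e : B ≃L[ℝ] T × N := e₀.toContinuousLinearEquiv
  have he : (e : B →L[ℝ] T × N) = A.prod π := by
    ext x <;> rfl
  have hd : HasFDerivAt Θ (e : B →L[ℝ] T × N) x₀ := by
    rw [he]
    refine HasFDerivAt.prodMk (L.hasFDerivAt.comp x₀ hψd) ?_
    have h1 : HasFDerivAt (fun x : B => x - x₀) (ContinuousLinearMap.id ℝ B) x₀ :=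
      (hasFDerivAt_id x₀).sub_const x₀
    have h2 := π.hasFDerivAt.comp x₀ h1
    rw [ContinuousLinearMap.comp_id] at h2
    exact h2
  have hne : (∞ : WithTop ℕ∞) ≠ 0 := by simp
  have hs : HasStrictFDerivAt Θ (e : B →L[ℝ] T × N) x₀ := hΘ.hasStrictFDerivAt' hd hne
  set Λ : T × N → B := hs.localInverse Θ e x₀ with hΛ
  have hΛc : ContDiffAt ℝ ∞ Λ (Θ x₀) := hΘ.to_localInverse hd hne
  have hΛ0 : Λ (Θ x₀) = x₀ := hs.localInverse_apply_image
  have hleft : ∀ᶠ x in 𝓝 x₀, Λ (Θ x) = x := hs.eventually_left_inverse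
  have hright : ∀ᶠ y in 𝓝 (Θ x₀), Θ (Λ y) = y := hs.eventually_right_inverse
  -- kernels agree near `x₀`
  have hfc : ContinuousAt (fderiv ℝ ψ) x₀ := by
    have := (hψ.fderiv_right (m := 0) (by simp)).continuousAt
    exact this
  have hker : ∀ᶠ x in 𝓝 x₀, ∀ v, L (fderiv ℝ ψ x v) = 0 → fderiv ℝ ψ x v = 0 := by
    have h1 : ContinuousAt (fun x => (L.comp (fderiv ℝ ψ x)).prod π) x₀ := by
      have h2 : ContinuousAt (fun x => L.comp (fderiv ℝ ψ x)) x₀ := by
        exact ((ContinuousLinearMap.compL ℝ B E T L).continuous.continuousAt).comp hfc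
      have h3 : Continuous (fun M : B →L[ℝ] T => M.prod π) := by
        have h4 : (fun M : B →L[ℝ] T => M.prod π) =
            fun M => (ContinuousLinearMap.inl ℝ T N).comp M
              + (ContinuousLinearMap.inr ℝ T N).comp π := by
          funext M
          ext v <;> simp
        rw [h4]
        exact ((ContinuousLinearMap.compL ℝ B T (T × N) _).continuous).add continuous_const
      exact h3.continuousAt.comp h2
    have h5 : ∀ᶠ x in 𝓝 x₀, (L.comp (fderiv ℝ ψ x)).prod π ∈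
        range ((↑) : (B ≃L[ℝ] T × N) → B →L[ℝ] T × N) := by
      have h6 := ContinuousLinearEquiv.nhds e
      rw [he] at h6
      exact h1 h6
    filter_upwards [h5, hrank] with x hx hr v hv
    obtain ⟨e', he'⟩ := hx
    have hsur : Function.Surjective (L.comp (fderiv ℝ ψ x)) := by
      intro t
      obtain ⟨w, hw⟩ := e'.surjective (t, 0)
      refine ⟨w, ?_⟩
      have h7 : (L.comp (fderiv ℝ ψ x)).prod π w = (t, 0) := by
        rw [← he']; exact hw
      exact congrArg Prod.fst h7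
    have k1 := LinearMap.finrank_range_add_finrank_ker (L.comp (fderiv ℝ ψ x)).toLinearMap
    have k2 := LinearMap.finrank_range_add_finrank_ker (fderiv ℝ ψ x).toLinearMap
    have k3 : LinearMap.range (L.comp (fderiv ℝ ψ x)).toLinearMap = ⊤ :=
      LinearMap.range_eq_top.2 hsur
    rw [k3, finrank_top] at k1
    have k4 : LinearMap.ker (fderiv ℝ ψ x).toLinearMap ≤
        LinearMap.ker (L.comp (fderiv ℝ ψ x)).toLinearMap := by
      intro w hw
      have : fderiv ℝ ψ x w = 0 := hw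
      simp [this]
    have k5 : LinearMap.ker (fderiv ℝ ψ x).toLinearMap =
        LinearMap.ker (L.comp (fderiv ℝ ψ x)).toLinearMap :=
      Submodule.eq_of_le_of_finrank_le k4 (by omega)
    have k6 : v ∈ LinearMap.ker (L.comp (fderiv ℝ ψ x)).toLinearMap := by
      simpa using hv
    rw [← k5] at k6
    simpa using k6
  -- the fibre, parametrised by a ball of the kernel
  let t₀ : T := L (ψ x₀)
  have hΘ0 : Θ x₀ = (t₀, 0) := by simp [Θ, t₀]
  rw [hΘ0] at hΛc hΛ0 hright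
  have hψev : ∀ᶠ x in 𝓝 x₀, DifferentiableAt ℝ ψ x := by
    have h1 : ∀ᶠ x in 𝓝 x₀, ContDiffAt ℝ 1 ψ x :=
      (hψ.of_le (by simp : (1 : WithTop ℕ∞) ≤ ∞)).eventually (by simp)
    filter_upwards [h1] with x hx
    exact hx.differentiableAt (by simp)
  have hΛev : ∀ᶠ y in 𝓝 (t₀, (0 : N)), DifferentiableAt ℝ Λ y := by
    have h1 : ∀ᶠ x in 𝓝 (t₀, (0 : N)), ContDiffAt ℝ 1 Λ x :=
      (hΛc.of_le (by simp : (1 : WithTop ℕ∞) ≤ ∞)).eventually (by simp)
    filter_upwards [h1] with x hx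
    exact hx.differentiableAt (by simp)
  have hΛcont : Tendsto Λ (𝓝 (t₀, (0 : N))) (𝓝 x₀) := by
    have := hΛc.continuousAt
    rw [ContinuousAt, hΛ0] at this
    exact this
  have hgood : ∀ᶠ y in 𝓝 (t₀, (0 : N)), Θ (Λ y) = y ∧ DifferentiableAt ℝ Λ y ∧
      DifferentiableAt ℝ ψ (Λ y) ∧
      (∀ v, L (fderiv ℝ ψ (Λ y) v) = 0 → fderiv ℝ ψ (Λ y) v = 0) := by
    filter_upwards [hright, hΛev, hΛcont.eventually hψev, hΛcont.eventually hker] with y h1 h2 h3 h4
    exact ⟨h1, h2, h3, h4⟩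
  have hgood' : ∀ᶠ k in 𝓝 (0 : N), Θ (Λ (t₀, k)) = (t₀, k) ∧ DifferentiableAt ℝ Λ (t₀, k) ∧
      DifferentiableAt ℝ ψ (Λ (t₀, k)) ∧
      (∀ v, L (fderiv ℝ ψ (Λ (t₀, k)) v) = 0 → fderiv ℝ ψ (Λ (t₀, k)) v = 0) := by
    have : Tendsto (fun k : N => (t₀, k)) (𝓝 0) (𝓝 (t₀, 0)) :=
      (Continuous.prodMk_right t₀).continuousAt
    exact this.eventually hgood
  obtain ⟨r, hr, hball⟩ := Metric.eventually_nhds_iff_ball.1 hgood'
  -- `ψ ∘ Λ (t₀, ·)` is constant on the ball
  have hconst : ∀ k ∈ ball (0 : N) r, ψ (Λ (t₀, k)) = ψ x₀ := by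
    let g : N → E := fun k => ψ (Λ (t₀, k))
    have hdg : ∀ k ∈ ball (0 : N) r, HasFDerivAt g (0 : N →L[ℝ] E) k := by
      intro k hk
      obtain ⟨h1, h2, h3, h4⟩ := hball k hk
      have d1 : HasFDerivAt (fun k : N => (t₀, k)) (ContinuousLinearMap.inr ℝ T N) k :=
        hasFDerivAt_prodMk_right t₀ k
      have d2 : HasFDerivAt (fun k : N => Λ (t₀, k))
          ((fderiv ℝ Λ (t₀, k)).comp (ContinuousLinearMap.inr ℝ T N)) k :=
        h2.hasFDerivAt.comp k d1
      have d3 : HasFDerivAt g ((fderiv ℝ ψ (Λ (t₀, k))).comp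
          ((fderiv ℝ Λ (t₀, k)).comp (ContinuousLinearMap.inr ℝ T N))) k :=
        h3.hasFDerivAt.comp k d2
      have d4 : HasFDerivAt (fun k => L (g k)) (L.comp ((fderiv ℝ ψ (Λ (t₀, k))).comp
          ((fderiv ℝ Λ (t₀, k)).comp (ContinuousLinearMap.inr ℝ T N)))) k :=
        L.hasFDerivAt.comp k d3
      have d5 : (fun k => L (g k)) =ᶠ[𝓝 k] fun _ => t₀ := by
        filter_upwards [isOpen_ball.mem_nhds hk] with k' hk'
        exact congrArg Prod.fst (hball k' hk').1
      have d6 : HasFDerivAt (fun k => L (g k)) (0 : N →L[ℝ] T) k :=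
        (hasFDerivAt_const t₀ k).congr_of_eventuallyEq d5
      have d7 := d4.unique d6
      have d8 : (fderiv ℝ ψ (Λ (t₀, k))).comp
          ((fderiv ℝ Λ (t₀, k)).comp (ContinuousLinearMap.inr ℝ T N)) = 0 := by
        ext v
        have := DFunLike.congr_fun d7 v
        exact h4 _ (by simpa using this)
      rw [d8] at d3
      exact d3
    have hcon : ∀ k ∈ ball (0 : N) r, g k = g 0 := by
      intro k hk
      refine (convex_ball (0 : N) r).is_const_of_fderivWithin_eq_zero (𝕜 := ℝ)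
        (fun x hx => (hdg x hx).hasFDerivWithinAt.differentiableWithinAt) ?_ hk (mem_ball_self hr)
      intro x hx
      rw [fderivWithin_of_isOpen isOpen_ball hx]
      exact (hdg x hx).fderiv
    intro k hk
    have := hcon k hk
    simp only [g] at this
    rw [this, hΛ0]
  have hπev : ∀ᶠ x in 𝓝 x₀, π (x - x₀) ∈ ball (0 : N) r := by
    have h1 : ContinuousAt (fun x => π (x - x₀)) x₀ := by fun_prop
    have h2 : ball (0 : N) r ∈ 𝓝 ((fun x => π (x - x₀)) x₀) := by
      simpa using ball_mem_nhds (0 : N) hr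
    exact h1 h2
  filter_upwards [hleft, hπev] with x h1 h2 h3
  have h4 : Θ x = (t₀, π (x - x₀)) := by simp [Θ, t₀, h3]
  rw [← h1, h4]
  exact hconst _ h2

/-- an orbit meets the affine normal slice only once, locally -/
theorem orbit_slice_isolated {B HM Γ E : Type*} [NormedAddCommGroup B] [NormedSpace ℝ B]
    [FiniteDimensional ℝ B] [TopologicalSpace HM] (I : ModelWithCorners ℝ B HM) [I.Boundaryless]
    [TopologicalSpace Γ] [ChartedSpace HM Γ] [Group Γ] [LieGroup I ∞ Γ] [CompactSpace Γ]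
    [NormedAddCommGroup E] [InnerProductSpace ℝ E] [FiniteDimensional ℝ E]
    (ρ : Γ →* (E ≃ₗᵢ[ℝ] E))
    (hρ : ContMDiff I 𝓘(ℝ, E →L[ℝ] E) ∞
      (fun γ => ((ρ γ).toContinuousLinearEquiv : E →L[ℝ] E)))
    (u₀ : E) :
    ∃ δ > 0, ∀ γ : Γ, ‖ρ γ u₀ - u₀‖ < δ →
      (∀ ξ : TangentSpace I (1 : Γ),
        ⟪ρ γ u₀ - u₀, (mfderiv I 𝓘(ℝ, E) (fun g : Γ => ρ g u₀) 1 ξ : E)⟫_ℝ = 0) →
      ρ γ u₀ = u₀ := by
  have htg : IsTopologicalGroup Γ := topologicalGroup_of_lieGroup I ∞
  have hman : IsManifold I 1 Γ := IsManifold.of_le (n := ∞) (by simp)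
  set o : Γ → E := fun g => ρ g u₀ with ho
  have ho1 : o 1 = u₀ := by simp [ho]
  have hosm : ContMDiff I 𝓘(ℝ, E) ∞ o := by
    have h1 : ContMDiff 𝓘(ℝ, E →L[ℝ] E) 𝓘(ℝ, E) ∞ (fun M : E →L[ℝ] E => M u₀) :=
      (ContinuousLinearMap.apply ℝ E u₀).contDiff.contMDiff
    exact h1.comp hρ
  have hoc : Continuous o := hosm.continuous
  have homd : ∀ g, MDifferentiableAt I 𝓘(ℝ, E) o g := fun g =>
    (hosm g).mdifferentiableAt (by simp)
  let D : Γ → (B →L[ℝ] E) := fun g => mfderiv I 𝓘(ℝ, E) o g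
  let T : Submodule ℝ E := LinearMap.range (D 1).toLinearMap
  -- the rank of `o` is at most `dim T` everywhere
  have hrk : ∀ g, Module.finrank ℝ (LinearMap.range (D g).toLinearMap) ≤
      Module.finrank ℝ T := by
    intro g
    have key : ∀ x, x = 1 → Module.finrank ℝ (LinearMap.range (D x).toLinearMap) ≤
        Module.finrank ℝ T := by
      rintro _ rfl; exact le_rfl
    have hL : MDifferentiableAt I I (fun h : Γ => g⁻¹ * h) g :=
      ((contMDiff_mul_left (I := I) (n := ∞) (a := g⁻¹)) g).mdifferentiableAt (by simp)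
    let R : E →L[ℝ] E := ((ρ g).toContinuousLinearEquiv : E →L[ℝ] E)
    have hR : MDifferentiableAt 𝓘(ℝ, E) 𝓘(ℝ, E) R (o (g⁻¹ * g)) :=
      R.differentiableAt.mdifferentiableAt
    have hc1 : HasMFDerivAt I 𝓘(ℝ, E) (o ∘ fun h : Γ => g⁻¹ * h) g
        ((mfderiv I 𝓘(ℝ, E) o (g⁻¹ * g)).comp (mfderiv I I (fun h : Γ => g⁻¹ * h) g)) :=
      HasMFDerivAt.comp g (homd _).hasMFDerivAt hL.hasMFDerivAt
    have hc2 : HasMFDerivAt I 𝓘(ℝ, E) (R ∘ (o ∘ fun h : Γ => g⁻¹ * h)) g
        ((mfderiv 𝓘(ℝ, E) 𝓘(ℝ, E) R (o (g⁻¹ * g))).comp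
        ((mfderiv I 𝓘(ℝ, E) o (g⁻¹ * g)).comp (mfderiv I I (fun h : Γ => g⁻¹ * h) g))) :=
      HasMFDerivAt.comp g hR.hasMFDerivAt hc1
    have hfun : (R ∘ (o ∘ fun h : Γ => g⁻¹ * h)) = o := by
      funext h
      have : ρ g (ρ (g⁻¹ * h) u₀) = ρ h u₀ := by
        have h1 : ρ h = ρ g * ρ (g⁻¹ * h) := by rw [← map_mul, mul_inv_cancel_left]
        rw [h1]; rfl
      exact this
    rw [hfun] at hc2
    have hc3 : D g = R.comp ((D (g⁻¹ * g)).comp (mfderiv I I (fun h : Γ => g⁻¹ * h) g)) := by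
      have := hc2.mfderiv
      rw [mfderiv_eq_fderiv, R.fderiv] at this
      exact this
    have hle : LinearMap.range (D g).toLinearMap ≤
        (LinearMap.range (D (g⁻¹ * g)).toLinearMap).map R.toLinearMap := by
      rintro _ ⟨v, rfl⟩
      refine ⟨D (g⁻¹ * g) (mfderiv I I (fun h : Γ => g⁻¹ * h) g v), ⟨_, rfl⟩, ?_⟩
      rw [hc3]; rfl
    calc Module.finrank ℝ (LinearMap.range (D g).toLinearMap)
        ≤ Module.finrank ℝ ((LinearMap.range (D (g⁻¹ * g)).toLinearMap).map R.toLinearMap) :=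
          Submodule.finrank_mono hle
      _ ≤ Module.finrank ℝ (LinearMap.range (D (g⁻¹ * g)).toLinearMap) :=
          Submodule.finrank_map_le _ _
      _ ≤ Module.finrank ℝ T := key _ (inv_mul_cancel g)
  -- the local statement
  have hloc : ∀ᶠ g in 𝓝 (1 : Γ), (∀ ξ : B, ⟪o g - u₀, D 1 ξ⟫_ℝ = 0) → o g = u₀ := by
    set φ := extChartAt I (1 : Γ) with hφ
    set x₀ : B := φ 1 with hx₀
    let ψ : B → E := o ∘ φ.symm
    have hψ : ContDiffAt ℝ ∞ ψ x₀ := by
      have h1 := (contMDiffAt_iff.1 (hosm 1)).2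
      rw [I.range_eq_univ, contDiffWithinAt_univ] at h1
      exact h1
    have hψ0 : ψ x₀ = u₀ := by
      simp [ψ, x₀, φ, ho1]
    have hD1 : fderiv ℝ ψ x₀ = D 1 := by
      have h1 : D 1 = fderivWithin ℝ (writtenInExtChartAt I 𝓘(ℝ, E) (1 : Γ) o) (range I)
          (extChartAt I (1 : Γ) 1) := by
        simp only [D, mfderiv]
        exact if_pos (homd 1)
      rw [h1, I.range_eq_univ, fderivWithin_univ]
      rfl
    let L : E →L[ℝ] T := T.orthogonalProjectionOnto
    have hsurj : Function.Surjective (L.comp (fderiv ℝ ψ x₀)) := by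
      intro t
      obtain ⟨v, hv⟩ := t.2
      refine ⟨v, ?_⟩
      rw [hD1]
      have h2 : D 1 v = t := hv
      have h3 : L t = t := Submodule.orthogonalProjectionOnto_mem_subspace_eq_self t
      rw [← h2] at h3
      exact h3
    have hrank : ∀ᶠ x in 𝓝 x₀,
        Module.finrank ℝ (LinearMap.range (fderiv ℝ ψ x).toLinearMap) ≤ Module.finrank ℝ T := by
      filter_upwards [extChartAt_target_mem_nhds (I := I) (1 : Γ)] with x hx
      have h1 : MDifferentiableAt 𝓘(ℝ, B) I φ.symm x := by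
        have := mdifferentiableWithinAt_extChartAt_symm hx
        rwa [I.range_eq_univ, mdifferentiableWithinAt_univ] at this
      have h2 := HasMFDerivAt.comp x (homd (φ.symm x)).hasMFDerivAt h1.hasMFDerivAt
      have h3 : fderiv ℝ ψ x = (D (φ.symm x)).comp (mfderiv 𝓘(ℝ, B) I φ.symm x) := by
        have := h2.mfderiv
        rw [mfderiv_eq_fderiv] at this
        exact this
      refine le_trans ?_ (hrk (φ.symm x))
      refine Submodule.finrank_mono ?_
      rintro _ ⟨v, rfl⟩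
      refine ⟨mfderiv 𝓘(ℝ, B) I φ.symm x v, ?_⟩
      rw [h3]; rfl
    have hmain := local_rank ψ x₀ hψ L hsurj hrank
    have hcont : ContinuousAt φ 1 := continuousAt_extChartAt (I := I) (1 : Γ)
    filter_upwards [hcont.eventually hmain, extChartAt_source_mem_nhds (I := I) (1 : Γ)]
      with g h1 h2 h3
    have h4 : ψ (φ g) = o g := by
      simp only [ψ, Function.comp]
      rw [φ.left_inv h2]
    rw [h4, hψ0] at h1
    apply h1
    have h5 : L (o g - u₀) = 0 := by
      apply Submodule.orthogonalProjectionOnto_apply_of_mem_orthogonal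
      rw [Submodule.mem_orthogonal']
      rintro _ ⟨v, rfl⟩
      exact h3 v
    rw [map_sub, sub_eq_zero] at h5
    exact h5
  -- near the whole stabiliser
  have hstab : ∀ s : Γ, o s = u₀ → ∀ᶠ g in 𝓝 s, (∀ ξ : B, ⟪o g - u₀, D 1 ξ⟫_ℝ = 0) →
      o g = u₀ := by
    intro s hs
    have h1 : Tendsto (fun g : Γ => g * s⁻¹) (𝓝 s) (𝓝 1) := by
      have : Tendsto (fun g : Γ => g * s⁻¹) (𝓝 s) (𝓝 (s * s⁻¹)) :=
        (continuous_mul_const s⁻¹).continuousAt
      rwa [mul_inv_cancel] at this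
    filter_upwards [h1.eventually hloc] with g hg
    have h2 : ρ s⁻¹ u₀ = u₀ := by
      have h3 : ρ s⁻¹ (ρ s u₀) = u₀ := by
        have h4 : ρ s⁻¹ * ρ s = 1 := by rw [← map_mul, inv_mul_cancel, map_one]
        have := DFunLike.congr_fun h4 u₀
        exact this
      have h5 : ρ s u₀ = u₀ := hs
      rwa [h5] at h3
    have h6 : o (g * s⁻¹) = o g := by
      have : ρ (g * s⁻¹) u₀ = ρ g (ρ s⁻¹ u₀) := by rw [map_mul]; rfl
      rw [h2] at this
      exact this
    rwa [h6] at hg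
  -- compactness
  let K : Set Γ := {g | ¬ ((∀ ξ : B, ⟪o g - u₀, D 1 ξ⟫_ℝ = 0) → o g = u₀)}
  have hK : ∀ g ∈ closure K, o g ≠ u₀ := by
    intro g hg hgo
    have h1 := hstab g hgo
    rw [mem_closure_iff_frequently] at hg
    exact hg (h1.mono fun _ h h' => h' h)
  rcases K.eq_empty_or_nonempty with hKe | hKne
  · refine ⟨1, one_pos, fun γ _ h => ?_⟩
    by_contra hne
    have : γ ∈ K := fun h' => hne (h' h)
    rw [hKe] at this
    exact this
  · have hcpt : IsCompact (closure K) := isClosed_closure.isCompact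
    obtain ⟨g₀, hg₀, hmin⟩ := hcpt.exists_isMinOn hKne.closure
      (f := fun g => ‖o g - u₀‖) (hoc.sub continuous_const).norm.continuousOn
    refine ⟨‖o g₀ - u₀‖, norm_pos_iff.2 (sub_ne_zero.2 (hK g₀ hg₀)), fun γ hγ h => ?_⟩
    by_contra hne
    have h1 : γ ∈ K := fun h' => hne (h' h)
    have h2 := hmin (subset_closure h1)
    exact absurd hγ (not_lt.2 h2)

end Pool.Agent.Helper24.CB
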