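import Pool.Agent.Helper24.CB.MinHom

/-!
# Module F: the restriction of the gradient to the normal slice
-/

open Set Metric Topology
open scoped Real InnerProductSpace ContDiff

namespace Pool.Agent.Helper24.CB

noncomputable section

variable {E : Type} [NormedAddCommGroup E] [InnerProductSpace ℝ E] [FiniteDimensional ℝ E]

lemma slice_gradient_eq (U : E → ℝ) : gradient U = fun x =>
    ∑ i, (fderiv ℝ U x (stdOrthonormalBasis ℝ E i)) • stdOrthonormalBasis ℝ E i := by
  funext x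
  rw [← (stdOrthonormalBasis ℝ E).sum_repr' (gradient U x)]
  refine Finset.sum_congr rfl fun i _ => ?_
  rw [real_inner_comm, inner_gradient_left]

lemma slice_gradient_contDiffOn {Ω : Set E} (hΩ : IsOpen Ω) {U : E → ℝ}
    (hU : ContDiffOn ℝ 2 U Ω) : ContDiffOn ℝ 1 (gradient U) Ω := by
  rw [slice_gradient_eq]
  have h1 : ContDiffOn ℝ 1 (fderiv ℝ U) Ω := hU.fderiv_of_isOpen hΩ (by norm_num)
  refine ContDiffOn.sum fun i _ => ?_
  exact (h1.clm_apply contDiffOn_const).smul contDiffOn_const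

lemma slice_hess_symm {Ω : Set E} (hΩ : IsOpen Ω) {U : E → ℝ} (hU : ContDiffOn ℝ 2 U Ω)
    {u₀ : E} (hu₀ : u₀ ∈ Ω) (x y : E) :
    ⟪fderiv ℝ (gradient U) u₀ x, y⟫_ℝ = ⟪x, fderiv ℝ (gradient U) u₀ y⟫_ℝ := by
  have hG : DifferentiableAt ℝ (gradient U) u₀ :=
    ((slice_gradient_contDiffOn hΩ hU).contDiffAt (hΩ.mem_nhds hu₀)).differentiableAt
      (by norm_num)
  have hF : DifferentiableAt ℝ (fderiv ℝ U) u₀ :=
    ((hU.fderiv_of_isOpen hΩ (m := 1) (by norm_num)).contDiffAt
      (hΩ.mem_nhds hu₀)).differentiableAt (by norm_num)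
  have key : ∀ v w, ⟪fderiv ℝ (gradient U) u₀ v, w⟫_ℝ = fderiv ℝ (fderiv ℝ U) u₀ v w := by
    intro v w
    have h1 : HasFDerivAt (fun x => (innerSL ℝ w) (gradient U x))
        ((innerSL ℝ w).comp (fderiv ℝ (gradient U) u₀)) u₀ :=
      (innerSL ℝ w).hasFDerivAt.comp u₀ hG.hasFDerivAt
    have h2 : HasFDerivAt (fun x => (ContinuousLinearMap.apply ℝ ℝ w) (fderiv ℝ U x))
        ((ContinuousLinearMap.apply ℝ ℝ w).comp (fderiv ℝ (fderiv ℝ U) u₀)) u₀ :=
      (ContinuousLinearMap.apply ℝ ℝ w).hasFDerivAt.comp u₀ hF.hasFDerivAt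
    have h3 : (fun x => (innerSL ℝ w) (gradient U x)) =
        fun x => (ContinuousLinearMap.apply ℝ ℝ w) (fderiv ℝ U x) := by
      funext x
      change ⟪w, gradient U x⟫_ℝ = fderiv ℝ U x w
      rw [real_inner_comm, inner_gradient_left]
    rw [h3] at h1
    have h4 : ⟪w, fderiv ℝ (gradient U) u₀ v⟫_ℝ = fderiv ℝ (fderiv ℝ U) u₀ v w :=
      congrArg (fun L : E →L[ℝ] ℝ => L v) (h1.unique h2)
    rw [real_inner_comm, h4]
  have hs := (hU.contDiffAt (hΩ.mem_nhds hu₀)).isSymmSndFDerivAt (by simp)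
  rw [key, real_inner_comm, key]
  exact hs x y

/-- Module F: the restriction of the gradient to the normal slice. -/
theorem slice_homotopy {E : Type} [NormedAddCommGroup E] [InnerProductSpace ℝ E]
    [FiniteDimensional ℝ E] (Ω : Set E) (hΩ : IsOpen Ω) (U : E → ℝ) (hU : ContDiffOn ℝ 2 U Ω)
    (u₀ : E) (hu₀ : u₀ ∈ Ω) (hcrit : gradient U u₀ = 0) (T : Submodule ℝ E)
    (hT : ∀ τ ∈ T, fderiv ℝ (gradient U) u₀ τ = 0)
    (hres : ∃ δ > 0, ∀ x, ‖x - u₀‖ < δ → gradient U x ∈ T → gradient U x = 0)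
    (h : (Module.finrank ℝ (LinearMap.ker (fderiv ℝ (gradient U) u₀).toLinearMap)
        = Module.finrank ℝ T) ∨
      (IsLocalMin U u₀ ∧ ∃ δ > 0, ∀ x, ‖x - u₀‖ < δ → x - u₀ ∈ Tᗮ → gradient U x = 0 → x = u₀)) :
    ∃ L : Tᗮ ≃L[ℝ] Tᗮ, ∀ R > 0, ∃ ρ, 0 < ρ ∧ ρ < R ∧
      (∀ v : Tᗮ, ‖v‖ ≤ ρ → u₀ + (v : E) ∈ Ω) ∧
      (∀ v : Tᗮ, ‖v‖ ≤ ρ → Tᗮ.orthogonalProjectionOnto (gradient U (u₀ + v)) = 0 → v = 0) ∧
      ∃ Hm : ℝ × Tᗮ → Tᗮ, ContinuousOn Hm (Icc 0 1 ×ˢ sphere 0 ρ) ∧
        (∀ v ∈ sphere (0 : Tᗮ) ρ, Hm (0, v) =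
          L (Tᗮ.orthogonalProjectionOnto (gradient U (u₀ + v)))) ∧
        (∀ v ∈ sphere (0 : Tᗮ) ρ, Hm (1, v) = v) ∧
        ∀ t ∈ Icc (0 : ℝ) 1, ∀ v ∈ sphere (0 : Tᗮ) ρ, Hm (t, v) ≠ 0 := by
  have hG1 := slice_gradient_contDiffOn hΩ hU
  have hTT : Tᗮᗮ = T := Submodule.orthogonal_orthogonal T
  set P : E →L[ℝ] Tᗮ := Tᗮ.orthogonalProjectionOnto with hP
  have hP0 : ∀ x : E, P x = 0 ↔ x ∈ T := by
    intro x
    rw [hP, Submodule.orthogonalProjectionOnto_eq_zero_iff, hTT]
  set ι : Tᗮ →L[ℝ] E := Tᗮ.subtypeL with hι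
  have hgdiff : ∀ x ∈ Ω, HasGradientAt U (gradient U x) x := fun x hx =>
    ((hU.contDiffAt (hΩ.mem_nhds hx)).differentiableAt (by norm_num)).hasGradientAt
  obtain ⟨ρ₀, hρ₀, hball⟩ := Metric.isOpen_iff.mp hΩ u₀ hu₀
  have hmemΩ : ∀ v : Tᗮ, ‖v‖ < ρ₀ → u₀ + (v : E) ∈ Ω := by
    intro v hv
    refine hball ?_
    rw [mem_ball, dist_eq_norm, add_sub_cancel_left]
    exact hv
  rcases h with hdim | ⟨hmin, δ', hδ', hiso⟩
  · -- nondegenerate case
    set A : E →L[ℝ] E := fderiv ℝ (gradient U) u₀ with hA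
    have hTker : T = LinearMap.ker A.toLinearMap := by
      refine Submodule.eq_of_le_of_finrank_eq (fun τ hτ => ?_) hdim.symm
      exact hT τ hτ
    have hsymm : ∀ x y, ⟪A x, y⟫_ℝ = ⟪x, A y⟫_ℝ := slice_hess_symm hΩ hU hu₀
    have hAperp : ∀ x, A x ∈ Tᗮ := by
      intro x
      rw [Submodule.mem_orthogonal]
      intro τ hτ
      rw [← hsymm, hT τ hτ, inner_zero_left]
    have hker : ∀ x, A x = 0 → x ∈ T := by
      intro x hx
      rw [hTker]
      exact hx
    let B : Tᗮ →L[ℝ] Tᗮ := (P.comp A).comp ι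
    have hBinj : Function.Injective B.toLinearMap := by
      rw [← LinearMap.ker_eq_bot, LinearMap.ker_eq_bot']
      intro v hv
      have h1 : P (A (v : E)) = 0 := hv
      rw [hP0] at h1
      have h2 : A (v : E) = 0 := by
        have h3 := (Submodule.mem_orthogonal T _).mp (hAperp (v : E)) _ h1
        exact inner_self_eq_zero.mp h3
      have h3 := hker _ h2
      have h4 := (Submodule.mem_orthogonal T _).mp v.2 _ h3
      exact Subtype.ext (inner_self_eq_zero.mp h4)
    let L' : Tᗮ ≃L[ℝ] Tᗮ := (LinearEquiv.ofInjectiveEndo B.toLinearMap hBinj).toContinuousLinearEquiv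
    have hL' : ∀ v, L' v = B v := fun v => rfl
    let f : Tᗮ → Tᗮ := fun v => P (gradient U (u₀ + (v : E)))
    have hfd : HasFDerivAt f B 0 := by
      have h1 : HasFDerivAt (fun v : Tᗮ => u₀ + ι v) ι 0 := ι.hasFDerivAt.const_add u₀
      have h2 : HasFDerivAt (gradient U) A (u₀ + ι 0) := by
        rw [map_zero, add_zero]
        exact ((hG1.contDiffAt (hΩ.mem_nhds hu₀)).differentiableAt (by norm_num)).hasFDerivAt
      exact P.hasFDerivAt.comp 0 (h2.comp 0 h1)
    have hf0 : f 0 = 0 := by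
      simp only [f, ZeroMemClass.coe_zero, add_zero, hcrit, map_zero]
    -- small remainder
    have hrem : ∃ r > 0, ∀ v : Tᗮ, ‖v‖ < r → ‖L'.symm (f v) - v‖ ≤ 1 / 2 * ‖v‖ := by
      have h1 : HasFDerivAt (fun v => L'.symm (f v)) (ContinuousLinearMap.id ℝ Tᗮ) 0 := by
        have h2 := (L'.symm : Tᗮ →L[ℝ] Tᗮ).hasFDerivAt.comp (0 : Tᗮ) hfd
        have h3 : (L'.symm : Tᗮ →L[ℝ] Tᗮ).comp B = ContinuousLinearMap.id ℝ Tᗮ := by
          ext v
          simp [← hL']
        rw [h3] at h2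
        exact h2
      rw [hasFDerivAt_iff_isLittleO_nhds_zero, Asymptotics.isLittleO_iff] at h1
      obtain ⟨r, hr, h2⟩ := Metric.eventually_nhds_iff.mp (h1 (show (0 : ℝ) < 1 / 2 by norm_num))
      refine ⟨r, hr, fun v hv => ?_⟩
      have h3 := h2 (y := v) (by rwa [dist_zero_right])
      simpa [hf0] using h3
    obtain ⟨r, hr, hrem⟩ := hrem
    refine ⟨L'.symm, fun R hR => ?_⟩
    set ρ : ℝ := min R (min ρ₀ r) / 2 with hρ
    have hm : 0 < min R (min ρ₀ r) := lt_min hR (lt_min hρ₀ hr)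
    have hρ0 : 0 < ρ := by rw [hρ]; positivity
    have hρR : ρ < R := by
      have := min_le_left R (min ρ₀ r)
      rw [hρ]; linarith
    have hρρ : ρ < ρ₀ := by
      have := (min_le_right R (min ρ₀ r)).trans (min_le_left ρ₀ r)
      rw [hρ]; linarith
    have hρr : ρ < r := by
      have := (min_le_right R (min ρ₀ r)).trans (min_le_right ρ₀ r)
      rw [hρ]; linarith
    refine ⟨ρ, hρ0, hρR, fun v hv => hmemΩ v (hv.trans_lt hρρ), ?_, ?_⟩
    · intro v hv h0
      have h1 := hrem v (hv.trans_lt hρr)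
      have h2 : f v = 0 := h0
      rw [h2, map_zero, zero_sub, norm_neg] at h1
      have h3 : ‖v‖ = 0 := le_antisymm (by linarith) (norm_nonneg v)
      exact norm_eq_zero.mp h3
    · refine ⟨fun p => p.2 + (1 - p.1) • (L'.symm (f p.2) - p.2), ?_, ?_, ?_, ?_⟩
      · have hfc : ContinuousOn f (sphere (0 : Tᗮ) ρ) := by
          refine P.continuous.comp_continuousOn ?_
          refine hG1.continuousOn.comp (by fun_prop) fun v hv => ?_
          exact hmemΩ v (by rw [mem_sphere_zero_iff_norm.mp hv]; exact hρρ)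
        have h2 : ContinuousOn (fun p : ℝ × Tᗮ => f p.2) (Icc 0 1 ×ˢ sphere 0 ρ) :=
          hfc.comp continuousOn_snd fun p hp => hp.2
        have h3 : ContinuousOn (fun p : ℝ × Tᗮ => L'.symm (f p.2)) (Icc 0 1 ×ˢ sphere 0 ρ) :=
          L'.symm.continuous.comp_continuousOn h2
        exact continuousOn_snd.add
          ((continuousOn_const.sub continuousOn_fst).smul (h3.sub continuousOn_snd))
      · intro v _
        simp only [sub_zero, one_smul, add_sub_cancel]
        rfl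
      · intro v _
        simp
      · intro t ht v hv h0
        have h1 := hrem v (by rw [mem_sphere_zero_iff_norm.mp hv]; exact hρr)
        have h2 : ‖(1 - t) • (L'.symm (f v) - v)‖ ≤ 1 * (1 / 2 * ‖v‖) := by
          rw [norm_smul]
          refine mul_le_mul ?_ h1 (norm_nonneg _) zero_le_one
          rw [Real.norm_eq_abs, abs_le]
          constructor <;> linarith [ht.1, ht.2]
        have h3 : v = -((1 - t) • (L'.symm (f v) - v)) := eq_neg_of_add_eq_zero_left h0
        have h4 : ‖v‖ = ‖(1 - t) • (L'.symm (f v) - v)‖ := by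
          conv_lhs => rw [h3]
          rw [norm_neg]
        have h5 := mem_sphere_zero_iff_norm.mp hv
        linarith
  · -- isolated minimum
    obtain ⟨δ, hδ, hres⟩ := hres
    obtain ⟨r, hr, hmin⟩ := Metric.eventually_nhds_iff.mp hmin
    refine ⟨ContinuousLinearEquiv.refl ℝ Tᗮ, fun R hR => ?_⟩
    set R' : ℝ := min R (min ρ₀ (min r (min δ δ'))) with hR'
    have hR'0 : 0 < R' := lt_min hR (lt_min hρ₀ (lt_min hr (lt_min hδ hδ')))
    have hR'R : R' ≤ R := min_le_left _ _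
    have hR'ρ : R' ≤ ρ₀ := (min_le_right _ _).trans (min_le_left _ _)
    have hR'r : R' ≤ r :=
      (min_le_right _ _).trans ((min_le_right _ _).trans (min_le_left _ _))
    have hR'δ : R' ≤ δ := (min_le_right _ _).trans
      ((min_le_right _ _).trans ((min_le_right _ _).trans (min_le_left _ _)))
    have hR'δ' : R' ≤ δ' := (min_le_right _ _).trans
      ((min_le_right _ _).trans ((min_le_right _ _).trans (min_le_right _ _)))
    have hzero : ∀ v : Tᗮ, ‖v‖ < R' → P (gradient U (u₀ + (v : E))) = 0 → v = 0 := by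
      intro v hv h0
      rw [hP0] at h0
      have hn : ‖u₀ + (v : E) - u₀‖ = ‖v‖ := by rw [add_sub_cancel_left]; rfl
      have h1 := hres (u₀ + v) (by rw [hn]; exact hv.trans_le hR'δ) h0
      have h2 := hiso (u₀ + v) (by rw [hn]; exact hv.trans_le hR'δ')
        (by rw [add_sub_cancel_left]; exact v.2) h1
      have h3 : (v : E) = 0 := by simpa using h2
      exact Subtype.ext h3
    obtain ⟨ρ, hρ0, hρR, Hm, hc, h0, h1, hne⟩ := min_homotopic_id (V := Tᗮ)
      (fun v => U (u₀ + (v : E))) (fun v => P (gradient U (u₀ + (v : E)))) R' hR'0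
      (by
        intro v hv
        rw [mem_ball, dist_zero_right] at hv
        have h1 : HasFDerivAt (fun v : Tᗮ => u₀ + ι v) ι v := ι.hasFDerivAt.const_add u₀
        have h2 := (hgdiff (u₀ + ι v) (hmemΩ v (hv.trans_le hR'ρ))).hasFDerivAt
        have h3 := h2.comp v h1
        rw [hasGradientAt_iff_hasFDerivAt]
        refine h3.congr_fderiv ?_
        ext w
        simp only [ContinuousLinearMap.comp_apply, InnerProductSpace.toDual_apply_apply]
        exact (Submodule.inner_orthogonalProjectionOnto_eq_of_mem_right w _).symm)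
      (by
        refine P.contDiff.comp_contDiffOn ?_
        refine hG1.comp (contDiff_const.add ι.contDiff).contDiffOn fun v hv => ?_
        rw [mem_ball, dist_zero_right] at hv
        exact hmemΩ v (hv.trans_le hR'ρ))
      (by
        intro v hv
        rw [mem_ball, dist_zero_right] at hv
        have := hmin (y := u₀ + (v : E)) (by
          rw [dist_eq_norm, add_sub_cancel_left]
          exact hv.trans_le hR'r)
        simpa using this)
      (by
        intro v hv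
        rw [mem_ball, dist_zero_right] at hv
        exact hzero v hv)
    refine ⟨ρ, hρ0, hρR.trans_le hR'R, fun v hv => hmemΩ v
      ((hv.trans_lt hρR).trans_le hR'ρ), fun v hv => hzero v (hv.trans_lt hρR), Hm, hc, h0, h1, hne⟩

end

end Pool.Agent.Helper24.CB
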