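import Mathlib
import Pool.Agent.Helper24.CB.Degree
import Pool.Agent.Helper24.CB.Approx
import Pool.Agent.Helper49.CB.GeneralPosition

open MeasureTheory Set Metric
open scoped ContDiff Manifold

namespace Pool.Agent.Helper24.CB


noncomputable section

/-- normalisation -/
def nz {m : ℕ} (z : Cm m) : Cm m := ((‖z‖ : ℝ) : ℂ)⁻¹ • z

theorem nz_norm {m : ℕ} {z : Cm m} (hz : z ≠ 0) : ‖nz z‖ = 1 := by
  unfold nz
  rw [norm_smul, norm_inv, Complex.norm_real, norm_norm, inv_mul_cancel₀ (norm_ne_zero_iff.2 hz)]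

theorem nz_of_norm {m : ℕ} {z : Cm m} (hz : ‖z‖ = 1) : nz z = z := by
  simp [nz, hz]

theorem nz_smul {m : ℕ} (z : Cm m) (c : ℂ) : nz (c • z) = (c / (‖c‖ : ℂ)) • nz z := by
  unfold nz
  rw [norm_smul]
  push_cast
  rw [smul_smul, smul_smul]
  congr 1
  rw [mul_inv]; ring

theorem norm_contDiffAt {m : ℕ} {z : Cm m} (hz : z ≠ 0) : ContDiffAt ℝ ∞ (fun z : Cm m => ‖z‖) z :=
  contDiffAt_norm ℂ hz

theorem normC_contDiffAt {m : ℕ} {z : Cm m} (hz : z ≠ 0) :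
    ContDiffAt ℝ ∞ (fun z : Cm m => ((‖z‖ : ℝ) : ℂ)) z :=
  (Complex.ofRealCLM.contDiff.contDiffAt).comp z (norm_contDiffAt hz)

theorem nz_contDiffAt {m : ℕ} {z : Cm m} (hz : z ≠ 0) : ContDiffAt ℝ ∞ (nz (m := m)) z := by
  unfold nz
  refine ContDiffAt.smul (ContDiffAt.inv (normC_contDiffAt hz) ?_) contDiffAt_id
  simpa using hz

variable {V : Type} [NormedAddCommGroup V] [NormedSpace ℝ V] [FiniteDimensional ℝ V]

/-- the parameter box -/
def bx (V : Type) [NormedAddCommGroup V] (ρ : ℝ) : Set (V × ℂ) :=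
  {q | ‖q.1‖ ≤ ρ ∧ |q.2.re| ≤ 1 ∧ |q.2.im| ≤ 1}

/-- being on the boundary of the box -/
def onb (ρ : ℝ) (q : V × ℂ) : Prop := ‖q.1‖ = ρ ∨ |q.2.re| = 1 ∨ |q.2.im| = 1

def bxt (V : Type) [NormedAddCommGroup V] (ρ : ℝ) : Set (ℝ × V × ℂ) :=
  {p | p.1 ∈ Icc (0 : ℝ) 1 ∧ p.2 ∈ bx V ρ}

theorem bx_compact (ρ : ℝ) : IsCompact (bx V ρ) := by
  have h1 : IsCompact ((closedBall (0 : V) ρ) ×ˢ (closedBall (0 : ℂ) 2)) :=
    (isCompact_closedBall _ _).prod (isCompact_closedBall _ _)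
  refine h1.of_isClosed_subset ?_ ?_
  · have : bx V ρ = {q | ‖q.1‖ ≤ ρ} ∩ ({q | |q.2.re| ≤ 1} ∩ {q | |q.2.im| ≤ 1}) := rfl
    rw [this]
    refine (isClosed_le (by fun_prop) continuous_const).inter
      ((isClosed_le ?_ continuous_const).inter (isClosed_le ?_ continuous_const))
    · exact (Complex.continuous_re.comp continuous_snd).abs
    · exact (Complex.continuous_im.comp continuous_snd).abs
  · rintro ⟨v, w⟩ ⟨h1, h2, h3⟩
    refine ⟨by simpa using h1, ?_⟩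
    simp only [mem_closedBall, dist_zero_right]
    have := Complex.norm_le_abs_re_add_abs_im w
    simp only at h2 h3
    linarith

theorem bxt_compact (ρ : ℝ) : IsCompact (bxt V ρ) := isCompact_Icc.prod (bx_compact ρ)

/-- Step 1: smooth homogeneous approximation of the homotopy, exact at time `0`. -/
theorem step1 (m : ℕ) (ρ : ℝ)
    (F0 : (ℝ × V × ℂ) × Cm (m + 1) → V) (F1 : (ℝ × V × ℂ) × Cm (m + 1) → Cm (m + 1))
    (c0 : ContinuousOn F0 (bxt V ρ ×ˢ sphere 0 1)) (c1 : ContinuousOn F1 (bxt V ρ ×ˢ sphere 0 1))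
    (e0 : ∀ p ∈ bxt V ρ, ∀ z ∈ sphere (0 : Cm (m + 1)) 1, ∀ c : ℂ, ‖c‖ = 1 →
      F0 (p, c • z) = F0 (p, z))
    (e1 : ∀ p ∈ bxt V ρ, ∀ z ∈ sphere (0 : Cm (m + 1)) 1, ∀ c : ℂ, ‖c‖ = 1 →
      F1 (p, c • z) = c • F1 (p, z))
    (s0 : ∀ q ∈ bx V ρ, ∀ z ∈ sphere (0 : Cm (m + 1)) 1, F0 ((0, q), z) = q.1)
    (s1 : ∀ q ∈ bx V ρ, ∀ z ∈ sphere (0 : Cm (m + 1)) 1, F1 ((0, q), z) = q.2 • z)
    (κ : ℝ) (hκ : 0 < κ) (ε : ℝ) (hε : 0 < ε) (hεκ : ε ≤ κ) :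
    ∃ (R0 : (ℝ × V × ℂ) × Cm (m + 1) → V) (R1 : (ℝ × V × ℂ) × Cm (m + 1) → Cm (m + 1)),
      (∀ x, x.2 ≠ 0 → ContDiffAt ℝ ∞ R0 x) ∧ (∀ x, x.2 ≠ 0 → ContDiffAt ℝ ∞ R1 x) ∧
      (∀ p z (c : ℂ), c ≠ 0 → R0 (p, c • z) = R0 (p, z)) ∧
      (∀ p z (c : ℂ), c ≠ 0 → R1 (p, c • z) = c • R1 (p, z)) ∧
      (∀ q z, z ≠ 0 → R0 ((0, q), z) = q.1) ∧
      (∀ q z, z ≠ 0 → R1 ((0, q), z) = q.2 • z - (ε : ℂ) • shf m z) ∧
      (∀ p ∈ bxt V ρ, ∀ z ∈ sphere (0 : Cm (m + 1)) 1, ‖R0 (p, z) - F0 (p, z)‖ ≤ 2 * κ) ∧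
      (∀ p ∈ bxt V ρ, ∀ z ∈ sphere (0 : Cm (m + 1)) 1, ‖R1 (p, z) - F1 (p, z)‖ ≤ 3 * κ) := by
  obtain ⟨G0, G1, hG0, hG1, hE0, hE1, hA0, hA1⟩ :=
    equivariant_approx (bxt V ρ) (bxt_compact ρ) F0 F1 c0 c1 e0 e1 κ hκ
  set H0 : (ℝ × V × ℂ) × Cm (m + 1) → V := fun x => G0 (x.1, nz x.2) with hH0
  set H1 : (ℝ × V × ℂ) × Cm (m + 1) → Cm (m + 1) :=
    fun x => ((‖x.2‖ : ℝ) : ℂ) • G1 (x.1, nz x.2) with hH1
  have cH0 : ∀ x, x.2 ≠ 0 → ContDiffAt ℝ ∞ H0 x := fun x hx =>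
    hG0.contDiffAt.comp x (contDiffAt_fst.prodMk ((nz_contDiffAt hx).comp x contDiffAt_snd))
  have cH1 : ∀ x, x.2 ≠ 0 → ContDiffAt ℝ ∞ H1 x := fun x hx =>
    ((normC_contDiffAt hx).comp x contDiffAt_snd).smul
      (hG1.contDiffAt.comp x (contDiffAt_fst.prodMk ((nz_contDiffAt hx).comp x contDiffAt_snd)))
  have hcc : ∀ c : ℂ, c ≠ 0 → ‖c / (‖c‖ : ℂ)‖ = 1 := fun c hc => by
    rw [norm_div, Complex.norm_real, norm_norm, div_self (norm_ne_zero_iff.2 hc)]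
  have eH0 : ∀ p z (c : ℂ), c ≠ 0 → H0 (p, c • z) = H0 (p, z) := fun p z c hc => by
    simp only [hH0]
    rw [nz_smul, hE0 _ _ _ (hcc c hc)]
  have eH1 : ∀ p z (c : ℂ), c ≠ 0 → H1 (p, c • z) = c • H1 (p, z) := fun p z c hc => by
    simp only [hH1]
    rw [nz_smul, hE1 _ _ _ (hcc c hc), norm_smul, smul_smul, smul_smul]
    congr 1
    have : (‖c‖ : ℂ) ≠ 0 := by exact_mod_cast norm_ne_zero_iff.2 hc
    push_cast
    field_simp
  have z1 : ∀ x : (ℝ × V × ℂ) × Cm (m + 1), ContDiffAt ℝ ∞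
      (fun x : (ℝ × V × ℂ) × Cm (m + 1) => (((0 : ℝ), x.1.2), x.2)) x := fun x =>
    (contDiffAt_const.prodMk (contDiffAt_snd.comp x contDiffAt_fst)).prodMk contDiffAt_snd
  have tC : ∀ x : (ℝ × V × ℂ) × Cm (m + 1), ContDiffAt ℝ ∞
      (fun x : (ℝ × V × ℂ) × Cm (m + 1) => (1 - x.1.1)) x := fun x =>
    contDiffAt_const.sub (contDiffAt_fst.comp x contDiffAt_fst)
  have sC : ContDiff ℝ ∞ (fun z : Cm (m + 1) => (ε : ℂ) • shf m z) := by
    have h3 := (((shf m : Cm (m + 1) →L[ℂ] Cm (m + 1)).restrictScalars ℝ).contDiff (n := ∞)).const_smul ε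
    convert h3 using 1
    funext y
    exact (RCLike.real_smul_eq_coe_smul (K := ℂ) ε _).symm
  refine ⟨fun x => H0 x + (1 - x.1.1) • (x.1.2.1 - H0 ((0, x.1.2), x.2)),
    fun x => H1 x + (1 - x.1.1) • ((x.1.2.2 • x.2 - (ε : ℂ) • shf m x.2) - H1 ((0, x.1.2), x.2)),
    ?_, ?_, ?_, ?_, ?_, ?_, ?_, ?_⟩
  · intro x hx
    refine (cH0 x hx).add ((tC x).smul (ContDiffAt.sub ?_
      (ContDiffAt.comp x (g := H0) (cH0 ((0, x.1.2), x.2) hx) (z1 x))))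
    exact contDiffAt_fst.comp x (contDiffAt_snd.comp x contDiffAt_fst)
  · intro x hx
    refine (cH1 x hx).add ((tC x).smul (ContDiffAt.sub (ContDiffAt.sub ?_ ?_)
      (ContDiffAt.comp x (g := H1) (cH1 ((0, x.1.2), x.2) hx) (z1 x))))
    · exact (contDiffAt_snd.comp x (contDiffAt_snd.comp x contDiffAt_fst)).smul contDiffAt_snd
    · exact sC.contDiffAt.comp x contDiffAt_snd
  · intro p z c hc
    simp only [eH0 _ _ _ hc]
  · intro p z c hc
    simp only [eH1 _ _ _ hc, map_smul]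
    have e1 : p.2.2 • c • z = c • p.2.2 • z := smul_comm _ _ _
    have e2 : (ε : ℂ) • c • shf m z = c • (ε : ℂ) • shf m z := smul_comm _ _ _
    rw [e1, e2, ← smul_sub, ← smul_sub, smul_comm (1 - p.1) c, ← smul_add]
  · intro q z hz
    simp
  · intro q z hz
    simp
  · intro p hp z hz
    have hz' : ‖z‖ = 1 := by simpa using hz
    have h1 := hA0 p hp z hz
    have h2 := hA0 (0, p.2) ⟨⟨le_rfl, zero_le_one⟩, hp.2⟩ z hz
    rw [s0 p.2 hp.2 z hz] at h2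
    have hn : nz z = z := nz_of_norm hz'
    simp only [hH0, hn]
    have ht := hp.1
    have ht' : |1 - p.1| ≤ 1 := by rw [abs_le]; constructor <;> [linarith [ht.2]; linarith [ht.1]]
    calc ‖G0 (p, z) + (1 - p.1) • (p.2.1 - G0 ((0, p.2), z)) - F0 (p, z)‖
        = ‖(G0 (p, z) - F0 (p, z)) + (1 - p.1) • (p.2.1 - G0 ((0, p.2), z))‖ := by congr 1; abel
      _ ≤ ‖G0 (p, z) - F0 (p, z)‖ + ‖(1 - p.1) • (p.2.1 - G0 ((0, p.2), z))‖ := norm_add_le _ _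
      _ ≤ κ + 1 * κ := by
          gcongr
          rw [norm_smul, Real.norm_eq_abs]
          gcongr
          rw [norm_sub_rev]; exact h2
      _ = 2 * κ := by ring
  · intro p hp z hz
    have hz' : ‖z‖ = 1 := by simpa using hz
    have h1 := hA1 p hp z hz
    have h2 := hA1 (0, p.2) ⟨⟨le_rfl, zero_le_one⟩, hp.2⟩ z hz
    rw [s1 p.2 hp.2 z hz] at h2
    have hn : nz z = z := nz_of_norm hz'
    simp only [hH1, hn, hz', Complex.ofReal_one, one_smul]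
    have ht := hp.1
    have ht' : |1 - p.1| ≤ 1 := by rw [abs_le]; constructor <;> [linarith [ht.2]; linarith [ht.1]]
    calc ‖G1 (p, z) + (1 - p.1) • (p.2.2 • z - (ε : ℂ) • shf m z - G1 ((0, p.2), z)) - F1 (p, z)‖
        = ‖(G1 (p, z) - F1 (p, z)) + (1 - p.1) • ((p.2.2 • z - G1 ((0, p.2), z)) - (ε : ℂ) • shf m z)‖ := by
          congr 1; rw [sub_right_comm]; abel
      _ ≤ ‖G1 (p, z) - F1 (p, z)‖ + ‖(1 - p.1) • ((p.2.2 • z - G1 ((0, p.2), z)) - (ε : ℂ) • shf m z)‖ :=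
          norm_add_le _ _
      _ ≤ κ + 1 * (κ + κ) := by
          gcongr
          rw [norm_smul, Real.norm_eq_abs]
          gcongr
          refine (norm_sub_le _ _).trans ?_
          gcongr
          · rw [norm_sub_rev]; exact h2
          · rw [norm_smul, LinearIsometryEquiv.norm_map, hz', mul_one, Complex.norm_real,
              Real.norm_eq_abs, abs_of_pos hε]
            exact hεκ
      _ = 3 * κ := by ring

/-- inclusion of the coordinate hyperplane -/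
def inj0 (m : ℕ) : Cm m →L[ℂ] Cm (m + 1) :=
  LinearMap.toContinuousLinearMap
    { toFun := fun z => WithLp.toLp 2 (Fin.cons 0 fun i => z i)
      map_add' := fun a b => by ext i; refine Fin.cases ?_ (fun i => ?_) i <;> simp
      map_smul' := fun c a => by ext i; refine Fin.cases ?_ (fun i => ?_) i <;> simp }

theorem inj0_zero (m : ℕ) (z : Cm m) : inj0 m z 0 = 0 := by simp [inj0]
theorem inj0_succ (m : ℕ) (z : Cm m) (i : Fin m) : inj0 m z i.succ = z i := by simp [inj0]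

def drop0 (m : ℕ) : Cm (m + 1) →L[ℂ] Cm m :=
  LinearMap.toContinuousLinearMap
    { toFun := fun z => WithLp.toLp 2 fun i => z i.succ
      map_add' := fun a b => by ext i; simp
      map_smul' := fun c a => by ext i; simp }

theorem drop0_apply (m : ℕ) (z : Cm (m + 1)) (i : Fin m) : drop0 m z i = z i.succ := by simp [drop0]

theorem drop0_norm (m : ℕ) (z : Cm (m + 1)) : ‖drop0 m z‖ ≤ ‖z‖ := by
  rw [EuclideanSpace.norm_eq, EuclideanSpace.norm_eq]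
  refine Real.sqrt_le_sqrt ?_
  rw [Fin.sum_univ_succ]
  simp only [drop0_apply]
  have : 0 ≤ ‖z 0‖ ^ 2 := by positivity
  linarith

theorem inj0_drop0 (m : ℕ) (z : Cm (m + 1)) (hz : z 0 = 0) : inj0 m (drop0 m z) = z := by
  ext i
  refine Fin.cases ?_ (fun i => ?_) i
  · rw [inj0_zero, hz]
  · rw [inj0_succ, drop0_apply]

theorem inj0_ne (m : ℕ) (z : Cm m) (hz : z ≠ 0) : inj0 m z ≠ 0 := by
  intro h
  apply hz
  ext i
  have := congrArg (fun v : Cm (m + 1) => v i.succ) h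
  simpa [inj0_succ] using this

/-- the model does not vanish on the hyperplane -/
theorem model_hyper (m : ℕ) (ε : ℝ) (hε : 0 < ε) (w : ℂ) (z : Cm (m + 1)) (hz0 : z 0 = 0)
    (h : w • z - (ε : ℂ) • shf m z = 0) : z = 0 := by
  have h5 : ∀ i, w * z i = ε * z (i + 1) := by
    intro i
    have := congrArg (fun v : Cm (m + 1) => v i) h
    simp [shf_apply] at this
    linear_combination this
  ext i
  induction i using Fin.induction with
  | zero => simpa using hz0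
  | succ i ih =>
    have := h5 i.castSucc
    have ih' : z i.castSucc = 0 := by simpa using ih
    rw [ih', Fin.coeSucc_eq_succ, mul_zero] at this
    have h6 : (ε : ℂ) ≠ 0 := by exact_mod_cast hε.ne'
    simpa using (mul_eq_zero.1 this.symm).resolve_left h6

/-- Step 2: general position on the hyperplane. -/
theorem step2 (m : ℕ) (ρ : ℝ)
    (F0 : (ℝ × V × ℂ) × Cm (m + 1) → V) (F1 : (ℝ × V × ℂ) × Cm (m + 1) → Cm (m + 1))
    (c0 : ContinuousOn F0 (bxt V ρ ×ˢ sphere 0 1)) (c1 : ContinuousOn F1 (bxt V ρ ×ˢ sphere 0 1))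
    (e0 : ∀ p ∈ bxt V ρ, ∀ z ∈ sphere (0 : Cm (m + 1)) 1, ∀ c : ℂ, ‖c‖ = 1 →
      F0 (p, c • z) = F0 (p, z))
    (e1 : ∀ p ∈ bxt V ρ, ∀ z ∈ sphere (0 : Cm (m + 1)) 1, ∀ c : ℂ, ‖c‖ = 1 →
      F1 (p, c • z) = c • F1 (p, z))
    (s0 : ∀ q ∈ bx V ρ, ∀ z ∈ sphere (0 : Cm (m + 1)) 1, F0 ((0, q), z) = q.1)
    (s1 : ∀ q ∈ bx V ρ, ∀ z ∈ sphere (0 : Cm (m + 1)) 1, F1 ((0, q), z) = q.2 • z)
    (κ : ℝ) (hκ : 0 < κ) (ε : ℝ) (hε : 0 < ε) (hεκ : ε ≤ κ) :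
    ∃ (R0 : (ℝ × V × ℂ) × Cm (m + 1) → V) (R1 : (ℝ × V × ℂ) × Cm (m + 1) → Cm (m + 1)),
      (∀ x, x.2 ≠ 0 → ContDiffAt ℝ ∞ R0 x) ∧ (∀ x, x.2 ≠ 0 → ContDiffAt ℝ ∞ R1 x) ∧
      (∀ p z (c : ℂ), c ≠ 0 → R0 (p, c • z) = R0 (p, z)) ∧
      (∀ p z (c : ℂ), c ≠ 0 → R1 (p, c • z) = c • R1 (p, z)) ∧
      (∀ q z, z ≠ 0 → R0 ((0, q), z) = q.1) ∧
      (∀ q z, z ≠ 0 → R1 ((0, q), z) = q.2 • z - (ε : ℂ) • shf m z) ∧
      (∀ p ∈ bxt V ρ, ∀ z ∈ sphere (0 : Cm (m + 1)) 1,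
        ‖R0 (p, z) - F0 (p, z)‖ + ‖R1 (p, z) - F1 (p, z)‖ ≤ 7 * κ) ∧
      (∀ p z, 0 < p.1 → p.1 < 1 → z ≠ 0 → z 0 = 0 → ¬ (R0 (p, z) = 0 ∧ R1 (p, z) = 0)) := by
  obtain ⟨R0, R1, hR0, hR1, hE0, hE1, hM0, hM1, hA0, hA1⟩ :=
    step1 m ρ F0 F1 c0 c1 e0 e1 s0 s1 κ hκ ε hε hεκ
  set O : Set (ℝ × V × ℂ) := {p | 0 < p.1 ∧ p.1 < 1} with hO
  set B : (ℝ × V × ℂ) → ℝ := fun p => (p.1 * (1 - p.1))⁻¹ with hB
  have hBc : ∀ p ∈ O, ContDiffAt ℝ ∞ B p := by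
    intro p hp
    refine ContDiffAt.inv (contDiffAt_fst.mul (contDiffAt_const.sub contDiffAt_fst)) ?_
    have h1 := hp.1; have h2 := hp.2
    have : 0 < p.1 * (1 - p.1) := mul_pos h1 (by linarith)
    exact this.ne'
  have hincl : ContDiff ℝ ∞ (fun x : (ℝ × V × ℂ) × Cm m => (x.1, inj0 m x.2)) :=
    contDiff_fst.prodMk (((inj0 m).restrictScalars ℝ).contDiff.comp contDiff_snd)
  obtain ⟨v, M, hv, hM, hgp⟩ := Pool.Agent.Helper49.CB.general_position (n := m) (P := ℝ × V × ℂ) (V := V) (by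
      simp [Module.finrank_prod]; ring) O
    ((isOpen_lt continuous_const continuous_fst).inter (isOpen_lt continuous_fst continuous_const))
    (by
      intro a ha b hb s t hs ht hst
      simp only [hO, mem_ofPred_eq, Prod.fst_add, Prod.smul_fst, smul_eq_mul] at *
      have e1 : s = 1 - t := by linarith
      subst e1
      constructor
      · rcases eq_or_lt_of_le ht with h | h
        · rw [← h]; simp; exact ha.1
        · have := mul_pos h hb.1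
          have := mul_nonneg hs ha.1.le
          linarith
      · rcases eq_or_lt_of_le ht with h | h
        · rw [← h]; simp; exact ha.2
        · have := mul_lt_mul_of_pos_left hb.2 h
          have := mul_le_mul_of_nonneg_left ha.2.le hs
          linarith)
    (fun x => B x.1 • R0 (x.1, inj0 m x.2)) (fun x => B x.1 • R1 (x.1, inj0 m x.2))
    (by
      intro x hx
      refine ContDiffAt.contDiffWithinAt ?_
      refine (ContDiffAt.smul ((hBc x.1 hx.1).comp x contDiffAt_fst) ?_).of_le (by norm_num)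
      exact (hR0 (x.1, inj0 m x.2) (inj0_ne m _ hx.2)).comp x hincl.contDiffAt)
    (by
      intro x hx
      refine ContDiffAt.contDiffWithinAt ?_
      refine (ContDiffAt.smul ((hBc x.1 hx.1).comp x contDiffAt_fst) ?_).of_le (by norm_num)
      exact (hR1 (x.1, inj0 m x.2) (inj0_ne m _ hx.2)).comp x hincl.contDiffAt)
    (by intro p z c hc; simp only [map_smul, hE0 _ _ _ hc])
    (by intro p z c hc; simp only [map_smul, hE1 _ _ _ hc]; rw [smul_comm]) κ hκ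
  have hqC : ∀ x : (ℝ × V × ℂ) × Cm (m + 1), ContDiffAt ℝ ∞
      (fun x : (ℝ × V × ℂ) × Cm (m + 1) => (x.1.1 * (1 - x.1.1))) x := fun x =>
    (contDiffAt_fst.comp x contDiffAt_fst).mul
      (contDiffAt_const.sub (contDiffAt_fst.comp x contDiffAt_fst))
  refine ⟨fun x => R0 x + (x.1.1 * (1 - x.1.1)) • v,
    fun x => R1 x + (x.1.1 * (1 - x.1.1)) • M (drop0 m x.2), ?_, ?_, ?_, ?_, ?_, ?_, ?_, ?_⟩
  · intro x hx
    exact (hR0 x hx).add ((hqC x).smul contDiffAt_const)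
  · intro x hx
    refine (hR1 x hx).add ((hqC x).smul ?_)
    exact (((M.comp (drop0 m)).restrictScalars ℝ).contDiff.comp contDiff_snd).contDiffAt
  · intro p z c hc
    simp only [hE0 _ _ _ hc]
  · intro p z c hc
    simp only [hE1 _ _ _ hc, map_smul]
    rw [smul_add, smul_comm c (p.1 * (1 - p.1))]
  · intro q z hz
    simp [hM0 q z hz]
  · intro q z hz
    simp [hM1 q z hz]
  · intro p hp z hz
    have hz' : ‖z‖ = 1 := by simpa using hz
    have ht := hp.1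
    have hq : |p.1 * (1 - p.1)| ≤ 1 := by
      rw [abs_of_nonneg (mul_nonneg ht.1 (by linarith [ht.2]))]
      nlinarith [ht.1, ht.2]
    have h1 : ‖(R0 (p, z) + (p.1 * (1 - p.1)) • v) - F0 (p, z)‖ ≤ 2 * κ + 1 * κ := by
      calc _ = ‖(R0 (p, z) - F0 (p, z)) + (p.1 * (1 - p.1)) • v‖ := by congr 1; abel
        _ ≤ ‖R0 (p, z) - F0 (p, z)‖ + ‖(p.1 * (1 - p.1)) • v‖ := norm_add_le _ _
        _ ≤ 2 * κ + 1 * κ := by
          gcongr
          · exact hA0 p hp z hz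
          · rw [norm_smul, Real.norm_eq_abs]
            gcongr
    have h2 : ‖(R1 (p, z) + (p.1 * (1 - p.1)) • M (drop0 m z)) - F1 (p, z)‖ ≤ 3 * κ + 1 * (κ * 1) := by
      calc _ = ‖(R1 (p, z) - F1 (p, z)) + (p.1 * (1 - p.1)) • M (drop0 m z)‖ := by congr 1; abel
        _ ≤ ‖R1 (p, z) - F1 (p, z)‖ + ‖(p.1 * (1 - p.1)) • M (drop0 m z)‖ := norm_add_le _ _
        _ ≤ 3 * κ + 1 * (κ * 1) := by
          gcongr
          · exact hA1 p hp z hz
          · rw [norm_smul, Real.norm_eq_abs]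
            gcongr
            refine (M.le_opNorm _).trans ?_
            gcongr
            exact (drop0_norm m z).trans hz'.le
    linarith
  · rintro p z hp0 hp1 hz hz0 ⟨h1, h2⟩
    have hz1 : drop0 m z ≠ 0 := by
      intro h
      apply hz
      rw [← inj0_drop0 m z hz0, h, map_zero]
    refine hgp p ⟨hp0, hp1⟩ (drop0 m z) hz1 ?_
    simp only
    rw [inj0_drop0 m z hz0]
    have hpp : p.1 * (1 - p.1) ≠ 0 := (mul_pos hp0 (by linarith)).ne'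
    constructor
    · have : B p • (R0 (p, z) + (p.1 * (1 - p.1)) • v) = 0 := by
        change R0 (p, z) + (p.1 * (1 - p.1)) • v = 0 at h1
        rw [h1, smul_zero]
      rw [smul_add, smul_smul] at this
      simp only [hB] at this ⊢
      rwa [inv_mul_cancel₀ hpp, one_smul] at this
    · have : B p • (R1 (p, z) + (p.1 * (1 - p.1)) • M (drop0 m z)) = 0 := by
        change R1 (p, z) + (p.1 * (1 - p.1)) • M (drop0 m z) = 0 at h2
        rw [h2, smul_zero]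
      rw [smul_add, smul_smul] at this
      simp only [hB] at this ⊢
      rwa [inv_mul_cancel₀ hpp, one_smul] at this

/-- The main non-extension lemma. -/
theorem no_extension (m : ℕ) (ρ : ℝ) (hρ : 0 < ρ)
    (F0 : (ℝ × V × ℂ) × Cm (m + 1) → V) (F1 : (ℝ × V × ℂ) × Cm (m + 1) → Cm (m + 1))
    (c0 : ContinuousOn F0 (bxt V ρ ×ˢ sphere 0 1)) (c1 : ContinuousOn F1 (bxt V ρ ×ˢ sphere 0 1))
    (e0 : ∀ p ∈ bxt V ρ, ∀ z ∈ sphere (0 : Cm (m + 1)) 1, ∀ c : ℂ, ‖c‖ = 1 →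
      F0 (p, c • z) = F0 (p, z))
    (e1 : ∀ p ∈ bxt V ρ, ∀ z ∈ sphere (0 : Cm (m + 1)) 1, ∀ c : ℂ, ‖c‖ = 1 →
      F1 (p, c • z) = c • F1 (p, z))
    (s0 : ∀ q ∈ bx V ρ, ∀ z ∈ sphere (0 : Cm (m + 1)) 1, F0 ((0, q), z) = q.1)
    (s1 : ∀ q ∈ bx V ρ, ∀ z ∈ sphere (0 : Cm (m + 1)) 1, F1 ((0, q), z) = q.2 • z)
    (hb : ∀ p ∈ bxt V ρ, onb ρ p.2 → ∀ z ∈ sphere (0 : Cm (m + 1)) 1,
      ¬ (F0 (p, z) = 0 ∧ F1 (p, z) = 0))
    (h1 : ∀ q ∈ bx V ρ, ∀ z ∈ sphere (0 : Cm (m + 1)) 1,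
      ¬ (F0 ((1, q), z) = 0 ∧ F1 ((1, q), z) = 0)) : False := by
  -- the compact set where `F` must not vanish
  set W : Set ((ℝ × V × ℂ) × Cm (m + 1)) := bxt V ρ ×ˢ sphere 0 1 with hW
  have hWc : IsCompact W := (bxt_compact ρ).prod (isCompact_sphere _ _)
  set S : Set ((ℝ × V × ℂ) × Cm (m + 1)) := W ∩ {x | onb ρ x.1.2 ∨ x.1.1 = 1} with hS
  have hSc : IsCompact S := by
    refine hWc.inter_right ?_
    have : {x : (ℝ × V × ℂ) × Cm (m + 1) | onb ρ x.1.2 ∨ x.1.1 = 1} =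
      ({x | ‖x.1.2.1‖ = ρ} ∪ ({x | |x.1.2.2.re| = 1} ∪ {x | |x.1.2.2.im| = 1})) ∪ {x | x.1.1 = 1} := by
      ext x; simp [onb]
    rw [this]
    refine ((isClosed_eq (by fun_prop) continuous_const).union
      ((isClosed_eq ?_ continuous_const).union (isClosed_eq ?_ continuous_const))).union
      (isClosed_eq (by fun_prop) continuous_const)
    · exact (Complex.continuous_re.comp (by fun_prop)).abs
    · exact (Complex.continuous_im.comp (by fun_prop)).abs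
  have hSne : S.Nonempty := by
    refine ⟨((1, 0, 0), EuclideanSpace.single 0 1), ⟨⟨⟨⟨zero_le_one, le_rfl⟩, ?_⟩, ?_⟩, Or.inr rfl⟩⟩
    · simp [bx, hρ.le]
    · simp
  have hnS : ∀ x ∈ S, ¬ (F0 x = 0 ∧ F1 x = 0) := by
    rintro ⟨⟨t, q⟩, z⟩ ⟨⟨hp, hz⟩, h | h⟩
    · exact hb _ hp h z hz
    · simp only at h
      subst h
      exact h1 q hp.2 z hz
  obtain ⟨κ0, hκ0, hlow⟩ : ∃ κ0 > 0, ∀ x ∈ S, κ0 ≤ ‖F0 x‖ + ‖F1 x‖ := by
    have hc : ContinuousOn (fun x => ‖F0 x‖ + ‖F1 x‖) S :=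
      ((c0.norm).add (c1.norm)).mono inter_subset_left
    obtain ⟨x1, hx1, hmin⟩ := hSc.exists_isMinOn hSne hc
    refine ⟨‖F0 x1‖ + ‖F1 x1‖, ?_, fun x hx => hmin hx⟩
    by_contra hle
    have h2 := norm_nonneg (F0 x1)
    have h3 := norm_nonneg (F1 x1)
    exact hnS x1 hx1 ⟨norm_eq_zero.1 (by linarith), norm_eq_zero.1 (by linarith)⟩
  set κ : ℝ := κ0 / 8 with hκ
  have hκp : 0 < κ := by positivity
  set ε : ℝ := min κ (1 / 2) with hε
  have hεp : 0 < ε := lt_min hκp (by norm_num)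
  obtain ⟨T0, T1, hT0, hT1, hE0, hE1, hM0, hM1, hA, hgp⟩ :=
    step2 m ρ F0 F1 c0 c1 e0 e1 s0 s1 κ hκp ε hεp (min_le_left _ _)
  -- (a)
  have ha : ∀ x ∈ S, ¬ (T0 x = 0 ∧ T1 x = 0) := by
    rintro ⟨p, z⟩ hx ⟨h2, h3⟩
    have h4 := hA p hx.1.1 z hx.1.2
    rw [h2, h3, zero_sub, zero_sub, norm_neg, norm_neg] at h4
    have h5 := hlow _ hx
    rw [hκ] at h4
    linarith
  -- (b)
  have hbh : ∀ x ∈ W, x.2 0 = 0 → ¬ (T0 x = 0 ∧ T1 x = 0) := by
    rintro ⟨⟨t, q⟩, z⟩ hx hz0 ⟨h2, h3⟩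
    have hz1 : ‖z‖ = 1 := by simpa using hx.2
    have hzne : z ≠ 0 := by intro h; simp [h] at hz1
    rcases eq_or_lt_of_le hx.1.1.1 with h | h
    · simp only at h
      subst h
      rw [hM1 q z hzne] at h3
      exact hzne (model_hyper m ε hεp q.2 z hz0 h3)
    · rcases eq_or_lt_of_le hx.1.1.2 with h' | h'
      · exact ha ((t, q), z) ⟨hx, Or.inr h'⟩ ⟨h2, h3⟩
      · exact hgp (t, q) z h h' hzne hz0 ⟨h2, h3⟩
  have hT0c : ContinuousOn T0 W := fun x hx => by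
    refine (hT0 x ?_).continuousAt.continuousWithinAt
    intro h
    have := hx.2
    simp [h] at this
  have hT1c : ContinuousOn T1 W := fun x hx => by
    refine (hT1 x ?_).continuousAt.continuousWithinAt
    intro h
    have := hx.2
    simp [h] at this
  -- (c)
  obtain ⟨η, hη, hηb⟩ : ∃ η > 0, ∀ x ∈ W, (T0 x = 0 ∧ T1 x = 0) → η ≤ ‖x.2 0‖ := by
    set Zs : Set ((ℝ × V × ℂ) × Cm (m + 1)) := {x ∈ W | (T0 x, T1 x) = 0} with hZs
    have hZc : IsCompact Zs := by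
      have h2 := (hT0c.prodMk hT1c).preimage_isClosed_of_isClosed hWc.isClosed
        (isClosed_singleton (x := (0 : V × Cm (m + 1))))
      exact hWc.of_isClosed_subset h2 (fun x hx => hx.1)
    rcases Zs.eq_empty_or_nonempty with h | h
    · refine ⟨1, one_pos, fun x hx hx' => ?_⟩
      exfalso
      have : x ∈ Zs := ⟨hx, by simp [hx'.1, hx'.2]⟩
      rw [h] at this
      exact this
    · have hc : Continuous (fun x : (ℝ × V × ℂ) × Cm (m + 1) => ‖x.2 0‖) := by fun_prop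
      obtain ⟨x1, hx1, hmin⟩ := hZc.exists_isMinOn h hc.continuousOn
      refine ⟨‖x1.2 0‖, norm_pos_iff.2 ?_, fun x hx hx' => hmin ⟨hx, by simp [hx'.1, hx'.2]⟩⟩
      intro h0
      have h2 : (T0 x1, T1 x1) = 0 := hx1.2
      exact hbh x1 hx1.1 h0 ⟨congrArg Prod.fst h2, congrArg Prod.snd h2⟩
  have hzz0 : ∀ y : Cm (m + 1), zz m y 0 = 1 := fun y => by rw [zz_apply, if_pos rfl]
  have hzzne : ∀ y : Cm (m + 1), zz m y ≠ 0 := fun y h => by
    have := hzz0 y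
    rw [h] at this
    simp at this
  -- zeros on the chart are normalised zeros
  have hnorm : ∀ p, ∀ z : Cm (m + 1), z ≠ 0 → (T0 (p, z) = 0 ∧ T1 (p, z) = 0) →
      (T0 (p, nz z) = 0 ∧ T1 (p, nz z) = 0) := by
    intro p z hz h
    have hc : ((‖z‖ : ℝ) : ℂ)⁻¹ ≠ 0 := by
      refine inv_ne_zero ?_
      exact_mod_cast norm_ne_zero_iff.2 hz
    unfold nz
    rw [hE0 _ _ _ hc, hE1 _ _ _ hc, h.1, h.2]
    simp
  have hbound : ∀ t ∈ Icc (0 : ℝ) 1, ∀ x : V × Cm (m + 1), (x.1, x.2 0) ∈ bx V ρ →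
      (T0 ((t, x.1, x.2 0), zz m x.2) = 0 ∧ T1 ((t, x.1, x.2 0), zz m x.2) = 0) →
      ‖x.2‖ ≤ η⁻¹ + 3 := by
    intro t ht x hx h
    have h2 := hnorm _ _ (hzzne x.2) h
    have h3 := hηb ((t, x.1, x.2 0), nz (zz m x.2)) ⟨⟨ht, hx⟩, by
      simpa using nz_norm (hzzne x.2)⟩ h2
    have h4 : ‖(nz (zz m x.2)) 0‖ = ‖zz m x.2‖⁻¹ := by
      simp [nz, hzz0]
    simp only at h3
    rw [h4] at h3
    have h5 : ‖zz m x.2‖ ≤ η⁻¹ := by
      rw [← inv_inv ‖zz m x.2‖]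
      exact inv_anti₀ hη h3
    have h6 : x.2 = zz m x.2 + EuclideanSpace.single 0 (x.2 0 - 1) := by
      ext i
      by_cases hi : i = 0
      · subst hi; simp [zz_apply]
      · simp [zz_apply, hi]
    have h7 : ‖x.2 0‖ ≤ 2 := by
      have := Complex.norm_le_abs_re_add_abs_im (x.2 0)
      have h8 := hx.2.1
      have h9 := hx.2.2
      simp only at h8 h9
      linarith
    rw [h6]
    refine (norm_add_le _ _).trans ?_
    have h8 : ‖(EuclideanSpace.single 0 (x.2 0 - 1) : Cm (m + 1))‖ ≤ 3 := by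
      rw [PiLp.norm_single]
      refine (norm_sub_le _ _).trans ?_
      rw [norm_one]
      linarith
    linarith
  -- (5)
  set Q : V × Cm (m + 1) → V × ℂ := fun x => (x.1, x.2 0) with hQ
  have hQc : Continuous Q := by rw [hQ]; fun_prop
  have hQs : ContDiff ℝ ∞ Q := contDiff_fst.prodMk
    (((EuclideanSpace.proj (𝕜 := ℂ) (0 : Fin (m + 1)) : Cm (m + 1) →L[ℂ] ℂ).restrictScalars ℝ).contDiff.comp
      contDiff_snd)
  have hzzs : ContDiff ℝ ∞ (zz m) := ((kill m).restrictScalars ℝ).contDiff.add contDiff_const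
  set K1 : Set (V × Cm (m + 1)) := {x | Q x ∈ bx V ρ ∧ ‖x.2‖ ≤ η⁻¹ + 4} with hK1
  have hK1c : IsCompact K1 := by
    have h2 : IsCompact ((closedBall (0 : V) ρ) ×ˢ (closedBall (0 : Cm (m + 1)) (η⁻¹ + 4))) :=
      (isCompact_closedBall _ _).prod (isCompact_closedBall _ _)
    refine h2.of_isClosed_subset ?_ ?_
    · exact ((bx_compact ρ).isClosed.preimage hQc).inter
        (isClosed_le continuous_snd.norm continuous_const)
    · rintro ⟨v, y⟩ ⟨h3, h4⟩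
      exact ⟨by simpa using h3.1, by simpa using h4⟩
  set U : Set (V × Cm (m + 1)) := {x | ‖x.1‖ < ρ ∧ |(x.2 0).re| < 1 ∧ |(x.2 0).im| < 1 ∧
    ‖x.2‖ < η⁻¹ + 4} with hU
  have hUo : IsOpen U := by
    have : U = {x | ‖x.1‖ < ρ} ∩ ({x | |(x.2 0).re| < 1} ∩ ({x | |(x.2 0).im| < 1} ∩
      {x | ‖x.2‖ < η⁻¹ + 4})) := rfl
    rw [this]
    refine (isOpen_lt (by fun_prop) continuous_const).inter ((isOpen_lt ?_ continuous_const).inter
      ((isOpen_lt ?_ continuous_const).inter (isOpen_lt (by fun_prop) continuous_const)))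
    · exact (Complex.continuous_re.comp (by fun_prop)).abs
    · exact (Complex.continuous_im.comp (by fun_prop)).abs
  have hUK : U ⊆ K1 := fun x hx => ⟨⟨hx.1.le, hx.2.1.le, hx.2.2.1.le⟩, hx.2.2.2.le⟩
  set TT : ℝ × (V × Cm (m + 1)) → V × Cm (m + 1) := fun a =>
    (T0 ((a.1, Q a.2), zz m a.2.2), T1 ((a.1, Q a.2), zz m a.2.2)) with hTT
  have harg : ContDiff ℝ ∞ (fun a : ℝ × (V × Cm (m + 1)) =>
      (((a.1, Q a.2), zz m a.2.2) : (ℝ × V × ℂ) × Cm (m + 1))) :=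
    (contDiff_fst.prodMk (hQs.comp contDiff_snd)).prodMk
      (hzzs.comp (contDiff_snd.comp contDiff_snd))
  have hTTs : ContDiff ℝ ∞ TT := by
    rw [contDiff_iff_contDiffAt]
    intro a
    exact (ContDiffAt.comp a (g := T0) (hT0 _ (hzzne _)) harg.contDiffAt).prodMk
      (ContDiffAt.comp a (g := T1) (hT1 _ (hzzne _)) harg.contDiffAt)
  set CC : Set (ℝ × (V × Cm (m + 1))) := (Icc (0 : ℝ) 1 ×ˢ K1) ∩ TT ⁻¹' {0} with hCC
  have hCCc : IsCompact CC :=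
    (isCompact_Icc.prod hK1c).inter_right ((isClosed_singleton).preimage hTTs.continuous)
  have hZtc : IsCompact (Prod.snd '' CC) := hCCc.image continuous_snd
  have hZU : Prod.snd '' CC ⊆ U := by
    rintro _ ⟨⟨t, x⟩, ⟨⟨ht, hx⟩, h0⟩, rfl⟩
    have h0' : (T0 ((t, x.1, x.2 0), zz m x.2) = 0 ∧ T1 ((t, x.1, x.2 0), zz m x.2) = 0) :=
      ⟨congrArg Prod.fst h0, congrArg Prod.snd h0⟩
    have h2 := hbound t ht x hx.1 h0'
    have h3 := hnorm _ _ (hzzne x.2) h0'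
    have h4 : ¬ onb ρ (Q x) := fun h4 => by
      refine ha ((t, Q x), nz (zz m x.2)) ⟨⟨⟨ht, hx.1⟩, ?_⟩, Or.inl h4⟩ h3
      simpa using nz_norm (hzzne x.2)
    simp only [onb, not_or] at h4
    exact ⟨lt_of_le_of_ne hx.1.1 h4.1, lt_of_le_of_ne hx.1.2.1 h4.2.1,
      lt_of_le_of_ne hx.1.2.2 h4.2.2, by simp only; linarith⟩
  obtain ⟨θ, hθ0, hθ1, hθ⟩ := exists_contMDiffMap_zero_one_of_isClosed (n := (⊤ : ℕ∞))
    𝓘(ℝ, V × Cm (m + 1)) hUo.isClosed_compl hZtc.isClosed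
    (disjoint_left.2 fun x hx hx' => hx (hZU hx'))
  have hθs : ContDiff ℝ ∞ (fun x => θ x) := θ.contMDiff.contDiff
  set f : V × Cm (m + 1) → V × Cm (m + 1) := fun x => TT (θ x, x) with hf
  have hfs : ContDiff ℝ ∞ f := hTTs.comp (hθs.prodMk contDiff_id)
  have hmodel : ∀ x : V × Cm (m + 1), TT (0, x) = gm m V ε x := by
    intro x
    simp only [hTT, gm, qq]
    rw [hM0 _ _ (hzzne _), hM1 _ _ (hzzne _)]
  refine deg_contra m ε hεp f (hfs.of_le (WithTop.coe_le_coe.2 (le_top : (2 : ℕ∞) ≤ ⊤))) K1 hK1c ?_ ?_ ?_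
  · intro x hx
    have hxU : x ∉ U := fun h => hx (hUK h)
    have : θ x = 0 := hθ0 hxU
    simp only [hf]
    rw [this, hmodel]
  · intro x hx h0
    have h2 : x ∈ Prod.snd '' CC := ⟨(θ x, x), ⟨⟨hθ x, hx⟩, h0⟩, rfl⟩
    have h3 : θ x = 1 := hθ1 h2
    simp only [hf, h3] at h0
    have h0' : (T0 ((1, x.1, x.2 0), zz m x.2) = 0 ∧ T1 ((1, x.1, x.2 0), zz m x.2) = 0) :=
      ⟨congrArg Prod.fst h0, congrArg Prod.snd h0⟩
    have h4 := hnorm _ _ (hzzne x.2) h0'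
    refine ha ((1, Q x), nz (zz m x.2)) ⟨⟨⟨⟨zero_le_one, le_rfl⟩, hx.1⟩, ?_⟩, Or.inr rfl⟩ h4
    simpa using nz_norm (hzzne x.2)
  · have hy : (y0 m ε) 0 = (ε : ℂ) := by simp [y0]
    have hin : ((0 : V), (y0 m ε) 0) ∈ bx V ρ := by
      rw [hy]
      have h2 : ε ≤ 1 / 2 := min_le_right _ _
      refine ⟨by simpa using hρ.le, ?_, by simp⟩
      simp only [Complex.ofReal_re]
      rw [abs_of_pos hεp]
      linarith
    refine ⟨hin, ?_⟩
    have h2 := hmodel ((0 : V), y0 m ε)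
    simp only [gm, qq_y0] at h2
    have h0' : (T0 ((0, (0 : V), (y0 m ε) 0), zz m (y0 m ε)) = 0 ∧
      T1 ((0, (0 : V), (y0 m ε) 0), zz m (y0 m ε)) = 0) :=
      ⟨congrArg Prod.fst h2, congrArg Prod.snd h2⟩
    have h3 := hbound 0 ⟨le_rfl, zero_le_one⟩ ((0 : V), y0 m ε) hin h0'
    simp only at h3 ⊢
    linarith

end

end Pool.Agent.Helper24.CB
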