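import Mathlib
import Pool.Agent.Helper24.CB.NoExt
import Pool.Agent.Helper24.CB.Bump

/-! # A connected set of zeros (module T) -/

open MeasureTheory Set Metric Topology

namespace Pool.Agent.Helper24.CB

noncomputable section

namespace Zeros

/-- clamping to `[0,1]` -/
def cl (x : ℝ) : ℝ := max 0 (min 1 x)

theorem cl_cont : Continuous cl := by unfold cl; fun_prop

theorem cl_nonneg (x : ℝ) : 0 ≤ cl x := le_max_left _ _

theorem cl_le (x : ℝ) : cl x ≤ 1 := max_le zero_le_one (min_le_left _ _)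

theorem cl_zero {x : ℝ} (h : x ≤ 0) : cl x = 0 := by
  unfold cl; rw [min_eq_right (by linarith), max_eq_left h]

theorem cl_one {x : ℝ} (h : 1 ≤ x) : cl x = 1 := by
  unfold cl; rw [min_eq_left h, max_eq_right zero_le_one]

theorem cl_dichotomy (x : ℝ) : cl x = 1 ∨ cl (x - 1) = 0 := by
  rcases le_total 1 x with h | h
  · exact Or.inl (cl_one h)
  · exact Or.inr (cl_zero (by linarith))

variable {V : Type} [NormedAddCommGroup V] [NormedSpace ℝ V] [FiniteDimensional ℝ V]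

/-- the homotopy on the sphere extends to the ball with prescribed ends -/
theorem exists_hext (ρ : ℝ) (f : V → V) (hf : ContinuousOn f (closedBall 0 ρ))
    (Hm : ℝ × V → V) (hHc : ContinuousOn Hm (Icc 0 1 ×ˢ sphere 0 ρ))
    (hH0 : ∀ v ∈ sphere (0 : V) ρ, Hm (0, v) = f v) (hH1 : ∀ v ∈ sphere (0 : V) ρ, Hm (1, v) = v) :
    ∃ E : ℝ × V → V, Continuous E ∧ (∀ v ∈ closedBall (0 : V) ρ, E (0, v) = v) ∧
      (∀ v ∈ closedBall (0 : V) ρ, E (1, v) = f v) ∧
      (∀ t ∈ Icc (0 : ℝ) 1, ∀ v ∈ sphere (0 : V) ρ, E (t, v) = Hm (1 - t, v)) := by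
  classical
  let g : ℝ × V → V := fun p => if ‖p.2‖ = ρ then Hm (1 - p.1, p.2) else if p.1 = 0 then p.2 else f p.2
  set S0 : Set (ℝ × V) := {0} ×ˢ closedBall (0 : V) ρ with hS0
  set S1 : Set (ℝ × V) := {1} ×ˢ closedBall (0 : V) ρ with hS1
  set S2 : Set (ℝ × V) := Icc (0 : ℝ) 1 ×ˢ sphere (0 : V) ρ with hS2
  have k0 : IsClosed S0 := isClosed_singleton.prod isClosed_closedBall
  have k1 : IsClosed S1 := isClosed_singleton.prod isClosed_closedBall
  have k2 : IsClosed S2 := isClosed_Icc.prod isClosed_sphere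
  have g0 : ∀ v ∈ closedBall (0 : V) ρ, g (0, v) = v := by
    intro v hv
    simp only [g]
    split_ifs with h
    · rw [sub_zero]; exact hH1 v (by simpa using h)
    · rfl
  have g1 : ∀ v ∈ closedBall (0 : V) ρ, g (1, v) = f v := by
    intro v hv
    simp only [g]
    split_ifs with h h'
    · rw [sub_self]; exact hH0 v (by simpa using h)
    · norm_num at h'
    · rfl
  have g2 : ∀ t ∈ Icc (0 : ℝ) 1, ∀ v ∈ sphere (0 : V) ρ, g (t, v) = Hm (1 - t, v) := by
    intro t _ v hv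
    simp only [g]
    rw [if_pos (by simpa using hv)]
  have c0 : ContinuousOn g S0 := by
    refine ContinuousOn.congr (f := fun p : ℝ × V => p.2) (by fun_prop) ?_
    rintro ⟨t, v⟩ ⟨ht, hv⟩
    simp only [mem_singleton_iff] at ht
    subst ht
    exact g0 v hv
  have c1 : ContinuousOn g S1 := by
    refine ContinuousOn.congr (f := fun p : ℝ × V => f p.2) ?_ ?_
    · exact hf.comp continuous_snd.continuousOn fun p hp => hp.2
    · rintro ⟨t, v⟩ ⟨ht, hv⟩
      simp only [mem_singleton_iff] at ht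
      subst ht
      exact g1 v hv
  have c2 : ContinuousOn g S2 := by
    refine ContinuousOn.congr (f := fun p : ℝ × V => Hm (1 - p.1, p.2)) ?_ ?_
    · refine hHc.comp (by fun_prop) ?_
      rintro ⟨t, v⟩ ⟨ht, hv⟩
      exact ⟨⟨by linarith [ht.2], by linarith [ht.1]⟩, hv⟩
    · rintro ⟨t, v⟩ ⟨ht, hv⟩
      exact g2 t ht v hv
  have cg : ContinuousOn g (S0 ∪ S1 ∪ S2) :=
    (c0.union_of_isClosed c1 k0 k1).union_of_isClosed c2 (k0.union k1) k2
  obtain ⟨G, hG⟩ := ContinuousMap.exists_restrict_eq ((k0.union k1).union k2)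
    (⟨(S0 ∪ S1 ∪ S2).restrict g, continuousOn_iff_continuous_restrict.1 cg⟩ : C(_, V))
  have hG' : ∀ x ∈ S0 ∪ S1 ∪ S2, G x = g x := by
    intro x hx
    exact congrArg (fun F : C(↥(S0 ∪ S1 ∪ S2), V) => F ⟨x, hx⟩) hG
  refine ⟨G, G.continuous, fun v hv => ?_, fun v hv => ?_, fun t ht v hv => ?_⟩
  · rw [hG' _ (Or.inl (Or.inl (mk_mem_prod (mem_singleton _) hv))), g0 v hv]
  · rw [hG' _ (Or.inl (Or.inr (mk_mem_prod (mem_singleton _) hv))), g1 v hv]
  · rw [hG' _ (Or.inr (mk_mem_prod ht hv)), g2 t ht v hv]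

/-- the circle action -/
def act {m : ℕ} (c : ℂ) (x : V × ℝ × ℝ × Cm (m + 1)) : V × ℝ × ℝ × Cm (m + 1) :=
  (x.1, x.2.1, x.2.2.1, c • x.2.2.2)

theorem act_act {m : ℕ} (c d : ℂ) (x : V × ℝ × ℝ × Cm (m + 1)) : act c (act d x) = act (c * d) x := by
  simp [act, smul_smul]

theorem act_one {m : ℕ} (x : V × ℝ × ℝ × Cm (m + 1)) : act 1 x = x := by simp [act]

theorem act_dist {m : ℕ} (c : ℂ) (hc : ‖c‖ = 1) (x y : V × ℝ × ℝ × Cm (m + 1)) :
    dist (act c x) (act c y) = dist x y := by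
  simp only [act, Prod.dist_eq]
  rw [dist_smul₀ c, hc, one_mul]

theorem infDist_act {m : ℕ} (c : ℂ) (hc : ‖c‖ = 1) (S : Set (V × ℝ × ℝ × Cm (m + 1)))
    (hS : ∀ d : ℂ, ‖d‖ = 1 → ∀ x ∈ S, act d x ∈ S) (x : V × ℝ × ℝ × Cm (m + 1)) :
    infDist (act c x) S = infDist x S := by
  have hc0 : c ≠ 0 := by rintro rfl; simp at hc
  have hci : ‖c⁻¹‖ = 1 := by rw [norm_inv, hc, inv_one]
  have himg : act c '' S = S := by
    apply Subset.antisymm
    · rintro _ ⟨y, hy, rfl⟩; exact hS c hc y hy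
    · intro y hy
      exact ⟨act c⁻¹ y, hS _ hci y hy, by rw [act_act, mul_inv_cancel₀ hc0, act_one]⟩
  have hiso : Isometry (act (V := V) (m := m) c) := Isometry.of_dist_eq (act_dist c hc)
  conv_lhs => rw [← himg]
  exact infDist_image hiso


/-- the contradiction in the separated case -/
theorem separated {m : ℕ} (ρ r₀ l₀ ε : ℝ) (hρ : 0 < ρ) (hr₀ : 0 < r₀) (hε : 0 < ε)
    (K : Set (V × ℝ × ℝ × Cm (m + 1)))
    (hK : K = {x | ‖x.1‖ ≤ ρ ∧ x.2.1 ∈ Icc 0 r₀ ∧ x.2.2.1 ∈ Icc (l₀ - ε) (l₀ + ε) ∧ ‖x.2.2.2‖ = 1})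
    (h0 : V × ℝ × ℝ × Cm (m + 1) → V) (h1 : V × ℝ × ℝ × Cm (m + 1) → Cm (m + 1))
    (c0 : ContinuousOn h0 K) (c1 : ContinuousOn h1 K)
    (e0 : ∀ v r l z, (v, r, l, z) ∈ K → ∀ c : ℂ, ‖c‖ = 1 → h0 (v, r, l, c • z) = h0 (v, r, l, z))
    (e1 : ∀ v r l z, (v, r, l, z) ∈ K → ∀ c : ℂ, ‖c‖ = 1 → h1 (v, r, l, c • z) = c • h1 (v, r, l, z))
    (orth : ∀ v r l z, (v, r, l, z) ∈ K → (inner ℂ (h1 (v, r, l, z)) z).im = 0)
    (f : V → V) (hf : ContinuousOn f (closedBall 0 ρ))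
    (h0r : ∀ v l z, (v, 0, l, z) ∈ K → h0 (v, 0, l, z) = f v)
    (fne : ∀ v, ‖v‖ ≤ ρ → f v = 0 → v = 0)
    (Hm : ℝ × V → V) (hHc : ContinuousOn Hm (Icc 0 1 ×ˢ sphere 0 ρ))
    (hH0 : ∀ v ∈ sphere (0 : V) ρ, Hm (0, v) = f v) (hH1 : ∀ v ∈ sphere (0 : V) ρ, Hm (1, v) = v)
    (hHne : ∀ t ∈ Icc (0 : ℝ) 1, ∀ v ∈ sphere (0 : V) ρ, Hm (t, v) ≠ 0)
    (c : ℝ → ℝ) (hc : ContinuousOn c (Icc (l₀ - ε) (l₀ + ε)))
    (h1c : ∀ l z, (0, 0, l, z) ∈ K → h1 (0, 0, l, z) = (c l : ℂ) • z)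
    (cpos : ∀ l ∈ Ico (l₀ - ε) l₀, 0 < c l) (cneg : ∀ l ∈ Ioc l₀ (l₀ + ε), c l < 0)
    (μ : V × ℝ × ℝ × Cm (m + 1) → ℝ) (μc : Continuous μ)
    (μinv : ∀ d : ℂ, ‖d‖ = 1 → ∀ x, μ (act d x) = μ x)
    (μ0 : ∀ z, ‖z‖ = 1 → 0 < μ (0, 0, l₀, z))
    (μne : ∀ x ∈ K, h0 x = 0 → h1 x = 0 → μ x ≠ 0)
    (μb : ∀ x ∈ K, h0 x = 0 → h1 x = 0 → (x.2.1 = r₀ ∨ ‖x.1‖ = ρ ∨ |x.2.2.1 - l₀| = ε) → μ x < 0) :
    False := by
  obtain ⟨E, hE, E0, E1, Em⟩ := exists_hext ρ f hf Hm hHc hH0 hH1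
  have memK : ∀ v r l z, (v, r, l, z) ∈ K ↔ ‖v‖ ≤ ρ ∧ r ∈ Icc 0 r₀ ∧ l ∈ Icc (l₀ - ε) (l₀ + ε) ∧ ‖z‖ = 1 := by
    intro v r l z; rw [hK]; rfl
  -- the clamped times
  let τ : ℕ → ℝ → ℝ := fun i t => cl (5 * t - i)
  have τc : ∀ i, Continuous (τ i) := fun i => cl_cont.comp (by fun_prop)
  have τ0 : ∀ i t, 0 ≤ τ i t := fun i t => cl_nonneg _
  have τ1 : ∀ i t, τ i t ≤ 1 := fun i t => cl_le _
  have τd : ∀ i t, τ i t = 1 ∨ τ (i + 1) t = 0 := by
    intro i t
    have := cl_dichotomy (5 * t - i)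
    simp only [τ]
    push_cast
    rw [show 5 * t - ((i : ℝ) + 1) = 5 * t - i - 1 by ring]
    exact this
  have τs : ∀ i, τ i 0 = 0 := by
    intro i; simp only [τ]; apply cl_zero
    have : (0 : ℝ) ≤ i := Nat.cast_nonneg i
    linarith
  have τe : ∀ i ≤ 4, τ i 1 = 1 := by
    intro i hi; simp only [τ]; apply cl_one
    have : (i : ℝ) ≤ 4 := by exact_mod_cast hi
    linarith
  -- coordinates
  let rr : ℝ × V × ℂ → ℝ := fun p => -1 + (p.2.2.im + 1) * (1 + τ 3 p.1 * r₀) / 2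
  let rp : ℝ × V × ℂ → ℝ := fun p => max (rr p) 0
  let rm : ℝ × V × ℂ → ℝ := fun p => min (rr p) 0
  let ll : ℝ × V × ℂ → ℝ := fun p => l₀ - ε * p.2.2.re
  let nu : (ℝ × V × ℂ) × Cm (m + 1) → ℝ := fun x =>
    (1 - τ 4 x.1.1) * μ (x.1.2.1, rp x.1, ll x.1, x.2) - τ 4 x.1.1
  let F0 : (ℝ × V × ℂ) × Cm (m + 1) → V := fun x =>
    E (τ 1 x.1.1, x.1.2.1) + (h0 (x.1.2.1, rp x.1, ll x.1, x.2) - f x.1.2.1)
  let F1 : (ℝ × V × ℂ) × Cm (m + 1) → Cm (m + 1) := fun x =>
    (((1 - τ 0 x.1.1) * x.1.2.2.re : ℝ) : ℂ) • x.2 +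
      ((τ 0 x.1.1 : ℝ) : ℂ) • h1 ((τ 2 x.1.1 * (1 + rm x.1)) • x.1.2.1, rp x.1, ll x.1, x.2) +
      (Complex.I * (((1 - τ 2 x.1.1) * x.1.2.2.im + τ 2 x.1.1 * ((1 + rm x.1) * nu x + rm x.1) : ℝ) : ℂ)) • x.2
  have rrc : Continuous rr := by
    have := τc 3
    have h2 : Continuous fun p : ℝ × V × ℂ => p.2.2.im := Complex.continuous_im.comp (by fun_prop)
    fun_prop
  have rpc : Continuous rp := rrc.max continuous_const
  have rmc : Continuous rm := rrc.min continuous_const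
  have llc : Continuous ll := by
    have h2 : Continuous fun p : ℝ × V × ℂ => p.2.2.re := Complex.continuous_re.comp (by fun_prop)
    fun_prop
  have rrb : ∀ p ∈ bxt V ρ, -1 ≤ rr p ∧ rr p ≤ r₀ := by
    rintro ⟨t, v, w⟩ ⟨ht, hv, hre, him⟩
    simp only at ht hv hre him
    have h3 := τ0 3 t
    have h4 := τ1 3 t
    obtain ⟨h5, h6⟩ := abs_le.1 him
    simp only [rr]
    constructor
    · have : 0 ≤ (w.im + 1) * (1 + τ 3 t * r₀) := mul_nonneg (by linarith) (by positivity)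
      linarith
    · have h7 : τ 3 t * r₀ ≤ 1 * r₀ := mul_le_mul_of_nonneg_right h4 hr₀.le
      have : (w.im + 1) * (1 + τ 3 t * r₀) ≤ 2 * (1 + r₀) :=
        mul_le_mul (by linarith) (by linarith) (by positivity) (by norm_num)
      linarith
  have rpK : ∀ p ∈ bxt V ρ, rp p ∈ Icc 0 r₀ := fun p hp =>
    ⟨le_max_right _ _, max_le (rrb p hp).2 hr₀.le⟩
  have rmb : ∀ p ∈ bxt V ρ, -1 ≤ rm p ∧ rm p ≤ 0 := fun p hp =>
    ⟨le_min (rrb p hp).1 (by norm_num), min_le_right _ _⟩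
  have llK : ∀ p ∈ bxt V ρ, ll p ∈ Icc (l₀ - ε) (l₀ + ε) := by
    rintro ⟨t, v, w⟩ ⟨ht, hv, hre, him⟩
    obtain ⟨h5, h6⟩ := abs_le.1 hre
    simp only at h5 h6
    simp only [ll]
    constructor <;> nlinarith
  have mem1 : ∀ p ∈ bxt V ρ, ∀ z : Cm (m + 1), ‖z‖ = 1 → (p.2.1, rp p, ll p, z) ∈ K := by
    intro p hp z hz
    exact (memK _ _ _ _).2 ⟨hp.2.1, rpK p hp, llK p hp, hz⟩
  have mem2 : ∀ p ∈ bxt V ρ, ∀ z : Cm (m + 1), ‖z‖ = 1 → ∀ s ∈ Icc (0 : ℝ) 1,
      (s • p.2.1, rp p, ll p, z) ∈ K := by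
    intro p hp z hz s hs
    refine (memK _ _ _ _).2 ⟨?_, rpK p hp, llK p hp, hz⟩
    rw [norm_smul, Real.norm_of_nonneg hs.1]
    have := hp.2.1
    calc s * ‖p.2.1‖ ≤ 1 * ‖p.2.1‖ := mul_le_mul_of_nonneg_right hs.2 (norm_nonneg _)
      _ ≤ ρ := by rw [one_mul]; exact this
  have sI : ∀ p ∈ bxt V ρ, τ 2 p.1 * (1 + rm p) ∈ Icc (0 : ℝ) 1 := by
    intro p hp
    obtain ⟨h5, h6⟩ := rmb p hp
    constructor
    · exact mul_nonneg (τ0 _ _) (by linarith)
    · exact mul_le_one₀ (τ1 _ _) (by linarith) (by linarith)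
  -- continuity
  have cF0 : ContinuousOn F0 (bxt V ρ ×ˢ sphere 0 1) := by
    have a1 : Continuous fun x : (ℝ × V × ℂ) × Cm (m + 1) => E (τ 1 x.1.1, x.1.2.1) :=
      hE.comp (((τc 1).comp (by fun_prop)).prodMk (by fun_prop))
    have a2 : ContinuousOn (fun x : (ℝ × V × ℂ) × Cm (m + 1) =>
        h0 (x.1.2.1, rp x.1, ll x.1, x.2)) (bxt V ρ ×ˢ sphere 0 1) := by
      refine c0.comp ?_ ?_
      · exact Continuous.continuousOn (by fun_prop)
      · rintro ⟨p, z⟩ ⟨hp, hz⟩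
        exact mem1 p hp z (by simpa using hz)
    have a3 : ContinuousOn (fun x : (ℝ × V × ℂ) × Cm (m + 1) => f x.1.2.1)
        (bxt V ρ ×ˢ sphere 0 1) := by
      refine hf.comp (Continuous.continuousOn (by fun_prop)) ?_
      rintro ⟨p, z⟩ ⟨hp, hz⟩
      simpa using hp.2.1
    exact a1.continuousOn.add (a2.sub a3)
  have cF1 : ContinuousOn F1 (bxt V ρ ×ˢ sphere 0 1) := by
    have t0 := τc 0
    have t2 := τc 2
    have t4 := τc 4
    have b1 : Continuous fun p : ℝ × V × ℂ => p.2.2.re := Complex.continuous_re.comp (by fun_prop)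
    have b2 : Continuous fun p : ℝ × V × ℂ => p.2.2.im := Complex.continuous_im.comp (by fun_prop)
    have nuc : Continuous nu := by
      have : Continuous fun x : (ℝ × V × ℂ) × Cm (m + 1) => μ (x.1.2.1, rp x.1, ll x.1, x.2) :=
        μc.comp (by fun_prop)
      fun_prop
    have a2 : ContinuousOn (fun x : (ℝ × V × ℂ) × Cm (m + 1) =>
        h1 ((τ 2 x.1.1 * (1 + rm x.1)) • x.1.2.1, rp x.1, ll x.1, x.2)) (bxt V ρ ×ˢ sphere 0 1) := by
      refine c1.comp ?_ ?_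
      · exact Continuous.continuousOn (by fun_prop)
      · rintro ⟨p, z⟩ ⟨hp, hz⟩
        exact mem2 p hp z (by simpa using hz) _ (sI p hp)
    have a1 : Continuous fun x : (ℝ × V × ℂ) × Cm (m + 1) =>
        (((1 - τ 0 x.1.1) * x.1.2.2.re : ℝ) : ℂ) • x.2 := by
      have : Continuous fun x : (ℝ × V × ℂ) × Cm (m + 1) => (1 - τ 0 x.1.1) * x.1.2.2.re := by
        have := b1.comp (continuous_fst (X := ℝ × V × ℂ) (Y := Cm (m + 1)))
        simp only [Function.comp_def] at this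
        fun_prop
      exact (Complex.continuous_ofReal.comp this).smul continuous_snd
    have a3 : Continuous fun x : (ℝ × V × ℂ) × Cm (m + 1) =>
        (Complex.I * (((1 - τ 2 x.1.1) * x.1.2.2.im +
          τ 2 x.1.1 * ((1 + rm x.1) * nu x + rm x.1) : ℝ) : ℂ)) • x.2 := by
      have : Continuous fun x : (ℝ × V × ℂ) × Cm (m + 1) => (1 - τ 2 x.1.1) * x.1.2.2.im +
          τ 2 x.1.1 * ((1 + rm x.1) * nu x + rm x.1) := by
        have := b2.comp (continuous_fst (X := ℝ × V × ℂ) (Y := Cm (m + 1)))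
        simp only [Function.comp_def] at this
        fun_prop
      exact (continuous_const.mul (Complex.continuous_ofReal.comp this)).smul continuous_snd
    have a4 : Continuous fun x : (ℝ × V × ℂ) × Cm (m + 1) => ((τ 0 x.1.1 : ℝ) : ℂ) :=
      Complex.continuous_ofReal.comp (by fun_prop)
    exact (a1.continuousOn.add (a4.continuousOn.smul a2)).add a3.continuousOn
  -- equivariance
  have eF0 : ∀ p ∈ bxt V ρ, ∀ z ∈ sphere (0 : Cm (m + 1)) 1, ∀ d : ℂ, ‖d‖ = 1 →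
      F0 (p, d • z) = F0 (p, z) := by
    intro p hp z hz d hd
    simp only [F0]
    rw [e0 _ _ _ _ (mem1 p hp z (by simpa using hz)) d hd]
  have eF1 : ∀ p ∈ bxt V ρ, ∀ z ∈ sphere (0 : Cm (m + 1)) 1, ∀ d : ℂ, ‖d‖ = 1 →
      F1 (p, d • z) = d • F1 (p, z) := by
    intro p hp z hz d hd
    have hz' : ‖z‖ = 1 := by simpa using hz
    have hnu : nu (p, d • z) = nu (p, z) := by
      simp only [nu]
      have := μinv d hd (p.2.1, rp p, ll p, z)
      simp only [act] at this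
      rw [this]
    simp only [F1]
    rw [e1 _ _ _ _ (mem2 p hp z hz' _ (sI p hp)) d hd, hnu]
    simp only [smul_add, smul_smul]
    congr 1
    · congr 1
      · rw [mul_comm]
      · rw [mul_comm]
    · rw [mul_comm]
  -- the start
  have sF0 : ∀ q ∈ bx V ρ, ∀ z ∈ sphere (0 : Cm (m + 1)) 1, F0 ((0, q), z) = q.1 := by
    rintro ⟨v, w⟩ hq z hz
    have hz' : ‖z‖ = 1 := by simpa using hz
    have hp : ((0 : ℝ), v, w) ∈ bxt V ρ := ⟨⟨le_rfl, zero_le_one⟩, hq⟩
    have hrp : rp (0, v, w) = 0 := by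
      simp only [rp, rr]
      rw [τs 3]
      apply max_eq_right
      have := (abs_le.1 hq.2.2).2
      simp only at this
      linarith
    have hm := mem1 _ hp z hz'
    rw [hrp] at hm
    simp only [F0]
    rw [hrp, h0r _ _ _ hm, τs 1, E0 v (by simpa using hq.1)]
    simp
  have sF1 : ∀ q ∈ bx V ρ, ∀ z ∈ sphere (0 : Cm (m + 1)) 1, F1 ((0, q), z) = q.2 • z := by
    rintro ⟨v, w⟩ hq z hz
    simp only [F1]
    rw [τs 0, τs 2]
    simp only [sub_zero, one_mul, zero_mul, add_zero, Complex.ofReal_zero, zero_smul]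
    rw [← add_smul, mul_comm Complex.I, Complex.re_add_im]
  -- sign of `c`
  have sgn : ∀ a ∈ Icc (-1 : ℝ) 1, ∀ s ∈ Icc (0 : ℝ) 1, (1 - s) * a + s * c (l₀ - ε * a) = 0 → a = 0 := by
    intro a ha s hs h
    rcases lt_trichotomy a 0 with h2 | h2 | h2
    · exfalso
      have hcn : c (l₀ - ε * a) < 0 := cneg _ ⟨by nlinarith, by nlinarith [ha.1]⟩
      rcases eq_or_lt_of_le hs.1 with h3 | h3
      · subst h3; linarith
      · have := mul_neg_of_pos_of_neg h3 hcn
        have := mul_nonneg (sub_nonneg.2 hs.2) (neg_nonneg.2 h2.le)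
        linarith
    · exact h2
    · exfalso
      have hcn : 0 < c (l₀ - ε * a) := cpos _ ⟨by nlinarith [ha.2], by nlinarith⟩
      rcases eq_or_lt_of_le hs.1 with h3 | h3
      · subst h3; linarith
      · have := mul_pos h3 hcn
        have := mul_nonneg (sub_nonneg.2 hs.2) h2.le
        linarith
  have split : ∀ (A s C B : ℝ) (z : Cm (m + 1)), ‖z‖ = 1 →
      ((A : ℝ) : ℂ) • z + ((s : ℝ) : ℂ) • ((C : ℂ) • z) + (Complex.I * ((B : ℝ) : ℂ)) • z = 0 →
      A + s * C = 0 ∧ B = 0 := by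
    intro A s C B z hz h
    have hz0 : z ≠ 0 := by rintro rfl; simp at hz
    rw [smul_smul, ← add_smul, ← add_smul, smul_eq_zero] at h
    have h2 := h.resolve_right hz0
    have hre := congrArg Complex.re h2
    have him := congrArg Complex.im h2
    simp at hre him
    exact ⟨hre, him⟩
  have orth' : ∀ v r l z, (v, r, l, z) ∈ K → ∀ B : ℝ,
      h1 (v, r, l, z) + (Complex.I * (B : ℂ)) • z = 0 → B = 0 := by
    intro v r l z hx B h
    have hz : ‖z‖ = 1 := ((memK _ _ _ _).1 hx).2.2.2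
    have h2 : h1 (v, r, l, z) = -((Complex.I * (B : ℂ)) • z) := eq_neg_of_add_eq_zero_left h
    have h3 := orth v r l z hx
    rw [h2, inner_neg_left, inner_smul_left, inner_self_eq_norm_sq_to_K, hz] at h3
    simpa using h3
  have hbd : ∀ p ∈ bxt V ρ, onb ρ p.2 → ∀ z ∈ sphere (0 : Cm (m + 1)) 1,
      ¬ (F0 (p, z) = 0 ∧ F1 (p, z) = 0) := by
    rintro ⟨t, v, w⟩ hp hb z hz ⟨hF0, hF1⟩
    have hz' : ‖z‖ = 1 := by simpa using hz
    have hv : ‖v‖ ≤ ρ := hp.2.1
    have ht : t ∈ Icc (0 : ℝ) 1 := hp.1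
    have hwr : w.re ∈ Icc (-1 : ℝ) 1 := abs_le.1 hp.2.2.1
    have hwi : w.im ∈ Icc (-1 : ℝ) 1 := abs_le.1 hp.2.2.2
    have hm1 := mem1 _ hp z hz'
    have hm2 := mem2 _ hp z hz' _ (sI _ hp)
    have hll : ll (t, v, w) = l₀ - ε * w.re := rfl
    have hrr : rr (t, v, w) = -1 + (w.im + 1) * (1 + τ 3 t * r₀) / 2 := rfl
    have hrp : rp (t, v, w) = max (rr (t, v, w)) 0 := rfl
    have hrm : rm (t, v, w) = min (rr (t, v, w)) 0 := rfl
    simp only [F0] at hF0
    simp only [F1] at hF1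
    simp only at hm1 hm2
    by_cases hA : τ 1 t = 1
    · -- case B
      have hT0 : τ 0 t = 1 := by
        rcases τd 0 t with h | h
        · exact h
        · norm_num at h; rw [h] at hA; norm_num at hA
      rw [hA, E1 v (by simpa using hv), add_sub_cancel] at hF0
      rw [hT0] at hF1
      rcases le_or_gt (rr (t, v, w)) 0 with hle | hgt
      · have hrp0 : rp (t, v, w) = 0 := by rw [hrp, max_eq_right hle]
        have hrm0 : rm (t, v, w) = rr (t, v, w) := by rw [hrm, min_eq_left hle]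
        rw [hrp0] at hm1 hF0
        rw [h0r _ _ _ hm1] at hF0
        have hv0 : v = 0 := fne v hv hF0
        subst hv0
        simp only [smul_zero] at hF1 hm2
        rw [hrp0] at hF1 hm2
        rw [h1c _ _ hm2] at hF1
        obtain ⟨h2, h3⟩ := split _ _ _ _ z hz' hF1
        have ha0 : w.re = 0 := sgn w.re hwr 1 ⟨zero_le_one, le_rfl⟩ (by
          rw [hll] at h2; exact h2)
        rcases hb with hb | hb | hb
        · simp only [norm_zero] at hb; exact hρ.ne hb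
        · simp only at hb; rw [ha0] at hb; simp at hb
        · simp only at hb
          rcases (abs_eq zero_le_one).1 hb with hb | hb
          · -- b = 1
            have hr1 : rr (t, 0, w) = τ 3 t * r₀ := by rw [hrr, hb]; ring
            have hT3 : τ 3 t = 0 := by
              by_contra hne
              have hpos : 0 < τ 3 t := lt_of_le_of_ne (τ0 3 t) (Ne.symm hne)
              have : 0 < τ 3 t * r₀ := mul_pos hpos hr₀
              linarith
            have hT4 : τ 4 t = 0 := by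
              rcases τd 3 t with h | h
              · rw [hT3] at h; norm_num at h
              · exact h
            have hr0 : rr (t, 0, w) = 0 := by rw [hr1, hT3, zero_mul]
            rw [hrm0, hr0] at h3
            have hnu : nu ((t, 0, w), z) = μ (0, 0, l₀, z) := by
              simp only [nu]
              rw [hT4, hrp0, hll, ha0]
              simp
            rw [hnu, hb] at h3
            have h4 := μ0 z hz'
            have h5 := τ0 2 t
            have h6 := τ1 2 t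
            rcases eq_or_lt_of_le h5 with h7 | h7
            · rw [← h7] at h3; norm_num at h3
            · have := mul_pos h7 h4
              nlinarith
          · -- b = -1
            have hr1 : rr (t, 0, w) = -1 := by rw [hrr, hb]; ring
            rw [hrm0, hr1, hb] at h3
            norm_num at h3
            linarith
      · have hrp0 : rp (t, v, w) = rr (t, v, w) := by rw [hrp, max_eq_left hgt.le]
        have hrm0 : rm (t, v, w) = 0 := by rw [hrm, min_eq_right hgt.le]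
        have hT3 : τ 3 t ≠ 0 := by
          intro h
          rw [hrr, h] at hgt
          linarith [hwi.2]
        have hT2 : τ 2 t = 1 := by
          rcases τd 2 t with h | h
          · exact h
          · exact absurd h hT3
        rw [hrp0] at hm1 hF0
        rw [hT2, hrm0, hrp0] at hF1
        simp only [add_zero, mul_one, one_smul, sub_self, zero_mul, one_mul, zero_add,
          Complex.ofReal_zero, zero_smul, Complex.ofReal_one] at hF1
        have hnu0 := orth' _ _ _ _ hm1 _ hF1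
        rw [hnu0] at hF1
        simp only [Complex.ofReal_zero, mul_zero, zero_smul, add_zero] at hF1
        have hne := μne _ hm1 hF0 hF1
        have hnu : (1 - τ 4 t) * μ (v, rr (t, v, w), ll (t, v, w), z) - τ 4 t = 0 := by
          have := hnu0
          simp only [nu] at this
          rwa [hrp0] at this
        have key : ∀ _ : μ (v, rr (t, v, w), ll (t, v, w), z) < 0, False := by
          intro hneg
          have h5 := τ0 4 t
          have h6 := τ1 4 t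
          have h7 : (1 - τ 4 t) * μ (v, rr (t, v, w), ll (t, v, w), z) ≤ 0 :=
            mul_nonpos_of_nonneg_of_nonpos (by linarith) hneg.le
          have h8 : τ 4 t = 0 := by linarith
          rw [h8] at hnu
          apply hne
          linarith
        have hμb := μb _ hm1 hF0 hF1
        rcases hb with hb | hb | hb
        · exact key (hμb (Or.inr (Or.inl hb)))
        · refine key (hμb (Or.inr (Or.inr ?_)))
          simp only at hb ⊢
          rw [hll, show l₀ - ε * w.re - l₀ = -(ε * w.re) by ring, abs_neg, abs_mul, hb,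
            abs_of_pos hε, mul_one]
        · simp only at hb
          rcases (abs_eq zero_le_one).1 hb with hb | hb
          · have hr1 : rr (t, v, w) = τ 3 t * r₀ := by rw [hrr, hb]; ring
            rcases τd 3 t with h | h
            · refine key (hμb (Or.inl ?_))
              simp only
              rw [hr1, h, one_mul]
            · apply hne
              have h' : τ 4 t = 0 := h
              rw [h'] at hnu
              linarith
          · have hr1 : rr (t, v, w) = -1 := by rw [hrr, hb]; ring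
            rw [hr1] at hgt
            norm_num at hgt
    · -- case A
      have hT2 : τ 2 t = 0 := (τd 1 t).resolve_left hA
      have hT3 : τ 3 t = 0 := (τd 2 t).resolve_left (by
        rw [hT2]; norm_num)
      have hle : rr (t, v, w) ≤ 0 := by
        rw [hrr, hT3]; linarith [hwi.2]
      have hrp0 : rp (t, v, w) = 0 := by rw [hrp, max_eq_right hle]
      rw [hrp0] at hm1 hF0
      rw [h0r _ _ _ hm1, sub_self, add_zero] at hF0
      rw [hT2] at hF1 hm2
      simp only [zero_mul, zero_smul, add_zero] at hF1 hm2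
      rw [hrp0] at hF1 hm2
      rw [h1c _ _ hm2] at hF1
      obtain ⟨h2, h3⟩ := split _ _ _ _ z hz' hF1
      have ha0 : w.re = 0 := sgn w.re hwr (τ 0 t) ⟨τ0 0 t, τ1 0 t⟩ (by
        rw [hll] at h2; exact h2)
      have hb0 : w.im = 0 := by simpa using h3
      rcases hb with hb | hb | hb
      · simp only at hb
        have hvs : v ∈ sphere (0 : V) ρ := by simpa using hb
        rw [Em (τ 1 t) ⟨τ0 1 t, τ1 1 t⟩ v hvs] at hF0
        exact hHne (1 - τ 1 t) ⟨by linarith [τ1 1 t], by linarith [τ0 1 t]⟩ v hvs hF0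
      · simp only at hb; rw [ha0] at hb; simp at hb
      · simp only at hb; rw [hb0] at hb; simp at hb
  have hend : ∀ q ∈ bx V ρ, ∀ z ∈ sphere (0 : Cm (m + 1)) 1,
      ¬ (F0 ((1, q), z) = 0 ∧ F1 ((1, q), z) = 0) := by
    rintro ⟨v, w⟩ hq z hz ⟨hF0, hF1⟩
    have hz' : ‖z‖ = 1 := by simpa using hz
    have hp : ((1 : ℝ), v, w) ∈ bxt V ρ := ⟨⟨zero_le_one, le_rfl⟩, hq⟩
    have hm2 := mem2 _ hp z hz' _ (sI _ hp)
    simp only at hm2
    simp only [F1] at hF1
    have hnu : nu ((1, v, w), z) = -1 := by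
      simp only [nu]
      rw [τe 4 le_rfl]; ring
    rw [hnu, τe 0 (by norm_num), τe 2 (by norm_num)] at hF1
    rw [τe 2 (by norm_num)] at hm2
    have h3 : (1 - (1 : ℝ)) * w.im + 1 * ((1 + rm (1, v, w)) * -1 + rm (1, v, w)) = -1 := by ring
    rw [h3] at hF1
    simp only [sub_self, zero_mul, Complex.ofReal_zero, zero_smul, zero_add, Complex.ofReal_one,
      one_smul] at hF1
    have := orth' _ _ _ _ hm2 _ hF1
    norm_num at this
  exact no_extension m ρ hρ F0 F1 cF0 cF1 eF0 eF1 sF0 sF1 hbd hend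

end Zeros

open Zeros

theorem sphere_connected (m : ℕ) : IsConnected (sphere (0 : Cm (m + 1)) 1) := by
  refine isConnected_sphere ?_ 0 zero_le_one
  have h1 : Module.finrank ℝ (Cm (m + 1)) = 2 * Module.finrank ℂ (Cm (m + 1)) :=
    finrank_real_of_complex _
  have h2 : Module.finrank ℂ (Cm (m + 1)) = m + 1 := by simp [Cm]
  have h3 : (1 : Cardinal) < Module.rank ℝ (Cm (m + 1)) := by
    rw [← Module.finrank_eq_rank, h1, h2]
    exact_mod_cast (by omega : 1 < 2 * (m + 1))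
  exact h3

/-- A connected set of zeros bifurcating from the trivial ones (module T). -/
theorem connected_zeros {m : ℕ} {V : Type} [NormedAddCommGroup V] [NormedSpace ℝ V]
    [FiniteDimensional ℝ V] (ρ r₀ l₀ ε : ℝ) (hρ : 0 < ρ) (hr₀ : 0 < r₀) (hε : 0 < ε)
    (K : Set (V × ℝ × ℝ × Cm (m + 1)))
    (hK : K = {x | ‖x.1‖ ≤ ρ ∧ x.2.1 ∈ Icc 0 r₀ ∧ x.2.2.1 ∈ Icc (l₀ - ε) (l₀ + ε) ∧ ‖x.2.2.2‖ = 1})
    (h0 : V × ℝ × ℝ × Cm (m + 1) → V) (h1 : V × ℝ × ℝ × Cm (m + 1) → Cm (m + 1))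
    (c0 : ContinuousOn h0 K) (c1 : ContinuousOn h1 K)
    (e0 : ∀ v r l z, (v, r, l, z) ∈ K → ∀ c : ℂ, ‖c‖ = 1 → h0 (v, r, l, c • z) = h0 (v, r, l, z))
    (e1 : ∀ v r l z, (v, r, l, z) ∈ K → ∀ c : ℂ, ‖c‖ = 1 → h1 (v, r, l, c • z) = c • h1 (v, r, l, z))
    (orth : ∀ v r l z, (v, r, l, z) ∈ K → (inner ℂ (h1 (v, r, l, z)) z).im = 0)
    (f : V → V) (hf : ContinuousOn f (closedBall 0 ρ)) (hf0 : f 0 = 0)
    (h0r : ∀ v l z, (v, 0, l, z) ∈ K → h0 (v, 0, l, z) = f v)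
    (fne : ∀ v, ‖v‖ ≤ ρ → f v = 0 → v = 0)
    (Hm : ℝ × V → V) (hHc : ContinuousOn Hm (Icc 0 1 ×ˢ sphere 0 ρ))
    (hH0 : ∀ v ∈ sphere (0 : V) ρ, Hm (0, v) = f v) (hH1 : ∀ v ∈ sphere (0 : V) ρ, Hm (1, v) = v)
    (hHne : ∀ t ∈ Icc (0 : ℝ) 1, ∀ v ∈ sphere (0 : V) ρ, Hm (t, v) ≠ 0)
    (c : ℝ → ℝ) (hc : ContinuousOn c (Icc (l₀ - ε) (l₀ + ε)))
    (h1c : ∀ l z, (0, 0, l, z) ∈ K → h1 (0, 0, l, z) = (c l : ℂ) • z)
    (cpos : ∀ l ∈ Ico (l₀ - ε) l₀, 0 < c l) (cneg : ∀ l ∈ Ioc l₀ (l₀ + ε), c l < 0)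
    (czero : c l₀ = 0) :
    ∃ D ⊆ K, IsConnected D ∧ (∀ x ∈ D, 0 < x.2.1 ∧ h0 x = 0 ∧ h1 x = 0) ∧
      ∃ z, ‖z‖ = 1 ∧ (0, 0, l₀, z) ∈ closure D := by
  classical
  have memK : ∀ v r l z, (v, r, l, z) ∈ K ↔
      ‖v‖ ≤ ρ ∧ r ∈ Icc 0 r₀ ∧ l ∈ Icc (l₀ - ε) (l₀ + ε) ∧ ‖z‖ = 1 := by
    intro v r l z; rw [hK]; rfl
  have hKc : IsCompact K := by
    have : K = closedBall (0 : V) ρ ×ˢ (Icc (0 : ℝ) r₀ ×ˢ (Icc (l₀ - ε) (l₀ + ε) ×ˢ
        sphere (0 : Cm (m + 1)) 1)) := by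
      rw [hK]; ext ⟨v, r, l, z⟩
      simp only [mem_setOf_eq, mem_prod, mem_closedBall_zero_iff, mem_sphere_zero_iff_norm]
    rw [this]
    exact (isCompact_closedBall _ _).prod (isCompact_Icc.prod (isCompact_Icc.prod (isCompact_sphere _ _)))
  set Z : Set (V × ℝ × ℝ × Cm (m + 1)) := K ∩ (fun x => (h0 x, h1 x)) ⁻¹' {0} with hZ
  have hZm : ∀ x, x ∈ Z ↔ x ∈ K ∧ h0 x = 0 ∧ h1 x = 0 := by
    intro x
    simp only [hZ, mem_inter_iff, mem_preimage, mem_singleton_iff, Prod.mk_eq_zero]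
  have hZcl : IsClosed Z :=
    (c0.prodMk c1).preimage_isClosed_of_isClosed hKc.isClosed isClosed_singleton
  have hZc : IsCompact Z := hKc.of_isClosed_subset hZcl inter_subset_left
  haveI : CompactSpace Z := isCompact_iff_compactSpace.1 hZc
  have char0 : ∀ x ∈ Z, x.2.1 = 0 → x = (0, 0, l₀, x.2.2.2) := by
    rintro ⟨v, r, l, z⟩ hx hr
    simp only at hr
    subst hr
    obtain ⟨hxK, hx0, hx1⟩ := (hZm _).1 hx
    obtain ⟨kv, kr, kl, kz⟩ := (memK _ _ _ _).1 hxK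
    rw [h0r v l z hxK] at hx0
    have hv : v = 0 := fne v kv hx0
    subst hv
    rw [h1c l z hxK] at hx1
    have hz0 : z ≠ 0 := by rintro rfl; simp at kz
    have hcl : c l = 0 := by
      have := (smul_eq_zero.1 hx1).resolve_right hz0
      exact_mod_cast this
    have hl : l = l₀ := by
      rcases lt_trichotomy l l₀ with h | h | h
      · exact absurd hcl (cpos l ⟨kl.1, h⟩).ne'
      · exact h
      · exact absurd hcl (cneg l ⟨h, kl.2⟩).ne
    rw [hl]
  have memS0 : ∀ z : Cm (m + 1), ‖z‖ = 1 → (0, 0, l₀, z) ∈ Z := by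
    intro z hz
    have hk : ((0 : V), (0 : ℝ), l₀, z) ∈ K :=
      (memK _ _ _ _).2 ⟨by simpa using hρ.le, ⟨le_rfl, hr₀.le⟩, ⟨by linarith, by linarith⟩, hz⟩
    refine (hZm _).2 ⟨hk, ?_, ?_⟩
    · rw [h0r _ _ _ hk, hf0]
    · rw [h1c _ _ hk, czero]; simp
  let S0 : Set Z := {x | x.1.2.1 = 0}
  let Bo : Set Z := {x | x.1.2.1 = r₀ ∨ ‖x.1.1‖ = ρ ∨ |x.1.2.2.1 - l₀| = ε}
  have hS0cl : IsClosed S0 := isClosed_eq (by fun_prop) continuous_const
  have hBocl : IsClosed Bo := by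
    have : Bo = {x : Z | x.1.2.1 = r₀} ∪ ({x : Z | ‖x.1.1‖ = ρ} ∪ {x : Z | |x.1.2.2.1 - l₀| = ε}) := by
      ext x; simp [Bo]
    rw [this]
    exact (isClosed_eq (by fun_prop) continuous_const).union
      ((isClosed_eq (by fun_prop) continuous_const).union (isClosed_eq (by fun_prop) continuous_const))
  have himg : (Subtype.val '' S0 : Set (V × ℝ × ℝ × Cm (m + 1))) =
      (fun z => (0, 0, l₀, z)) '' sphere (0 : Cm (m + 1)) 1 := by
    ext x
    constructor
    · rintro ⟨⟨y, hy⟩, hy0, rfl⟩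
      refine ⟨y.2.2.2, ?_, (char0 y hy hy0).symm⟩
      have := ((hZm _).1 hy).1
      rw [hK] at this
      simpa using this.2.2.2
    · rintro ⟨z, hz, rfl⟩
      exact ⟨⟨_, memS0 z (by simpa using hz)⟩, rfl, rfl⟩
  have hS0c : IsConnected S0 := by
    have h2 : IsConnected (Subtype.val '' S0 : Set (V × ℝ × ℝ × Cm (m + 1))) := by
      rw [himg]
      exact (sphere_connected m).image _ (by fun_prop)
    refine ⟨?_, ?_⟩
    · exact image_nonempty.1 h2.1
    · exact (Topology.IsInducing.subtypeVal.isPreconnected_image).1 h2.2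
  have hdisj : Disjoint S0 Bo := by
    rw [Set.disjoint_left]
    rintro ⟨x, hx⟩ hx0 hxB
    have hx' := char0 x hx hx0
    simp only [Bo, mem_setOf_eq] at hxB
    rw [hx'] at hxB
    simp only [norm_zero, sub_self, abs_zero] at hxB
    rcases hxB with h | h | h
    · exact hr₀.ne h
    · exact hρ.ne h
    · exact hε.ne h
  rcases exists_connected_or_separation S0 Bo hS0cl hS0c hBocl hdisj with
    ⟨A, hA, hSA, hAB⟩ | ⟨D, hD, hDS, hDc⟩
  · exfalso
    have actZ : ∀ d : ℂ, ‖d‖ = 1 → ∀ x ∈ Z, act d x ∈ Z := by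
      rintro d hd ⟨v, r, l, z⟩ hx
      obtain ⟨hxK, hx0, hx1⟩ := (hZm _).1 hx
      obtain ⟨kv, kr, kl, kz⟩ := (memK _ _ _ _).1 hxK
      refine (hZm _).2 ⟨(memK _ _ _ _).2 ⟨kv, kr, kl, by rw [norm_smul, hd, kz, one_mul]⟩, ?_, ?_⟩
      · simp only [act]; rw [e0 _ _ _ _ hxK d hd, hx0]
      · simp only [act]; rw [e1 _ _ _ _ hxK d hd, hx1, smul_zero]
    have actA : ∀ (C : Set Z), IsClopen C → ∀ d : ℂ, ‖d‖ = 1 → ∀ x (hx : x ∈ Z), (⟨x, hx⟩ : Z) ∈ C →
        ∀ hx' : act d x ∈ Z, (⟨act d x, hx'⟩ : Z) ∈ C := by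
      intro C hC d hd x hx hxC hx'
      have hexp : ∀ θ : ℝ, ‖Complex.exp (Complex.I * θ)‖ = 1 := by
        intro θ; rw [mul_comm]; exact Complex.norm_exp_ofReal_mul_I θ
      let γ : ℝ → Z := fun θ => ⟨act (Complex.exp (Complex.I * θ)) x, actZ _ (hexp θ) x hx⟩
      have hγ : Continuous γ := by
        refine Continuous.subtype_mk ?_ _
        simp only [act]
        fun_prop
      have hcl : IsClopen (γ ⁻¹' C) := hC.preimage hγ
      rcases isClopen_iff.1 hcl with h | h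
      · have : (0 : ℝ) ∈ γ ⁻¹' C := by
          have h0' : γ 0 = ⟨x, hx⟩ := by
            apply Subtype.ext
            simp only [γ, Complex.ofReal_zero, mul_zero, Complex.exp_zero, act_one]
          rw [mem_preimage, h0']; exact hxC
        rw [h] at this
        exact absurd this (notMem_empty _)
      · have h2 : d.arg ∈ γ ⁻¹' C := by rw [h]; exact mem_univ _
        have h3 : γ d.arg = ⟨act d x, hx'⟩ := by
          apply Subtype.ext
          simp only [γ]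
          congr 1
          have := Complex.norm_mul_exp_arg_mul_I d
          rw [hd] at this
          rw [mul_comm]
          simpa using this
        rw [mem_preimage, h3] at h2
        exact h2
    let A' : Set (V × ℝ × ℝ × Cm (m + 1)) := Subtype.val '' A
    let B0 : Set (V × ℝ × ℝ × Cm (m + 1)) := Subtype.val '' Aᶜ
    let pt : V × ℝ × ℝ × Cm (m + 1) := (0, -1, l₀, 0)
    let B' : Set (V × ℝ × ℝ × Cm (m + 1)) := B0 ∪ {pt}
    have hA'cl : IsClosed A' := (hA.1.isCompact.image continuous_subtype_val).isClosed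
    have hB'cl : IsClosed B' :=
      ((hA.compl.1.isCompact.image continuous_subtype_val).isClosed).union isClosed_singleton
    obtain ⟨z₀, hz₀⟩ : ∃ z₀ : Cm (m + 1), ‖z₀‖ = 1 := ⟨EuclideanSpace.single 0 1, by simp⟩
    have S0A : ∀ z : Cm (m + 1), ‖z‖ = 1 → (0, 0, l₀, z) ∈ A' := by
      intro z hz
      exact ⟨⟨_, memS0 z hz⟩, hSA rfl, rfl⟩
    have hA'ne : A'.Nonempty := ⟨_, S0A z₀ hz₀⟩
    have hB'ne : B'.Nonempty := ⟨pt, Or.inr rfl⟩
    have hdis : ∀ x ∈ A', x ∉ B' := by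
      rintro _ ⟨⟨x, hx⟩, hxA, rfl⟩ (⟨⟨y, hy⟩, hyA, hyx⟩ | h)
      · simp only at hyx
        subst hyx
        exact hyA hxA
      · simp only [mem_singleton_iff] at h
        have := ((hZm _).1 hx).1
        rw [h, hK] at this
        have h2 := this.2.1.1
        simp only [pt] at h2
        norm_num at h2
    have hcov : ∀ x ∈ Z, x ∈ A' ∨ x ∈ B' := by
      intro x hx
      by_cases h : (⟨x, hx⟩ : Z) ∈ A
      · exact Or.inl ⟨_, h, rfl⟩
      · exact Or.inr (Or.inl ⟨⟨x, hx⟩, h, rfl⟩)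
    have invA : ∀ d : ℂ, ‖d‖ = 1 → ∀ x ∈ A', act d x ∈ A' := by
      rintro d hd _ ⟨⟨x, hx⟩, hxA, rfl⟩
      exact ⟨⟨act d x, actZ d hd x hx⟩, actA A hA d hd x hx hxA _, rfl⟩
    have invB : ∀ d : ℂ, ‖d‖ = 1 → ∀ x ∈ B', act d x ∈ B' := by
      rintro d hd x (⟨⟨x, hx⟩, hxA, rfl⟩ | h)
      · exact Or.inl ⟨⟨act d x, actZ d hd x hx⟩, actA Aᶜ hA.compl d hd x hx hxA _, rfl⟩
      · right
        simp only [mem_singleton_iff] at h ⊢
        rw [h]
        simp [act, pt]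
    let μ : V × ℝ × ℝ × Cm (m + 1) → ℝ := fun x => infDist x B' - infDist x A'
    have μA : ∀ x ∈ A', 0 < μ x := by
      intro x hx
      simp only [μ]
      rw [infDist_zero_of_mem hx, sub_zero]
      exact (hB'cl.notMem_iff_infDist_pos hB'ne).1 (hdis x hx)
    have μB : ∀ x ∈ B', μ x < 0 := by
      intro x hx
      simp only [μ]
      rw [infDist_zero_of_mem hx, zero_sub, neg_lt_zero]
      exact (hA'cl.notMem_iff_infDist_pos hA'ne).1 (fun h => hdis x h hx)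
    refine separated ρ r₀ l₀ ε hρ hr₀ hε K hK h0 h1 c0 c1 e0 e1 orth f hf h0r fne Hm hHc hH0 hH1 hHne
      c hc h1c cpos cneg μ ?_ ?_ ?_ ?_ ?_
    · exact (continuous_infDist_pt _).sub (continuous_infDist_pt _)
    · intro d hd x
      simp only [μ]
      rw [infDist_act d hd B' invB, infDist_act d hd A' invA]
    · exact fun z hz => μA _ (S0A z hz)
    · intro x hxK hx0 hx1
      rcases hcov x ((hZm x).2 ⟨hxK, hx0, hx1⟩) with h | h
      · exact (μA x h).ne'
      · exact (μB x h).ne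
    · intro x hxK hx0 hx1 hxb
      have hxZ := (hZm x).2 ⟨hxK, hx0, hx1⟩
      apply μB
      left
      refine ⟨⟨x, hxZ⟩, ?_, rfl⟩
      intro h
      exact (Set.disjoint_left.1 hAB) h hxb
  · refine ⟨Subtype.val '' D, ?_, ?_, ?_, ?_⟩
    · rintro _ ⟨⟨x, hx⟩, _, rfl⟩
      exact hx.1
    · exact hD.image _ continuous_subtype_val.continuousOn
    · rintro _ ⟨⟨x, hx⟩, hxD, rfl⟩
      obtain ⟨hxK, hx0, hx1⟩ := (hZm _).1 hx
      refine ⟨?_, hx0, hx1⟩
      have h2 : 0 ≤ x.2.1 := by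
        rw [hK] at hxK; exact hxK.2.1.1
      refine lt_of_le_of_ne h2 fun h3 => ?_
      exact (Set.disjoint_left.1 hDS) hxD h3.symm
    · obtain ⟨⟨x, hx⟩, hxc, hx0⟩ := hDc
      have hx' := char0 x hx hx0
      have hxK := ((hZm _).1 hx).1
      rw [hK] at hxK
      refine ⟨x.2.2.2, hxK.2.2.2, ?_⟩
      rw [← hx']
      exact (image_closure_subset_closure_image continuous_subtype_val) ⟨_, hxc, rfl⟩

end

end Pool.Agent.Helper24.CB
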