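import Mathlib
import Pool.Agent.Helper24.CB.LS
import Pool.Agent.Helper24.CB.Zeros
import Pool.Agent.Helper24.CB.Group
import Pool.Agent.Helper24.CB.SliceHom
import Pool.Agent.Helper24.CB.SliceD
import Pool.Agent.Helper24.CB.Residual
import Pool.Agent.Helper38.CB.IntoH1

open MeasureTheory Set Metric Topology
open scoped Real InnerProductSpace ContDiff Manifold

namespace Pool.Agent.Helper24.CB

noncomputable section

/-- localisation of the potential -/
theorem exists_cutoff {E : Type} [NormedAddCommGroup E] [InnerProductSpace ℝ E]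
    [FiniteDimensional ℝ E] (Ω : Set E) (hΩ : IsOpen Ω) (U : E → ℝ) (hU : ContDiffOn ℝ 2 U Ω)
    (u₀ : E) (hu₀ : u₀ ∈ Ω) :
    ∃ W : E → ℝ, ContDiff ℝ 2 W ∧ ∃ δ > 0, ball u₀ δ ⊆ Ω ∧ ∀ x ∈ ball u₀ δ, W x = U x := by
  obtain ⟨R, hR, hRΩ⟩ := Metric.isOpen_iff.1 hΩ u₀ hu₀
  let χ : ContDiffBump u₀ := ⟨R / 4, R / 2, by positivity, by linarith⟩
  refine ⟨fun x => χ x * U x, ?_, R / 4, by positivity, ?_, ?_⟩
  · rw [contDiff_iff_contDiffAt]
    intro x
    by_cases hx : x ∈ Ω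
    · exact χ.contDiffAt.mul (hU.contDiffAt (hΩ.mem_nhds hx))
    · have hx' : x ∉ tsupport χ := by
        intro h
        rw [χ.tsupport_eq] at h
        refine hx (hRΩ (closedBall_subset_ball ?_ h))
        change R / 2 < R
        linarith
      have h1 : (fun x => χ x * U x) =ᶠ[𝓝 x] fun _ => 0 := by
        have h2 := notMem_tsupport_iff_eventuallyEq.1 hx'
        filter_upwards [h2] with y hy
        rw [hy]; simp
      exact contDiffAt_const.congr_of_eventuallyEq h1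
  · exact (ball_subset_ball (by linarith)).trans hRΩ
  · intro x hx
    have h1 : χ x = 1 := χ.one_of_mem_closedBall (by
      change x ∈ closedBall u₀ (R / 4)
      exact ball_subset_closedBall hx)
    simp [h1]

theorem gradient_congr {E : Type} [NormedAddCommGroup E] [InnerProductSpace ℝ E]
    [FiniteDimensional ℝ E] (U W : E → ℝ) (s : Set E) (hs : IsOpen s) (h : ∀ x ∈ s, W x = U x) :
    ∀ x ∈ s, gradient W x = gradient U x := by
  intro x hx
  unfold gradient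
  have : W =ᶠ[𝓝 x] U := by filter_upwards [hs.mem_nhds hx] with y hy using h y hy
  rw [this.fderiv_eq]

theorem hess_congr {E : Type} [NormedAddCommGroup E] [InnerProductSpace ℝ E]
    [FiniteDimensional ℝ E] (U W : E → ℝ) (s : Set E) (hs : IsOpen s) (h : ∀ x ∈ s, W x = U x) :
    ∀ x ∈ s, fderiv ℝ (gradient W) x = fderiv ℝ (gradient U) x := by
  intro x hx
  have : gradient W =ᶠ[𝓝 x] gradient U := by
    filter_upwards [hs.mem_nhds hx] with y hy using gradient_congr U W s hs h y hy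
  exact this.fderiv_eq

/-- orthonormal basis of the eigenspace -/
theorem exists_eigenbasis {E : Type} [NormedAddCommGroup E] [InnerProductSpace ℝ E]
    [FiniteDimensional ℝ E] (H : E →L[ℝ] E) (b : ℝ) (hev : ∃ x, x ≠ 0 ∧ H x = b • x) :
    ∃ (m : ℕ) (e : Fin (m + 1) → E), Orthonormal ℝ e ∧
      ∀ x, H x = b • x ↔ x ∈ Submodule.span ℝ (range e) := by
  let S : Submodule ℝ E := LinearMap.ker (H.toLinearMap - b • LinearMap.id)
  have hS : ∀ x, x ∈ S ↔ H x = b • x := by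
    intro x
    simp [S, LinearMap.mem_ker, sub_eq_zero]
  obtain ⟨x, hx0, hx⟩ := hev
  have hpos : 0 < Module.finrank ℝ S := by
    rw [Module.finrank_pos_iff_exists_ne_zero]
    exact ⟨⟨x, (hS x).2 hx⟩, fun h => hx0 (congrArg Subtype.val h)⟩
  obtain ⟨m, hm⟩ : ∃ m, Module.finrank ℝ S = m + 1 := ⟨Module.finrank ℝ S - 1, by omega⟩
  let b0 := (stdOrthonormalBasis ℝ S).reindex (finCongr hm)
  refine ⟨m, fun j => (b0 j : E), ?_, ?_⟩
  · exact b0.orthonormal.comp_linearIsometry S.subtypeₗᵢ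
  · intro x
    rw [← hS]
    have h1 : Submodule.span ℝ (range fun j => (b0 j : E)) = S := by
      have h2 : (range fun j => (b0 j : E)) = S.subtype '' (range b0) := by
        rw [← range_comp]; rfl
      have h3 : Submodule.span ℝ (range b0) = ⊤ := by
        have := b0.toBasis.span_eq
        simpa using this
      rw [h2, Submodule.span_image, h3, Submodule.map_top, Submodule.range_subtype]
    rw [h1]

theorem local_branch {E : Type} [NormedAddCommGroup E] [InnerProductSpace ℝ E]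
    [FiniteDimensional ℝ E] (W : E → ℝ) (hW : ContDiff ℝ 2 W) (u₀ : E)
    (hcrit : gradient W u₀ = 0) (𝔤 : Submodule ℝ (E →L[ℝ] E))
    (hskew : ∀ η ∈ 𝔤, ∀ x y, ⟪η x, y⟫_ℝ = -⟪x, η y⟫_ℝ) (δ : ℝ) (hδ0 : 0 < δ)
    (hgrad : ∀ η ∈ 𝔤, ∀ x ∈ ball u₀ δ, ⟪gradient W x, η x⟫_ℝ = 0)
    (hδ : ∀ τ : E, (∃ η ∈ 𝔤, η u₀ = τ) → ∀ x : E, ‖x - u₀‖ < δ →
        (∀ η ∈ 𝔤, ⟪τ, η x⟫_ℝ = 0) → τ = 0)
    (T : Submodule ℝ E) (hT : ∀ τ, τ ∈ T ↔ ∃ η ∈ 𝔤, η u₀ = τ)
    (β : ℝ) (hβ : 0 < β) (hev : ∃ x, x ≠ 0 ∧ fderiv ℝ (gradient W) u₀ x = (β ^ 2) • x)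
    (hadm : ∀ k : ℕ, 2 ≤ k → ∀ x, fderiv ℝ (gradient W) u₀ x = ((k : ℝ) * β) ^ 2 • x → x = 0)
    (L : Tᗮ ≃L[ℝ] Tᗮ)
    (hL : ∀ R > 0, ∃ ρ, 0 < ρ ∧ ρ < R ∧
      (∀ v : Tᗮ, ‖v‖ ≤ ρ → Tᗮ.orthogonalProjectionOnto (gradient W (u₀ + v)) = 0 → v = 0) ∧
      ∃ Hm : ℝ × Tᗮ → Tᗮ, ContinuousOn Hm (Icc 0 1 ×ˢ sphere 0 ρ) ∧
        (∀ v ∈ sphere (0 : Tᗮ) ρ, Hm (0, v) =
          L (Tᗮ.orthogonalProjectionOnto (gradient W (u₀ + v)))) ∧
        (∀ v ∈ sphere (0 : Tᗮ) ρ, Hm (1, v) = v) ∧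
        ∀ t ∈ Icc (0 : ℝ) 1, ∀ v ∈ sphere (0 : Tᗮ) ρ, Hm (t, v) ≠ 0) :
    ∃ C : Set (H1per E × ℝ), IsConnected C ∧
      (∀ p ∈ C, 0 < p.2 ∧ (∀ t, p.1.toFun t ∈ ball u₀ δ) ∧
        (∃ d : ℝ → E, (∀ t, HasDerivAt p.1.toFun (d t) t) ∧
          ∀ t, HasDerivAt d (-(p.2 ^ 2) • gradient W (p.1.toFun t)) t) ∧
        ¬ ∃ c, ∀ t, p.1.toFun t = c) ∧
      ∃ q ∈ closure C, (∀ t, q.1.toFun t = u₀) ∧ q.2 = β⁻¹ := by
  have hG : ContDiff ℝ 1 (gradient W) := gradient_contDiff W hW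
  have hGc : Continuous (gradient W) := hG.continuous
  set G := gradient W with hGdef
  obtain ⟨m, e, he, hspan⟩ := exists_eigenbasis (fderiv ℝ G u₀) (β ^ 2) hev
  obtain ⟨⟨M, hM⟩, ⟨P, hP⟩, ⟨J, hJ⟩, o1, o2, o3, o4, o5, o6, o7, o8, o9, o10, o11⟩ :=
    ops_identities e he
  obtain ⟨ρ₁, r₀, ε, hρ₁, hr₀, hε, hεβ, y, h1, hyc, h1c, hall, h1z⟩ :=
    lyapunov_schmidt W hW u₀ β hβ e he hspan hadm δ hδ0
  obtain ⟨ρ, hρ, hρρ, hfne, Hm, hHc, hH0, hH1, hHne⟩ := hL ρ₁ hρ₁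
  -- the lift
  set K : Set (Tᗮ × ℝ × ℝ × Cm (m + 1)) := {x | ‖x.1‖ ≤ ρ ∧ x.2.1 ∈ Icc 0 r₀ ∧
    x.2.2.1 ∈ Icc (β⁻¹ - ε) (β⁻¹ + ε) ∧ ‖x.2.2.2‖ = 1} with hK
  set ι : Tᗮ × ℝ × ℝ × Cm (m + 1) → E × ℝ × ℝ × Cm (m + 1) := fun x => ((x.1 : E), x.2) with hι
  have hιc : Continuous ι := by fun_prop
  have hιK : MapsTo ι K (KK E m β ρ₁ r₀ ε) := by
    rintro ⟨v, r, l, z⟩ ⟨hv, hr, hl, hz⟩
    exact ⟨le_trans (by simpa using hv) hρρ.le, hr, hl, hz⟩
  -- the function `u`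
  set uX : Tᗮ × ℝ × ℝ × Cm (m + 1) → PX E := fun x =>
    ContinuousMap.const _ (u₀ + (x.1 : E)) + x.2.1 • y (ι x) with huX
  have hyι : ContinuousOn (fun x => y (ι x)) K := hyc.comp hιc.continuousOn hιK
  have huXc : ContinuousOn uX K := by
    have c1 : Continuous fun x : Tᗮ × ℝ × ℝ × Cm (m + 1) =>
        (ContinuousMap.const (AddCircle (2 * π)) (u₀ + (x.1 : E)) : PX E) :=
      ContinuousMap.continuous_const'.comp (by fun_prop)
    have c2 : Continuous fun x : Tᗮ × ℝ × ℝ × Cm (m + 1) => x.2.1 := by fun_prop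
    exact c1.continuousOn.add (c2.continuousOn.smul hyι)
  set GX : PX E → PX E := fun f => (⟨G, hGc⟩ : C(E, E)).comp f with hGX
  have hGXc : Continuous GX := ContinuousMap.continuous_postcomp _
  set mG : Tᗮ × ℝ × ℝ × Cm (m + 1) → E := fun x => M (GX (uX x)) with hmG
  have hmGc : ContinuousOn mG K := M.continuous.comp_continuousOn (hGXc.comp_continuousOn huXc)
  have hmGe : ∀ x, mG x = (2 * π)⁻¹ • ∫ s in (0 : ℝ)..(2 * π),
      G (u₀ + (x.1 : E) + x.2.1 • y (ι x) (s : AddCircle (2 * π))) := by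
    intro x
    simp only [hmG, hM]
    rfl
  set P0 : E →L[ℝ] Tᗮ := Tᗮ.orthogonalProjectionOnto with hP0
  set f : Tᗮ → Tᗮ := fun v => L (P0 (G (u₀ + v))) with hf
  set h0 : Tᗮ × ℝ × ℝ × Cm (m + 1) → Tᗮ := fun x => L (P0 (mG x)) with hh0
  have hcexp : ∀ c : ℂ, ‖c‖ = 1 → ∃ θ : ℝ, c = Complex.exp (Complex.I * θ) := by
    intro c hc
    refine ⟨Complex.arg c, ?_⟩
    have := Complex.norm_mul_exp_arg_mul_I c
    rw [hc, Complex.ofReal_one, one_mul] at this
    rw [mul_comm, this]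
  have hcoe : Continuous fun v : Tᗮ => (v : E) := continuous_subtype_val
  have hKball : ∀ v r l z, (v, r, l, z) ∈ K → ∀ s, ‖(v : E) + r • y (ι (v, r, l, z)) s‖ < δ := by
    intro v r l z hx s
    exact (hall (v : E) r l z (hιK hx)).2.2.2.2.2.1 s
  have c0 : ContinuousOn h0 K :=
    (L.continuous.comp P0.continuous).comp_continuousOn hmGc
  have c1 : ContinuousOn (fun x => h1 (ι x)) K := h1c.comp hιc.continuousOn hιK
  have e0 : ∀ v r l z, (v, r, l, z) ∈ K → ∀ c : ℂ, ‖c‖ = 1 → h0 (v, r, l, c • z) = h0 (v, r, l, z) := by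
    intro v r l z hx c hc
    obtain ⟨θ, rfl⟩ := hcexp c hc
    have h2 := (hall (v : E) r l z (hιK hx)).2.2.1 θ
    have h3 : uX (v, r, l, Complex.exp (Complex.I * θ) • z) = shiftX θ (uX (v, r, l, z)) := by
      simp only [huX, hι, h2]
      rfl
    have h4 : GX (shiftX θ (uX (v, r, l, z))) = shiftX θ (GX (uX (v, r, l, z))) := rfl
    have h5 : mG (v, r, l, Complex.exp (Complex.I * θ) • z) = mG (v, r, l, z) := by
      simp only [hmG]
      rw [h3, h4, hM, hM, o6]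
    simp only [hh0, h5]
  have e1 : ∀ v r l z, (v, r, l, z) ∈ K → ∀ c : ℂ, ‖c‖ = 1 →
      (fun x => h1 (ι x)) (v, r, l, c • z) = c • (fun x => h1 (ι x)) (v, r, l, z) := by
    intro v r l z hx c hc
    obtain ⟨θ, rfl⟩ := hcexp c hc
    exact (hall (v : E) r l z (hιK hx)).2.2.2.1 θ
  have orth : ∀ v r l z, (v, r, l, z) ∈ K → (inner ℂ ((fun x => h1 (ι x)) (v, r, l, z)) z).im = 0 :=
    fun v r l z hx => (hall (v : E) r l z (hιK hx)).2.2.2.2.1
  have hfc : ContinuousOn f (closedBall 0 ρ) := by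
    have : Continuous f := by
      simp only [hf]
      exact L.continuous.comp (P0.continuous.comp (hGc.comp (by fun_prop)))
    exact this.continuousOn
  have hf0 : f 0 = 0 := by simp [hf, hcrit]
  have h0r : ∀ v l z, (v, 0, l, z) ∈ K → h0 (v, 0, l, z) = f v := by
    intro v l z _
    have h2 : GX (uX (v, 0, l, z)) = ContinuousMap.const _ (G (u₀ + v)) := by
      ext s
      simp [hGX, huX]
    simp only [hh0, hf, hmG]
    rw [h2, hM, o4]
  have fne : ∀ v, ‖v‖ ≤ ρ → f v = 0 → v = 0 := by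
    intro v hv hfv
    refine hfne v hv ?_
    exact (map_eq_zero_iff L L.injective).1 hfv
  have hc : ContinuousOn (fun l : ℝ => 1 - l ^ 2 * β ^ 2) (Icc (β⁻¹ - ε) (β⁻¹ + ε)) := by fun_prop
  have h1cc : ∀ l z, (0, 0, l, z) ∈ K → (fun x => h1 (ι x)) (0, 0, l, z)
      = ((1 - l ^ 2 * β ^ 2 : ℝ) : ℂ) • z := by
    intro l z hx
    have h2 := hιK hx
    have h3 : ι (0, 0, l, z) = (0, 0, l, z) := by simp [hι]
    rw [h3] at h2
    simp only [h3]
    exact h1z l z h2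
  have hlb : ∀ l : ℝ, 1 - l ^ 2 * β ^ 2 = (β⁻¹ - l) * (β * (1 + l * β)) := by
    intro l
    field_simp
    ring
  have cpos : ∀ l ∈ Ico (β⁻¹ - ε) β⁻¹, 0 < 1 - l ^ 2 * β ^ 2 := by
    intro l hl
    have hl0 : 0 < l := by linarith [hl.1]
    rw [hlb]
    have : 0 < β⁻¹ - l := by linarith [hl.2]
    positivity
  have cneg : ∀ l ∈ Ioc β⁻¹ (β⁻¹ + ε), 1 - l ^ 2 * β ^ 2 < 0 := by
    intro l hl
    have hb : 0 < β⁻¹ := by positivity
    have hl0 : 0 < l := by linarith [hl.1]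
    rw [hlb]
    have h2 : β⁻¹ - l < 0 := by linarith [hl.1]
    have h3 : 0 < β * (1 + l * β) := by positivity
    exact mul_neg_of_neg_of_pos h2 h3
  have czero : 1 - (β⁻¹) ^ 2 * β ^ 2 = 0 := by
    rw [hlb]; ring
  obtain ⟨D, hDK, hDc, hD, z₀, hz₀, hcl⟩ := connected_zeros (m := m) (V := Tᗮ) ρ r₀ β⁻¹ ε hρ hr₀ hε K
    hK h0 (fun x => h1 (ι x)) c0 c1 e0 e1 orth f hfc hf0 h0r fne Hm hHc hH0 hH1 hHne
    (fun l => 1 - l ^ 2 * β ^ 2) hc h1cc cpos cneg czero
  -- continuity into `H¹`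
  have hKd : ∀ x : K, ∃ d : ℝ → E,
      (∀ t : ℝ, HasDerivAt (fun t : ℝ => uX x (t : AddCircle (2 * π))) (d t) t) ∧
      ∀ t : ℝ, HasDerivAt d (- x.1.2.1 • jj e (h1 (ι x)) t
        - x.1.2.2.1 ^ 2 • (G (uX x (t : AddCircle (2 * π))) - mG x)) t := by
    rintro ⟨⟨v, r, l, z⟩, hx⟩
    obtain ⟨d, hd1, hd2⟩ := (hall (v : E) r l z (hιK hx)).2.2.2.2.2.2
    refine ⟨d, hd1, fun t => ?_⟩
    rw [hmGe]
    exact hd2 t
  choose d hd1 hd2 using hKd
  have hcirc : Continuous fun s : ℝ => (s : AddCircle (2 * π)) := AddCircle.continuous_mk' _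
  have huXr : Continuous fun x : K => uX x := huXc.domRestrict
  have hevc : Continuous fun p : K × ℝ => uX p.1 (p.2 : AddCircle (2 * π)) := by
    exact ContinuousEval.continuous_eval.comp
      ((huXr.comp continuous_fst).prodMk (hcirc.comp continuous_snd))
  obtain ⟨Φ, hΦ, hΦc⟩ := continuous_into_H1 (X := K)
    (fun x t => uX x (t : AddCircle (2 * π))) d
    (fun x t => - x.1.2.1 • jj e (h1 (ι x)) t
        - x.1.2.2.1 ^ 2 • (G (uX x (t : AddCircle (2 * π))) - mG x))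
    (fun x t => by
      change uX x ((t + 2 * π : ℝ) : AddCircle (2 * π)) = _
      rw [AddCircle.coe_add_period]) hd1 hd2 hevc (by
      have a1 : Continuous fun p : K × ℝ => h1 (ι p.1) := (c1.domRestrict).comp continuous_fst
      have a2 : Continuous fun p : K × ℝ => mG p.1 := (hmGc.domRestrict).comp continuous_fst
      have a3 : Continuous fun p : K × ℝ => jj e (h1 (ι p.1)) p.2 := by
        unfold jj
        have a4 : ∀ j, Continuous fun p : K × ℝ => h1 (ι p.1) j := fun j =>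
          (EuclideanSpace.proj (𝕜 := ℂ) j).continuous.comp a1
        refine continuous_finsetSum _ fun j _ => ?_
        refine Continuous.smul (Complex.continuous_re.comp ((a4 j).mul ?_)) continuous_const
        exact Complex.continuous_exp.comp (continuous_const.mul (Complex.continuous_ofReal.comp continuous_snd))
      have a5 : Continuous fun p : K × ℝ => p.1.1.2.1 := by fun_prop
      have a6 : Continuous fun p : K × ℝ => p.1.1.2.2.1 := by fun_prop
      exact (a5.neg.smul a3).sub ((a6.pow 2).smul ((hGc.comp hevc).sub a2)))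
  set F : K → H1per E × ℝ := fun x => (Φ x, x.1.2.2.1) with hF
  have hFc : Continuous F := hΦc.prodMk (by fun_prop)
  set C : Set (H1per E × ℝ) := F '' (Subtype.val ⁻¹' D) with hC
  have hDval : (Subtype.val : K → _) '' (Subtype.val ⁻¹' D) = D := by
    rw [Subtype.image_preimage_coe]
    exact inter_eq_right.2 hDK
  have hDconn : IsConnected ((Subtype.val : K → Tᗮ × ℝ × ℝ × Cm (m + 1)) ⁻¹' D) := by
    have h2 : ((Subtype.val : K → Tᗮ × ℝ × ℝ × Cm (m + 1)) ⁻¹' D) =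
        range (fun x : D => (⟨x.1, hDK x.2⟩ : K)) := by
      ext x
      constructor
      · intro hx; exact ⟨⟨x.1, hx⟩, rfl⟩
      · rintro ⟨x', rfl⟩; exact x'.2
    rw [h2]
    have : ConnectedSpace D := isConnected_iff_connectedSpace.1 hDc
    exact isConnected_range (by fun_prop)
  refine ⟨C, hDconn.image F hFc.continuousOn, ?_, ?_⟩
  · rintro _ ⟨⟨⟨v, r, l, z⟩, hxK⟩, hxD, rfl⟩
    obtain ⟨hr, hh0x, hh1x⟩ := hD _ hxD
    set x : Tᗮ × ℝ × ℝ × Cm (m + 1) := (v, r, l, z) with hx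
    have hl : 0 < l := by
      have := hxK.2.2.1.1
      simp only [hx] at this
      linarith
    have hu : (F ⟨x, hxK⟩).1.toFun = fun t : ℝ => uX x (t : AddCircle (2 * π)) := hΦ ⟨x, hxK⟩
    have hux : ∀ t : ℝ, uX x (t : AddCircle (2 * π)) = u₀ + (v : E) + r • y (ι x) (t : AddCircle (2 * π)) :=
      fun t => rfl
    have hball : ∀ t : ℝ, ‖uX x (t : AddCircle (2 * π)) - u₀‖ < δ := by
      intro t
      have h2 : uX x (t : AddCircle (2 * π)) - u₀ = (v : E) + r • y (ι x) (t : AddCircle (2 * π)) := by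
        rw [hux]; abel
      rw [h2]
      exact hKball v r l z hxK _
    have hballm : ∀ t : ℝ, uX x (t : AddCircle (2 * π)) ∈ ball u₀ δ := fun t => by
      rw [mem_ball, dist_eq_norm]; exact hball t
    have hmT : mG x ∈ T := by
      have h2 : P0 (mG x) = 0 := (map_eq_zero_iff L L.injective).1 hh0x
      have h3 : mG x ∈ Tᗮᗮ := Submodule.orthogonalProjectionOnto_eq_zero_iff.1 h2
      rwa [Submodule.orthogonal_orthogonal] at h3
    have hd2' : ∀ t : ℝ, HasDerivAt (d ⟨x, hxK⟩) (-(l ^ 2) • G (uX x (t : AddCircle (2 * π)))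
        + l ^ 2 • mG x) t := by
      intro t
      refine (hd2 ⟨x, hxK⟩ t).congr_deriv ?_
      have h2 : h1 (ι x) = 0 := hh1x
      have h3 : jj e (0 : Cm (m + 1)) t = 0 := by simp [jj]
      simp only
      rw [h2, h3, smul_zero, zero_sub]
      simp only [hx]
      module
    have hτ : l ^ 2 • mG x = 0 := by
      refine residual_zero 𝔤 hskew (ball u₀ δ) G hGc.continuousOn hgrad u₀ δ hδ
        (fun t : ℝ => uX x (t : AddCircle (2 * π))) (d ⟨x, hxK⟩) l _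
        ((hT _).1 (T.smul_mem _ hmT)) (fun t => ?_) hballm hball (hd1 ⟨x, hxK⟩) hd2'
      change uX x ((t + 2 * π : ℝ) : AddCircle (2 * π)) = _
      rw [AddCircle.coe_add_period]
    refine ⟨hl, ?_, ⟨d ⟨x, hxK⟩, ?_, ?_⟩, ?_⟩
    · rw [hu]; exact hballm
    · rw [hu]; exact hd1 ⟨x, hxK⟩
    · intro t
      rw [hu]
      have := hd2' t
      rw [hτ, add_zero] at this
      exact this
    · rintro ⟨c, hcst⟩
      rw [hu] at hcst
      have h2 : y (ι x) = ContinuousMap.const _ (r⁻¹ • (c - u₀ - v)) := by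
        ext s
        induction s using QuotientAddGroup.induction_on with
        | H t =>
          have h3 := hcst t
          simp only at h3
          rw [hux] at h3
          have h4 : r • y (ι x) (t : AddCircle (2 * π)) = c - u₀ - v := by rw [← h3]; abel
          have h5 : y (ι x) (t : AddCircle (2 * π)) = r⁻¹ • (c - u₀ - v) := by
            rw [← h4, smul_smul, inv_mul_cancel₀ hr.ne', one_smul]
          exact h5
      have h3 := (hall (v : E) r l z (hιK hxK)).2.1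
      have h4 : y ((v : E), r, l, z) = y (ι x) := rfl
      rw [h4, h2, o3] at h3
      have h5 : ‖z‖ = 1 := hxK.2.2.2
      rw [← h3] at h5
      simp at h5
  · have hKcl : IsClosed K := by
      rw [hK]
      have b1 : IsClosed {x : Tᗮ × ℝ × ℝ × Cm (m + 1) | ‖x.1‖ ≤ ρ} :=
        isClosed_le (by fun_prop) continuous_const
      have b2 : IsClosed {x : Tᗮ × ℝ × ℝ × Cm (m + 1) | x.2.1 ∈ Icc 0 r₀} :=
        isClosed_Icc.preimage (by fun_prop)
      have b3 : IsClosed {x : Tᗮ × ℝ × ℝ × Cm (m + 1) | x.2.2.1 ∈ Icc (β⁻¹ - ε) (β⁻¹ + ε)} :=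
        isClosed_Icc.preimage (by fun_prop)
      have b4 : IsClosed {x : Tᗮ × ℝ × ℝ × Cm (m + 1) | ‖x.2.2.2‖ = 1} :=
        isClosed_eq (by fun_prop) continuous_const
      exact b1.inter (b2.inter (b3.inter b4))
    have hxK : ((0, 0, β⁻¹, z₀) : Tᗮ × ℝ × ℝ × Cm (m + 1)) ∈ K := closure_minimal hDK hKcl hcl
    refine ⟨F ⟨_, hxK⟩, ?_, ?_, rfl⟩
    · have h2 : (⟨_, hxK⟩ : K) ∈ closure ((Subtype.val : K → Tᗮ × ℝ × ℝ × Cm (m + 1)) ⁻¹' D) := by
        rw [closure_subtype, hDval]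
        exact hcl
      exact image_closure_subset_closure_image hFc (mem_image_of_mem F h2)
    · intro t
      have hu : (F ⟨_, hxK⟩).1.toFun = fun t : ℝ => uX (0, 0, β⁻¹, z₀) (t : AddCircle (2 * π)) := hΦ ⟨_, hxK⟩
      rw [hu]
      simp [huX]

end

end Pool.Agent.Helper24.CB
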