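import Mathlib
import Pool.Agent.Helper24.CB.Local

open MeasureTheory Set Metric Topology
open scoped Real InnerProductSpace ContDiff Manifold

namespace Pool.Agent.Helper24.CB

noncomputable section

variable {E : Type} [NormedAddCommGroup E] [InnerProductSpace ℝ E]

theorem toLp_sub_norm_sq (f g : ℝ → E) (hf : MemLp f 2 (volume.restrict (Ioc 0 (2 * π))))
    (hg : MemLp g 2 (volume.restrict (Ioc 0 (2 * π)))) :
    ‖hf.toLp f - hg.toLp g‖ ^ 2 = ∫ t in (0 : ℝ)..(2 * π), ‖f t - g t‖ ^ 2 := by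
  rw [← MemLp.toLp_sub, ← real_inner_self_eq_norm_sq, L2.inner_def,
    intervalIntegral.integral_of_le Real.two_pi_pos.le]
  refine integral_congr_ae ?_
  filter_upwards [(hf.sub hg).coeFn_toLp] with t ht
  rw [ht, real_inner_self_eq_norm_sq]
  rfl

theorem sub_sq_intervalIntegrable (f g : ℝ → E) (hf : MemLp f 2 (volume.restrict (Ioc 0 (2 * π))))
    (hg : MemLp g 2 (volume.restrict (Ioc 0 (2 * π)))) :
    IntervalIntegrable (fun t => ‖f t - g t‖ ^ 2) volume 0 (2 * π) := by
  rw [intervalIntegrable_iff_integrableOn_Ioc_of_le Real.two_pi_pos.le]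
  have := (hf.sub hg).integrable_norm_pow (p := 2) (by norm_num)
  simpa [IntegrableOn] using this

/-- the `H¹` distance is the `L² × L²` distance of `(u, u')` -/
theorem sqrt_integral_eq (u v : H1per E) :
    Real.sqrt (∫ t in (0 : ℝ)..(2 * π), (‖u.toFun t - v.toFun t‖ ^ 2
      + ‖deriv u.toFun t - deriv v.toFun t‖ ^ 2)) =
    ‖WithLp.toLp 2 (u.memLp.toLp u.toFun, u.sq.toLp (deriv u.toFun))
      - WithLp.toLp 2 (v.memLp.toLp v.toFun, v.sq.toLp (deriv v.toFun))‖ := by
  rw [WithLp.prod_norm_eq_of_L2]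
  congr 1
  rw [intervalIntegral.integral_add (sub_sq_intervalIntegrable _ _ u.memLp v.memLp)
    (sub_sq_intervalIntegrable _ _ u.sq v.sq), ← toLp_sub_norm_sq _ _ u.memLp v.memLp,
    ← toLp_sub_norm_sq _ _ u.sq v.sq]
  rfl

/-- embedding of `H¹` into `L² × L²` -/
def H1per.emb (u : H1per E) : WithLp 2 (Lp E 2 (volume.restrict (Ioc 0 (2 * π))) ×
    Lp E 2 (volume.restrict (Ioc 0 (2 * π)))) :=
  WithLp.toLp 2 (u.memLp.toLp u.toFun, u.sq.toLp (deriv u.toFun))

theorem H1per.continuous_emb : Continuous (H1per.emb (E := E)) :=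
  (WithLp.prod_continuous_toLp 2 _ _).comp continuous_induced_dom

end

end Pool.Agent.Helper24.CB
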