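import Mathlib

/-!
CB-C: the gradient of a function at an isolated minimum is homotopic to the identity on small
spheres (discrete gradient descent).
-/

open Set Metric Topology
open scoped Manifold ContDiff InnerProductSpace

namespace Pool.Agent.Helper24.CB

section relation

variable {V : Type} [NormedAddCommGroup V]

/-- Homotopy through nowhere vanishing maps on a set. -/
def NzHom (S : Set V) (g h : V → V) : Prop :=
  ∃ H : ℝ × V → V, ContinuousOn H (Icc 0 1 ×ˢ S) ∧ (∀ x ∈ S, H (0, x) = g x) ∧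
    (∀ x ∈ S, H (1, x) = h x) ∧ ∀ t ∈ Icc (0 : ℝ) 1, ∀ x ∈ S, H (t, x) ≠ 0

theorem NzHom.trans {S : Set V} (hS : IsClosed S) {f g h : V → V} (h1 : NzHom S f g)
    (h2 : NzHom S g h) : NzHom S f h := by
  classical
  obtain ⟨H1, c1, a1, b1, n1⟩ := h1
  obtain ⟨H2, c2, a2, b2, n2⟩ := h2
  refine ⟨fun p => if p.1 ≤ 1 / 2 then H1 (2 * p.1, p.2) else H2 (2 * p.1 - 1, p.2),
    ?_, ?_, ?_, ?_⟩
  · have hU : (Icc (0 : ℝ) 1 ×ˢ S) = (Icc (0 : ℝ) (1 / 2) ×ˢ S) ∪ (Icc (1 / 2 : ℝ) 1 ×ˢ S) := by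
      rw [← union_prod, Icc_union_Icc_eq_Icc (by norm_num) (by norm_num)]
    rw [hU]
    refine ContinuousOn.union_of_isClosed ?_ ?_ (isClosed_Icc.prod hS) (isClosed_Icc.prod hS)
    · have e1 : EqOn (fun p : ℝ × V => if p.1 ≤ 1 / 2 then H1 (2 * p.1, p.2) else
          H2 (2 * p.1 - 1, p.2)) (fun p => H1 (2 * p.1, p.2)) (Icc (0 : ℝ) (1 / 2) ×ˢ S) := by
        rintro ⟨t, x⟩ ⟨ht, -⟩
        simp only
        rw [if_pos ht.2]
      refine ContinuousOn.congr ?_ e1
      refine c1.comp (by fun_prop) ?_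
      rintro ⟨t, x⟩ ⟨ht, hx⟩
      simp only [mem_Icc, mem_prod] at ht ⊢
      exact ⟨⟨by linarith [ht.1], by linarith [ht.2]⟩, hx⟩
    · have e1 : EqOn (fun p : ℝ × V => if p.1 ≤ 1 / 2 then H1 (2 * p.1, p.2) else
          H2 (2 * p.1 - 1, p.2)) (fun p => H2 (2 * p.1 - 1, p.2)) (Icc (1 / 2 : ℝ) 1 ×ˢ S) := by
        rintro ⟨t, x⟩ ⟨ht, hx⟩
        simp only at ht hx ⊢
        split_ifs with h
        · have : t = 1 / 2 := le_antisymm h ht.1
          subst this
          norm_num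
          rw [b1 x hx, a2 x hx]
        · rfl
      refine ContinuousOn.congr ?_ e1
      refine c2.comp (by fun_prop) ?_
      rintro ⟨t, x⟩ ⟨ht, hx⟩
      simp only [mem_Icc, mem_prod] at ht ⊢
      exact ⟨⟨by linarith [ht.1], by linarith [ht.2]⟩, hx⟩
  · intro x hx
    simp [a1 x hx]
  · intro x hx
    norm_num
    exact b2 x hx
  · intro t ht x hx
    simp only
    split_ifs with h
    · exact n1 _ ⟨by linarith [ht.1], by linarith⟩ x hx
    · exact n2 _ ⟨by linarith, by linarith [ht.2]⟩ x hx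

end relation

section descent

variable {V : Type} [NormedAddCommGroup V] [InnerProductSpace ℝ V] [FiniteDimensional ℝ V]

/-- One gradient step decreases the function. -/
theorem descent_step (φ : V → ℝ) (f : V → V) (r L : ℝ) (hL : 0 ≤ L)
    (hφ : ∀ x ∈ closedBall (0 : V) r, HasGradientAt φ (f x) x)
    (hf : ∀ x ∈ closedBall (0 : V) r, ∀ y ∈ closedBall (0 : V) r, ‖f x - f y‖ ≤ L * ‖x - y‖)
    (x : V) (hx : x ∈ closedBall (0 : V) r) (τ : ℝ) (h0 : 0 ≤ τ) (hτ : τ * L ≤ 1 / 2)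
    (hy : x - τ • f x ∈ closedBall (0 : V) r) :
    φ (x - τ • f x) ≤ φ x - τ / 2 * ‖f x‖ ^ 2 := by
  have hmem : ∀ t ∈ Icc 0 τ, x - t • f x ∈ closedBall (0 : V) r := by
    intro t ht
    rcases h0.eq_or_lt with h | h
    · have : t = 0 := le_antisymm (h ▸ ht.2) ht.1
      rw [this, zero_smul, sub_zero]; exact hx
    · have hc := convex_closedBall (0 : V) r
      have h1 := hc hx hy (a := 1 - t / τ) (b := t / τ)
        (by rw [sub_nonneg, div_le_one h]; exact ht.2) (by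
          exact div_nonneg ht.1 h.le) (by ring)
      have h2 : (1 - t / τ) • x + (t / τ) • (x - τ • f x) = x - t • f x := by
        rw [smul_sub, smul_smul, div_mul_cancel₀ _ h.ne', sub_smul, one_smul]
        abel
      rwa [h2] at h1
  have hder : ∀ t ∈ Icc 0 τ, HasDerivAt (fun t : ℝ => φ (x - t • f x))
      (-⟪f (x - t • f x), f x⟫_ℝ) t := by
    intro t ht
    have h1 := (hφ _ (hmem t ht)).hasFDerivAt
    have h2 : HasDerivAt (fun t : ℝ => x - t • f x) (-f x) t := by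
      have := ((hasDerivAt_id t).smul_const (f x)).const_sub x
      simpa using this
    have h3 := h1.comp_hasDerivAt t h2
    simp only [map_neg, InnerProductSpace.toDual_apply_apply] at h3
    exact h3
  have hbound : ∀ t ∈ Icc 0 τ, -⟪f (x - t • f x), f x⟫_ℝ ≤ -(1 / 2) * ‖f x‖ ^ 2 := by
    intro t ht
    have h1 : ‖f x - f (x - t • f x)‖ ≤ L * ‖x - (x - t • f x)‖ := hf x hx _ (hmem t ht)
    have h2 : ‖x - (x - t • f x)‖ = t * ‖f x‖ := by
      rw [sub_sub_cancel, norm_smul, Real.norm_eq_abs, abs_of_nonneg ht.1]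
    rw [h2] at h1
    have h3 : ⟪f x - f (x - t • f x), f x⟫_ℝ ≤ ‖f x - f (x - t • f x)‖ * ‖f x‖ :=
      real_inner_le_norm _ _
    rw [inner_sub_left, real_inner_self_eq_norm_sq] at h3
    have h4 : ‖f x - f (x - t • f x)‖ * ‖f x‖ ≤ L * (t * ‖f x‖) * ‖f x‖ :=
      mul_le_mul_of_nonneg_right h1 (norm_nonneg _)
    have h5 : L * (t * ‖f x‖) * ‖f x‖ = (t * L) * ‖f x‖ ^ 2 := by ring
    have h6 : t * L ≤ 1 / 2 := le_trans (mul_le_mul_of_nonneg_right ht.2 hL) hτ
    have h7 : (t * L) * ‖f x‖ ^ 2 ≤ 1 / 2 * ‖f x‖ ^ 2 :=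
      mul_le_mul_of_nonneg_right h6 (sq_nonneg _)
    linarith
  have key := (convex_Icc 0 τ).image_sub_le_mul_sub_of_deriv_le
    (f := fun t : ℝ => φ (x - t • f x)) (C := -(1 / 2) * ‖f x‖ ^ 2)
    (fun t ht => (hder t ht).continuousAt.continuousWithinAt)
    (fun t ht => by
      rw [interior_Icc] at ht
      exact (hder t (Ioo_subset_Icc_self ht)).differentiableAt.differentiableWithinAt)
    (fun t ht => by
      rw [interior_Icc] at ht
      rw [(hder t (Ioo_subset_Icc_self ht)).deriv]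
      exact hbound t (Ioo_subset_Icc_self ht))
    0 (left_mem_Icc.mpr h0) τ (right_mem_Icc.mpr h0) h0
  simp only [zero_smul, sub_zero] at key
  linarith

end descent

/-- Task C: gradient of a function at an isolated minimum is homotopic to the identity -/
theorem min_homotopic_id {V : Type} [NormedAddCommGroup V] [InnerProductSpace ℝ V]
    [FiniteDimensional ℝ V] (φ : V → ℝ) (f : V → V) (R : ℝ) (hR : 0 < R)
    (hφ : ∀ x ∈ ball (0 : V) R, HasGradientAt φ (f x) x)
    (hf : ContDiffOn ℝ 1 f (ball 0 R))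
    (hmin : ∀ x ∈ ball (0 : V) R, φ 0 ≤ φ x)
    (hiso : ∀ x ∈ ball (0 : V) R, f x = 0 → x = 0) :
    ∃ ρ, 0 < ρ ∧ ρ < R ∧ ∃ H : ℝ × V → V, ContinuousOn H (Icc 0 1 ×ˢ sphere 0 ρ) ∧
      (∀ x ∈ sphere (0 : V) ρ, H (0, x) = f x) ∧ (∀ x ∈ sphere (0 : V) ρ, H (1, x) = x) ∧
      ∀ t ∈ Icc (0 : ℝ) 1, ∀ x ∈ sphere (0 : V) ρ, H (t, x) ≠ 0 := by
  classical
  have hproper : ProperSpace V := FiniteDimensional.proper ℝ V
  rcases subsingleton_or_nontrivial V with hV | hV
  · have hemp : sphere (0 : V) (R / 2) = ∅ := sphere_eq_empty_of_subsingleton (by positivity)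
    refine ⟨R / 2, by positivity, by linarith, fun p => p.2, ?_, ?_, ?_, ?_⟩ <;> simp [hemp]
  -- minimum
  have hcrit : ∀ x ∈ ball (0 : V) R, φ x ≤ φ 0 → f x = 0 := by
    intro x hx hle
    have hloc : IsLocalMin φ x := by
      filter_upwards [isOpen_ball.mem_nhds hx] with y hy
      exact hle.trans (hmin y hy)
    have h1 := hloc.hasFDerivAt_eq_zero (hφ x hx).hasFDerivAt
    exact (LinearIsometryEquiv.map_eq_zero_iff _).mp h1
  have h0R : (0 : V) ∈ ball (0 : V) R := mem_ball_self hR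
  have hf0 : f 0 = 0 := hcrit 0 h0R le_rfl
  have hpos : ∀ x ∈ ball (0 : V) R, x ≠ 0 → φ 0 < φ x := by
    intro x hx hx0
    by_contra h
    exact hx0 (hiso x hx (hcrit x hx (not_lt.mp h)))
  set r := R / 2 with hr
  have hr0 : 0 < r := by positivity
  have hrR : closedBall (0 : V) r ⊆ ball (0 : V) R := closedBall_subset_ball (by linarith)
  have hφc : ContinuousOn φ (ball (0 : V) R) := fun x hx =>
    (hφ x hx).hasFDerivAt.continuousAt.continuousWithinAt
  have hfc : ContinuousOn f (ball (0 : V) R) := hf.continuousOn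
  -- Lipschitz constant
  obtain ⟨K, hK⟩ : ∃ K : NNReal, LipschitzOnWith K f (closedBall (0 : V) r) := by
    refine LocallyLipschitzOn.exists_lipschitzOnWith_of_compact (isCompact_closedBall _ _) ?_
    intro x hx
    obtain ⟨K, t, ht, hK⟩ := (hf.contDiffAt (isOpen_ball.mem_nhds (hrR hx))).exists_lipschitzOnWith
    exact ⟨K, t, mem_nhdsWithin_of_mem_nhds ht, hK⟩
  obtain ⟨L, hLdef⟩ : ∃ L : ℝ, L = (K : ℝ) := ⟨_, rfl⟩
  have hL0 : 0 ≤ L := by rw [hLdef]; exact K.2
  have hLip : ∀ x ∈ closedBall (0 : V) r, ∀ y ∈ closedBall (0 : V) r,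
      ‖f x - f y‖ ≤ L * ‖x - y‖ := by
    intro x hx y hy
    have := hK.dist_le_mul x hx y hy
    rwa [dist_eq_norm, dist_eq_norm, ← hLdef] at this
  have hfx : ∀ x ∈ closedBall (0 : V) r, ‖f x‖ ≤ L * ‖x‖ := by
    intro x hx
    have := hLip x hx 0 (mem_closedBall_self hr0.le)
    rwa [hf0, sub_zero, sub_zero] at this
  set s : ℝ := 1 / (2 * (L + 1)) with hs
  have hs0 : 0 < s := by positivity
  have hsL : s * L ≤ 1 / 2 := by
    rw [hs, one_div, inv_mul_le_iff₀ (by positivity)]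
    linarith
  -- the outer annulus
  have hann : ∀ ρ : ℝ, 0 < ρ → ρ ≤ r → ∃ m, φ 0 < m ∧
      ∀ x ∈ closedBall (0 : V) r, ρ ≤ ‖x‖ → m ≤ φ x := by
    intro ρ hρ hρr
    have hcomp : IsCompact (closedBall (0 : V) r \ ball 0 ρ) :=
      (isCompact_closedBall _ _).diff isOpen_ball
    have hne : (closedBall (0 : V) r \ ball 0 ρ).Nonempty := by
      obtain ⟨x, hx⟩ := (NormedSpace.sphere_nonempty (x := (0 : V)) (r := r)).mpr hr0.le
      refine ⟨x, sphere_subset_closedBall hx, ?_⟩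
      rw [mem_sphere_zero_iff_norm] at hx
      rw [mem_ball_zero_iff, hx]
      linarith
    obtain ⟨y, hy, hymin⟩ := hcomp.exists_isMinOn hne
      (hφc.mono (sdiff_subset.trans hrR))
    refine ⟨φ y, hpos y (hrR hy.1) ?_, ?_⟩
    · rintro rfl
      exact hy.2 (mem_ball_self hρ)
    · intro x hx hρx
      refine hymin ⟨hx, ?_⟩
      rw [mem_ball_zero_iff]; linarith
  obtain ⟨m0, hm0, hm0'⟩ := hann (r / 2) (by positivity) (by linarith)
  set N : Set V := {x | ‖x‖ < r / 2 ∧ φ x < m0} with hN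
  have hNr : N ⊆ closedBall (0 : V) r := by
    intro x hx
    rw [mem_closedBall_zero_iff]; linarith [hx.1]
  have hstep : ∀ x ∈ N, ∀ τ, 0 ≤ τ → τ ≤ s →
      φ (x - τ • f x) ≤ φ x - τ / 2 * ‖f x‖ ^ 2 ∧ x - τ • f x ∈ N := by
    intro x hx τ h0 hτ
    have hxr := hNr hx
    have hτL : τ * L ≤ 1 / 2 := (mul_le_mul_of_nonneg_right hτ hL0).trans hsL
    have hmem : x - τ • f x ∈ closedBall (0 : V) r := by
      rw [mem_closedBall_zero_iff]
      have h1 : ‖τ • f x‖ ≤ 1 / 2 * ‖x‖ := by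
        rw [norm_smul, Real.norm_eq_abs, abs_of_nonneg h0]
        calc τ * ‖f x‖ ≤ τ * (L * ‖x‖) := mul_le_mul_of_nonneg_left (hfx x hxr) h0
          _ = (τ * L) * ‖x‖ := by ring
          _ ≤ 1 / 2 * ‖x‖ := mul_le_mul_of_nonneg_right hτL (norm_nonneg _)
      have h2 := norm_sub_le x (τ • f x)
      have h3 := hx.1
      linarith [norm_nonneg x]
    have hd := descent_step φ f r L hL0 (fun y hy => hφ y (hrR hy)) hLip x hxr τ h0 hτL hmem
    refine ⟨hd, ?_, ?_⟩
    · by_contra hcon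
      have h1 := hm0' _ hmem (not_lt.mp hcon)
      have h2 : 0 ≤ τ / 2 * ‖f x‖ ^ 2 := by positivity
      linarith [hx.2]
    · have h2 : 0 ≤ τ / 2 * ‖f x‖ ^ 2 := by positivity
      linarith [hx.2]
  -- the small sphere
  obtain ⟨ε, hε, hεN⟩ : ∃ ε > 0, ∀ x : V, ‖x‖ < ε → φ x < m0 := by
    have hc : ContinuousAt φ 0 := (hφ 0 h0R).hasFDerivAt.continuousAt
    have := hc.eventually (gt_mem_nhds hm0)
    obtain ⟨ε, hε, h⟩ := Metric.eventually_nhds_iff_ball.mp this
    exact ⟨ε, hε, fun x hx => h x (by rwa [mem_ball_zero_iff])⟩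
  set ρ : ℝ := min (ε / 2) (r / 4) with hρ
  have hρ0 : 0 < ρ := by positivity
  have hρε : ρ < ε := lt_of_le_of_lt (min_le_left _ _) (by linarith)
  have hρr : ρ < r / 2 := lt_of_le_of_lt (min_le_right _ _) (by linarith)
  have hSN : sphere (0 : V) ρ ⊆ N := by
    intro x hx
    rw [mem_sphere_zero_iff_norm] at hx
    exact ⟨by rw [hx]; exact hρr, hεN x (by rw [hx]; exact hρε)⟩
  obtain ⟨μ, hμ, hμ'⟩ := hann (ρ / 2) (by positivity) (by linarith)
  -- lower bound for the gradient where φ ≥ μ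
  obtain ⟨q, hq, hq'⟩ : ∃ q > 0, ∀ x ∈ closedBall (0 : V) r, μ ≤ φ x → q ≤ ‖f x‖ ^ 2 := by
    have hcl : IsCompact {x ∈ closedBall (0 : V) r | μ ≤ φ x} := by
      have h1 : {x ∈ closedBall (0 : V) r | μ ≤ φ x} = closedBall (0 : V) r ∩ φ ⁻¹' (Ici μ) := rfl
      rw [h1]
      exact (isCompact_closedBall (0 : V) r).of_isClosed_subset
        ((hφc.mono hrR).preimage_isClosed_of_isClosed isClosed_closedBall isClosed_Ici)
        inter_subset_left
    rcases ({x ∈ closedBall (0 : V) r | μ ≤ φ x}).eq_empty_or_nonempty with he | hne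
    · refine ⟨1, one_pos, fun x hx hμx => ?_⟩
      have : x ∈ ({x ∈ closedBall (0 : V) r | μ ≤ φ x} : Set V) := ⟨hx, hμx⟩
      rw [he] at this
      exact absurd this (notMem_empty x)
    · obtain ⟨y, hy, hymin⟩ := hcl.exists_isMinOn hne
        (((hfc.mono (fun x hx => hrR hx.1)).norm).pow 2)
      refine ⟨‖f y‖ ^ 2, ?_, fun x hx hμx => hymin ⟨hx, hμx⟩⟩
      have hy0 : y ≠ 0 := by
        rintro rfl
        exact absurd hy.2 (not_le.mpr hμ)
      have : f y ≠ 0 := fun h => hy0 (hiso y (hrR hy.1) h)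
      positivity
  set ψ : V → V := fun x => x - s • f x with hψ
  have hψN : MapsTo ψ N N := fun x hx => (hstep x hx s hs0.le le_rfl).2
  have hiterN : ∀ n, MapsTo (ψ^[n]) N N := fun n => hψN.iterate n
  have hψc : ContinuousOn ψ N := by
    have := hfc.mono (hNr.trans hrR)
    fun_prop
  have hitc : ∀ n, ContinuousOn (ψ^[n]) N := fun n => hψc.iterate hψN n
  have hiter : ∀ x ∈ N, ∀ n : ℕ, φ (ψ^[n] x) < μ ∨ φ (ψ^[n] x) ≤ φ x - n * (s / 2 * q) := by
    intro x hx n
    induction n with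
    | zero => right; simp
    | succ n ih =>
      rw [Function.iterate_succ_apply']
      have hy := hiterN n hx
      have h1 := (hstep _ hy s hs0.le le_rfl).1
      have h2 : 0 ≤ s / 2 * ‖f (ψ^[n] x)‖ ^ 2 := by positivity
      rcases lt_or_ge (φ (ψ^[n] x)) μ with h | h
      · left
        exact lt_of_le_of_lt (h1.trans (by linarith)) h
      · right
        have h3 := hq' _ (hNr hy) h
        have h4 := ih.resolve_left (not_lt.mpr h)
        have h5 : s / 2 * q ≤ s / 2 * ‖f (ψ^[n] x)‖ ^ 2 :=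
          mul_le_mul_of_nonneg_left h3 (by positivity)
        refine h1.trans ?_
        push_cast
        linarith
  have hdec : ∀ x ∈ N, x ≠ 0 → ∀ n : ℕ, φ (ψ^[n + 1] x) < φ x := by
    intro x hx hx0 n
    induction n with
    | zero =>
      have h1 := (hstep x hx s hs0.le le_rfl).1
      have h2 : f x ≠ 0 := fun h => hx0 (hiso x (hrR (hNr hx)) h)
      have h3 : 0 < s / 2 * ‖f x‖ ^ 2 := by positivity
      have h4 : ψ^[0 + 1] x = x - s • f x := rfl
      rw [h4]
      linarith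
    | succ n ih =>
      rw [Function.iterate_succ_apply']
      have h1 := (hstep _ (hiterN (n + 1) hx) s hs0.le le_rfl).1
      have h2 : 0 ≤ s / 2 * ‖f (ψ^[n + 1] x)‖ ^ 2 := by positivity
      exact lt_of_le_of_lt (h1.trans (by linarith)) ih
  obtain ⟨n0, hn0⟩ : ∃ n0 : ℕ, m0 - φ 0 < n0 * (s / 2 * q) := by
    obtain ⟨n0, h⟩ := exists_nat_gt ((m0 - φ 0) / (s / 2 * q))
    exact ⟨n0, by rwa [div_lt_iff₀ (by positivity)] at h⟩
  have hsmall : ∀ x ∈ N, ‖ψ^[n0 + 1] x‖ < ρ / 2 := by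
    intro x hx
    have hy := hiterN (n0 + 1) hx
    have h1 : φ (ψ^[n0 + 1] x) < μ := by
      rcases hiter x hx (n0 + 1) with h | h
      · exact h
      · exfalso
        have h2 := hmin _ (hrR (hNr hy))
        have h3 := hx.2
        have h4 : 0 < s / 2 * q := by positivity
        push_cast at h
        linarith
    by_contra hcon
    exact absurd (hμ' _ (hNr hy) (not_lt.mp hcon)) (not_le.mpr h1)
  have hS : IsClosed (sphere (0 : V) ρ) := isClosed_sphere
  have hS0 : ∀ x ∈ sphere (0 : V) ρ, x ≠ 0 := by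
    rintro x hx rfl
    rw [mem_sphere_zero_iff_norm, norm_zero] at hx
    linarith
  -- f is homotopic to id - ψ
  have hA : NzHom (sphere (0 : V) ρ) f (fun x => x - ψ^[0 + 1] x) := by
    refine ⟨fun p => (1 - p.1 + p.1 * s) • f p.2, ?_, ?_, ?_, ?_⟩
    · have h1 : ContinuousOn (fun p : ℝ × V => f p.2) (Icc 0 1 ×ˢ sphere 0 ρ) :=
        (hfc.mono (hSN.trans (hNr.trans hrR))).comp continuousOn_snd (fun p hp => hp.2)
      have h2 : Continuous (fun p : ℝ × V => 1 - p.1 + p.1 * s) := by fun_prop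
      exact h2.continuousOn.smul h1
    · intro x _; simp
    · intro x _
      simp only [sub_self, zero_add, one_mul]
      change s • f x = x - (x - s • f x)
      abel
    · intro t ht x hx
      have h2 : f x ≠ 0 := fun h => hS0 x hx (hiso x (hrR (hNr (hSN hx))) h)
      have h3 : 0 < 1 - t + t * s := by
        rcases ht.2.lt_or_eq with h | h
        · have := mul_nonneg ht.1 hs0.le
          linarith
        · rw [h]; linarith
      exact smul_ne_zero h3.ne' h2
  have hB : ∀ j : ℕ, NzHom (sphere (0 : V) ρ) (fun x => x - ψ^[j + 1] x)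
      (fun x => x - ψ^[j + 1 + 1] x) := by
    intro j
    refine ⟨fun p => p.2 - (ψ^[j + 1] p.2 - (p.1 * s) • f (ψ^[j + 1] p.2)), ?_, ?_, ?_, ?_⟩
    · have h0 : ContinuousOn (fun p : ℝ × V => ψ^[j + 1] p.2) (Icc 0 1 ×ˢ sphere 0 ρ) :=
        ((hitc (j + 1)).mono hSN).comp continuousOn_snd (fun p hp => hp.2)
      have h1 : ContinuousOn (fun p : ℝ × V => f (ψ^[j + 1] p.2)) (Icc 0 1 ×ˢ sphere 0 ρ) :=
        (hfc.mono (hNr.trans hrR)).comp h0 (fun p hp => hiterN (j + 1) (hSN hp.2))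
      exact (continuousOn_snd).sub (h0.sub (((continuousOn_fst).mul continuousOn_const).smul h1))
    · intro x _; simp
    · intro x _
      simp only [one_mul]
      rw [Function.iterate_succ_apply' ψ (j + 1) x]
    · intro t ht x hx h
      have h1 := (hstep _ (hiterN (j + 1) (hSN hx)) (t * s) (mul_nonneg ht.1 hs0.le)
        (by nlinarith [ht.2])).1
      have h2 := hdec x (hSN hx) (hS0 x hx) j
      have h3 : x = ψ^[j + 1] x - (t * s) • f (ψ^[j + 1] x) := sub_eq_zero.mp h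
      rw [← h3] at h1
      have h4 : 0 ≤ t * s / 2 * ‖f (ψ^[j + 1] x)‖ ^ 2 := by
        have := mul_nonneg ht.1 hs0.le
        positivity
      linarith
  have hC : ∀ j : ℕ, NzHom (sphere (0 : V) ρ) f (fun x => x - ψ^[j + 1] x) := by
    intro j
    induction j with
    | zero => exact hA
    | succ j ih => exact ih.trans hS (hB j)
  have hD : NzHom (sphere (0 : V) ρ) (fun x => x - ψ^[n0 + 1] x) (fun x => x) := by
    refine ⟨fun p => p.2 - (1 - p.1) • ψ^[n0 + 1] p.2, ?_, ?_, ?_, ?_⟩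
    · have h0 : ContinuousOn (fun p : ℝ × V => ψ^[n0 + 1] p.2) (Icc 0 1 ×ˢ sphere 0 ρ) :=
        ((hitc (n0 + 1)).mono hSN).comp continuousOn_snd (fun p hp => hp.2)
      exact (continuousOn_snd).sub (((continuousOn_const).sub continuousOn_fst).smul h0)
    · intro x _; simp
    · intro x _; simp
    · intro t ht x hx h
      have h1 := hsmall x (hSN hx)
      have h2 : x = (1 - t) • ψ^[n0 + 1] x := sub_eq_zero.mp h
      have h3 : ‖x‖ = ρ := mem_sphere_zero_iff_norm.mp hx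
      have h4 : ‖x‖ = (1 - t) * ‖ψ^[n0 + 1] x‖ := by
        conv_lhs => rw [h2]
        rw [norm_smul, Real.norm_eq_abs, abs_of_nonneg (by linarith [ht.2])]
      have h5 : (1 - t) * ‖ψ^[n0 + 1] x‖ ≤ 1 * ‖ψ^[n0 + 1] x‖ :=
        mul_le_mul_of_nonneg_right (by linarith [ht.1]) (norm_nonneg _)
      linarith
  obtain ⟨H, h1, h2, h3, h4⟩ := (hC n0).trans hS hD
  exact ⟨ρ, hρ0, by linarith, H, h1, h2, h3, h4⟩

end Pool.Agent.Helper24.CB
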